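import Mathlib
set_option autoImplicit false

namespace Helper78.LapRatio

open Classical in
/-- Laplacian ratio of a graph on `Fin n`: permanent of the Laplacian matrix over the product of the degrees. -/
noncomputable def lapRatio {n : ℕ} (T : SimpleGraph (Fin n)) : ℝ :=
  (T.lapMatrix ℝ).permanent / ∏ v, (T.degree v : ℝ)

/-- matching number at most `k`: every set of pairwise disjoint edges has at most `k` elements. -/
def MatchingNumberLE {V : Type*} (T : SimpleGraph V) (k : ℕ) : Prop :=
  ∀ M : Finset (Sym2 V), (∀ e ∈ M, e ∈ T.edgeSet) →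
    (∀ e ∈ M, ∀ f ∈ M, e ≠ f → ∀ v, v ∈ e → v ∉ f) → M.card ≤ k

end Helper78.LapRatio
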