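import Mathlib
import Pool.Agent.Helper78.LapRatioDefs
set_option autoImplicit false
set_option linter.unusedSectionVars false
open scoped BigOperators
open Classical
namespace Helper78.LapRatio

/-- permutations moving every vertex to itself or to a neighbour -/
noncomputable def inv {n : ℕ} (T : SimpleGraph (Fin n)) : Finset (Equiv.Perm (Fin n)) :=
  Finset.univ.filter (fun σ => ∀ v, σ v = v ∨ T.Adj v (σ v))

/-- weight -/
noncomputable def wt {n : ℕ} (T : SimpleGraph (Fin n)) (σ : Equiv.Perm (Fin n)) : ℝ :=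
  ∏ v, if σ v = v then (1 : ℝ) else 1 / (T.degree v : ℝ)

/-- tree given by a parent function -/
def parGraph (n : ℕ) (p : ℕ → ℕ) : SimpleGraph (Fin n) :=
  SimpleGraph.fromRel (fun a b => (a : ℕ) ≠ 0 ∧ (b : ℕ) = p a)

/-- the hub tree: hub 0 adjacent to hubs 1,...,k-1; vertex i ≥ k is a leaf attached to hub i % k -/
def hubTree (k n : ℕ) : SimpleGraph (Fin n) :=
  parGraph n (fun i => if i < k then 0 else i % k)

/-- hubs 0 and 2, connector 1, leaves alternately at 0 (odd) and 2 (even) -/
def twoTree (n : ℕ) : SimpleGraph (Fin n) :=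
  parGraph n (fun i => if i = 1 then 0 else if i = 2 then 1 else if i % 2 = 1 then 0 else 2)

section job35104


theorem nb_unique {V : Type*} (T : SimpleGraph V) (hT : T.IsTree) (r v u1 u2 : V)
    (h1 : T.Adj u1 v) (h2 : T.Adj u2 v) (d1 : T.dist r v = T.dist r u1 + 1)
    (d2 : T.dist r v = T.dist r u2 + 1) : u1 = u2 := by
  obtain ⟨p1, hp1⟩ := hT.connected.exists_walk_length_eq_dist r u1
  obtain ⟨p2, hp2⟩ := hT.connected.exists_walk_length_eq_dist r u2
  have q1 : (p1.concat h1).IsPath := SimpleGraph.Walk.isPath_of_length_eq_dist _ (by simp [hp1, d1])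
  have q2 : (p2.concat h2).IsPath := SimpleGraph.Walk.isPath_of_length_eq_dist _ (by simp [hp2, d2])
  have h := (hT.existsUnique_path r v).unique q1 q2
  have h' := congrArg SimpleGraph.Walk.penultimate h
  simpa using h'

/-- TARGET -/
theorem acyc_invol {V : Type*} [Fintype V] (T : SimpleGraph V) (hT : T.IsTree) (σ : Equiv.Perm V)
    (h : ∀ v, σ v = v ∨ T.Adj v (σ v)) : ∀ v, σ (σ v) = v := by
  by_contra hcon
  push Not at hcon
  obtain ⟨r, hr⟩ := hcon
  obtain ⟨v, hv, hmax⟩ := Finset.exists_max_image (Finset.univ.filter (fun v => σ (σ v) ≠ v))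
    (fun v => T.dist r v) ⟨r, by simp [hr]⟩
  have hvS : σ (σ v) ≠ v := by simpa using hv
  have hne1 : σ v ≠ v := fun hh => hvS (by rw [hh, hh])
  have hne2 : v ≠ σ.symm v := by
    intro hh
    apply hne1
    conv_lhs => rw [hh]
    simp
  have a1 : T.Adj v (σ v) := (h v).resolve_left hne1
  have a2 : T.Adj (σ.symm v) v := by
    have := h (σ.symm v)
    rw [Equiv.apply_symm_apply] at this
    exact this.resolve_left hne2
  have m1 : T.dist r (σ v) ≤ T.dist r v := by
    apply hmax
    simp only [Finset.mem_filter, Finset.mem_univ, true_and]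
    intro hh
    exact hvS (σ.injective hh)
  have m2 : T.dist r (σ.symm v) ≤ T.dist r v := by
    apply hmax
    simp only [Finset.mem_filter, Finset.mem_univ, true_and, Equiv.apply_symm_apply]
    intro hh
    apply hvS
    rw [hh]
    simp
  have e1 := hT.dist_ne_of_adj r a1
  have e2 := hT.dist_ne_of_adj r a2
  have f1 := a1.diff_dist_adj (u := r)
  have f2 := a2.diff_dist_adj (u := r)
  have g1 : T.dist r v = T.dist r (σ v) + 1 := by omega
  have g2 : T.dist r v = T.dist r (σ.symm v) + 1 := by omega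
  have := nb_unique T hT r v (σ v) (σ.symm v) a1.symm a2 g1 g2
  apply hvS
  rw [this]
  simp

end job35104

section job35105




theorem lapRatio_eq {n : ℕ} (T : SimpleGraph (Fin n)) (hT : T.IsTree) (hn : 2 ≤ n) :
    lapRatio T = ∑ σ ∈ inv T, wt T σ := by
  have hnt : Nontrivial (Fin n) := Fin.nontrivial_iff_two_le.mpr hn
  have hdeg : ∀ v, (0 : ℝ) < (T.degree v : ℝ) := by
    intro v
    exact_mod_cast hT.1.preconnected.degree_pos_of_nontrivial v
  have hL : ∀ a b, T.lapMatrix ℝ a b = if a = b then (T.degree b : ℝ) else if T.Adj a b then -1 else 0 := by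
    intro a b
    unfold SimpleGraph.lapMatrix SimpleGraph.degMatrix
    rw [Matrix.sub_apply, Matrix.diagonal_apply, SimpleGraph.adjMatrix_apply]
    by_cases hab : a = b
    · subst hab
      simp
    · rw [if_neg hab, if_neg hab]
      by_cases h : T.Adj a b
      · simp [h]
      · simp [h]
  unfold lapRatio Matrix.permanent
  rw [Finset.sum_div]
  unfold inv
  rw [Finset.sum_filter]
  refine Finset.sum_congr rfl fun σ _ => ?_
  by_cases hσ : ∀ v, σ v = v ∨ T.Adj v (σ v)
  · rw [if_pos hσ, ← Finset.prod_div_distrib]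
    have hinv := acyc_invol T hT σ hσ
    have h1 : ∏ v, (if σ v = v then (1:ℝ) else -1) = 1 := by
      refine Finset.prod_involution (fun v _ => σ v) ?_ ?_ ?_ ?_
      · intro v _
        by_cases h : σ v = v
        · rw [h, if_pos h]; norm_num
        · have h' : ¬ σ (σ v) = σ v := by
            rw [hinv v]; exact fun e => h e.symm
          rw [if_neg h, if_neg h']; norm_num
      · intro v _ hne h
        exact hne (if_pos h)
      · intro v _; exact Finset.mem_univ _
      · intro v _; exact hinv v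
    have h2 : ∀ v, T.lapMatrix ℝ (σ v) v / (T.degree v : ℝ) =
        (if σ v = v then (1:ℝ) else -1) * (if σ v = v then (1:ℝ) else 1 / (T.degree v : ℝ)) := by
      intro v
      rw [hL]
      by_cases h : σ v = v
      · rw [if_pos h, if_pos h, if_pos h, div_self (hdeg v).ne']; norm_num
      · have h3 : T.Adj (σ v) v := by
          rcases hσ v with h4 | h4
          · exact absurd h4 h
          · exact h4.symm
        rw [if_neg h, if_neg h, if_neg h, if_pos h3]
        ring
    rw [Finset.prod_congr rfl fun v _ => h2 v, Finset.prod_mul_distrib, h1, one_mul]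
    rfl
  · rw [if_neg hσ]
    push Not at hσ
    obtain ⟨v, hv1, hv2⟩ := hσ
    have h0 : T.lapMatrix ℝ (σ v) v = 0 := by
      rw [hL, if_neg hv1, if_neg (fun h => hv2 h.symm)]
    have h1 : ∏ i, T.lapMatrix ℝ (σ i) i = 0 :=
      Finset.prod_eq_zero (f := fun i => T.lapMatrix ℝ (σ i) i) (Finset.mem_univ v) h0
    rw [h1, zero_div]

end job35105

section job35107




theorem upper_cover {n : ℕ} (T : SimpleGraph (Fin n)) (hT : T.IsTree) (hn : 2 ≤ n)
    (C : Finset (Fin n)) (hC : ∀ v w, T.Adj v w → v ∈ C ∨ w ∈ C) :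
    ∑ σ ∈ inv T, wt T σ ≤ 2 ^ C.card := by
  have hd1 : ∀ v, (1:ℝ) / (T.degree v : ℝ) ≤ 1 := by
    intro v
    rcases Nat.eq_zero_or_pos (T.degree v) with h | h
    · rw [h]; norm_num
    · rw [div_le_one (by exact_mod_cast h)]; exact_mod_cast h
  have hd0 : ∀ v, (0:ℝ) ≤ (1:ℝ) / (T.degree v : ℝ) := fun v => by positivity
  set g : Fin n → Fin n → ℝ := fun v w => if v ∈ C then (if w = v then (1:ℝ) else 1 / (T.degree v : ℝ)) else 1 with hg
  have hg0 : ∀ v w, 0 ≤ g v w := by
    intro v w
    simp only [hg]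
    split_ifs
    · exact zero_le_one
    · exact hd0 v
    · exact zero_le_one
  set A : Fin n → Finset (Fin n) := fun v => if v ∈ C then insert v (T.neighborFinset v) else {v} with hA
  set Φ : Equiv.Perm (Fin n) → (Fin n → Fin n) := fun σ v => if v ∈ C then σ v else v with hΦ
  have h1 : ∀ σ ∈ inv T, wt T σ ≤ ∏ v, g v (Φ σ v) := by
    intro σ hσ
    unfold wt
    apply Finset.prod_le_prod
    · intro v _
      split_ifs
      · exact zero_le_one
      · exact hd0 v
    · intro v _
      simp only [hg, hΦ]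
      by_cases hv : v ∈ C
      · simp [hv]
      · simp only [hv, if_false]
        split_ifs
        · exact le_refl _
        · exact hd1 v
  have hinj : Set.InjOn Φ (inv T : Set (Equiv.Perm (Fin n))) := by
    intro σ hσ τ hτ h
    have hσ' : ∀ v, σ v = v ∨ T.Adj v (σ v) := by
      have := hσ; simpa [inv] using this
    have hτ' : ∀ v, τ v = v ∨ T.Adj v (τ v) := by
      have := hτ; simpa [inv] using this
    have iσ := acyc_invol T hT σ hσ'
    have iτ := acyc_invol T hT τ hτ'
    have hCv : ∀ v ∈ C, σ v = τ v := by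
      intro v hv
      have := congrFun h v
      simpa [hΦ, hv] using this
    ext v
    by_cases hv : v ∈ C
    · rw [hCv v hv]
    · by_cases h1 : σ v = v
      · by_cases h2 : τ v = v
        · rw [h1, h2]
        · have hadj : T.Adj v (τ v) := (hτ' v).resolve_left h2
          have hc : τ v ∈ C := (hC _ _ hadj).resolve_left hv
          have h3 : σ (τ v) = v := by rw [hCv _ hc, iτ]
          have h4 : σ v = τ v := by
            have := iσ (τ v)
            rw [h3] at this
            exact this
          rw [h4]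
      · have hadj : T.Adj v (σ v) := (hσ' v).resolve_left h1
        have hc : σ v ∈ C := (hC _ _ hadj).resolve_left hv
        have h3 : τ (σ v) = v := by rw [← hCv _ hc, iσ]
        have h4 : τ v = σ v := by
          have := iτ (σ v)
          rw [h3] at this
          exact this
        rw [h4]
  have himg : (inv T).image Φ ⊆ Fintype.piFinset A := by
    intro f hf
    rw [Finset.mem_image] at hf
    obtain ⟨σ, hσ, rfl⟩ := hf
    have hσ' : ∀ v, σ v = v ∨ T.Adj v (σ v) := by
      have := hσ; simpa [inv] using this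
    rw [Fintype.mem_piFinset]
    intro v
    simp only [hA, hΦ]
    by_cases hv : v ∈ C
    · simp only [hv, if_true, Finset.mem_insert, SimpleGraph.mem_neighborFinset]
      exact hσ' v
    · simp [hv]
  calc ∑ σ ∈ inv T, wt T σ ≤ ∑ σ ∈ inv T, ∏ v, g v (Φ σ v) := Finset.sum_le_sum h1
    _ = ∑ f ∈ (inv T).image Φ, ∏ v, g v (f v) := by
        rw [Finset.sum_image]
        intro x hx y hy hxy
        exact hinj hx hy hxy
    _ ≤ ∑ f ∈ Fintype.piFinset A, ∏ v, g v (f v) :=
        Finset.sum_le_sum_of_subset_of_nonneg himg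
          (fun f _ _ => Finset.prod_nonneg (fun v _ => hg0 v (f v)))
    _ = ∏ v, ∑ w ∈ A v, g v w := (Finset.prod_univ_sum A g).symm
    _ ≤ ∏ v, (if v ∈ C then (2:ℝ) else 1) := by
        apply Finset.prod_le_prod
        · intro v _
          exact Finset.sum_nonneg (fun w _ => hg0 v w)
        · intro v _
          by_cases hv : v ∈ C
          · simp only [hA, hg, hv, if_true]
            have hnot : v ∉ T.neighborFinset v := by simp
            rw [Finset.sum_insert hnot]
            have h2 : ∑ w ∈ T.neighborFinset v, (if w = v then (1:ℝ) else 1 / (T.degree v : ℝ))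
                = ∑ w ∈ T.neighborFinset v, 1 / (T.degree v : ℝ) := by
              apply Finset.sum_congr rfl
              intro w hw
              have : w ≠ v := by
                rintro rfl
                exact hnot hw
              simp [this]
            rw [h2, Finset.sum_const, SimpleGraph.card_neighborFinset_eq_degree]
            simp only [if_true, nsmul_eq_mul]
            rcases Nat.eq_zero_or_pos (T.degree v) with h | h
            · rw [h]; norm_num
            · have : (T.degree v : ℝ) ≠ 0 := by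
                have : 0 < (T.degree v : ℝ) := by exact_mod_cast h
                exact this.ne'
              rw [mul_one_div_cancel this]; norm_num
          · simp [hA, hg, hv]
    _ = 2 ^ C.card := by
        rw [Finset.prod_ite]
        simp

end job35107

section job35108


theorem konig_leaf {V : Type*} [Fintype V] (T : SimpleGraph V) (hT : T.IsAcyclic) {a b : V}
    (hab : T.Adj a b) : ∃ l u, T.Adj l u ∧ ∀ w, T.Adj l w → w = u := by
  haveI : Nonempty V := ⟨a⟩
  obtain ⟨u, v, p, hp, hmax⟩ := SimpleGraph.Walk.exists_isPath_forall_isPath_length_le_length T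
  have h1 : 1 ≤ p.length := by
    have := hmax _ _ (SimpleGraph.Path.singleton hab : T.Walk a b) (SimpleGraph.Path.singleton hab).2
    simpa using this
  have hnil : ¬ p.Nil := by
    intro h
    have := SimpleGraph.Walk.nil_iff_length_eq.1 h
    omega
  refine ⟨v, p.penultimate, (p.adj_penultimate hnil).symm, ?_⟩
  intro w hw
  by_cases hs : w ∈ p.support
  · exact hT.eq_penultimate_of_adj_end hp hw hs
  · exfalso
    have := hmax _ _ (p.concat hw) (hp.concat hs hw)
    rw [SimpleGraph.Walk.length_concat] at this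
    omega

theorem konig_aux {V : Type*} [Fintype V] (n : ℕ) : ∀ (T : SimpleGraph V), T.IsAcyclic →
    T.edgeSet.ncard ≤ n → ∀ (k : ℕ), MatchingNumberLE T k →
    ∃ C : Finset V, C.card ≤ k ∧ ∀ v w, T.Adj v w → v ∈ C ∨ w ∈ C := by
  induction n with
  | zero =>
    intro T hT hn k hk
    refine ⟨∅, by simp, ?_⟩
    intro v w hvw
    exfalso
    have h0 : T.edgeSet.ncard = 0 := by omega
    rw [Set.ncard_eq_zero (Set.toFinite _)] at h0
    have : s(v, w) ∈ T.edgeSet := hvw
    rw [h0] at this
    exact this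
  | succ n ih =>
    intro T hT hn k hk
    by_cases hE : ∃ a b, T.Adj a b
    · obtain ⟨a, b, hab⟩ := hE
      obtain ⟨l, u, hlu, hl⟩ := konig_leaf T hT hab
      let T' : SimpleGraph V :=
        { Adj := fun a b => T.Adj a b ∧ a ≠ u ∧ b ≠ u
          symm := ⟨fun a b h => ⟨h.1.symm, h.2.2, h.2.1⟩⟩
          loopless := ⟨fun a h => T.loopless.irrefl a h.1⟩ }
      have hle : T' ≤ T := fun a b h => h.1
      have hss : T'.edgeSet ⊂ T.edgeSet := by
        refine ⟨SimpleGraph.edgeSet_mono hle, ?_⟩
        intro h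
        have h1 : s(l, u) ∈ T.edgeSet := hlu
        have h2 : T'.Adj l u := h h1
        exact h2.2.2 rfl
      have hcard : T'.edgeSet.ncard ≤ n := by
        have := Set.ncard_lt_ncard hss (Set.toFinite _)
        omega
      have hu' : ∀ e ∈ T'.edgeSet, u ∉ e := by
        intro e
        induction e using Sym2.ind with
        | _ x y =>
          intro he hu
          have he' : T'.Adj x y := he
          rcases Sym2.mem_iff.1 hu with h | h
          · exact he'.2.1 h.symm
          · exact he'.2.2 h.symm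
      have hl' : ∀ e ∈ T'.edgeSet, l ∉ e := by
        intro e
        induction e using Sym2.ind with
        | _ x y =>
          intro he hu
          have he' : T'.Adj x y := he
          rcases Sym2.mem_iff.1 hu with h | h
          · subst h
            exact he'.2.2 (hl _ he'.1)
          · subst h
            exact he'.2.1 (hl _ he'.1.symm)
      have hk1 : ∀ M : Finset (Sym2 V), (∀ e ∈ M, e ∈ T'.edgeSet) →
          (∀ e ∈ M, ∀ f ∈ M, e ≠ f → ∀ v, v ∈ e → v ∉ f) → M.card + 1 ≤ k := by
        intro M hM hd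
        have hnot : s(l, u) ∉ M := by
          intro h
          exact hu' _ (hM _ h) (by simp)
        rw [← Finset.card_insert_of_notMem hnot]
        apply hk
        · intro e he
          rcases Finset.mem_insert.1 he with rfl | he
          · exact hlu
          · exact SimpleGraph.edgeSet_mono hle (hM e he)
        · intro e he f hf hef v hv hv'
          rcases Finset.mem_insert.1 he with he1 | he1
          · rcases Finset.mem_insert.1 hf with hf1 | hf1
            · exact hef (he1.trans hf1.symm)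
            · rw [he1] at hv
              rcases Sym2.mem_iff.1 hv with h | h
              · rw [h] at hv'
                exact hl' _ (hM _ hf1) hv'
              · rw [h] at hv'
                exact hu' _ (hM _ hf1) hv'
          · rcases Finset.mem_insert.1 hf with hf1 | hf1
            · rw [hf1] at hv'
              rcases Sym2.mem_iff.1 hv' with h | h
              · rw [h] at hv
                exact hl' _ (hM _ he1) hv
              · rw [h] at hv
                exact hu' _ (hM _ he1) hv
            · exact hd e he1 f hf1 hef v hv hv'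
      have hk0 : 1 ≤ k := by
        have := hk1 ∅ (by simp) (by simp)
        simpa using this
      have hkM : MatchingNumberLE T' (k - 1) := by
        intro M hM hd
        have := hk1 M hM hd
        omega
      obtain ⟨C, hC, hcov⟩ := ih T' (hT.anti hle) hcard (k - 1) hkM
      refine ⟨insert u C, ?_, ?_⟩
      · have := Finset.card_insert_le u C
        omega
      · intro v w hvw
        by_cases hv : v = u
        · left; simp [hv]
        · by_cases hw : w = u
          · right; simp [hw]
          · rcases hcov v w ⟨hvw, hv, hw⟩ with h | h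
            · left; exact Finset.mem_insert_of_mem h
            · right; exact Finset.mem_insert_of_mem h
    · refine ⟨∅, by simp, ?_⟩
      intro v w hvw
      exact absurd ⟨v, w, hvw⟩ hE

theorem konig {V : Type*} [Fintype V] (T : SimpleGraph V) (hT : T.IsAcyclic) (k : ℕ)
    (hk : MatchingNumberLE T k) :
    ∃ C : Finset V, C.card ≤ k ∧ ∀ v w, T.Adj v w → v ∈ C ∨ w ∈ C :=
  konig_aux _ T hT le_rfl k hk

end job35108

section job35109


theorem matching_of_cover {V : Type*} (T : SimpleGraph V) (C : Finset V)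
    (hC : ∀ v w, T.Adj v w → v ∈ C ∨ w ∈ C) : MatchingNumberLE T C.card := by
  intro M hM hdis
  have hex : ∀ e : Sym2 V, e ∈ M → ∃ v, v ∈ C ∧ v ∈ e := by
    intro e
    induction e using Sym2.ind with
    | _ x y =>
      intro he
      have hadj : T.Adj x y := hM _ he
      rcases hC x y hadj with h | h
      · exact ⟨x, h, Sym2.mem_mk_left x y⟩
      · exact ⟨y, h, Sym2.mem_mk_right x y⟩
  rcases M.eq_empty_or_nonempty with h0 | ⟨e0, he0⟩
  · rw [h0]; simp
  haveI : Nonempty V := ⟨(hex e0 he0).choose⟩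
  choose! f hf1 hf2 using hex
  refine Finset.card_le_card_of_injOn f (fun e he => hf1 e he) ?_
  intro e he e' he' h
  by_contra hne
  exact hdis e he e' he' hne (f e) (hf2 e he) (h ▸ hf2 e' he')

end job35109

section job35110


theorem parGraph_isTree (n : ℕ) (hn : 1 ≤ n) (p : ℕ → ℕ) (hp : ∀ i, 1 ≤ i → p i < i) :
    (parGraph n p).IsTree := by
  have hlt : ∀ i : Fin n, (i : ℕ) ≠ 0 → p i < n := fun i hi => (hp i (by omega)).trans i.2
  have hadj : ∀ (i : Fin n) (hi : (i : ℕ) ≠ 0), (parGraph n p).Adj i ⟨p i, hlt i hi⟩ := by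
    intro i hi
    unfold parGraph
    rw [SimpleGraph.fromRel_adj]
    refine ⟨?_, Or.inl ⟨hi, rfl⟩⟩
    intro h
    have h1 := congrArg Fin.val h
    have h2 := hp i (by omega)
    simp only at h1
    omega
  let z : Fin n := ⟨0, by omega⟩
  have hreach : ∀ (m : ℕ) (hm : m < n), (parGraph n p).Reachable z ⟨m, hm⟩ := by
    intro m
    induction m using Nat.strong_induction_on with
    | _ m ih =>
      intro hm
      by_cases h0 : m = 0
      · subst h0
        exact SimpleGraph.Reachable.refl _
      · have h1 : p m < m := hp m (by omega)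
        have h2 := ih (p m) h1 (h1.trans hm)
        have h3 := hadj ⟨m, hm⟩ h0
        exact h2.trans h3.symm.reachable
  have hconn : (parGraph n p).Connected := by
    rw [SimpleGraph.connected_iff_exists_forall_reachable]
    exact ⟨z, fun w => hreach w.1 w.2⟩
  rw [SimpleGraph.isTree_iff_connected_and_card]
  refine ⟨hconn, ?_⟩
  have hge := hconn.card_vert_le_card_edgeSet_add_one
  let f : Fin n → Sym2 (Fin n) := fun i =>
    if h : (i : ℕ) ≠ 0 then s(i, ⟨p i, hlt i h⟩) else s(i, i)
  have hsub : (parGraph n p).edgeSet ⊆ f '' ({z}ᶜ : Set (Fin n)) := by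
    intro e he
    induction e using Sym2.ind with
    | _ a b =>
      rw [SimpleGraph.mem_edgeSet] at he
      unfold parGraph at he
      rw [SimpleGraph.fromRel_adj] at he
      obtain ⟨hne, ⟨h1, h2⟩ | ⟨h1, h2⟩⟩ := he
      · refine ⟨a, ?_, ?_⟩
        · intro h
          apply h1
          have : a = z := h
          rw [this]
        · have e : (⟨p a, hlt a h1⟩ : Fin n) = b := Fin.ext h2.symm
          simp only [f, dif_pos h1, e]
      · refine ⟨b, ?_, ?_⟩
        · intro h
          apply h1
          have : b = z := h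
          rw [this]
        · have e : (⟨p b, hlt b h1⟩ : Fin n) = a := Fin.ext h2.symm
          simp only [f, dif_pos h1, e]
          exact Sym2.eq_swap
  have hle : Nat.card (parGraph n p).edgeSet ≤ n - 1 := by
    rw [Nat.card_coe_set_eq]
    calc (parGraph n p).edgeSet.ncard ≤ (f '' ({z}ᶜ : Set (Fin n))).ncard :=
          Set.ncard_le_ncard hsub (Set.toFinite _)
      _ ≤ ({z}ᶜ : Set (Fin n)).ncard := Set.ncard_image_le (Set.toFinite _)
      _ = n - 1 := by
          rw [Set.ncard_compl, Set.ncard_singleton, Nat.card_eq_fintype_card, Fintype.card_fin]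
  have hc : Nat.card (Fin n) = n := by rw [Nat.card_eq_fintype_card, Fintype.card_fin]
  rw [hc] at hge ⊢
  omega

end job35110

section job35111


noncomputable def hz_f {n k : ℕ} (h g : Fin k → Fin n) (x : Fin n) : Fin n :=
  if hx : ∃ i, h i = x then g hx.choose else if hx' : ∃ i, g i = x then h hx'.choose else x

theorem hz_f_hub {n k : ℕ} (h g : Fin k → Fin n) (hinj : Function.Injective h) (i : Fin k) :
    hz_f h g (h i) = g i := by
  have hx : ∃ j, h j = h i := ⟨i, rfl⟩
  unfold hz_f
  rw [dif_pos hx, hinj hx.choose_spec]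

theorem hz_f_leaf {n k : ℕ} (h g : Fin k → Fin n) (x : Fin n) (i : Fin k) (hi : g i = x)
    (hx : ¬ ∃ i, h i = x) (hu : ∀ j, g j = x → j = i) : hz_f h g x = h i := by
  have hx' : ∃ i, g i = x := ⟨i, hi⟩
  unfold hz_f
  rw [dif_neg hx, dif_pos hx', hu _ hx'.choose_spec]

theorem hz_f_other {n k : ℕ} (h g : Fin k → Fin n) (x : Fin n)
    (hx : ¬ ∃ i, h i = x) (hx' : ¬ ∃ i, g i = x) : hz_f h g x = x := by
  unfold hz_f
  rw [dif_neg hx, dif_neg hx']

theorem lower_hubs {n k : ℕ} (T : SimpleGraph (Fin n)) (hT : T.IsTree) (hn : 2 ≤ n)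
    (h : Fin k → Fin n) (hinj : Function.Injective h) (L : Fin k → Finset (Fin n))
    (hL : ∀ i, ∀ x ∈ L i, T.Adj (h i) x ∧ T.degree x = 1)
    (hdisj : ∀ i j, i ≠ j → Disjoint (L i) (L j)) (hh : ∀ i j, h i ∉ L j) :
    ∏ i, (1 + ((L i).card : ℝ) / (T.degree (h i) : ℝ)) ≤ ∑ σ ∈ inv T, wt T σ := by
  have hwt0 : ∀ σ : Equiv.Perm (Fin n), 0 ≤ wt T σ := fun σ => Finset.prod_nonneg fun v _ => by
    split_ifs <;> positivity
  set P := Fintype.piFinset (fun i => insert (h i) (L i)) with hP
  have hmem : ∀ g ∈ P, ∀ i, g i = h i ∨ g i ∈ L i := by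
    intro g hg i
    have := (Fintype.mem_piFinset.mp hg) i
    simpa using this
  have huniq0 : ∀ g ∈ P, ∀ x, (¬ ∃ i, h i = x) → ∀ i, g i = x → x ∈ L i := by
    intro g hg x hx i hi
    rcases hmem g hg i with h1 | h1
    · exact absurd ⟨i, by rw [← h1, hi]⟩ hx
    · rwa [hi] at h1
  have huniq : ∀ g ∈ P, ∀ x, (¬ ∃ i, h i = x) → ∀ i j, g i = x → g j = x → j = i := by
    intro g hg x hx i j hi hj
    by_contra hne
    exact (Finset.disjoint_left.mp (hdisj j i hne)) (huniq0 g hg x hx j hj) (huniq0 g hg x hx i hi)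
  have hinv : ∀ g ∈ P, Function.Involutive (hz_f h g) := by
    intro g hg x
    by_cases hx : ∃ i, h i = x
    · obtain ⟨i, rfl⟩ := hx
      rw [hz_f_hub h g hinj]
      rcases hmem g hg i with h1 | h1
      · rw [h1, hz_f_hub h g hinj, h1]
      · have hx : ¬ ∃ j, h j = g i := by
          rintro ⟨j, hj⟩
          exact hh j i (hj ▸ h1)
        exact hz_f_leaf h g (g i) i rfl hx (fun j hj => huniq g hg _ hx i j rfl hj)
    · by_cases hx' : ∃ i, g i = x
      · obtain ⟨i, hi⟩ := hx'
        rw [hz_f_leaf h g x i hi hx (fun j hj => huniq g hg _ hx i j hi hj), hz_f_hub h g hinj, hi]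
      · rw [hz_f_other h g x hx hx', hz_f_other h g x hx hx']
  set σ : (Fin k → Fin n) → Equiv.Perm (Fin n) :=
    fun g => if hg : Function.Involutive (hz_f h g) then hg.toPerm else 1 with hσdef
  have hσ : ∀ g ∈ P, ∀ x, σ g x = hz_f h g x := by
    intro g hg x
    simp only [hσdef]
    rw [dif_pos (hinv g hg)]
    rfl
  have hσinj : Set.InjOn σ P := by
    intro g hg g' hg' hgg
    funext i
    have e1 := hσ g hg (h i)
    have e2 := hσ g' hg' (h i)
    rw [hz_f_hub h g hinj] at e1
    rw [hz_f_hub h g' hinj] at e2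
    rw [← e1, ← e2, hgg]
  have hσinv : P.image σ ⊆ inv T := by
    intro τ hτ
    obtain ⟨g, hg, rfl⟩ := Finset.mem_image.mp hτ
    refine Finset.mem_filter.mpr ⟨Finset.mem_univ _, ?_⟩
    intro x
    rw [hσ g hg x]
    by_cases hx : ∃ i, h i = x
    · obtain ⟨i, rfl⟩ := hx
      rw [hz_f_hub h g hinj]
      rcases hmem g hg i with h1 | h1
      · left; exact h1
      · right; exact (hL i _ h1).1
    · by_cases hx' : ∃ i, g i = x
      · obtain ⟨i, hi⟩ := hx'
        rw [hz_f_leaf h g x i hi hx (fun j hj => huniq g hg _ hx i j hi hj)]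
        right
        exact (hL i x (huniq0 g hg x hx i hi)).1.symm
      · left; exact hz_f_other h g x hx hx'
  have hwt : ∀ g ∈ P, wt T (σ g) = ∏ i, if g i = h i then (1:ℝ) else 1 / (T.degree (h i) : ℝ) := by
    intro g hg
    unfold wt
    have h1 : ∏ v, (if σ g v = v then (1 : ℝ) else 1 / (T.degree v : ℝ))
        = ∏ v ∈ Finset.univ.image h, (if σ g v = v then (1 : ℝ) else 1 / (T.degree v : ℝ)) := by
      symm
      apply Finset.prod_subset (Finset.subset_univ _)
      intro x _ hx
      have hx0 : ¬ ∃ i, h i = x := by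
        rintro ⟨i, hi⟩
        exact hx (Finset.mem_image.mpr ⟨i, Finset.mem_univ _, hi⟩)
      by_cases hx' : ∃ i, g i = x
      · obtain ⟨i, hi⟩ := hx'
        have := (hL i x (huniq0 g hg x hx0 i hi)).2
        rw [this]
        simp
      · rw [hσ g hg x, hz_f_other h g x hx0 hx', if_pos rfl]
    rw [h1, Finset.prod_image (fun a _ b _ hab => hinj hab)]
    refine Finset.prod_congr rfl fun i _ => ?_
    rw [hσ g hg, hz_f_hub h g hinj]
  have hsum : ∀ i, (1 + ((L i).card : ℝ) / (T.degree (h i) : ℝ))
      = ∑ x ∈ insert (h i) (L i), if x = h i then (1:ℝ) else 1 / (T.degree (h i) : ℝ) := by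
    intro i
    rw [Finset.sum_insert (hh i i), if_pos rfl]
    congr 1
    have : ∀ x ∈ L i, (if x = h i then (1:ℝ) else 1 / (T.degree (h i) : ℝ)) = 1 / (T.degree (h i) : ℝ) := by
      intro x hx
      rw [if_neg]
      rintro rfl
      exact hh i i hx
    rw [Finset.sum_congr rfl this, Finset.sum_const, nsmul_eq_mul]
    ring
  calc ∏ i, (1 + ((L i).card : ℝ) / (T.degree (h i) : ℝ))
      = ∏ i, ∑ x ∈ insert (h i) (L i), (if x = h i then (1:ℝ) else 1 / (T.degree (h i) : ℝ)) :=
        Finset.prod_congr rfl fun i _ => hsum i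
    _ = ∑ g ∈ P, ∏ i, (if g i = h i then (1:ℝ) else 1 / (T.degree (h i) : ℝ)) :=
        Finset.prod_univ_sum _ _
    _ = ∑ g ∈ P, wt T (σ g) := Finset.sum_congr rfl fun g hg => (hwt g hg).symm
    _ = ∑ τ ∈ P.image σ, wt T τ := (Finset.sum_image hσinj).symm
    _ ≤ ∑ τ ∈ inv T, wt T τ := Finset.sum_le_sum_of_subset_of_nonneg hσinv fun τ _ _ => hwt0 τ

end job35111

section job35112


theorem hub_adj_iff {k n : ℕ} (a b : Fin n) : (hubTree k n).Adj a b ↔
    a ≠ b ∧ (((a : ℕ) ≠ 0 ∧ (b : ℕ) = if (a : ℕ) < k then 0 else (a : ℕ) % k) ∨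
      ((b : ℕ) ≠ 0 ∧ (a : ℕ) = if (b : ℕ) < k then 0 else (b : ℕ) % k)) := by
  unfold hubTree parGraph
  rw [SimpleGraph.fromRel_adj]

theorem hub_leaf {k n : ℕ} (hk : 1 ≤ k) (hn : 2 * k ≤ n) (i : Fin k) (x : Fin n) (hx : k ≤ (x : ℕ))
    (hxi : (x : ℕ) % k = i) :
    (hubTree k n).Adj ⟨i, by omega⟩ x ∧ (hubTree k n).degree x = 1 := by
  have hA : (hubTree k n).Adj ⟨i, by omega⟩ x := by
    rw [hub_adj_iff]
    have hi := i.2
    refine ⟨?_, Or.inr ⟨by omega, ?_⟩⟩
    · intro h
      have := congrArg Fin.val h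
      simp only at this
      omega
    · rw [if_neg (by omega)]
      exact hxi.symm
  refine ⟨hA, ?_⟩
  rw [SimpleGraph.degree, Finset.card_eq_one]
  refine ⟨⟨i, by omega⟩, ?_⟩
  ext y
  rw [SimpleGraph.mem_neighborFinset, Finset.mem_singleton]
  constructor
  · intro h
    rw [hub_adj_iff] at h
    rcases h.2 with ⟨_, h2⟩ | ⟨h1, h2⟩
    · rw [if_neg (by omega), hxi] at h2
      exact Fin.ext h2
    · exfalso
      split_ifs at h2 with h3
      · omega
      · have := Nat.mod_lt (y : ℕ) (show 0 < k by omega)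
        omega
  · rintro rfl
    exact hA.symm

theorem hub_degree {k n : ℕ} (hk : 1 ≤ k) (hn : 2 * k ≤ n) (i : Fin k) :
    ((hubTree k n).degree ⟨i, by omega⟩ : ℕ) ≤
      (Finset.univ.filter (fun x : Fin n => k ≤ (x : ℕ) ∧ (x : ℕ) % k = i)).card + (k - 1) := by
  have hi := i.2
  set i' : Fin n := ⟨i, by omega⟩ with hi'
  have hsub : (hubTree k n).neighborFinset i' ⊆
      (Finset.univ.filter (fun x : Fin n => k ≤ (x : ℕ) ∧ (x : ℕ) % k = i)) ∪
        (Finset.univ.filter (fun x : Fin n => (x : ℕ) < k)).erase i' := by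
    intro y hy
    rw [SimpleGraph.mem_neighborFinset, hub_adj_iff] at hy
    simp only [Finset.mem_union, Finset.mem_filter, Finset.mem_univ, true_and, Finset.mem_erase]
    by_cases hyk : (y : ℕ) < k
    · right
      exact ⟨fun h => hy.1 h.symm, hyk⟩
    · left
      refine ⟨by omega, ?_⟩
      rcases hy.2 with ⟨_, h2⟩ | ⟨_, h2⟩
      · exfalso
        have h3 : (i' : ℕ) < k := hi
        rw [if_pos h3] at h2
        omega
      · rw [if_neg hyk] at h2
        exact h2.symm
  have hcard : (Finset.univ.filter (fun x : Fin n => (x : ℕ) < k)).card ≤ k := by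
    have := Finset.card_le_card_of_injOn (s := Finset.univ.filter (fun x : Fin n => (x : ℕ) < k))
      (t := Finset.range k) (fun x => (x : ℕ)) (by
        intro x hx
        simp only [Finset.coe_filter, Finset.mem_univ, true_and, Set.mem_setOf_eq] at hx
        simpa using hx) (by
        intro x _ y _ h
        exact Fin.ext h)
    simpa using this
  have hmem : i' ∈ Finset.univ.filter (fun x : Fin n => (x : ℕ) < k) := by
    simp only [Finset.mem_filter, Finset.mem_univ, true_and]
    exact hi
  have h1 := Finset.card_le_card hsub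
  have h2 := Finset.card_union_le (Finset.univ.filter (fun x : Fin n => k ≤ (x : ℕ) ∧ (x : ℕ) % k = i))
    ((Finset.univ.filter (fun x : Fin n => (x : ℕ) < k)).erase i')
  rw [Finset.card_erase_of_mem hmem] at h2
  rw [SimpleGraph.degree]
  omega

theorem hub_leaf_card {k n : ℕ} (hk : 1 ≤ k) (hn : 2 * k ≤ n) (i : Fin k) :
    n / k ≤ (Finset.univ.filter (fun x : Fin n => k ≤ (x : ℕ) ∧ (x : ℕ) % k = i)).card + 1 := by
  have hi := i.2
  have hdiv : 2 ≤ n / k := by
    rw [Nat.le_div_iff_mul_le (by omega)]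
    exact hn
  have hlt : ∀ j, j < n / k - 1 → (i : ℕ) + (j + 1) * k < n := by
    intro j hj
    have h1 : (j + 2) * k ≤ (n / k) * k := Nat.mul_le_mul_right k (by omega)
    have h2 : (n / k) * k ≤ n := Nat.div_mul_le_self n k
    have h3 : (j + 2) * k = (j + 1) * k + k := by ring
    omega
  have := Finset.card_le_card_of_injOn (s := Finset.range (n / k - 1))
    (t := Finset.univ.filter (fun x : Fin n => k ≤ (x : ℕ) ∧ (x : ℕ) % k = i))
    (fun j => if h : (i : ℕ) + (j + 1) * k < n then ⟨(i : ℕ) + (j + 1) * k, h⟩ else ⟨0, by omega⟩) (by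
      intro j hj
      simp only [Finset.coe_range, Set.mem_Iio] at hj
      have h := hlt j hj
      simp only [Finset.coe_filter, Finset.mem_univ, true_and, Set.mem_setOf_eq]
      rw [dif_pos h]
      refine ⟨?_, ?_⟩
      · show k ≤ (i : ℕ) + (j + 1) * k
        have : (j + 1) * k = j * k + k := by ring
        omega
      · show ((i : ℕ) + (j + 1) * k) % k = i
        rw [Nat.add_mul_mod_self_right]
        exact Nat.mod_eq_of_lt hi) (by
      intro a ha b hb hab
      simp only [Finset.coe_range, Set.mem_Iio] at ha hb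
      simp only [dif_pos (hlt a ha), dif_pos (hlt b hb)] at hab
      have h1 : (i : ℕ) + (a + 1) * k = (i : ℕ) + (b + 1) * k := congrArg Fin.val hab
      have h2 : (a + 1) * k = (b + 1) * k := by omega
      have h3 := Nat.eq_of_mul_eq_mul_right (show 0 < k by omega) h2
      omega)
  rw [Finset.card_range] at this
  omega

theorem hub_cover {k n : ℕ} (hk : 1 ≤ k) (hn : 2 * k ≤ n) :
    ∃ C : Finset (Fin n), C.card = k ∧ ∀ v w, (hubTree k n).Adj v w → v ∈ C ∨ w ∈ C := by
  have hkn : k ≤ n := by omega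
  have hmem : ∀ v : Fin n, (v : ℕ) < k → v ∈ Finset.univ.map (Fin.castLEEmb hkn) := by
    intro v hv
    rw [Finset.mem_map]
    exact ⟨⟨v, hv⟩, Finset.mem_univ _, by ext; simp⟩
  refine ⟨Finset.univ.map (Fin.castLEEmb hkn), by simp, ?_⟩
  intro v w h
  rw [hub_adj_iff] at h
  by_cases hv : (v : ℕ) < k
  · exact Or.inl (hmem v hv)
  · right
    apply hmem
    rcases h.2 with ⟨_, h2⟩ | ⟨_, h2⟩
    · rw [if_neg hv] at h2
      rw [h2]
      exact Nat.mod_lt _ (by omega)
    · split_ifs at h2 with h3
      · exact h3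
      · exfalso
        have := Nat.mod_lt (w : ℕ) (show 0 < k by omega)
        omega

end job35112

section job35113


theorem two_nonadj_struct {n : ℕ} (T : SimpleGraph (Fin n)) (hT : T.IsTree) (hn : 3 ≤ n) (u v : Fin n)
    (huv : u ≠ v) (hna : ¬ T.Adj u v) (hC : ∀ x y, T.Adj x y → (x = u ∨ x = v) ∨ (y = u ∨ y = v)) :
    T.degree u + T.degree v + 1 = n ∧ ∃ c, T.Adj u c ∧ T.Adj v c ∧ T.degree c = 2 ∧
      ∀ x, x ≠ u → x ≠ v → x ≠ c → (T.degree x = 1 ∧ (T.Adj u x ∨ T.Adj v x)) := by
  have hnt : Nontrivial (Fin n) := ⟨⟨u, v, huv⟩⟩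
  have hdeg : ∀ x, 0 < T.degree x := fun x => hT.1.preconnected.degree_pos_of_nontrivial x
  have hE : T.edgeFinset = T.incidenceFinset u ∪ T.incidenceFinset v := by
    ext e
    induction e using Sym2.ind with
    | _ x y =>
    simp only [SimpleGraph.mem_edgeFinset, Finset.mem_union, SimpleGraph.mem_incidenceFinset,
      SimpleGraph.mk'_mem_incidenceSet_iff, SimpleGraph.mem_edgeSet]
    constructor
    · intro h
      rcases hC x y h with (h1 | h1) | (h1 | h1)
      · exact Or.inl ⟨h, Or.inl h1.symm⟩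
      · exact Or.inr ⟨h, Or.inl h1.symm⟩
      · exact Or.inl ⟨h, Or.inr h1.symm⟩
      · exact Or.inr ⟨h, Or.inr h1.symm⟩
    · rintro (h | h)
      · exact h.1
      · exact h.1
  have hD : Disjoint (T.incidenceFinset u) (T.incidenceFinset v) := by
    rw [Finset.disjoint_left]
    intro e
    induction e using Sym2.ind with
    | _ x y =>
    simp only [SimpleGraph.mem_incidenceFinset, SimpleGraph.mk'_mem_incidenceSet_iff]
    rintro ⟨h, h1⟩ ⟨_, h2⟩
    rcases h1 with h1 | h1 <;> rcases h2 with h2 | h2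
    · exact huv (h1.trans h2.symm)
    · rw [← h1, ← h2] at h; exact hna h
    · rw [← h1, ← h2] at h; exact hna h.symm
    · exact huv (h1.trans h2.symm)
  have hcard := hT.card_edgeFinset
  rw [hE, Finset.card_union_of_disjoint hD, SimpleGraph.card_incidenceFinset_eq_degree,
    SimpleGraph.card_incidenceFinset_eq_degree, Fintype.card_fin] at hcard
  have hnb : ∀ x, x ≠ u → x ≠ v → ∀ y, T.Adj x y → y = u ∨ y = v := by
    intro x hxu hxv y hy
    rcases hC x y hy with (h1 | h1) | h1
    · exact absurd h1 hxu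
    · exact absurd h1 hxv
    · exact h1
  have hNU : T.neighborFinset u ∪ T.neighborFinset v = Finset.univ \ {u, v} := by
    ext x
    simp only [Finset.mem_union, SimpleGraph.mem_neighborFinset, Finset.mem_sdiff,
      Finset.mem_univ, true_and, Finset.mem_insert, Finset.mem_singleton, not_or]
    constructor
    · rintro (h | h)
      · exact ⟨fun hx => h.ne hx.symm, fun hx => hna (hx ▸ h)⟩
      · exact ⟨fun hx => hna (hx ▸ h.symm), fun hx => h.ne hx.symm⟩
    · rintro ⟨hxu, hxv⟩
      obtain ⟨y, hy⟩ := (T.degree_pos_iff_exists_adj x).1 (hdeg x)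
      rcases hnb x hxu hxv y hy with h1 | h1
      · left; rw [← h1]; exact hy.symm
      · right; rw [← h1]; exact hy.symm
  have hun := Finset.card_union_add_card_inter (T.neighborFinset u) (T.neighborFinset v)
  rw [hNU, Finset.card_sdiff_of_subset (Finset.subset_univ _), Finset.card_univ, Fintype.card_fin,
    Finset.card_pair huv, SimpleGraph.card_neighborFinset_eq_degree,
    SimpleGraph.card_neighborFinset_eq_degree] at hun
  have hone : (T.neighborFinset u ∩ T.neighborFinset v).card = 1 := by omega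
  obtain ⟨c, hc⟩ := Finset.card_eq_one.1 hone
  have hcm : ∀ x, (T.Adj u x ∧ T.Adj v x) ↔ x = c := by
    intro x
    have h1 : x ∈ T.neighborFinset u ∩ T.neighborFinset v ↔ x ∈ ({c} : Finset (Fin n)) := by
      rw [hc]
    simpa [Finset.mem_inter, SimpleGraph.mem_neighborFinset] using h1
  have hcuv := (hcm c).2 rfl
  have hcu : c ≠ u := hcuv.1.ne.symm
  have hcv : c ≠ v := hcuv.2.ne.symm
  refine ⟨hcard, c, hcuv.1, hcuv.2, ?_, ?_⟩
  · have h1 : T.neighborFinset c = {u, v} := by
      ext y
      simp only [SimpleGraph.mem_neighborFinset, Finset.mem_insert, Finset.mem_singleton]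
      constructor
      · intro h; exact hnb c hcu hcv y h
      · rintro (h | h)
        · rw [h]; exact hcuv.1.symm
        · rw [h]; exact hcuv.2.symm
    rw [← SimpleGraph.card_neighborFinset_eq_degree, h1, Finset.card_pair huv]
  · intro x hxu hxv hxc
    obtain ⟨y, hy⟩ := (T.degree_pos_iff_exists_adj x).1 (hdeg x)
    have hx1 : T.neighborFinset x = {y} := by
      ext y'
      simp only [SimpleGraph.mem_neighborFinset, Finset.mem_singleton]
      constructor
      · intro h
        by_contra hne
        apply hxc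
        apply (hcm x).1
        rcases hnb x hxu hxv y hy with h1 | h1 <;> rcases hnb x hxu hxv y' h with h2 | h2
        · exact absurd (h2.trans h1.symm) hne
        · rw [h1] at hy; rw [h2] at h; exact ⟨hy.symm, h.symm⟩
        · rw [h1] at hy; rw [h2] at h; exact ⟨h.symm, hy.symm⟩
        · exact absurd (h2.trans h1.symm) hne
      · intro h; rw [h]; exact hy
    refine ⟨?_, ?_⟩
    · rw [← SimpleGraph.card_neighborFinset_eq_degree, hx1, Finset.card_singleton]
    · rcases hnb x hxu hxv y hy with h1 | h1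
      · left; rw [← h1]; exact hy.symm
      · right; rw [← h1]; exact hy.symm

end job35113

section job35114


theorem two_adj_struct {n : ℕ} (T : SimpleGraph (Fin n)) (hT : T.IsTree) (hn : 2 ≤ n) (u v : Fin n)
    (ha : T.Adj u v) (hC : ∀ x y, T.Adj x y → (x = u ∨ x = v) ∨ (y = u ∨ y = v)) :
    T.degree u + T.degree v = n ∧
      ∀ x, x ≠ u → x ≠ v → (T.degree x = 1 ∧ (T.Adj u x ∨ T.Adj v x)) := by
  have tri : ∀ x, T.Adj u x → T.Adj v x → False := by
    intro x hux hvx
    have hp : (SimpleGraph.Walk.cons hux SimpleGraph.Walk.nil : T.Walk u x).IsPath := by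
      simp [hux.ne]
    have hq : (SimpleGraph.Walk.cons ha (SimpleGraph.Walk.cons hvx SimpleGraph.Walk.nil) :
        T.Walk u x).IsPath := by
      simp [ha.ne, hux.ne, hvx.ne]
    have h1 := hT.2.path_unique ⟨_, hp⟩ ⟨_, hq⟩
    have h2 := congrArg (fun p : T.Path u x => (p : T.Walk u x).length) h1
    simp at h2
  have ex : ∀ x, x ≠ u → ∃ y, T.Adj x y := by
    intro x hx
    obtain ⟨w⟩ := hT.1.preconnected x u
    cases w with
    | nil => exact absurd rfl hx
    | cons h _ => exact ⟨_, h⟩
  have key : ∀ x, x ≠ u → x ≠ v → (T.Adj u x ∨ T.Adj v x) := by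
    intro x hx hv
    obtain ⟨y, hy⟩ := ex x hx
    rcases hC x y hy with h | h
    · rcases h with h | h
      · exact absurd h hx
      · exact absurd h hv
    · rcases h with h | h
      · subst h; exact Or.inl hy.symm
      · subst h; exact Or.inr hy.symm
  refine ⟨?_, ?_⟩
  · have hdis : Disjoint (T.neighborFinset u) (T.neighborFinset v) := by
      rw [Finset.disjoint_left]
      intro x hx hy
      exact tri x ((T.mem_neighborFinset u x).1 hx) ((T.mem_neighborFinset v x).1 hy)
    have hun : T.neighborFinset u ∪ T.neighborFinset v = Finset.univ := by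
      ext x
      simp only [Finset.mem_union, SimpleGraph.mem_neighborFinset, Finset.mem_univ, iff_true]
      by_cases h1 : x = u
      · subst h1; exact Or.inr ha.symm
      · by_cases h2 : x = v
        · subst h2; exact Or.inl ha
        · exact key x h1 h2
    rw [← SimpleGraph.card_neighborFinset_eq_degree, ← SimpleGraph.card_neighborFinset_eq_degree,
      ← Finset.card_union_of_disjoint hdis, hun, Finset.card_univ, Fintype.card_fin]
  · intro x hx hv
    refine ⟨?_, key x hx hv⟩
    rw [← SimpleGraph.card_neighborFinset_eq_degree, Finset.card_eq_one]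
    rcases key x hx hv with h | h
    · refine ⟨u, ?_⟩
      ext y
      simp only [SimpleGraph.mem_neighborFinset, Finset.mem_singleton]
      constructor
      · intro hy
        rcases hC x y hy with h3 | h3
        · rcases h3 with h3 | h3
          · exact absurd h3 hx
          · exact absurd h3 hv
        · rcases h3 with h3 | h3
          · exact h3
          · subst h3; exact (tri x h hy.symm).elim
      · intro hy; subst hy; exact h.symm
    · refine ⟨v, ?_⟩
      ext y
      simp only [SimpleGraph.mem_neighborFinset, Finset.mem_singleton]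
      constructor
      · intro hy
        rcases hC x y hy with h3 | h3
        · rcases h3 with h3 | h3
          · exact absurd h3 hx
          · exact absurd h3 hv
        · rcases h3 with h3 | h3
          · subst h3; exact (tri x hy.symm h).elim
          · exact h3
      · intro hy; subst hy; exact h.symm

end job35114

section job35115




theorem wt_swap_mul_aux {n : ℕ} (T : SimpleGraph (Fin n)) (a b : Fin n) (hab : a ≠ b)
    (τ : Equiv.Perm (Fin n)) (ha : τ a = a) (hb : τ b = b) :
    wt T (Equiv.swap a b * τ)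
      = 1 / ((T.degree a : ℝ) * (T.degree b : ℝ)) * wt T τ := by
  unfold wt
  have h : ∀ w, (if (Equiv.swap a b * τ) w = w then (1:ℝ) else 1 / (T.degree w : ℝ))
     = ((if w = a then 1 / (T.degree a : ℝ) else 1) *
        (if w = b then 1 / (T.degree b : ℝ) else 1)) *
        (if τ w = w then (1:ℝ) else 1 / (T.degree w : ℝ)) := by
    intro w
    rw [Equiv.Perm.mul_apply]
    by_cases hwa : w = a
    · subst hwa
      rw [ha, Equiv.swap_apply_left, if_neg hab.symm, if_pos rfl, if_neg hab, if_pos rfl]
      ring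
    by_cases hwb : w = b
    · subst hwb
      rw [hb, Equiv.swap_apply_right, if_neg hab, if_neg hwa, if_pos rfl, if_pos rfl]
      ring
    · have h1 : τ w ≠ a := fun h => hwa (τ.injective (h.trans ha.symm))
      have h2 : τ w ≠ b := fun h => hwb (τ.injective (h.trans hb.symm))
      rw [Equiv.swap_apply_of_ne_of_ne h1 h2, if_neg hwa, if_neg hwb]
      ring
  rw [Finset.prod_congr rfl (fun w _ => h w), Finset.prod_mul_distrib, Finset.prod_mul_distrib,
    Finset.prod_ite_eq', Finset.prod_ite_eq', if_pos (Finset.mem_univ _),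
    if_pos (Finset.mem_univ _), one_div_mul_one_div]

theorem wt_one_aux {n : ℕ} (T : SimpleGraph (Fin n)) : wt T 1 = 1 := by
  unfold wt
  simp

theorem wt_pair_aux {n : ℕ} (T : SimpleGraph (Fin n)) (u v x y : Fin n) (huv : u ≠ v)
    (hxv : x ≠ v) (hyu : y ≠ u) (hxy : x ≠ y) :
    wt T (Equiv.swap u x * Equiv.swap v y)
      = (if x = u then (1:ℝ) else 1 / ((T.degree u : ℝ) * (T.degree x : ℝ))) *
        (if y = v then (1:ℝ) else 1 / ((T.degree v : ℝ) * (T.degree y : ℝ))) := by
  have h1 : wt T (Equiv.swap v y)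
      = (if y = v then (1:ℝ) else 1 / ((T.degree v : ℝ) * (T.degree y : ℝ))) := by
    by_cases hy : y = v
    · rw [if_pos hy, hy, Equiv.swap_self]
      exact wt_one_aux T
    · rw [if_neg hy]
      have := wt_swap_mul_aux T v y (Ne.symm hy) 1 rfl rfl
      rw [mul_one, wt_one_aux, mul_one] at this
      exact this
  by_cases hx : x = u
  · rw [if_pos hx, hx, Equiv.swap_self, one_mul, ← h1]
    rfl
  · rw [if_neg hx, ← h1]
    apply wt_swap_mul_aux T u x (Ne.symm hx)
    · exact Equiv.swap_apply_of_ne_of_ne huv hyu.symm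
    · exact Equiv.swap_apply_of_ne_of_ne hxv hxy

theorem sum_side_aux {n : ℕ} (T : SimpleGraph (Fin n)) (u c : Fin n) (huc : T.Adj u c)
    (hc : T.degree c = 2) (hl : ∀ x, T.Adj u x → x ≠ c → T.degree x = 1) :
    ∑ x ∈ insert u (T.neighborFinset u),
      (if x = u then (1:ℝ) else 1 / ((T.degree u : ℝ) * (T.degree x : ℝ)))
      = 2 - 1 / (2 * (T.degree u : ℝ)) := by
  have hun : u ∉ T.neighborFinset u := by
    rw [SimpleGraph.mem_neighborFinset]
    exact T.loopless.irrefl u
  have hcn : c ∈ T.neighborFinset u := by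
    rw [SimpleGraph.mem_neighborFinset]
    exact huc
  have hA : 1 ≤ T.degree u := by
    rw [← SimpleGraph.card_neighborFinset_eq_degree]
    exact Finset.card_pos.2 ⟨c, hcn⟩
  have hA' : (0:ℝ) < (T.degree u : ℝ) := by exact_mod_cast hA
  rw [Finset.sum_insert hun, if_pos rfl]
  have h1 : ∑ x ∈ T.neighborFinset u,
      (if x = u then (1:ℝ) else 1 / ((T.degree u : ℝ) * (T.degree x : ℝ)))
      = 1 / ((T.degree u : ℝ) * 2) + ((T.degree u : ℝ) - 1) * (1 / (T.degree u : ℝ)) := by
    rw [← Finset.add_sum_erase _ _ hcn, if_neg huc.ne', hc]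
    have h2 : ∀ x ∈ (T.neighborFinset u).erase c,
        (if x = u then (1:ℝ) else 1 / ((T.degree u : ℝ) * (T.degree x : ℝ)))
          = 1 / (T.degree u : ℝ) := by
      intro x hx
      rw [Finset.mem_erase, SimpleGraph.mem_neighborFinset] at hx
      rw [if_neg hx.2.ne', hl x hx.2 hx.1, Nat.cast_one, mul_one]
    rw [Finset.sum_congr rfl h2, Finset.sum_const, Finset.card_erase_of_mem hcn,
      SimpleGraph.card_neighborFinset_eq_degree, nsmul_eq_mul, Nat.cast_sub hA, Nat.cast_one]
    norm_num
  rw [h1]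
  field_simp
  ring

theorem two_nonadj_sum {n : ℕ} (T : SimpleGraph (Fin n)) (hT : T.IsTree) (hn : 3 ≤ n) (u v c : Fin n)
    (huv : u ≠ v) (hna : ¬ T.Adj u v) (huc : T.Adj u c) (hvc : T.Adj v c) (hc : T.degree c = 2)
    (hx : ∀ x, x ≠ u → x ≠ v → x ≠ c → (T.degree x = 1 ∧ (T.Adj u x ∨ T.Adj v x)))
    (hdeg : T.degree u + T.degree v + 1 = n) :
    ∑ σ ∈ inv T, wt T σ = 4 - ((n : ℝ) - 1) / ((T.degree u : ℝ) * (T.degree v : ℝ)) := by
  have hA : 1 ≤ T.degree u := by
    rw [← SimpleGraph.card_neighborFinset_eq_degree]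
    exact Finset.card_pos.2 ⟨c, by rw [SimpleGraph.mem_neighborFinset]; exact huc⟩
  have hB : 1 ≤ T.degree v := by
    rw [← SimpleGraph.card_neighborFinset_eq_degree]
    exact Finset.card_pos.2 ⟨c, by rw [SimpleGraph.mem_neighborFinset]; exact hvc⟩
  have hna' : ¬ T.Adj v u := fun h => hna h.symm
  -- neighbours of the other vertices
  have hN : ∀ w z, w ≠ u → w ≠ v → T.Adj w z → z = u ∨ z = v := by
    intro w z hwu hwv hwz
    by_cases hwc : w = c
    · subst hwc
      have hsub : ({u, v} : Finset (Fin n)) ⊆ T.neighborFinset w := by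
        intro t ht
        rw [Finset.mem_insert, Finset.mem_singleton] at ht
        rw [SimpleGraph.mem_neighborFinset]
        rcases ht with rfl | rfl
        · exact huc.symm
        · exact hvc.symm
      have heq : ({u, v} : Finset (Fin n)) = T.neighborFinset w := by
        apply Finset.eq_of_subset_of_card_le hsub
        rw [SimpleGraph.card_neighborFinset_eq_degree, hc, Finset.card_pair huv]
      have hz : z ∈ ({u, v} : Finset (Fin n)) := by
        rw [heq, SimpleGraph.mem_neighborFinset]
        exact hwz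
      rw [Finset.mem_insert, Finset.mem_singleton] at hz
      exact hz
    · obtain ⟨h1, h2⟩ := hx w hwu hwv hwc
      have h3 : ∀ t, T.Adj w t → z = t := by
        intro t ht
        have h4 : (T.neighborFinset w).card ≤ 1 := by
          rw [SimpleGraph.card_neighborFinset_eq_degree, h1]
        exact Finset.card_le_one.1 h4 z (by rw [SimpleGraph.mem_neighborFinset]; exact hwz) t
          (by rw [SimpleGraph.mem_neighborFinset]; exact ht)
      rcases h2 with h2 | h2
      · exact Or.inl (h3 u h2.symm)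
      · exact Or.inr (h3 v h2.symm)
  have hlu : ∀ x, T.Adj u x → x ≠ c → T.degree x = 1 := by
    intro x hux hxc
    refine (hx x hux.ne' ?_ hxc).1
    rintro rfl
    exact hna hux
  have hlv : ∀ x, T.Adj v x → x ≠ c → T.degree x = 1 := by
    intro x hvx hxc
    refine (hx x ?_ hvx.ne' hxc).1
    rintro rfl
    exact hna' hvx
  obtain ⟨fu, hfu⟩ : ∃ f : Fin n → ℝ, f = fun x =>
    (if x = u then (1:ℝ) else 1 / ((T.degree u : ℝ) * (T.degree x : ℝ))) := ⟨_, rfl⟩
  obtain ⟨fv, hfv⟩ : ∃ f : Fin n → ℝ, f = fun x =>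
    (if x = v then (1:ℝ) else 1 / ((T.degree v : ℝ) * (T.degree x : ℝ))) := ⟨_, rfl⟩
  have hmu : ∀ x, x ∈ insert u (T.neighborFinset u) ↔ x = u ∨ T.Adj u x := by
    intro x
    rw [Finset.mem_insert, SimpleGraph.mem_neighborFinset]
  have hmv : ∀ x, x ∈ insert v (T.neighborFinset v) ↔ x = v ∨ T.Adj v x := by
    intro x
    rw [Finset.mem_insert, SimpleGraph.mem_neighborFinset]
  have key1 : ∀ x y : Fin n, (x = u ∨ T.Adj u x) → (y = v ∨ T.Adj v y) → x ≠ v ∧ y ≠ u := by
    intro x y h1 h2
    constructor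
    · rintro rfl
      rcases h1 with h | h
      · exact huv h.symm
      · exact hna h
    · rintro rfl
      rcases h2 with h | h
      · exact huv h
      · exact hna' h
  have evu : ∀ x y : Fin n, x ≠ v → y ≠ u → (Equiv.swap u x * Equiv.swap v y) u = x := by
    intro x y _ h2
    rw [Equiv.Perm.mul_apply, Equiv.swap_apply_of_ne_of_ne huv h2.symm, Equiv.swap_apply_left]
  have evv : ∀ x y : Fin n, y ≠ u → x ≠ y → (Equiv.swap u x * Equiv.swap v y) v = y := by
    intro x y h1 h2
    rw [Equiv.Perm.mul_apply, Equiv.swap_apply_left, Equiv.swap_apply_of_ne_of_ne h1 h2.symm]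
  have evx : ∀ x y : Fin n, x ≠ v → x ≠ y → (Equiv.swap u x * Equiv.swap v y) x = u := by
    intro x y h1 h2
    rw [Equiv.Perm.mul_apply, Equiv.swap_apply_of_ne_of_ne h1 h2, Equiv.swap_apply_right]
  have evy : ∀ x y : Fin n, x ≠ v → (Equiv.swap u x * Equiv.swap v y) y = v := by
    intro x y h1
    rw [Equiv.Perm.mul_apply, Equiv.swap_apply_right, Equiv.swap_apply_of_ne_of_ne huv.symm h1.symm]
  have evo : ∀ x y w : Fin n, w ≠ u → w ≠ v → w ≠ x → w ≠ y →
      (Equiv.swap u x * Equiv.swap v y) w = w := by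
    intro x y w h1 h2 h3 h4
    rw [Equiv.Perm.mul_apply, Equiv.swap_apply_of_ne_of_ne h2 h4,
      Equiv.swap_apply_of_ne_of_ne h1 h3]
  have hbij : ∑ σ ∈ inv T, wt T σ
      = ∑ p ∈ ((insert u (T.neighborFinset u)) ×ˢ (insert v (T.neighborFinset v))).filter
          (fun p : Fin n × Fin n => ¬ p.1 = p.2), fu p.1 * fv p.2 := by
    refine Finset.sum_bij' (fun σ _ => (σ u, σ v)) (fun p _ => Equiv.swap u p.1 * Equiv.swap v p.2)
      ?_ ?_ ?_ ?_ ?_
    · intro σ hσ
      unfold inv at hσ
      rw [Finset.mem_filter] at hσ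
      rw [Finset.mem_filter, Finset.mem_product, hmu, hmv]
      refine ⟨⟨hσ.2 u, hσ.2 v⟩, ?_⟩
      intro h
      exact huv (σ.injective h)
    · rintro ⟨x, y⟩ hp
      rw [Finset.mem_filter, Finset.mem_product, hmu, hmv] at hp
      obtain ⟨⟨h1, h2⟩, h3⟩ := hp
      simp only at h1 h2 h3
      obtain ⟨hxv, hyu⟩ := key1 x y h1 h2
      unfold inv
      rw [Finset.mem_filter]
      refine ⟨Finset.mem_univ _, ?_⟩
      intro w
      show (Equiv.swap u x * Equiv.swap v y) w = w ∨
        T.Adj w ((Equiv.swap u x * Equiv.swap v y) w)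
      by_cases hwu : w = u
      · subst hwu
        rw [evu x y hxv hyu]
        exact h1
      by_cases hwv : w = v
      · subst hwv
        rw [evv x y hyu h3]
        exact h2
      by_cases hwx : w = x
      · subst hwx
        rw [evx w y hxv h3]
        rcases h1 with h1 | h1
        · exact absurd h1 hwu
        · exact Or.inr h1.symm
      by_cases hwy : w = y
      · subst hwy
        rw [evy x w hxv]
        rcases h2 with h2 | h2
        · exact absurd h2 hwv
        · exact Or.inr h2.symm
      · exact Or.inl (evo x y w hwu hwv hwx hwy)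
    · intro σ hσ
      unfold inv at hσ
      rw [Finset.mem_filter] at hσ
      have hσ2 := hσ.2
      have hinv := acyc_invol T hT σ hσ2
      obtain ⟨hxv, hyu⟩ := key1 (σ u) (σ v) (hσ2 u) (hσ2 v)
      have h3 : σ u ≠ σ v := fun h => huv (σ.injective h)
      show Equiv.swap u (σ u) * Equiv.swap v (σ v) = σ
      apply Equiv.ext
      intro w
      by_cases hwu : w = u
      · rw [hwu, evu _ _ hxv hyu]
      by_cases hwv : w = v
      · rw [hwv, evv _ _ hyu h3]
      by_cases hwx : w = σ u
      · rw [hwx, evx _ _ hxv h3, hinv]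
      by_cases hwy : w = σ v
      · rw [hwy, evy _ _ hxv, hinv]
      · rw [evo _ _ w hwu hwv hwx hwy]
        rcases hσ2 w with h | h
        · exact h.symm
        · exfalso
          rcases hN w (σ w) hwu hwv h with h4 | h4
          · apply hwx
            rw [← h4, hinv]
          · apply hwy
            rw [← h4, hinv]
    · rintro ⟨x, y⟩ hp
      rw [Finset.mem_filter, Finset.mem_product, hmu, hmv] at hp
      obtain ⟨⟨h1, h2⟩, h3⟩ := hp
      simp only at h1 h2 h3
      obtain ⟨hxv, hyu⟩ := key1 x y h1 h2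
      show ((Equiv.swap u x * Equiv.swap v y) u, (Equiv.swap u x * Equiv.swap v y) v) = (x, y)
      rw [evu x y hxv hyu, evv x y hyu h3]
    · intro σ hσ
      unfold inv at hσ
      rw [Finset.mem_filter] at hσ
      have hσ2 := hσ.2
      have hinv := acyc_invol T hT σ hσ2
      obtain ⟨hxv, hyu⟩ := key1 (σ u) (σ v) (hσ2 u) (hσ2 v)
      have h3 : σ u ≠ σ v := fun h => huv (σ.injective h)
      have hσe : Equiv.swap u (σ u) * Equiv.swap v (σ v) = σ := by
        apply Equiv.ext
        intro w
        by_cases hwu : w = u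
        · rw [hwu, evu _ _ hxv hyu]
        by_cases hwv : w = v
        · rw [hwv, evv _ _ hyu h3]
        by_cases hwx : w = σ u
        · rw [hwx, evx _ _ hxv h3, hinv]
        by_cases hwy : w = σ v
        · rw [hwy, evy _ _ hxv, hinv]
        · rw [evo _ _ w hwu hwv hwx hwy]
          rcases hσ2 w with h | h
          · exact h.symm
          · exfalso
            rcases hN w (σ w) hwu hwv h with h4 | h4
            · apply hwx
              rw [← h4, hinv]
            · apply hwy
              rw [← h4, hinv]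
      have h5 := wt_pair_aux T u v (σ u) (σ v) huv hxv hyu h3
      rw [hσe] at h5
      rw [h5, hfu, hfv]
  rw [hbij]
  have hsplit := Finset.sum_filter_add_sum_filter_not
    ((insert u (T.neighborFinset u)) ×ˢ (insert v (T.neighborFinset v)))
    (fun p : Fin n × Fin n => p.1 = p.2) (fun p => fu p.1 * fv p.2)
  have hall : ∑ p ∈ (insert u (T.neighborFinset u)) ×ˢ (insert v (T.neighborFinset v)),
      fu p.1 * fv p.2 = (2 - 1 / (2 * (T.degree u : ℝ))) * (2 - 1 / (2 * (T.degree v : ℝ))) := by
    rw [Finset.sum_product, ← sum_side_aux T u c huc hc hlu, ← sum_side_aux T v c hvc hc hlv,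
      Finset.sum_mul_sum, hfu, hfv]
  have hdiag : ∑ p ∈ ((insert u (T.neighborFinset u)) ×ˢ (insert v (T.neighborFinset v))).filter
      (fun p : Fin n × Fin n => p.1 = p.2), fu p.1 * fv p.2
      = 1 / ((T.degree u : ℝ) * 2) * (1 / ((T.degree v : ℝ) * 2)) := by
    have hs : ((insert u (T.neighborFinset u)) ×ˢ (insert v (T.neighborFinset v))).filter
        (fun p : Fin n × Fin n => p.1 = p.2) = {(c, c)} := by
      ext ⟨x, y⟩
      rw [Finset.mem_filter, Finset.mem_product, hmu, hmv, Finset.mem_singleton, Prod.mk.injEq]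
      simp only
      constructor
      · rintro ⟨⟨h1, h2⟩, rfl⟩
        obtain ⟨hxv, hxu⟩ := key1 x x h1 h2
        rcases h1 with h1 | h1
        · exact absurd h1 hxu
        rcases h2 with h2 | h2
        · exact absurd h2 hxv
        by_cases hxc : x = c
        · exact ⟨hxc, hxc⟩
        · exfalso
          have h4 := hlu x h1 hxc
          have h5 : (T.neighborFinset x).card ≤ 1 := by
            rw [SimpleGraph.card_neighborFinset_eq_degree, h4]
          exact huv (Finset.card_le_one.1 h5 u
            (by rw [SimpleGraph.mem_neighborFinset]; exact h1.symm) v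
            (by rw [SimpleGraph.mem_neighborFinset]; exact h2.symm))
      · rintro ⟨rfl, rfl⟩
        exact ⟨⟨Or.inr huc, Or.inr hvc⟩, rfl⟩
    rw [hs, Finset.sum_singleton, hfu, hfv]
    simp only
    rw [if_neg huc.ne', if_neg hvc.ne', hc]
    norm_num
  have hA' : (0:ℝ) < (T.degree u : ℝ) := by exact_mod_cast hA
  have hB' : (0:ℝ) < (T.degree v : ℝ) := by exact_mod_cast hB
  have hn' : (n : ℝ) - 1 = (T.degree u : ℝ) + (T.degree v : ℝ) := by
    have h0 : ((T.degree u + T.degree v + 1 : ℕ) : ℝ) = (n : ℝ) := congrArg Nat.cast hdeg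
    push_cast at h0
    linarith
  rw [hall, hdiag] at hsplit
  rw [hn']
  have hfin : ∑ p ∈ ((insert u (T.neighborFinset u)) ×ˢ (insert v (T.neighborFinset v))).filter
      (fun p : Fin n × Fin n => ¬ p.1 = p.2), fu p.1 * fv p.2
      = (2 - 1 / (2 * (T.degree u : ℝ))) * (2 - 1 / (2 * (T.degree v : ℝ)))
        - 1 / ((T.degree u : ℝ) * 2) * (1 / ((T.degree v : ℝ) * 2)) := by
    linarith
  rw [hfin]
  field_simp
  ring

end job35115

section job35116




theorem two_adj_sum {n : ℕ} (T : SimpleGraph (Fin n)) (hT : T.IsTree) (hn : 2 ≤ n) (u v : Fin n)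
    (ha : T.Adj u v)
    (hx : ∀ x, x ≠ u → x ≠ v → (T.degree x = 1 ∧ (T.Adj u x ∨ T.Adj v x)))
    (hdeg : T.degree u + T.degree v = n) :
    ∑ σ ∈ inv T, wt T σ = 4 - 2 * ((n : ℝ) - 1) / ((T.degree u : ℝ) * (T.degree v : ℝ)) := by
  have huv : u ≠ v := ha.ne
  have hA : (0:ℝ) < T.degree u := by
    have : 0 < T.degree u := by rw [T.degree_pos_iff_exists_adj]; exact ⟨v, ha⟩
    exact_mod_cast this
  have hB : (0:ℝ) < T.degree v := by
    have : 0 < T.degree v := by rw [T.degree_pos_iff_exists_adj]; exact ⟨u, ha.symm⟩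
    exact_mod_cast this
  -- unique neighbour
  have huniq : ∀ z, z ≠ u → z ≠ v → ∀ c c', T.Adj z c → T.Adj z c' → c = c' := by
    intro z hzu hzv c c' hc hc'
    have h1 := (hx z hzu hzv).1
    rw [← T.card_neighborFinset_eq_degree, Finset.card_eq_one] at h1
    obtain ⟨d, hd⟩ := h1
    have e1 : c ∈ T.neighborFinset z := by rw [T.mem_neighborFinset]; exact hc
    have e2 : c' ∈ T.neighborFinset z := by rw [T.mem_neighborFinset]; exact hc'
    rw [hd, Finset.mem_singleton] at e1 e2
    rw [e1, e2]
  have hnb : ∀ z, z ≠ u → z ≠ v → ∀ c, T.Adj z c → c = u ∨ c = v := by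
    intro z hzu hzv c hc
    rcases (hx z hzu hzv).2 with h | h
    · exact Or.inl (huniq z hzu hzv c u hc h.symm)
    · exact Or.inr (huniq z hzu hzv c v hc h.symm)
  have hmem : ∀ σ, σ ∈ inv T ↔ ∀ v, σ v = v ∨ T.Adj v (σ v) := by
    intro σ; simp [inv]
  -- weight
  have hwt : ∀ σ : Equiv.Perm (Fin n), wt T σ =
      (if σ u = u then (1:ℝ) else 1 / (T.degree u : ℝ)) * (if σ v = v then (1:ℝ) else 1 / (T.degree v : ℝ)) := by
    intro σ
    unfold wt
    rw [← Finset.mul_prod_erase Finset.univ _ (Finset.mem_univ u),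
      ← Finset.mul_prod_erase (Finset.univ.erase u) _ (Finset.mem_erase.mpr ⟨huv.symm, Finset.mem_univ v⟩)]
    rw [Finset.prod_eq_one, mul_one]
    intro z hz
    rw [Finset.mem_erase, Finset.mem_erase] at hz
    rw [(hx z hz.2.1 hz.1).1]
    simp
  -- formula for other vertices
  have hform : ∀ σ ∈ inv T, ∀ z, z ≠ u → z ≠ v → σ z = if σ u = z then u else if σ v = z then v else z := by
    intro σ hσ z hzu hzv
    have h1 := (hmem σ).mp hσ
    have h2 := acyc_invol T hT σ h1
    split_ifs with h3 h4
    · rw [← h3, h2]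
    · rw [← h4, h2]
    · rcases h1 z with h5 | h5
      · exact h5
      · exfalso
        rcases hnb z hzu hzv _ h5 with h6 | h6
        · apply h3; rw [← h6, h2]
        · apply h4; rw [← h6, h2]
  set Lu := (T.neighborFinset u).erase v with hLu
  set Lv := (T.neighborFinset v).erase u with hLv
  have hcu : (Lu.card : ℝ) = T.degree u - 1 := by
    rw [hLu, Finset.card_erase_of_mem (by rw [T.mem_neighborFinset]; exact ha), T.card_neighborFinset_eq_degree]
    have : 0 < T.degree u := by exact_mod_cast hA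
    rw [Nat.cast_sub this]; simp
  have hcv : (Lv.card : ℝ) = T.degree v - 1 := by
    rw [hLv, Finset.card_erase_of_mem (by rw [T.mem_neighborFinset]; exact ha.symm), T.card_neighborFinset_eq_degree]
    have : 0 < T.degree v := by exact_mod_cast hB
    rw [Nat.cast_sub this]; simp
  have hmLu : ∀ x, x ∈ Lu ↔ x ≠ v ∧ T.Adj u x := by
    intro x; rw [hLu, Finset.mem_erase, T.mem_neighborFinset]
  have hmLv : ∀ x, x ∈ Lv ↔ x ≠ u ∧ T.Adj v x := by
    intro x; rw [hLv, Finset.mem_erase, T.mem_neighborFinset]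
  have huLu : u ∉ Lu := by rw [hmLu]; exact fun h => T.irrefl h.2
  have hvLv : v ∉ Lv := by rw [hmLv]; exact fun h => T.irrefl h.2
  have hvLu : v ∉ Lu := by rw [hmLu]; exact fun h => h.1 rfl
  set P : Finset (Fin n × Fin n) := insert (v, u) ((insert u Lu) ×ˢ (insert v Lv)) with hP
  have hnotin : ((v, u) : Fin n × Fin n) ∉ (insert u Lu) ×ˢ (insert v Lv) := by
    rw [Finset.mem_product]
    rintro ⟨h1, -⟩
    rcases Finset.mem_insert.mp h1 with h | h
    · exact huv h.symm
    · exact hvLu h
  have hsum : ∑ σ ∈ inv T, wt T σ = ∑ p ∈ P, (if p.1 = u then (1:ℝ) else 1 / (T.degree u : ℝ)) *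
      (if p.2 = v then (1:ℝ) else 1 / (T.degree v : ℝ)) := by
    refine Finset.sum_nbij (fun σ => (σ u, σ v)) ?_ ?_ ?_ (fun σ _ => hwt σ)
    · intro σ hσ
      have h1 := (hmem σ).mp hσ
      have h2 := acyc_invol T hT σ h1
      show (σ u, σ v) ∈ P
      rw [hP, Finset.mem_insert]
      by_cases h3 : σ u = v
      · left
        have : σ v = u := by rw [← h3, h2]
        rw [h3, this]
      · right
        rw [Finset.mem_product, Finset.mem_insert, Finset.mem_insert, hmLu, hmLv]
        refine ⟨?_, ?_⟩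
        · rcases h1 u with h | h
          · exact Or.inl h
          · exact Or.inr ⟨h3, h⟩
        · rcases h1 v with h | h
          · exact Or.inl h
          · refine Or.inr ⟨?_, h⟩
            intro h4
            apply h3
            show σ u = v
            have h4' : σ v = u := h4
            rw [← h4', h2]
    · intro σ hσ τ hτ h
      have hσ' : σ ∈ inv T := hσ
      have hτ' : τ ∈ inv T := hτ
      simp only [Prod.mk.injEq] at h
      apply Equiv.ext
      intro z
      by_cases hzu : z = u
      · rw [hzu]; exact h.1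
      by_cases hzv : z = v
      · rw [hzv]; exact h.2
      rw [hform σ hσ' z hzu hzv, hform τ hτ' z hzu hzv, h.1, h.2]
    · intro p hp
      have hp' : p ∈ P := hp
      rw [hP, Finset.mem_insert] at hp'
      rcases hp' with hp' | hp'
      · refine ⟨Equiv.swap u v, ?_, ?_⟩
        · show Equiv.swap u v ∈ inv T
          rw [hmem]
          intro z
          by_cases hzu : z = u
          · right; rw [hzu, Equiv.swap_apply_left]; exact ha
          by_cases hzv : z = v
          · right; rw [hzv, Equiv.swap_apply_right]; exact ha.symm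
          left; exact Equiv.swap_apply_of_ne_of_ne hzu hzv
        · rw [hp']; simp
      · obtain ⟨x, y⟩ := p
        rw [Finset.mem_product] at hp'
        obtain ⟨hx1, hy1⟩ := hp'
        simp only [Finset.mem_insert] at hx1 hy1
        rw [hmLu] at hx1
        rw [hmLv] at hy1
        have hxv : x ≠ v := by
          rcases hx1 with h | h
          · rw [h]; exact huv
          · exact h.1
        have hyu : y ≠ u := by
          rcases hy1 with h | h
          · rw [h]; exact huv.symm
          · exact h.1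
        have hxy : x ≠ y := by
          intro h
          rcases hx1 with h1 | h1
          · exact hyu (h ▸ h1)
          · rcases hy1 with h2 | h2
            · exact hxv (h ▸ h2)
            · have h3 : T.Adj v x := h ▸ h2.2
              have hxu : x ≠ u := h1.2.ne.symm
              exact huv (huniq x hxu hxv u v h1.2.symm h3.symm)
        have hu' : (Equiv.swap u x * Equiv.swap v y) u = x := by
          rw [Equiv.Perm.mul_apply, Equiv.swap_apply_of_ne_of_ne huv hyu.symm, Equiv.swap_apply_left]
        have hv' : (Equiv.swap u x * Equiv.swap v y) v = y := by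
          rw [Equiv.Perm.mul_apply, Equiv.swap_apply_left, Equiv.swap_apply_of_ne_of_ne hyu hxy.symm]
        have hx' : (Equiv.swap u x * Equiv.swap v y) x = u := by
          rw [Equiv.Perm.mul_apply, Equiv.swap_apply_of_ne_of_ne hxv hxy, Equiv.swap_apply_right]
        have hy' : (Equiv.swap u x * Equiv.swap v y) y = v := by
          rw [Equiv.Perm.mul_apply, Equiv.swap_apply_right, Equiv.swap_apply_of_ne_of_ne huv.symm hxv.symm]
        refine ⟨Equiv.swap u x * Equiv.swap v y, ?_, ?_⟩
        · show Equiv.swap u x * Equiv.swap v y ∈ inv T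
          rw [hmem]
          intro z
          by_cases hzu : z = u
          · rw [hzu, hu']
            rcases hx1 with h | h
            · exact Or.inl h
            · exact Or.inr h.2
          by_cases hzv : z = v
          · rw [hzv, hv']
            rcases hy1 with h | h
            · exact Or.inl h
            · exact Or.inr h.2
          by_cases hzx : z = x
          · rw [hzx, hx']
            rcases hx1 with h | h
            · exact Or.inl h.symm
            · exact Or.inr h.2.symm
          by_cases hzy : z = y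
          · rw [hzy, hy']
            rcases hy1 with h | h
            · exact Or.inl h.symm
            · exact Or.inr h.2.symm
          left
          rw [Equiv.Perm.mul_apply, Equiv.swap_apply_of_ne_of_ne hzv hzy, Equiv.swap_apply_of_ne_of_ne hzu hzx]
        · show ((Equiv.swap u x * Equiv.swap v y) u, (Equiv.swap u x * Equiv.swap v y) v) = (x, y)
          rw [hu', hv']
  rw [hsum, hP, Finset.sum_insert hnotin, Finset.sum_product]
  simp only
  rw [if_neg huv.symm, if_neg huv]
  have hL : ∀ (w : Fin n) (L : Finset (Fin n)), w ∉ L → ∀ q : ℝ,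
      ∑ b ∈ insert w L, (if b = w then (1:ℝ) else q) = 1 + L.card * q := by
    intro w L hw q
    rw [Finset.sum_insert hw, if_pos rfl]
    congr 1
    have h5 : ∀ b ∈ L, (if b = w then (1:ℝ) else q) = q := by
      intro b hb
      have hbw : b ≠ w := fun h => hw (by rw [← h]; exact hb)
      rw [if_neg hbw]
    rw [Finset.sum_congr rfl h5, Finset.sum_const, nsmul_eq_mul]
  have hdd : ∑ x ∈ insert u Lu, ∑ x_1 ∈ insert v Lv, (if x = u then (1:ℝ) else 1 / (T.degree u : ℝ)) *
      (if x_1 = v then (1:ℝ) else 1 / (T.degree v : ℝ)) =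
      (∑ x ∈ insert u Lu, (if x = u then (1:ℝ) else 1 / (T.degree u : ℝ))) *
      (∑ x_1 ∈ insert v Lv, (if x_1 = v then (1:ℝ) else 1 / (T.degree v : ℝ))) := by
    rw [Finset.sum_mul_sum]
  rw [hL u Lu huLu, hL v Lv hvLv, hcu, hcv] at hdd
  refine (congrArg (fun z => 1 / (T.degree u : ℝ) * (1 / (T.degree v : ℝ)) + z) hdd).trans ?_
  show 1 / (T.degree u : ℝ) * (1 / (T.degree v : ℝ)) + _ = _
  have hn' : (n : ℝ) = T.degree u + T.degree v := by exact_mod_cast hdeg.symm
  rw [hn']
  field_simp
  ring

end job35116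

section job35117


theorem tt_adj (n : ℕ) (x y : Fin n) : (twoTree n).Adj x y ↔ x ≠ y ∧
    (((x : ℕ) ≠ 0 ∧ (y : ℕ) = (if (x : ℕ) = 1 then 0 else if (x : ℕ) = 2 then 1 else if (x : ℕ) % 2 = 1 then 0 else 2)) ∨
     ((y : ℕ) ≠ 0 ∧ (x : ℕ) = (if (y : ℕ) = 1 then 0 else if (y : ℕ) = 2 then 1 else if (y : ℕ) % 2 = 1 then 0 else 2))) := by
  unfold twoTree parGraph
  rw [SimpleGraph.fromRel_adj]

theorem tt_deg0 (n : ℕ) (hn : 3 ≤ n) : (twoTree n).degree ⟨0, by omega⟩ = n / 2 := by
  rw [← SimpleGraph.card_neighborFinset_eq_degree]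
  conv_rhs => rw [← Finset.card_range (n / 2)]
  symm
  refine Finset.card_bij (fun k hk => ⟨2 * k + 1, by rw [Finset.mem_range] at hk; omega⟩) ?_ ?_ ?_
  · intro k hk
    rw [SimpleGraph.mem_neighborFinset, tt_adj]
    refine ⟨?_, Or.inr ⟨by simp, ?_⟩⟩
    · intro h
      have := congrArg Fin.val h
      simp at this
    · simp only
      split_ifs <;> omega
  · intro a _ b _ h
    have := congrArg Fin.val h
    simp only at this
    omega
  · intro b hb
    rw [SimpleGraph.mem_neighborFinset, tt_adj] at hb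
    obtain ⟨h1, h2 | h2⟩ := hb
    · exact absurd rfl h2.1
    · obtain ⟨h3, h4⟩ := h2
      simp only at h4
      have hb2 : (b : ℕ) % 2 = 1 := by
        split_ifs at h4 <;> omega
      have hbn := b.2
      refine ⟨(b : ℕ) / 2, by rw [Finset.mem_range]; omega, ?_⟩
      apply Fin.ext
      simp only
      omega

theorem tt_deg2 (n : ℕ) (hn : 3 ≤ n) : (twoTree n).degree ⟨2, by omega⟩ = (n - 1) / 2 := by
  rw [← SimpleGraph.card_neighborFinset_eq_degree]
  conv_rhs => rw [← Finset.card_range ((n - 1) / 2)]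
  symm
  refine Finset.card_bij (fun k hk => ⟨if k = 0 then 1 else 2 * k + 2, by
    rw [Finset.mem_range] at hk; split_ifs <;> omega⟩) ?_ ?_ ?_
  · intro k hk
    rw [SimpleGraph.mem_neighborFinset, tt_adj]
    by_cases hk0 : k = 0
    · subst hk0
      refine ⟨?_, Or.inl ⟨by simp, by simp⟩⟩
      intro h
      have := congrArg Fin.val h
      simp at this
    · refine ⟨?_, Or.inr ⟨by simp [hk0], ?_⟩⟩
      · intro h
        have := congrArg Fin.val h
        simp only [if_neg hk0] at this
        omega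
      · simp only [if_neg hk0]
        split_ifs <;> omega
  · intro a _ b _ h
    have := congrArg Fin.val h
    simp only at this
    split_ifs at this <;> omega
  · intro b hb
    rw [SimpleGraph.mem_neighborFinset, tt_adj] at hb
    have hbn := b.2
    obtain ⟨h1, h2 | h2⟩ := hb
    · have h3 : (b : ℕ) = 1 := by
        have := h2.2
        simpa using this
      refine ⟨0, by rw [Finset.mem_range]; omega, ?_⟩
      apply Fin.ext
      simp [h3]
    · obtain ⟨h3, h4⟩ := h2
      simp only at h4
      have hne : (b : ℕ) ≠ 2 := by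
        intro h
        apply h1
        apply Fin.ext
        simp [h]
      have hb2 : (b : ℕ) % 2 = 0 ∧ 4 ≤ (b : ℕ) := by
        split_ifs at h4 <;> omega
      refine ⟨((b : ℕ) - 2) / 2, by rw [Finset.mem_range]; omega, ?_⟩
      apply Fin.ext
      have : ((b : ℕ) - 2) / 2 ≠ 0 := by omega
      simp only [if_neg this]
      omega

theorem tt_prod (n : ℕ) (hn : 3 ≤ n) : n / 2 * ((n - 1) / 2) = (n - 1) ^ 2 / 4 := by
  rcases Nat.even_or_odd' n with ⟨m, h | h⟩
  · obtain ⟨k, rfl⟩ : ∃ k, m = k + 1 := ⟨m - 1, by omega⟩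
    have e1 : n / 2 = k + 1 := by omega
    have e2 : (n - 1) / 2 = k := by omega
    have e3 : n - 1 = 2 * k + 1 := by omega
    rw [e1, e2, e3]
    have : (2 * k + 1) ^ 2 = 4 * ((k + 1) * k) + 1 := by ring
    rw [this]
    omega
  · have e1 : n / 2 = m := by omega
    have e2 : (n - 1) / 2 = m := by omega
    have e3 : n - 1 = 2 * m := by omega
    rw [e1, e2, e3]
    have : (2 * m) ^ 2 = 4 * (m * m) := by ring
    rw [this]
    omega

theorem twoTree_facts (n : ℕ) (hn : 3 ≤ n) :
    ¬ (twoTree n).Adj ⟨0, by omega⟩ ⟨2, by omega⟩ ∧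
    (∀ x y, (twoTree n).Adj x y → ((x : ℕ) = 0 ∨ (x : ℕ) = 2) ∨ ((y : ℕ) = 0 ∨ (y : ℕ) = 2)) ∧
    (twoTree n).degree ⟨0, by omega⟩ * (twoTree n).degree ⟨2, by omega⟩ = (n - 1) ^ 2 / 4 := by
  refine ⟨?_, ?_, ?_⟩
  · rw [tt_adj]
    rintro ⟨_, h | h⟩
    · exact h.1 rfl
    · have := h.2
      simp at this
  · intro x y h
    rw [tt_adj] at h
    obtain ⟨h1, ⟨h2, h3⟩ | ⟨h2, h3⟩⟩ := h
    · split_ifs at h3 <;> omega
    · split_ifs at h3 <;> omega
  · rw [tt_deg0 n hn, tt_deg2 n hn, tt_prod n hn]

end job35117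

section job35118


theorem aux_deg {n : ℕ} (T : SimpleGraph (Fin n)) (v : Fin n) (P : ℕ → Prop) [DecidablePred P]
    [Fintype (T.neighborSet v)] (h : ∀ w : Fin n, T.Adj v w ↔ P w) :
    T.degree v = ((Finset.range n).filter P).card := by
  rw [← SimpleGraph.card_neighborFinset_eq_degree]
  refine Finset.card_bij (fun w _ => (w : ℕ)) ?_ ?_ ?_
  · intro w hw
    rw [SimpleGraph.mem_neighborFinset] at hw
    rw [Finset.mem_filter, Finset.mem_range]
    exact ⟨w.2, (h w).mp hw⟩
  · intro a _ b _ hab
    exact Fin.ext hab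
  · intro b hb
    rw [Finset.mem_filter, Finset.mem_range] at hb
    refine ⟨⟨b, hb.1⟩, ?_, rfl⟩
    rw [SimpleGraph.mem_neighborFinset]
    exact (h _).mpr hb.2

theorem aux_cnt0 (n : ℕ) (hn : 2 ≤ n) :
    ((Finset.range n).filter (fun b => b = 1 ∨ (2 ≤ b ∧ b % 2 = 0))).card = (n + 1) / 2 := by
  induction n, hn using Nat.le_induction with
  | base => simp [Finset.range_add_one, Finset.filter_insert]
  | succ n hn ih =>
    rw [Finset.range_add_one, Finset.filter_insert]
    split_ifs with h
    · rw [Finset.card_insert_of_notMem (by simp), ih]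
      omega
    · rw [ih]
      omega

theorem aux_cnt1 (n : ℕ) (hn : 2 ≤ n) :
    ((Finset.range n).filter (fun b => b = 0 ∨ (2 ≤ b ∧ b % 2 = 1))).card = n / 2 := by
  induction n, hn using Nat.le_induction with
  | base =>
    rw [show (2 : ℕ) / 2 = 1 from rfl, Finset.card_eq_one]
    refine ⟨0, ?_⟩
    ext b
    simp only [Finset.mem_filter, Finset.mem_range, Finset.mem_singleton]
    omega
  | succ n hn ih =>
    rw [Finset.range_add_one, Finset.filter_insert]
    split_ifs with h
    · rw [Finset.card_insert_of_notMem (by simp), ih]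
      omega
    · rw [ih]
      omega

theorem aux_adj (n : ℕ) (x y : Fin n) : (hubTree 2 n).Adj x y ↔
    (x : ℕ) ≠ y ∧ (((x : ℕ) ≠ 0 ∧ (y : ℕ) = if (x : ℕ) < 2 then 0 else (x : ℕ) % 2) ∨
      ((y : ℕ) ≠ 0 ∧ (x : ℕ) = if (y : ℕ) < 2 then 0 else (y : ℕ) % 2)) := by
  simp only [hubTree, parGraph, SimpleGraph.fromRel_adj, ne_eq, Fin.ext_iff]


theorem dstar_facts (n : ℕ) (hn : 2 ≤ n) :
    (hubTree 2 n).Adj ⟨0, by omega⟩ ⟨1, by omega⟩ ∧
    (∀ x y, (hubTree 2 n).Adj x y → ((x : ℕ) = 0 ∨ (x : ℕ) = 1) ∨ ((y : ℕ) = 0 ∨ (y : ℕ) = 1)) ∧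
    (hubTree 2 n).degree ⟨0, by omega⟩ * (hubTree 2 n).degree ⟨1, by omega⟩ = n ^ 2 / 4 ∧
    ∀ x y, (hubTree 2 n).dist x y ≤ 3 := by
  have hadj := aux_adj n
  have h01 : (hubTree 2 n).Adj ⟨0, by omega⟩ ⟨1, by omega⟩ := by
    rw [hadj]
    simp
  refine ⟨h01, ?_, ?_, ?_⟩
  · intro x y h
    rw [hadj] at h
    obtain ⟨h1, h2 | h2⟩ := h
    · right
      split_ifs at h2 <;> omega
    · left
      split_ifs at h2 <;> omega
  · rw [aux_deg (hubTree 2 n) ⟨0, by omega⟩ (fun b => b = 1 ∨ (2 ≤ b ∧ b % 2 = 0)) ?_,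
      aux_deg (hubTree 2 n) ⟨1, by omega⟩ (fun b => b = 0 ∨ (2 ≤ b ∧ b % 2 = 1)) ?_,
      aux_cnt0 n hn, aux_cnt1 n hn]
    · rcases Nat.even_or_odd' n with ⟨m, rfl | rfl⟩
      · have e1 : (2 * m + 1) / 2 = m := by omega
        have e2 : 2 * m / 2 = m := by omega
        have e3 : (2 * m) ^ 2 = 4 * (m * m) := by ring
        rw [e1, e2, e3]
        omega
      · have e1 : (2 * m + 1 + 1) / 2 = m + 1 := by omega
        have e2 : (2 * m + 1) / 2 = m := by omega
        have e3 : (2 * m + 1) ^ 2 = 4 * ((m + 1) * m) + 1 := by ring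
        rw [e1, e2, e3]
        omega
    · intro w
      rw [hadj]
      simp only
      split_ifs with h <;> omega
    · intro w
      rw [hadj]
      simp only
      split_ifs with h <;> omega
  · have hub : ∀ x : Fin n, ∃ h : Fin n, (h : ℕ) < 2 ∧ ∃ w : (hubTree 2 n).Walk x h, w.length ≤ 1 := by
      intro x
      by_cases hx : (x : ℕ) < 2
      · exact ⟨x, hx, SimpleGraph.Walk.nil, by simp⟩
      · have hlt : (x : ℕ) % 2 < n := by omega
        have ha : (hubTree 2 n).Adj x ⟨(x : ℕ) % 2, hlt⟩ := by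
          rw [hadj]
          simp only [if_neg hx]
          refine ⟨by omega, Or.inl ⟨by omega, trivial⟩⟩
        exact ⟨⟨(x : ℕ) % 2, hlt⟩, Nat.mod_lt _ (by norm_num), SimpleGraph.Walk.cons ha SimpleGraph.Walk.nil, by simp⟩
    have hh : ∀ a b : Fin n, (a : ℕ) < 2 → (b : ℕ) < 2 → ∃ w : (hubTree 2 n).Walk a b, w.length ≤ 1 := by
      intro a b ha hb
      by_cases hab : a = b
      · subst hab
        exact ⟨SimpleGraph.Walk.nil, by simp⟩
      · have hne : (a : ℕ) ≠ b := fun h => hab (Fin.ext h)
        have hadj' : (hubTree 2 n).Adj a b := by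
          rw [hadj]
          rw [if_pos ha, if_pos hb]
          refine ⟨hne, ?_⟩
          omega
        exact ⟨SimpleGraph.Walk.cons hadj' SimpleGraph.Walk.nil, by simp⟩
    intro x y
    obtain ⟨a, ha, w1, hw1⟩ := hub x
    obtain ⟨b, hb, w3, hw3⟩ := hub y
    obtain ⟨w2, hw2⟩ := hh a b ha hb
    have h := SimpleGraph.dist_le ((w1.append w2).append w3.reverse)
    rw [SimpleGraph.Walk.length_append, SimpleGraph.Walk.length_append,
      SimpleGraph.Walk.length_reverse] at h
    omega

end job35118

section job35119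


theorem d3_len {V : Type} (T : SimpleGraph V) (hT : T.IsAcyclic) {x y : V}
    (p q : T.Walk x y) (hp : p.IsPath) (hq : q.IsPath) : p.length = q.length := by
  have h := hT.path_unique (⟨p, hp⟩ : T.Path x y) ⟨q, hq⟩
  have h2 : p = q := congrArg Subtype.val h
  rw [h2]

theorem d3_tri {V : Type} (T : SimpleGraph V) (hT : T.IsAcyclic) {a b c : V}
    (h1 : T.Adj a b) (h2 : T.Adj b c) (h3 : T.Adj a c) : False := by
  have h := d3_len T hT (SimpleGraph.Walk.cons h1 (SimpleGraph.Walk.cons h2 SimpleGraph.Walk.nil))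
    (SimpleGraph.Walk.cons h3 SimpleGraph.Walk.nil)
    (by simp [SimpleGraph.Walk.cons_isPath_iff, h1.ne, h2.ne, h3.ne])
    (by simp [SimpleGraph.Walk.cons_isPath_iff, h3.ne])
  simp at h

theorem d3_four {V : Type} (T : SimpleGraph V) (hT : T.IsAcyclic) {a b c d : V}
    (h1 : T.Adj a b) (h2 : T.Adj b c) (h3 : T.Adj c d) (h4 : T.Adj a d)
    (hac : a ≠ c) (hbd : b ≠ d) : False := by
  have h := d3_len T hT (SimpleGraph.Walk.cons h1 (SimpleGraph.Walk.cons h2
    (SimpleGraph.Walk.cons h3 SimpleGraph.Walk.nil)))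
    (SimpleGraph.Walk.cons h4 SimpleGraph.Walk.nil)
    (by simp [SimpleGraph.Walk.cons_isPath_iff, h1.ne, h2.ne, h3.ne, h4.ne, hac, hbd])
    (by simp [SimpleGraph.Walk.cons_isPath_iff, h4.ne])
  simp at h

theorem d3_five {V : Type} (T : SimpleGraph V) (hT : T.IsTree) (hd : ∀ x y, T.dist x y ≤ 3)
    {a b c d e : V}
    (h1 : T.Adj a b) (h2 : T.Adj b c) (h3 : T.Adj c d) (h4 : T.Adj d e)
    (hac : a ≠ c) (had : a ≠ d) (hae : a ≠ e) (hbd : b ≠ d) (hbe : b ≠ e) (hce : c ≠ e) :
    False := by
  obtain ⟨q, hq, hql⟩ := hT.isConnected.exists_path_of_dist a e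
  have h := d3_len T hT.IsAcyclic (SimpleGraph.Walk.cons h1 (SimpleGraph.Walk.cons h2
    (SimpleGraph.Walk.cons h3 (SimpleGraph.Walk.cons h4 SimpleGraph.Walk.nil))))
    q
    (by simp [SimpleGraph.Walk.cons_isPath_iff, h1.ne, h2.ne, h3.ne, h4.ne, hac, hbd, had, hae,
      hbe, hce])
    hq
  simp at h
  have := hd a e
  omega

theorem d3_side {V : Type} (T : SimpleGraph V) (hT : T.IsTree) (hd : ∀ x y, T.dist x y ≤ 3)
    {u v b z w : V} (huv : T.Adj u v) (hvb : T.Adj v b) (hub : u ≠ b)
    (hz : T.Adj z u) (hzv : z ≠ v) (hw : T.Adj w z) : w = u := by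
  by_contra hwu
  have hac := hT.IsAcyclic
  have hwv : w ≠ v := by
    rintro rfl
    exact d3_tri T hac hw hz huv.symm
  have hzb : z ≠ b := by
    rintro rfl
    exact d3_tri T hac hz huv hvb.symm
  have hwb : w ≠ b := by
    rintro rfl
    exact d3_four T hac hw hz huv hvb.symm hwu hzv
  exact d3_five T hT hd hw hz huv hvb hwu hwv hwb hzv hzb hub

theorem d3_cov {V : Type} (T : SimpleGraph V) (hT : T.IsTree)
    {u v : V}
    (hu : ∀ z w, T.Adj z u → z ≠ v → T.Adj w z → w = u)
    (hv : ∀ z w, T.Adj z v → z ≠ u → T.Adj w z → w = v) :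
    ∀ x y, T.Adj x y → (x = u ∨ x = v) ∨ (y = u ∨ y = v) := by
  have key : ∀ x, x = u ∨ x = v ∨ T.Adj x u ∨ T.Adj x v := by
    intro x
    have hr := hT.isConnected.preconnected u x
    rw [SimpleGraph.reachable_iff_reflTransGen] at hr
    induction hr with
    | refl => exact Or.inl rfl
    | @tail b c _ hbc ih =>
      rcases ih with h | h | h | h
      · subst h; exact Or.inr (Or.inr (Or.inl hbc.symm))
      · subst h; exact Or.inr (Or.inr (Or.inr hbc.symm))
      · by_cases hb : b = v
        · subst hb; exact Or.inr (Or.inr (Or.inr hbc.symm))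
        · exact Or.inl (hu b c h hb hbc.symm)
      · by_cases hb : b = u
        · subst hb; exact Or.inr (Or.inr (Or.inl hbc.symm))
        · exact Or.inr (Or.inl (hv b c h hb hbc.symm))
  intro x y hxy
  rcases key x with h | h | h | h
  · exact Or.inl (Or.inl h)
  · exact Or.inl (Or.inr h)
  · by_cases hx : x = v
    · exact Or.inl (Or.inr hx)
    · exact Or.inr (Or.inl (hu x y h hx hxy.symm))
  · by_cases hx : x = u
    · exact Or.inl (Or.inl hx)
    · exact Or.inr (Or.inr (hv x y h hx hxy.symm))

theorem diam3_cover {n : ℕ} (T : SimpleGraph (Fin n)) (hT : T.IsTree) (hn : 2 ≤ n)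
    (hd : ∀ x y, T.dist x y ≤ 3) :
    ∃ u v, T.Adj u v ∧ ∀ x y, T.Adj x y → (x = u ∨ x = v) ∨ (y = u ∨ y = v) := by
  by_cases h4 : ∃ a u v b, T.Adj a u ∧ T.Adj u v ∧ T.Adj v b ∧ a ≠ v ∧ u ≠ b
  · obtain ⟨a, u, v, b, h1, h2, h3, hav, hub⟩ := h4
    refine ⟨u, v, h2, d3_cov T hT ?_ ?_⟩
    · intro z w hz hzv hw
      exact d3_side T hT hd h2 h3 hub hz hzv hw
    · intro z w hz hzu hw
      exact d3_side T hT hd h2.symm h1.symm hav.symm hz hzu hw
  · have hex : ∃ u v, T.Adj u v := by
      have h0 : (⟨0, by omega⟩ : Fin n) ≠ ⟨1, by omega⟩ := by simp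
      have hr := hT.isConnected.preconnected (⟨0, by omega⟩ : Fin n) ⟨1, by omega⟩
      rw [SimpleGraph.reachable_iff_reflTransGen] at hr
      rcases Relation.ReflTransGen.cases_head hr with h | ⟨c, hc, _⟩
      · exact absurd h h0
      · exact ⟨_, c, hc⟩
    obtain ⟨u, v, huv⟩ := hex
    refine ⟨u, v, huv, d3_cov T hT ?_ ?_⟩
    · intro z w hz hzv hw
      by_contra hwu
      exact h4 ⟨w, z, u, v, hw, hz, huv, hwu, hzv⟩
    · intro z w hz hzu hw
      by_contra hwv
      exact h4 ⟨w, z, v, u, hw, hz, huv.symm, hwv, hzu⟩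

end job35119

end Helper78.LapRatio
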