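import Pool.Agent.Helper78.LapRatioMain
set_option autoImplicit false
set_option linter.unusedSectionVars false
open scoped BigOperators
open Classical
namespace Helper78.LapRatio

/-- `x` is an admissible target orientation: the edge `{x, v}` inside the cover is oriented `x → v` -/
def ori {n : ℕ} (T : SimpleGraph (Fin n)) (x v : Fin n) : Prop :=
  2 ≤ T.degree v ∧ (T.degree x = 1 ∨ x < v)

/-- neighbours of `v` except the `x ∈ C` whose edge is oriented `x → v` -/
noncomputable def Np {n : ℕ} (T : SimpleGraph (Fin n)) (C : Finset (Fin n)) (v : Fin n) : Finset (Fin n) :=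
  (T.neighborFinset v).filter (fun x => ¬ (x ∈ C ∧ ori T x v))

/-- cost of `v` -/
noncomputable def cst {n : ℕ} (T : SimpleGraph (Fin n)) (C : Finset (Fin n)) (v : Fin n) : ℝ :=
  (T.degree v : ℝ) - ∑ x ∈ Np T C v, 1 / (T.degree x : ℝ)


section job35703






theorem upper_prod {n : ℕ} (T : SimpleGraph (Fin n)) (hT : T.IsTree) (hn : 3 ≤ n)
    (C : Finset (Fin n)) (hC : ∀ v w, T.Adj v w → v ∈ C ∨ w ∈ C) :
    ∑ σ ∈ inv T, wt T σ ≤ ∏ v ∈ C, (1 + (∑ x ∈ Np T C v, 1 / (T.degree x : ℝ)) / (T.degree v : ℝ)) := by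
  -- degree facts
  have hdeg : ∀ v w, T.Adj v w → 1 ≤ T.degree v := by
    intro v w h
    rw [Nat.succ_le_iff, T.degree_pos_iff_exists_adj]
    exact ⟨w, h⟩
  have hnb : ∀ v w, T.Adj v w → T.degree v = 1 → ∀ u, T.Adj v u → u = w := by
    intro v w h hd u hu
    rw [← T.card_neighborFinset_eq_degree, Finset.card_eq_one] at hd
    obtain ⟨a, ha⟩ := hd
    have h1 : w ∈ T.neighborFinset v := by rw [T.mem_neighborFinset]; exact h
    have h2 : u ∈ T.neighborFinset v := by rw [T.mem_neighborFinset]; exact hu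
    rw [ha, Finset.mem_singleton] at h1 h2
    rw [h1, h2]
  have hnot11 : ∀ v w, T.Adj v w → ¬ (T.degree v = 1 ∧ T.degree w = 1) := by
    rintro v w hvw ⟨hv, hw⟩
    have hwalk : ∀ (a b : Fin n) (p : T.Walk a b), (a = v ∨ a = w) → (b = v ∨ b = w) := by
      intro a b p
      induction p with
      | nil => exact id
      | cons hadj p ih =>
        intro ha
        apply ih
        rcases ha with rfl | rfl
        · right; exact hnb _ w hvw hv _ hadj
        · left; exact hnb _ v hvw.symm hw _ hadj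
    have hall : ∀ u : Fin n, u = v ∨ u = w := by
      intro u
      obtain ⟨p⟩ := hT.1.preconnected v u
      exact hwalk v u p (Or.inl rfl)
    have hcard : (Finset.univ : Finset (Fin n)).card ≤ ({v, w} : Finset (Fin n)).card := by
      apply Finset.card_le_card
      intro u _
      rcases hall u with rfl | rfl <;> simp
    have h2 : ({v, w} : Finset (Fin n)).card ≤ 2 := Finset.card_le_two
    simp at hcard
    omega
  have hori : ∀ v w, T.Adj v w → (ori T w v ↔ ¬ ori T v w) := by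
    intro v w hvw
    have h1 := hdeg v w hvw
    have h2 := hdeg w v hvw.symm
    have h3 := hnot11 v w hvw
    have h4 : v ≠ w := hvw.ne
    unfold ori
    rcases lt_trichotomy v w with h | h | h
    · have h5 : ¬ w < v := not_lt.mpr h.le
      simp only [h, h5, or_true, or_false, and_true]
      omega
    · exact absurd h h4
    · have h5 : ¬ v < w := not_lt.mpr h.le
      simp only [h, h5, or_true, or_false, and_true]
      omega
  -- the choice function
  let A : Equiv.Perm (Fin n) → Fin n → Prop :=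
    fun σ v => v ∈ C ∧ σ v ≠ v ∧ ¬ (σ v ∈ C ∧ ori T (σ v) v)
  let F : Equiv.Perm (Fin n) → Fin n → Fin n := fun σ v => if A σ v then σ v else v
  let om : Fin n → Fin n → ℝ :=
    fun v x => if x = v then 1 else 1 / (T.degree x : ℝ) / (T.degree v : ℝ)
  let S : Fin n → Finset (Fin n) := fun v => if v ∈ C then insert v (Np T C v) else {v}
  have hinv : ∀ σ ∈ inv T, ∀ v, σ v = v ∨ T.Adj v (σ v) := by
    intro σ hσ
    exact (Finset.mem_filter.mp hσ).2
  have hAA : ∀ σ ∈ inv T, ∀ v, σ v ≠ v → (A σ (σ v) ↔ ¬ A σ v) := by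
    intro σ hσ v hv
    have hadj : T.Adj v (σ v) := (hinv σ hσ v).resolve_left hv
    have hss := acyc_invol T hT σ (hinv σ hσ) v
    have hc := hC v (σ v) hadj
    have ho := hori v (σ v) hadj
    simp only [A, hss]
    have hv' : v ≠ σ v := fun h => hv h.symm
    by_cases h1 : v ∈ C <;> by_cases h2 : σ v ∈ C
    · simp only [h1, h2, true_and, ne_eq, hv, hv', not_false_eq_true, not_not]
      rw [ho]
    · simp [h1, h2, hv]
    · simp [h1, h2, hv']
    · exact absurd hc (by simp [h1, h2])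
  have hFS : ∀ σ ∈ inv T, F σ ∈ Fintype.piFinset S := by
    intro σ hσ
    rw [Fintype.mem_piFinset]
    intro v
    simp only [F, S]
    by_cases hA : A σ v
    · rw [if_pos hA, if_pos hA.1]
      apply Finset.mem_insert_of_mem
      rw [Np, Finset.mem_filter, T.mem_neighborFinset]
      exact ⟨(hinv σ hσ v).resolve_left hA.2.1, hA.2.2⟩
    · rw [if_neg hA]
      split_ifs <;> simp
  have hkey : ∀ σ ∈ inv T, ∀ τ ∈ inv T, F σ = F τ → ∀ v, σ v ≠ v → τ v = σ v := by
    intro σ hσ τ hτ hF v hv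
    have aux : ∀ u, A σ u → τ u = σ u := by
      intro u hu
      have h1 : F τ u = σ u := by
        rw [← hF]; simp only [F]; rw [if_pos hu]
      by_cases hB : A τ u
      · simp only [F] at h1
        rw [if_pos hB] at h1
        exact h1
      · simp only [F] at h1
        rw [if_neg hB] at h1
        exact absurd h1.symm hu.2.1
    by_cases hA : A σ v
    · exact aux v hA
    · have hB := (hAA σ hσ v hv).mpr hA
      have h1 := aux _ hB
      rw [acyc_invol T hT σ (hinv σ hσ) v] at h1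
      have h2 := acyc_invol T hT τ (hinv τ hτ) (σ v)
      rw [h1] at h2
      exact h2
  have hinj : ∀ σ ∈ inv T, ∀ τ ∈ inv T, F σ = F τ → σ = τ := by
    intro σ hσ τ hτ hF
    ext v
    by_cases h1 : σ v = v
    · by_cases h2 : τ v = v
      · rw [h1, h2]
      · rw [hkey τ hτ σ hσ hF.symm v h2]
    · rw [hkey σ hσ τ hτ hF v h1]
  have hwt : ∀ σ ∈ inv T, wt T σ = ∏ v, om v (F σ v) := by
    intro σ hσ
    have hss := acyc_invol T hT σ (hinv σ hσ)
    let g : Fin n → ℝ := fun v => if σ v = v then (1 : ℝ) else 1 / (T.degree v : ℝ)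
    have h1 : ∀ v, om v (F σ v) = (if A σ v then g v else 1) * (if A σ v then g (σ v) else 1) := by
      intro v
      by_cases hA : A σ v
      · simp only [om, F, g]
        rw [if_pos hA, if_pos hA, if_pos hA, if_neg hA.2.1, if_neg hA.2.1]
        rw [if_neg (by rw [hss]; exact fun h => hA.2.1 h.symm)]
        ring
      · simp only [om, F]
        rw [if_neg hA, if_neg hA, if_neg hA, if_pos rfl, one_mul]
    rw [Finset.prod_congr rfl (fun v _ => h1 v), Finset.prod_mul_distrib]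
    have h2 : ∏ v, (if A σ v then g (σ v) else 1) = ∏ v, (if A σ (σ v) then g v else 1) := by
      rw [← Equiv.prod_comp σ (fun v => if A σ (σ v) then g v else 1)]
      refine Finset.prod_congr rfl (fun v _ => ?_)
      rw [hss]
    rw [h2, ← Finset.prod_mul_distrib, wt]
    refine Finset.prod_congr rfl (fun v _ => ?_)
    by_cases hv : σ v = v
    · have h3 : ¬ A σ v := fun h => h.2.1 hv
      have h3' : ¬ A σ (σ v) := fun h => h.2.1 (congrArg σ hv)
      rw [if_pos hv, if_neg h3, if_neg h3', one_mul]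
    · have h4 := hAA σ hσ v hv
      by_cases hA : A σ v
      · have h5 : ¬ A σ (σ v) := fun h => (h4.mp h) hA
        rw [if_neg hv, if_pos hA, if_neg h5, mul_one]
        simp only [g]
        rw [if_neg hv]
      · rw [if_neg hv, if_neg hA, if_pos (h4.mpr hA), one_mul]
        simp only [g]
        rw [if_neg hv]
  have hprod : ∏ v ∈ C, (1 + (∑ x ∈ Np T C v, 1 / (T.degree x : ℝ)) / (T.degree v : ℝ))
      = ∏ v, ∑ x ∈ S v, om v x := by
    rw [← Finset.prod_subset (Finset.subset_univ C)]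
    · refine Finset.prod_congr rfl (fun v hv => ?_)
      have hvN : v ∉ Np T C v := by
        rw [Np, Finset.mem_filter, T.mem_neighborFinset]
        exact fun h => T.loopless.irrefl v h.1
      simp only [S, om]
      rw [if_pos hv, Finset.sum_insert hvN, if_pos rfl, Finset.sum_div]
      congr 1
      refine Finset.sum_congr rfl (fun x hx => ?_)
      rw [if_neg]
      rintro rfl
      exact hvN hx
    · intro v _ hv
      simp only [S, om]
      rw [if_neg hv]
      simp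
  rw [hprod, Finset.prod_univ_sum, Finset.sum_congr rfl hwt]
  rw [← Finset.sum_image (s := inv T) (g := F) (f := fun f => ∏ v, om v (f v)) (fun σ hσ τ hτ h => hinj σ hσ τ hτ h)]
  apply Finset.sum_le_sum_of_subset_of_nonneg
  · intro f hf
    obtain ⟨σ, hσ, rfl⟩ := Finset.mem_image.mp hf
    exact hFS σ hσ
  · intro f _ _
    apply Finset.prod_nonneg
    intro v _
    simp only [om]
    split_ifs
    · norm_num
    · positivity

end job35703

section job35704




theorem cost_half {n : ℕ} (T : SimpleGraph (Fin n)) (hT : T.IsTree) (hn : 3 ≤ n)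
    (C : Finset (Fin n)) (hC : ∀ v w, T.Adj v w → v ∈ C ∨ w ∈ C) (hk : 2 ≤ C.card) :
    ∀ v ∈ C, 1 / 2 ≤ cst T C v := by
  intro v hv
  by_contra hlt
  push Not at hlt
  have hd : ∀ x, T.Adj v x → 1 ≤ T.degree x := by
    intro x hx
    rw [Nat.succ_le_iff, T.degree_pos_iff_exists_adj]
    exact ⟨v, hx.symm⟩
  have hc : cst T C v =
      ∑ x ∈ T.neighborFinset v, (1 - if x ∈ Np T C v then 1 / (T.degree x : ℝ) else 0) := by
    rw [Finset.sum_sub_distrib, ← Finset.sum_filter]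
    unfold cst
    have : (T.neighborFinset v).filter (fun x => x ∈ Np T C v) = Np T C v := by
      ext x
      simp only [Np, Finset.mem_filter]
      tauto
    rw [this, Finset.sum_const, nsmul_eq_mul, mul_one, SimpleGraph.card_neighborFinset_eq_degree]
  have hterm : ∀ x ∈ T.neighborFinset v,
      0 ≤ (1 - if x ∈ Np T C v then 1 / (T.degree x : ℝ) else 0) := by
    intro x hx
    have h0 := hd x (by simpa using hx)
    have h1 : (1 : ℝ) ≤ T.degree x := by exact_mod_cast h0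
    split_ifs
    · have : 1 / (T.degree x : ℝ) ≤ 1 := by
        rw [div_le_one (by linarith)]
        exact h1
      linarith
    · norm_num
  have hall : ∀ x, T.Adj v x → x ∈ Np T C v ∧ T.degree x = 1 := by
    intro x hx
    have hx' : x ∈ T.neighborFinset v := by simpa using hx
    have h1 := Finset.single_le_sum hterm hx'
    rw [← hc] at h1
    have h2 := h1.trans_lt hlt
    by_cases h3 : x ∈ Np T C v
    · rw [if_pos h3] at h2
      refine ⟨h3, ?_⟩
      by_contra h4
      have h5 : 2 ≤ T.degree x := by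
        have := hd x hx
        omega
      have h6 : (2 : ℝ) ≤ T.degree x := by exact_mod_cast h5
      have : 1 / (T.degree x : ℝ) ≤ 1 / 2 := one_div_le_one_div_of_le (by norm_num) h6
      linarith
    · rw [if_neg h3] at h2
      norm_num at h2
  have hstar : ∀ w, w = v ∨ T.Adj v w := by
    intro w
    have hr : T.Reachable v w := hT.1.preconnected v w
    rw [SimpleGraph.reachable_iff_reflTransGen] at hr
    induction hr with
    | refl => left; rfl
    | tail _ hbc ih =>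
      rename_i b c _
      rcases ih with h | h
      · right
        rw [← h]
        exact hbc
      · left
        obtain ⟨w0, _, hw0⟩ := SimpleGraph.degree_eq_one_iff_existsUnique_adj.1 (hall b h).2
        rw [hw0 c hbc, hw0 v h.symm]
  have hnf : T.neighborFinset v = Finset.univ.erase v := by
    ext w
    rw [SimpleGraph.mem_neighborFinset, Finset.mem_erase]
    constructor
    · intro h
      exact ⟨h.ne', Finset.mem_univ _⟩
    · intro h
      rcases hstar w with h1 | h1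
      · exact absurd h1 h.1
      · exact h1
  have hdeg : 2 ≤ T.degree v := by
    rw [← SimpleGraph.card_neighborFinset_eq_degree, hnf,
      Finset.card_erase_of_mem (Finset.mem_univ _), Finset.card_univ, Fintype.card_fin]
    omega
  obtain ⟨v', hv', hne⟩ := Finset.exists_mem_ne (show 1 < C.card by omega) v
  rcases hstar v' with h | h
  · exact hne h
  · have h1 := hall v' h
    have h3 := h1.1
    unfold Np at h3
    rw [Finset.mem_filter] at h3
    exact h3.2 ⟨hv', hdeg, Or.inl h1.2⟩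

end job35704

section job35705




theorem cost_sum_deg_pos {n : ℕ} (T : SimpleGraph (Fin n)) (hT : T.IsTree) (hn : 3 ≤ n)
    (v : Fin n) : 1 ≤ T.degree v := by
  haveI : Nontrivial (Fin n) := by
    haveI : Fact (1 < n) := ⟨by omega⟩
    exact Fin.nontrivial_iff_two_le.2 (by omega)
  exact hT.connected.preconnected.degree_pos_of_nontrivial v

theorem cost_sum_not_both {n : ℕ} (T : SimpleGraph (Fin n)) (hT : T.IsTree) (hn : 3 ≤ n)
    (v x : Fin n) (h : T.Adj v x) : ¬ (T.degree v = 1 ∧ T.degree x = 1) := by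
  rintro ⟨h1, h2⟩
  have hv : ∀ w, T.Adj v w → w = x := by
    intro w hw
    have h3 : T.neighborFinset v = {x} := by
      rw [← SimpleGraph.card_neighborFinset_eq_degree] at h1
      obtain ⟨y, hy⟩ := Finset.card_eq_one.1 h1
      have h4 : x ∈ T.neighborFinset v := by rw [SimpleGraph.mem_neighborFinset]; exact h
      rw [hy, Finset.mem_singleton] at h4
      rw [hy, h4]
    have h5 : w ∈ T.neighborFinset v := by rw [SimpleGraph.mem_neighborFinset]; exact hw
    rw [h3, Finset.mem_singleton] at h5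
    exact h5
  have hx : ∀ w, T.Adj x w → w = v := by
    intro w hw
    have h3 : T.neighborFinset x = {v} := by
      rw [← SimpleGraph.card_neighborFinset_eq_degree] at h2
      obtain ⟨y, hy⟩ := Finset.card_eq_one.1 h2
      have h4 : v ∈ T.neighborFinset x := by rw [SimpleGraph.mem_neighborFinset]; exact h.symm
      rw [hy, Finset.mem_singleton] at h4
      rw [hy, h4]
    have h5 : w ∈ T.neighborFinset x := by rw [SimpleGraph.mem_neighborFinset]; exact hw
    rw [h3, Finset.mem_singleton] at h5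
    exact h5
  have hcl : ∀ a b : Fin n, T.Walk a b → (a = v ∨ a = x) → (b = v ∨ b = x) := by
    intro a b p
    induction p with
    | nil => exact id
    | cons hab p ih =>
      rintro (rfl | rfl)
      · exact ih (Or.inr (hv _ hab))
      · exact ih (Or.inl (hx _ hab))
  have hall : ∀ b : Fin n, b = v ∨ b = x := by
    intro b
    obtain ⟨p⟩ := hT.connected.preconnected v b
    exact hcl v b p (Or.inl rfl)
  have hcard : (Finset.univ : Finset (Fin n)) ⊆ {v, x} := by
    intro b _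
    rw [Finset.mem_insert, Finset.mem_singleton]
    exact hall b
  have h6 := Finset.card_le_card hcard
  rw [Finset.card_univ, Fintype.card_fin] at h6
  have h7 : ({v, x} : Finset (Fin n)).card ≤ 2 := Finset.card_le_two
  omega

theorem cost_sum_ori {n : ℕ} (T : SimpleGraph (Fin n)) (hT : T.IsTree) (hn : 3 ≤ n)
    (v x : Fin n) (h : T.Adj v x) (h1 : ¬ ori T x v) : ori T v x := by
  have h2 := cost_sum_deg_pos T hT hn v
  have h3 := cost_sum_deg_pos T hT hn x
  have h4 := cost_sum_not_both T hT hn v x h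
  have h5 : v ≠ x := h.ne
  unfold ori at h1 ⊢
  by_cases hv : 2 ≤ T.degree v
  · have h6 : ¬ (T.degree x = 1 ∨ x < v) := fun h7 => h1 ⟨hv, h7⟩
    push Not at h6
    have h7 : v < x := lt_of_le_of_ne h6.2 h5
    exact ⟨by omega, Or.inr h7⟩
  · have h6 : T.degree v = 1 := by omega
    have h7 : T.degree x ≠ 1 := fun h8 => h4 ⟨h6, h8⟩
    exact ⟨by omega, Or.inl h6⟩

theorem cost_sum_total {n : ℕ} (T : SimpleGraph (Fin n)) (hT : T.IsTree) :
    ∑ v, (T.degree v : ℝ) = 2 * ((n : ℝ) - 1) := by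
  have h1 := T.sum_degrees_eq_twice_card_edges
  have h2 := hT.card_edgeFinset
  rw [Fintype.card_fin] at h2
  have h3 : ∑ v, (T.degree v : ℝ) = ((∑ v, T.degree v : ℕ) : ℝ) := by push_cast; rfl
  rw [h3, h1]
  have h4 : (n : ℝ) = (T.edgeFinset.card : ℝ) + 1 := by exact_mod_cast h2.symm
  rw [h4]
  push_cast
  ring

theorem cost_sum_out {n : ℕ} (T : SimpleGraph (Fin n))
    (C : Finset (Fin n)) (hC : ∀ v w, T.Adj v w → v ∈ C ∨ w ∈ C) (f : Fin n → ℝ) :
    ∑ v ∈ C, ∑ x ∈ (T.neighborFinset v).filter (fun x => x ∉ C), f x =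
      ∑ x ∈ Cᶜ, (T.degree x : ℝ) * f x := by
  rw [Finset.sum_comm' (s' := fun x => T.neighborFinset x) (t' := Cᶜ)]
  · refine Finset.sum_congr rfl fun x _ => ?_
    rw [Finset.sum_const, SimpleGraph.card_neighborFinset_eq_degree, nsmul_eq_mul]
  · intro v x
    simp only [Finset.mem_filter, SimpleGraph.mem_neighborFinset, Finset.mem_compl]
    constructor
    · rintro ⟨h1, h2, h3⟩
      exact ⟨h2.symm, h3⟩
    · rintro ⟨h1, h2⟩
      refine ⟨?_, h1.symm, h2⟩
      rcases hC x v h1 with h | h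
      · exact absurd h h2
      · exact h

theorem cost_sum_in {n : ℕ} (T : SimpleGraph (Fin n)) (hT : T.IsTree) (hn : 3 ≤ n)
    (C : Finset (Fin n)) :
    ∑ v ∈ C, (((T.neighborFinset v).filter (fun x => x ∈ C ∧ ¬ ori T x v)).card : ℝ) ≤
      ∑ v ∈ C, (((T.neighborFinset v).filter (fun x => x ∈ C ∧ ori T x v)).card : ℝ) := by
  have h1 : ∑ v ∈ C, (((T.neighborFinset v).filter (fun x => x ∈ C ∧ ori T x v)).card : ℝ) =
      ∑ v ∈ C, (((T.neighborFinset v).filter (fun x => x ∈ C ∧ ori T v x)).card : ℝ) := by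
    have h2 : ∀ v, (((T.neighborFinset v).filter (fun x => x ∈ C ∧ ori T x v)).card : ℝ) =
        ∑ x ∈ (T.neighborFinset v).filter (fun x => x ∈ C ∧ ori T x v), (1 : ℝ) := by
      intro v
      rw [Finset.sum_const, nsmul_eq_mul, mul_one]
    have h3 : ∀ v, (((T.neighborFinset v).filter (fun x => x ∈ C ∧ ori T v x)).card : ℝ) =
        ∑ x ∈ (T.neighborFinset v).filter (fun x => x ∈ C ∧ ori T v x), (1 : ℝ) := by
      intro v
      rw [Finset.sum_const, nsmul_eq_mul, mul_one]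
    rw [Finset.sum_congr rfl fun v _ => h2 v, Finset.sum_congr rfl fun v _ => h3 v]
    apply Finset.sum_comm'
    intro v x
    simp only [Finset.mem_filter, SimpleGraph.mem_neighborFinset]
    constructor
    · rintro ⟨h4, h5, h6, h7⟩
      exact ⟨⟨h5.symm, h4, h7⟩, h6⟩
    · rintro ⟨⟨h4, h5, h6⟩, h7⟩
      exact ⟨h5, h4.symm, h7, h6⟩
  rw [h1]
  refine Finset.sum_le_sum fun v _ => ?_
  norm_cast
  refine Finset.card_le_card fun x hx => ?_
  simp only [Finset.mem_filter, SimpleGraph.mem_neighborFinset] at hx ⊢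
  exact ⟨hx.1, hx.2.1, cost_sum_ori T hT hn v x hx.1 hx.2.2⟩

theorem cost_sum_Np {n : ℕ} (T : SimpleGraph (Fin n)) (hT : T.IsTree) (hn : 3 ≤ n)
    (C : Finset (Fin n)) (v : Fin n) :
    ∑ x ∈ Np T C v, 1 / (T.degree x : ℝ) ≤
      ∑ x ∈ (T.neighborFinset v).filter (fun x => x ∉ C), 1 / (T.degree x : ℝ) +
      (((T.neighborFinset v).filter (fun x => x ∈ C ∧ ¬ ori T x v)).card : ℝ) := by
  have h1 : Np T C v = (T.neighborFinset v).filter (fun x => x ∉ C) ∪
      (T.neighborFinset v).filter (fun x => x ∈ C ∧ ¬ ori T x v) := by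
    ext x
    unfold Np
    simp only [Finset.mem_filter, Finset.mem_union]
    tauto
  have h2 : Disjoint ((T.neighborFinset v).filter (fun x => x ∉ C))
      ((T.neighborFinset v).filter (fun x => x ∈ C ∧ ¬ ori T x v)) := by
    rw [Finset.disjoint_left]
    intro x hx hx'
    simp only [Finset.mem_filter] at hx hx'
    exact hx.2 hx'.2.1
  rw [h1, Finset.sum_union h2]
  have h3 : ∑ x ∈ (T.neighborFinset v).filter (fun x => x ∈ C ∧ ¬ ori T x v),
      1 / (T.degree x : ℝ) ≤ ∑ x ∈ (T.neighborFinset v).filter (fun x => x ∈ C ∧ ¬ ori T x v),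
      (1 : ℝ) := by
    refine Finset.sum_le_sum fun x _ => ?_
    have h4 := cost_sum_deg_pos T hT hn x
    have h5 : (1 : ℝ) ≤ T.degree x := by exact_mod_cast h4
    rw [div_le_one (by linarith)]
    exact h5
  rw [Finset.sum_const, nsmul_eq_mul, mul_one] at h3
  linarith

theorem cost_sum_split {n : ℕ} (T : SimpleGraph (Fin n)) (C : Finset (Fin n)) (v : Fin n) :
    (T.degree v : ℝ) =
      ∑ x ∈ (T.neighborFinset v).filter (fun x => x ∉ C), (1 : ℝ) +
      (((T.neighborFinset v).filter (fun x => x ∈ C ∧ ¬ ori T x v)).card : ℝ) +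
      (((T.neighborFinset v).filter (fun x => x ∈ C ∧ ori T x v)).card : ℝ) := by
  rw [Finset.sum_const, nsmul_eq_mul, mul_one, ← SimpleGraph.card_neighborFinset_eq_degree]
  have h1 := Finset.card_filter_add_card_filter_not (s := T.neighborFinset v) (fun x => x ∈ C)
  have h2 := Finset.card_filter_add_card_filter_not
    (s := (T.neighborFinset v).filter (fun x => x ∈ C)) (fun x => ori T x v)
  rw [Finset.filter_filter, Finset.filter_filter] at h2
  rw [← h1, ← h2]
  push_cast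
  ring



theorem cost_sum {n : ℕ} (T : SimpleGraph (Fin n)) (hT : T.IsTree) (hn : 3 ≤ n)
    (C : Finset (Fin n)) (hC : ∀ v w, T.Adj v w → v ∈ C ∨ w ∈ C) :
    (C.card : ℝ) - 1 ≤ ∑ v ∈ C, cst T C v ∧ (∑ v ∈ C, (T.degree v : ℝ)) ≤ (n : ℝ) + C.card - 2 := by
  have hpos := cost_sum_deg_pos T hT hn
  have htot := cost_sum_total T hT
  have hsplit : ∑ v, (T.degree v : ℝ) = ∑ v ∈ C, (T.degree v : ℝ) + ∑ v ∈ Cᶜ, (T.degree v : ℝ) :=
    (Finset.sum_add_sum_compl C _).symm
  have hXcard : (Cᶜ.card : ℝ) = (n : ℝ) - C.card := by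
    rw [Finset.card_compl, Fintype.card_fin, Nat.cast_sub]
    have := Finset.card_le_univ C
    rwa [Fintype.card_fin] at this
  have hX : (Cᶜ.card : ℝ) ≤ ∑ v ∈ Cᶜ, (T.degree v : ℝ) := by
    have h1 : ∑ v ∈ Cᶜ, (1 : ℝ) ≤ ∑ v ∈ Cᶜ, (T.degree v : ℝ) := by
      refine Finset.sum_le_sum fun v _ => ?_
      exact_mod_cast hpos v
    rwa [Finset.sum_const, nsmul_eq_mul, mul_one] at h1
  refine ⟨?_, by linarith⟩
  have h1 := cost_sum_out T C hC (fun _ => 1)
  simp only [mul_one] at h1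
  have h2 := cost_sum_out T C hC (fun x => 1 / (T.degree x : ℝ))
  have h3 : ∑ x ∈ Cᶜ, (T.degree x : ℝ) * (1 / (T.degree x : ℝ)) = (Cᶜ.card : ℝ) := by
    have h4 : ∀ x ∈ Cᶜ, (T.degree x : ℝ) * (1 / (T.degree x : ℝ)) = 1 := by
      intro x _
      have h5 : (1 : ℝ) ≤ T.degree x := by exact_mod_cast hpos x
      rw [mul_one_div, div_self (by linarith)]
    rw [Finset.sum_congr rfl h4, Finset.sum_const, nsmul_eq_mul, mul_one]
  rw [h3] at h2
  have h6 := cost_sum_in T hT hn C
  have h7 : ∑ v ∈ C, (T.degree v : ℝ) = ∑ v ∈ C,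
      (∑ x ∈ (T.neighborFinset v).filter (fun x => x ∉ C), (1 : ℝ) +
      (((T.neighborFinset v).filter (fun x => x ∈ C ∧ ¬ ori T x v)).card : ℝ) +
      (((T.neighborFinset v).filter (fun x => x ∈ C ∧ ori T x v)).card : ℝ)) :=
    Finset.sum_congr rfl fun v _ => cost_sum_split T C v
  rw [Finset.sum_add_distrib, Finset.sum_add_distrib, h1] at h7
  have h8 : ∑ v ∈ C, ∑ x ∈ Np T C v, 1 / (T.degree x : ℝ) ≤
      ∑ v ∈ C, (∑ x ∈ (T.neighborFinset v).filter (fun x => x ∉ C), 1 / (T.degree x : ℝ) +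
      (((T.neighborFinset v).filter (fun x => x ∈ C ∧ ¬ ori T x v)).card : ℝ)) :=
    Finset.sum_le_sum fun v _ => cost_sum_Np T hT hn C v
  rw [Finset.sum_add_distrib, h2] at h8
  have h9 : ∑ v ∈ C, cst T C v = ∑ v ∈ C, (T.degree v : ℝ) -
      ∑ v ∈ C, ∑ x ∈ Np T C v, 1 / (T.degree x : ℝ) := by
    rw [← Finset.sum_sub_distrib]
    rfl
  rw [h9]
  linarith

end job35705

section job35706


theorem sm_two (a x : ℝ) (ha : 1 / 2 ≤ a) (hx : 1 / 2 ≤ x) :
    Real.sqrt (1 / 2) + Real.sqrt (a + x - 1 / 2) ≤ Real.sqrt a + Real.sqrt x := by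
  have h1 : Real.sqrt (1 / 2) * Real.sqrt (a + x - 1 / 2) ≤ Real.sqrt a * Real.sqrt x := by
    rw [← Real.sqrt_mul (by norm_num), ← Real.sqrt_mul (by linarith)]
    apply Real.sqrt_le_sqrt
    nlinarith [mul_nonneg (sub_nonneg.mpr ha) (sub_nonneg.mpr hx)]
  have e1 := Real.sq_sqrt (show (0:ℝ) ≤ 1 / 2 by norm_num)
  have e2 := Real.sq_sqrt (show (0:ℝ) ≤ a + x - 1 / 2 by linarith)
  have e3 := Real.sq_sqrt (show (0:ℝ) ≤ a by linarith)
  have e4 := Real.sq_sqrt (show (0:ℝ) ≤ x by linarith)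
  apply le_of_sq_le_sq _ (by positivity)
  nlinarith

theorem sm_ind {ι : Type*} (s : Finset ι) (c : ι → ℝ) (hne : s.Nonempty)
    (hc : ∀ i ∈ s, 1 / 2 ≤ c i) :
    ((s.card : ℝ) - 1) * Real.sqrt (1 / 2) + Real.sqrt (∑ i ∈ s, c i - ((s.card : ℝ) - 1) / 2)
      ≤ ∑ i ∈ s, Real.sqrt (c i) := by
  induction hne using Finset.Nonempty.cons_induction with
  | singleton a => simp
  | cons a s ha hs ih =>
    have ih' := ih (fun i hi => hc i (Finset.mem_cons_of_mem hi))
    have hca := hc a (Finset.mem_cons_self a s)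
    have hX : (s.card : ℝ) / 2 ≤ ∑ i ∈ s, c i := by
      have := Finset.card_nsmul_le_sum s c (1 / 2) (fun i hi => hc i (Finset.mem_cons_of_mem hi))
      rw [nsmul_eq_mul] at this
      linarith
    have h2 := sm_two (c a) (∑ i ∈ s, c i - ((s.card : ℝ) - 1) / 2) hca (by linarith)
    rw [Finset.sum_cons, Finset.sum_cons, Finset.card_cons]
    push_cast
    have e : c a + ∑ i ∈ s, c i - ((s.card : ℝ) + 1 - 1) / 2 =
      c a + (∑ i ∈ s, c i - ((s.card : ℝ) - 1) / 2) - 1 / 2 := by ring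
    rw [e]
    nlinarith [ih', h2]

theorem sqrt_min {ι : Type*} (s : Finset ι) (c : ι → ℝ) (hs : 2 ≤ s.card) (hc : ∀ i ∈ s, 1 / 2 ≤ c i)
    (hsum : (s.card : ℝ) - 1 ≤ ∑ i ∈ s, c i) :
    (((s.card : ℝ) - 1) + Real.sqrt ((s.card : ℝ) - 1)) / Real.sqrt 2 ≤ ∑ i ∈ s, Real.sqrt (c i) := by
  have hne : s.Nonempty := Finset.card_pos.mp (by omega)
  refine le_trans ?_ (sm_ind s c hne hc)
  have hk : (2:ℝ) ≤ (s.card : ℝ) := by exact_mod_cast hs
  have h1 : Real.sqrt (((s.card : ℝ) - 1) / 2) ≤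
      Real.sqrt (∑ i ∈ s, c i - ((s.card : ℝ) - 1) / 2) := by
    apply Real.sqrt_le_sqrt
    linarith
  rw [Real.sqrt_div (by linarith)] at h1
  have h2 : Real.sqrt (1 / 2) = 1 / Real.sqrt 2 := by
    rw [Real.sqrt_div (by norm_num), Real.sqrt_one]
  rw [h2, add_div]
  have h3 : ((s.card : ℝ) - 1) * (1 / Real.sqrt 2) = ((s.card : ℝ) - 1) / Real.sqrt 2 := by ring
  rw [h3]
  linarith

end job35706

section job35707




/-- involutions moving only elements of `S` inside `C` -/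
noncomputable def lpI {n : ℕ} (T : SimpleGraph (Fin n)) (C S : Finset (Fin n)) : Finset (Equiv.Perm (Fin n)) :=
  (inv T).filter (fun σ => ∀ u ∈ C, u ∉ S → σ u = u)

theorem lp_mem {n : ℕ} (T : SimpleGraph (Fin n)) (C S : Finset (Fin n)) (σ : Equiv.Perm (Fin n)) :
    σ ∈ lpI T C S ↔ (∀ v, σ v = v ∨ T.Adj v (σ v)) ∧ ∀ u ∈ C, u ∉ S → σ u = u := by
  simp [lpI, inv]

theorem lp_wt_nonneg {n : ℕ} (T : SimpleGraph (Fin n)) (σ : Equiv.Perm (Fin n)) : 0 ≤ wt T σ := by
  unfold wt
  refine Finset.prod_nonneg fun v _ => ?_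
  split_ifs <;> positivity

theorem lp_wt_swap {n : ℕ} (T : SimpleGraph (Fin n)) (σ : Equiv.Perm (Fin n)) (v x : Fin n) (hvx : v ≠ x)
    (h1 : σ v = x) (h2 : σ x = v) :
    wt T σ = (1 / (T.degree v : ℝ) * (1 / (T.degree x : ℝ))) * wt T (σ * Equiv.swap v x) := by
  unfold wt
  have hc : ∏ w : Fin n, ((if w = v then 1 / (T.degree v : ℝ) else 1) * (if w = x then 1 / (T.degree x : ℝ) else 1))
      = 1 / (T.degree v : ℝ) * (1 / (T.degree x : ℝ)) := by
    rw [Finset.prod_mul_distrib]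
    simp
  rw [← hc, ← Finset.prod_mul_distrib]
  refine Finset.prod_congr rfl fun w _ => ?_
  by_cases hwv : w = v
  · subst hwv
    simp [h1, h2, hvx, hvx.symm]
  · by_cases hwx : w = x
    · subst hwx
      simp [h1, h2, hwv, hvx]
    · simp [hwv, hwx, Equiv.swap_apply_of_ne_of_ne hwv hwx]

theorem lp_key {n : ℕ} (T : SimpleGraph (Fin n)) (hT : T.IsTree) (C S : Finset (Fin n)) (v x : Fin n)
    (hv : v ∈ C) (hvS : v ∉ S) (hx : T.Adj v x) (hxC : x ∉ C) :
    ∑ σ ∈ (lpI T C (insert v S)).filter (fun σ => σ v = x), wt T σ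
      = (1 / (T.degree v : ℝ) * (1 / (T.degree x : ℝ))) *
        ∑ σ ∈ (lpI T C S).filter (fun σ => σ x = x), wt T σ := by
  have hvx : v ≠ x := hx.ne
  rw [Finset.mul_sum]
  refine Finset.sum_nbij' (fun σ => σ * Equiv.swap v x) (fun σ => σ * Equiv.swap v x) ?_ ?_ ?_ ?_ ?_
  · intro σ hσ
    rw [Finset.mem_filter, lp_mem] at hσ ⊢
    obtain ⟨⟨h1, h2⟩, h3⟩ := hσ
    have h4 : σ x = v := by
      have := acyc_invol T hT σ h1 v
      rwa [h3] at this
    refine ⟨⟨?_, ?_⟩, ?_⟩
    · intro w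
      by_cases hwv : w = v
      · subst hwv; left; simp [h4]
      · by_cases hwx : w = x
        · subst hwx; left; simp [h3]
        · simp only [Equiv.Perm.coe_mul, Function.comp_apply, Equiv.swap_apply_of_ne_of_ne hwv hwx]
          exact h1 w
    · intro u hu huS
      by_cases huv : u = v
      · subst huv; simp [h4]
      · have hux : u ≠ x := fun h => hxC (h ▸ hu)
        simp only [Equiv.Perm.coe_mul, Function.comp_apply, Equiv.swap_apply_of_ne_of_ne huv hux]
        exact h2 u hu (by simp [huv, huS])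
    · simp [h3]
  · intro σ hσ
    rw [Finset.mem_filter, lp_mem] at hσ ⊢
    obtain ⟨⟨h1, h2⟩, h3⟩ := hσ
    have h4 : σ v = v := h2 v hv hvS
    refine ⟨⟨?_, ?_⟩, ?_⟩
    · intro w
      by_cases hwv : w = v
      · subst hwv; right; simpa [h3] using hx
      · by_cases hwx : w = x
        · subst hwx; right; simpa [h4] using hx.symm
        · simp only [Equiv.Perm.coe_mul, Function.comp_apply, Equiv.swap_apply_of_ne_of_ne hwv hwx]
          exact h1 w
    · intro u hu huS
      have huv : u ≠ v := fun h => huS (by simp [h])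
      have hux : u ≠ x := fun h => hxC (h ▸ hu)
      simp only [Equiv.Perm.coe_mul, Function.comp_apply, Equiv.swap_apply_of_ne_of_ne huv hux]
      exact h2 u hu (fun h => huS (Finset.mem_insert_of_mem h))
    · simp [h3]
  · intro σ _
    simp [mul_assoc, Equiv.swap_mul_self]
  · intro σ _
    simp [mul_assoc, Equiv.swap_mul_self]
  · intro σ hσ
    rw [Finset.mem_filter, lp_mem] at hσ
    obtain ⟨⟨h1, h2⟩, h3⟩ := hσ
    have h4 : σ x = v := by
      have := acyc_invol T hT σ h1 v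
      rwa [h3] at this
    exact lp_wt_swap T σ v x hvx h3 h4

theorem lp_common {n : ℕ} (T : SimpleGraph (Fin n)) (hT : T.IsTree) (u v x y : Fin n) (huv : u ≠ v)
    (h1 : T.Adj u x) (h2 : T.Adj x v) (h3 : T.Adj u y) (h4 : T.Adj y v) : x = y := by
  let p : T.Path u v := ⟨SimpleGraph.Walk.cons h1 (SimpleGraph.Walk.cons h2 SimpleGraph.Walk.nil), by
    simp [SimpleGraph.Walk.cons_isPath_iff, h1.ne, h2.ne, huv]⟩
  let q : T.Path u v := ⟨SimpleGraph.Walk.cons h3 (SimpleGraph.Walk.cons h4 SimpleGraph.Walk.nil), by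
    simp [SimpleGraph.Walk.cons_isPath_iff, h3.ne, h4.ne, huv]⟩
  have h := hT.isAcyclic.path_unique p q
  have h' := congrArg (fun r : T.Path u v => r.1.getVert 1) h
  simpa [p, q] using h'

theorem lp_split {n : ℕ} (T : SimpleGraph (Fin n)) (C S : Finset (Fin n)) (v : Fin n) (hv : v ∈ C) (hvS : v ∉ S) :
    ∑ σ ∈ lpI T C (insert v S), wt T σ = ∑ σ ∈ lpI T C S, wt T σ +
      ∑ x ∈ T.neighborFinset v, ∑ σ ∈ (lpI T C (insert v S)).filter (fun σ => σ v = x), wt T σ := by
  rw [← Finset.sum_filter_add_sum_filter_not (lpI T C (insert v S)) (fun σ => σ v = v)]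
  congr 1
  · refine Finset.sum_congr ?_ fun _ _ => rfl
    ext σ
    rw [Finset.mem_filter, lp_mem, lp_mem]
    constructor
    · rintro ⟨⟨h1, h2⟩, h3⟩
      refine ⟨h1, fun u hu huS => ?_⟩
      by_cases huv : u = v
      · rw [huv, h3]
      · exact h2 u hu (by simp [huv, huS])
    · rintro ⟨h1, h2⟩
      exact ⟨⟨h1, fun u hu huS => h2 u hu (fun h => huS (Finset.mem_insert_of_mem h))⟩, h2 v hv hvS⟩
  · rw [← Finset.sum_fiberwise_of_maps_to (s := (lpI T C (insert v S)).filter (fun σ => ¬ σ v = v))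
      (t := T.neighborFinset v) (g := fun σ => σ v)]
    · refine Finset.sum_congr rfl fun x hx => Finset.sum_congr ?_ fun _ _ => rfl
      ext σ
      simp only [Finset.mem_filter]
      constructor
      · rintro ⟨⟨h1, h2⟩, h3⟩
        exact ⟨h1, h3⟩
      · rintro ⟨h1, h3⟩
        refine ⟨⟨h1, ?_⟩, h3⟩
        rw [h3]
        rw [SimpleGraph.mem_neighborFinset] at hx
        exact hx.ne'
    · intro σ hσ
      rw [Finset.mem_filter, lp_mem] at hσ
      rw [SimpleGraph.mem_neighborFinset]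
      rcases hσ.1.1 v with h | h
      · exact absurd h hσ.2
      · exact h



theorem lp_zero {n : ℕ} (T : SimpleGraph (Fin n)) (C : Finset (Fin n))
    (hC : ∀ v w, T.Adj v w → v ∈ C ∨ w ∈ C) : ∑ σ ∈ lpI T C ∅, wt T σ = 1 := by
  have h : lpI T C ∅ = {1} := by
    ext σ
    rw [lp_mem, Finset.mem_singleton]
    constructor
    · rintro ⟨h1, h2⟩
      ext w
      by_contra hcon
      have hw : σ w ≠ w := fun h => hcon (by rw [h]; rfl)
      have hadj : T.Adj w (σ w) := (h1 w).resolve_left hw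
      rcases hC _ _ hadj with h | h
      · exact hw (h2 w h (by simp))
      · have := h2 (σ w) h (by simp)
        exact hw (σ.injective this)
    · rintro rfl
      exact ⟨fun v => Or.inl rfl, fun u _ _ => rfl⟩
  rw [h, Finset.sum_singleton]
  simp [wt]

theorem lp_H_le {n : ℕ} (T : SimpleGraph (Fin n)) (C S : Finset (Fin n)) (x : Fin n) :
    ∑ σ ∈ (lpI T C S).filter (fun σ => σ x = x), wt T σ ≤ ∑ σ ∈ lpI T C S, wt T σ :=
  Finset.sum_le_sum_of_subset_of_nonneg (Finset.filter_subset _ _) fun σ _ _ => lp_wt_nonneg T σ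

theorem lp_av {n : ℕ} (T : SimpleGraph (Fin n)) (v : Fin n) :
    (∑ x ∈ T.neighborFinset v, 1 / (T.degree x : ℝ)) / (T.degree v : ℝ)
      = ∑ x ∈ T.neighborFinset v, (1 / (T.degree v : ℝ) * (1 / (T.degree x : ℝ))) := by
  rw [Finset.sum_div]
  exact Finset.sum_congr rfl fun x _ => by ring

theorem lp_av_le {n : ℕ} (T : SimpleGraph (Fin n)) (v : Fin n) :
    ∑ x ∈ T.neighborFinset v, (1 / (T.degree v : ℝ) * (1 / (T.degree x : ℝ))) ≤ 1 := by
  calc ∑ x ∈ T.neighborFinset v, (1 / (T.degree v : ℝ) * (1 / (T.degree x : ℝ)))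
      ≤ ∑ x ∈ T.neighborFinset v, 1 / (T.degree v : ℝ) := by
        refine Finset.sum_le_sum fun x hx => ?_
        rw [SimpleGraph.mem_neighborFinset] at hx
        have hpos : 0 < T.degree x := by
          rw [SimpleGraph.degree_pos_iff_exists_adj]
          exact ⟨v, hx.symm⟩
        have h1 : (1:ℝ) ≤ T.degree x := by exact_mod_cast hpos
        have h2 : 1 / (T.degree x : ℝ) ≤ 1 := by
          rw [div_le_one (by linarith)]; exact h1
        calc 1 / (T.degree v : ℝ) * (1 / (T.degree x : ℝ)) ≤ 1 / (T.degree v : ℝ) * 1 :=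
              mul_le_mul_of_nonneg_left h2 (by positivity)
          _ = 1 / (T.degree v : ℝ) := mul_one _
    _ = (T.degree v : ℝ) * (1 / (T.degree v : ℝ)) := by
        rw [Finset.sum_const, SimpleGraph.card_neighborFinset_eq_degree, nsmul_eq_mul]
    _ ≤ 1 := by
        by_cases h : (T.degree v : ℝ) = 0
        · rw [h]; norm_num
        · rw [mul_one_div_cancel h]

theorem lp_av_nonneg {n : ℕ} (T : SimpleGraph (Fin n)) (v : Fin n) :
    0 ≤ ∑ x ∈ T.neighborFinset v, (1 / (T.degree v : ℝ) * (1 / (T.degree x : ℝ))) :=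
  Finset.sum_nonneg fun x _ => by positivity

theorem lp_upper {n : ℕ} (T : SimpleGraph (Fin n)) (hT : T.IsTree) (C : Finset (Fin n))
    (hC : ∀ v w, T.Adj v w → v ∈ C ∨ w ∈ C) (hind : ∀ v ∈ C, ∀ w ∈ C, ¬ T.Adj v w)
    (S : Finset (Fin n)) (hS : S ⊆ C) : ∑ σ ∈ lpI T C S, wt T σ ≤ 2 ^ S.card := by
  induction S using Finset.induction_on with
  | empty => rw [lp_zero T C hC]; simp
  | insert v S hvS ih =>
    have hv : v ∈ C := hS (Finset.mem_insert_self v S)
    have hS' : S ⊆ C := fun u hu => hS (Finset.mem_insert_of_mem hu)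
    have ih' := ih hS'
    have hG0 : 0 ≤ ∑ σ ∈ lpI T C S, wt T σ := Finset.sum_nonneg fun σ _ => lp_wt_nonneg T σ
    rw [lp_split T C S v hv hvS, Finset.card_insert_of_notMem hvS, pow_succ]
    have h1 : ∑ x ∈ T.neighborFinset v, ∑ σ ∈ (lpI T C (insert v S)).filter (fun σ => σ v = x), wt T σ
        ≤ ∑ x ∈ T.neighborFinset v, (1 / (T.degree v : ℝ) * (1 / (T.degree x : ℝ))) * ∑ σ ∈ lpI T C S, wt T σ := by
      refine Finset.sum_le_sum fun x hx => ?_
      rw [SimpleGraph.mem_neighborFinset] at hx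
      rw [lp_key T hT C S v x hv hvS hx (fun h => hind v hv x h hx)]
      exact mul_le_mul_of_nonneg_left (lp_H_le T C S x) (by positivity)
    rw [← Finset.sum_mul] at h1
    have h2 := mul_le_mul_of_nonneg_right (lp_av_le T v) hG0
    linarith

theorem lp_H_lower {n : ℕ} (T : SimpleGraph (Fin n)) (hT : T.IsTree) (C : Finset (Fin n))
    (hC : ∀ v w, T.Adj v w → v ∈ C ∨ w ∈ C) (hind : ∀ v ∈ C, ∀ w ∈ C, ¬ T.Adj v w)
    (S : Finset (Fin n)) (hS : S ⊆ C) (x : Fin n) (hx : x ∉ C) :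
    ∑ σ ∈ lpI T C S, wt T σ - ∑ u ∈ S.filter (fun u => T.Adj u x),
      (1 / (T.degree u : ℝ) * (1 / (T.degree x : ℝ))) * 2 ^ S.card
      ≤ ∑ σ ∈ (lpI T C S).filter (fun σ => σ x = x), wt T σ := by
  rw [← Finset.sum_filter_add_sum_filter_not (lpI T C S) (fun σ => σ x = x)]
  have h1 : ∑ σ ∈ (lpI T C S).filter (fun σ => ¬ σ x = x), wt T σ
      ≤ ∑ u ∈ S.filter (fun u => T.Adj u x), (1 / (T.degree u : ℝ) * (1 / (T.degree x : ℝ))) * 2 ^ S.card := by
    rw [← Finset.sum_fiberwise_of_maps_to (s := (lpI T C S).filter (fun σ => ¬ σ x = x))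
      (t := S.filter (fun u => T.Adj u x)) (g := fun σ => σ x)]
    · refine Finset.sum_le_sum fun u hu => ?_
      rw [Finset.mem_filter] at hu
      obtain ⟨huS, hux⟩ := hu
      have huC := hS huS
      have e : ((lpI T C S).filter (fun σ => ¬ σ x = x)).filter (fun σ => σ x = u)
          = (lpI T C (insert u (S.erase u))).filter (fun σ => σ u = x) := by
        rw [Finset.insert_erase huS]
        ext σ
        simp only [Finset.mem_filter]
        constructor
        · rintro ⟨⟨h1, h2⟩, h3⟩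
          refine ⟨h1, ?_⟩
          have := acyc_invol T hT σ ((lp_mem T C S σ).mp h1).1 x
          rwa [h3] at this
        · rintro ⟨h1, h3⟩
          have h4 := acyc_invol T hT σ ((lp_mem T C S σ).mp h1).1 u
          rw [h3] at h4
          refine ⟨⟨h1, ?_⟩, h4⟩
          rw [h4]
          exact hux.ne
      rw [e, lp_key T hT C (S.erase u) u x huC (Finset.notMem_erase u S) hux hx]
      refine mul_le_mul_of_nonneg_left ?_ (by positivity)
      refine (lp_H_le T C _ x).trans ((lp_upper T hT C hC hind _ ((Finset.erase_subset _ _).trans hS)).trans ?_)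
      exact pow_le_pow_right₀ (by norm_num) (Finset.card_le_card (Finset.erase_subset _ _))
    · intro σ hσ
      rw [Finset.mem_filter, lp_mem] at hσ
      obtain ⟨⟨h1, h2⟩, h3⟩ := hσ
      have hadj : T.Adj x (σ x) := (h1 x).resolve_left h3
      have hCx : σ x ∈ C := (hC _ _ hadj).resolve_left hx
      rw [Finset.mem_filter]
      refine ⟨?_, hadj.symm⟩
      by_contra hcon
      exact h3 (σ.injective (h2 _ hCx hcon))
  linarith

theorem lp_double {n : ℕ} (T : SimpleGraph (Fin n)) (hT : T.IsTree) (S : Finset (Fin n)) (v : Fin n)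
    (hvS : v ∉ S) (m : ℕ) (hm : 1 ≤ m) (hv : m ≤ T.degree v) (hdeg : ∀ u ∈ S, m ≤ T.degree u) :
    ∑ x ∈ T.neighborFinset v, (1 / (T.degree v : ℝ) * (1 / (T.degree x : ℝ))) *
      ∑ u ∈ S.filter (fun u => T.Adj u x), (1 / (T.degree u : ℝ) * (1 / (T.degree x : ℝ)))
      ≤ (S.card : ℝ) / (m:ℝ) ^ 2 := by
  have hm0 : (0:ℝ) < m := by exact_mod_cast hm
  have hb : ∀ u x, m ≤ T.degree u → T.Adj u x → 1 / (T.degree u : ℝ) * (1 / (T.degree x : ℝ)) ≤ 1 / m := by
    intro u x hu hux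
    have hpos : 0 < T.degree x := by
      rw [SimpleGraph.degree_pos_iff_exists_adj]
      exact ⟨u, hux.symm⟩
    have h1 : (1:ℝ) ≤ T.degree x := by exact_mod_cast hpos
    have h2 : 1 / (T.degree x : ℝ) ≤ 1 := by
      rw [div_le_one (by linarith)]; exact h1
    have h3 : 1 / (T.degree u : ℝ) ≤ 1 / m := one_div_le_one_div_of_le hm0 (by exact_mod_cast hu)
    calc 1 / (T.degree u : ℝ) * (1 / (T.degree x : ℝ)) ≤ (1 / m) * 1 :=
          mul_le_mul h3 h2 (by positivity) (by positivity)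
      _ = 1 / m := mul_one _
  calc ∑ x ∈ T.neighborFinset v, (1 / (T.degree v : ℝ) * (1 / (T.degree x : ℝ))) *
      ∑ u ∈ S.filter (fun u => T.Adj u x), (1 / (T.degree u : ℝ) * (1 / (T.degree x : ℝ)))
      ≤ ∑ x ∈ T.neighborFinset v, (1 / (m:ℝ)) * ∑ u ∈ S.filter (fun u => T.Adj u x), (1 / (m:ℝ)) := by
        refine Finset.sum_le_sum fun x hx => ?_
        rw [SimpleGraph.mem_neighborFinset] at hx
        refine mul_le_mul (hb v x hv hx) ?_ (Finset.sum_nonneg fun u _ => by positivity) (by positivity)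
        refine Finset.sum_le_sum fun u hu => ?_
        rw [Finset.mem_filter] at hu
        exact hb u x (hdeg u hu.1) hu.2
    _ = ∑ x ∈ T.neighborFinset v, ∑ u ∈ S, (if T.Adj u x then 1 / (m:ℝ) ^ 2 else 0) := by
        refine Finset.sum_congr rfl fun x _ => ?_
        rw [Finset.mul_sum, Finset.sum_filter]
        refine Finset.sum_congr rfl fun u _ => ?_
        split_ifs
        · ring
        · rfl
    _ = ∑ u ∈ S, ∑ x ∈ T.neighborFinset v, (if T.Adj u x then 1 / (m:ℝ) ^ 2 else 0) := Finset.sum_comm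
    _ ≤ ∑ u ∈ S, 1 / (m:ℝ) ^ 2 := by
        refine Finset.sum_le_sum fun u hu => ?_
        rw [← Finset.sum_filter, Finset.sum_const, nsmul_eq_mul]
        have hcard : ((T.neighborFinset v).filter (fun x => T.Adj u x)).card ≤ 1 := by
          rw [Finset.card_le_one]
          intro x hx y hy
          rw [Finset.mem_filter, SimpleGraph.mem_neighborFinset] at hx hy
          exact lp_common T hT u v x y (fun h => hvS (h ▸ hu)) hx.2 hx.1.symm hy.2 hy.1.symm
        have h1 : (((T.neighborFinset v).filter (fun x => T.Adj u x)).card : ℝ) ≤ 1 := by exact_mod_cast hcard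
        have h2 : (0:ℝ) ≤ 1 / (m:ℝ) ^ 2 := by positivity
        nlinarith
    _ = (S.card : ℝ) / (m:ℝ) ^ 2 := by
        rw [Finset.sum_const, nsmul_eq_mul]; ring

theorem lp_main {n : ℕ} (T : SimpleGraph (Fin n)) (hT : T.IsTree) (C : Finset (Fin n))
    (hC : ∀ v w, T.Adj v w → v ∈ C ∨ w ∈ C) (hind : ∀ v ∈ C, ∀ w ∈ C, ¬ T.Adj v w)
    (m : ℕ) (hm : 1 ≤ m) (hdeg : ∀ v ∈ C, m ≤ T.degree v)
    (S : Finset (Fin n)) (hS : S ⊆ C) :
    ∏ v ∈ S, (1 + ∑ x ∈ T.neighborFinset v, (1 / (T.degree v : ℝ) * (1 / (T.degree x : ℝ))))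
      - 2 ^ S.card * (S.card : ℝ) ^ 2 / (m : ℝ) ^ 2 ≤ ∑ σ ∈ lpI T C S, wt T σ := by
  have hm0 : (0:ℝ) < m := by exact_mod_cast hm
  induction S using Finset.induction_on with
  | empty => rw [lp_zero T C hC]; simp
  | insert v S hvS ih =>
    have hv : v ∈ C := hS (Finset.mem_insert_self v S)
    have hS' : S ⊆ C := fun u hu => hS (Finset.mem_insert_of_mem hu)
    have ih' := ih hS'
    rw [lp_split T C S v hv hvS, Finset.prod_insert hvS, Finset.card_insert_of_notMem hvS]
    set G := ∑ σ ∈ lpI T C S, wt T σ with hG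
    set a := ∑ x ∈ T.neighborFinset v, (1 / (T.degree v : ℝ) * (1 / (T.degree x : ℝ))) with ha
    have ha0 : 0 ≤ a := lp_av_nonneg T v
    have ha1 : a ≤ 1 := lp_av_le T v
    have h1 : ∑ x ∈ T.neighborFinset v, (1 / (T.degree v : ℝ) * (1 / (T.degree x : ℝ))) *
        (G - ∑ u ∈ S.filter (fun u => T.Adj u x), (1 / (T.degree u : ℝ) * (1 / (T.degree x : ℝ))) * 2 ^ S.card)
        ≤ ∑ x ∈ T.neighborFinset v, ∑ σ ∈ (lpI T C (insert v S)).filter (fun σ => σ v = x), wt T σ := by
      refine Finset.sum_le_sum fun x hx => ?_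
      rw [SimpleGraph.mem_neighborFinset] at hx
      have hxC : x ∉ C := fun h => hind v hv x h hx
      rw [lp_key T hT C S v x hv hvS hx hxC]
      exact mul_le_mul_of_nonneg_left (lp_H_lower T hT C hC hind S hS' x hxC) (by positivity)
    have h2 : ∑ x ∈ T.neighborFinset v, (1 / (T.degree v : ℝ) * (1 / (T.degree x : ℝ))) *
        (G - ∑ u ∈ S.filter (fun u => T.Adj u x), (1 / (T.degree u : ℝ) * (1 / (T.degree x : ℝ))) * 2 ^ S.card)
        = a * G - (∑ x ∈ T.neighborFinset v, (1 / (T.degree v : ℝ) * (1 / (T.degree x : ℝ))) *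
          ∑ u ∈ S.filter (fun u => T.Adj u x), (1 / (T.degree u : ℝ) * (1 / (T.degree x : ℝ)))) * 2 ^ S.card := by
      rw [ha, Finset.sum_mul, Finset.sum_mul, ← Finset.sum_sub_distrib]
      refine Finset.sum_congr rfl fun x _ => ?_
      rw [← Finset.sum_mul]
      ring
    have h3 := lp_double T hT S v hvS m hm (hdeg v hv) (fun u hu => hdeg u (hS' hu))
    have h4 : (0:ℝ) < 2 ^ S.card := by positivity
    have h5 := mul_le_mul_of_nonneg_right h3 h4.le
    rw [h2] at h1
    have h6 : (1 + a) * (∏ v ∈ S, (1 + ∑ x ∈ T.neighborFinset v, (1 / (T.degree v : ℝ) * (1 / (T.degree x : ℝ))))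
      - 2 ^ S.card * (S.card : ℝ) ^ 2 / (m : ℝ) ^ 2) ≤ (1 + a) * G :=
      mul_le_mul_of_nonneg_left ih' (by linarith)
    have h7 : (1 + a) * (2 ^ S.card * (S.card : ℝ) ^ 2 / (m : ℝ) ^ 2)
        ≤ 2 * (2 ^ S.card * (S.card : ℝ) ^ 2 / (m : ℝ) ^ 2) :=
      mul_le_mul_of_nonneg_right (by linarith) (by positivity)
    have h8 : 2 * (2 ^ S.card * (S.card : ℝ) ^ 2 / (m : ℝ) ^ 2) + (S.card : ℝ) / (m:ℝ) ^ 2 * 2 ^ S.card
        ≤ 2 ^ (S.card + 1) * ((S.card + 1 : ℕ) : ℝ) ^ 2 / (m : ℝ) ^ 2 := by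
      have e1 : 2 * (2 ^ S.card * (S.card : ℝ) ^ 2 / (m : ℝ) ^ 2) + (S.card : ℝ) / (m:ℝ) ^ 2 * 2 ^ S.card
          = (2 ^ S.card * (2 * (S.card : ℝ) ^ 2 + S.card)) / (m:ℝ)^2 := by ring
      rw [e1]
      refine div_le_div_of_nonneg_right ?_ (by positivity)
      have e3 : (2:ℝ) ^ (S.card + 1) = 2 ^ S.card * 2 := pow_succ _ _
      rw [e3, mul_assoc]
      refine mul_le_mul_of_nonneg_left ?_ h4.le
      push_cast
      have : (0:ℝ) ≤ S.card := by positivity
      nlinarith
    nlinarith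

theorem lower_prod {n : ℕ} (T : SimpleGraph (Fin n)) (hT : T.IsTree) (hn : 2 ≤ n)
    (C : Finset (Fin n)) (hC : ∀ v w, T.Adj v w → v ∈ C ∨ w ∈ C)
    (hind : ∀ v ∈ C, ∀ w ∈ C, ¬ T.Adj v w) (m : ℕ) (hm : 1 ≤ m) (hdeg : ∀ v ∈ C, m ≤ T.degree v) :
    ∏ v ∈ C, (1 + (∑ x ∈ T.neighborFinset v, 1 / (T.degree x : ℝ)) / (T.degree v : ℝ))
      - 2 ^ C.card * (C.card : ℝ) ^ 2 / (m : ℝ) ^ 2 ≤ ∑ σ ∈ inv T, wt T σ := by
  have h := lp_main T hT C hC hind m hm hdeg C (Finset.Subset.refl C)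
  have e1 : lpI T C C = inv T := by
    ext σ
    unfold lpI
    rw [Finset.mem_filter]
    exact ⟨fun h => h.1, fun h => ⟨h, fun u hu huC => absurd hu huC⟩⟩
  rw [e1] at h
  have e2 : ∏ v ∈ C, (1 + (∑ x ∈ T.neighborFinset v, 1 / (T.degree x : ℝ)) / (T.degree v : ℝ))
      = ∏ v ∈ C, (1 + ∑ x ∈ T.neighborFinset v, (1 / (T.degree v : ℝ) * (1 / (T.degree x : ℝ)))) :=
    Finset.prod_congr rfl fun v _ => by rw [lp_av]
  rw [e2]
  exact h

end job35707

section job35708




/-- the parent function of the spider -/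
def pS (K S i : ℕ) : ℕ :=
  if i < K + 1 then 0 else if i < 2 * K + 1 then i - K
    else if i < 2 * K + 1 + K * S then (K + 1) + (i - (2 * K + 1)) / S else 0

theorem pS_a {K S i : ℕ} (h : i < K + 1) : pS K S i = 0 := by rw [pS, if_pos h]

theorem pS_b {K S i : ℕ} (h : K + 1 ≤ i) (h2 : i < 2 * K + 1) : pS K S i = i - K := by
  rw [pS, if_neg (by omega), if_pos h2]

theorem pS_c {K S i : ℕ} (h : 2 * K + 1 ≤ i) (h2 : i < 2 * K + 1 + K * S) :
    pS K S i = (K + 1) + (i - (2 * K + 1)) / S ∧ (i - (2 * K + 1)) / S < K := by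
  refine ⟨by rw [pS, if_neg (by omega), if_neg (by omega), if_pos h2], ?_⟩
  apply Nat.div_lt_of_lt_mul
  have : S * K = K * S := Nat.mul_comm _ _
  omega

theorem pS_d {K S i : ℕ} (h : 2 * K + 1 + K * S ≤ i) : pS K S i = 0 := by
  rw [pS, if_neg (by omega), if_neg (by omega), if_neg (by omega)]

theorem pS_cases (K S i : ℕ) : (i < K + 1 ∧ pS K S i = 0) ∨
    (K + 1 ≤ i ∧ i < 2 * K + 1 ∧ pS K S i = i - K) ∨
    (2 * K + 1 ≤ i ∧ i < 2 * K + 1 + K * S ∧ K + 1 ≤ pS K S i ∧ pS K S i < 2 * K + 1) ∨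
      (2 * K + 1 + K * S ≤ i ∧ pS K S i = 0) := by
  by_cases h1 : i < K + 1
  · exact Or.inl ⟨h1, pS_a h1⟩
  by_cases h2 : i < 2 * K + 1
  · exact Or.inr (Or.inl ⟨by omega, h2, pS_b (by omega) h2⟩)
  by_cases h3 : i < 2 * K + 1 + K * S
  · obtain ⟨g1, g2⟩ := pS_c (K := K) (S := S) (by omega : 2 * K + 1 ≤ i) h3
    refine Or.inr (Or.inr (Or.inl ⟨by omega, h3, ?_, ?_⟩))
    · rw [g1]; exact Nat.le_add_right _ _
    · rw [g1]; linarith
  · exact Or.inr (Or.inr (Or.inr ⟨by omega, pS_d (by omega)⟩))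

theorem pS_lt {K S : ℕ} (hK : 1 ≤ K) (i : ℕ) (hi : 1 ≤ i) : pS K S i < i := by
  rcases pS_cases K S i with h | h | h | h <;> omega

theorem sp_adj {n K S : ℕ} (hK : 1 ≤ K) (v w : Fin n) :
    (parGraph n (pS K S)).Adj v w ↔ ((v : ℕ) ≠ 0 ∧ (w : ℕ) = pS K S v) ∨
      ((w : ℕ) ≠ 0 ∧ (v : ℕ) = pS K S w) := by
  unfold parGraph
  rw [SimpleGraph.fromRel_adj]
  constructor
  · rintro ⟨_, h⟩; exact h
  · intro h
    refine ⟨?_, h⟩
    rintro rfl
    have h2 := fun h0 => pS_lt (S := S) hK (v : ℕ) h0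
    rcases h with ⟨h0, h1⟩ | ⟨h0, h1⟩ <;>
    · have := h2 (by omega)
      omega

theorem sp_deg {n : ℕ} (T : SimpleGraph (Fin n)) (v : Fin n) (q : Fin n → Prop) [DecidablePred q]
    (h : ∀ w, T.Adj v w ↔ q w) : T.degree v = (Finset.univ.filter q).card := by
  rw [← SimpleGraph.card_neighborFinset_eq_degree]
  congr 1
  ext w
  simp [h]

theorem card_Ico_fin (n a b : ℕ) (hb : b ≤ n) :
    (Finset.univ.filter (fun i : Fin n => a ≤ (i : ℕ) ∧ (i : ℕ) < b)).card = b - a := by
  have h : (Finset.univ.filter (fun i : Fin n => a ≤ (i : ℕ) ∧ (i : ℕ) < b)).map Fin.valEmbedding =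
      Finset.Ico a b := by
    ext x
    simp only [Finset.mem_map, Finset.mem_filter, Finset.mem_univ, true_and, Fin.valEmbedding_apply,
      Finset.mem_Ico]
    constructor
    · rintro ⟨i, h, rfl⟩; exact h
    · rintro ⟨h1, h2⟩; exact ⟨⟨x, by omega⟩, ⟨h1, h2⟩, rfl⟩
  rw [← Finset.card_map Fin.valEmbedding, h, Nat.card_Ico]

theorem card_or_fin (n a b c d : ℕ) (hb : b ≤ n) (hd : d ≤ n) (hbc : b ≤ c) (q : Fin n → Prop) [DecidablePred q]
    (hq : ∀ i : Fin n, q i ↔ (a ≤ (i : ℕ) ∧ (i : ℕ) < b) ∨ (c ≤ (i : ℕ) ∧ (i : ℕ) < d)) :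
    (Finset.univ.filter q).card = (b - a) + (d - c) := by
  rw [← card_Ico_fin n a b hb, ← card_Ico_fin n c d hd, ← Finset.card_union_of_disjoint]
  · congr 1
    ext i
    simp [hq]
  · rw [Finset.disjoint_left]
    intro i h1 h2
    simp only [Finset.mem_filter, Finset.mem_univ, true_and] at h1 h2
    omega

/-- connectors -/
theorem deg_conn {n K S : ℕ} (hK : 1 ≤ K) (hn : 2 * K + 1 + K * S ≤ n) (v : Fin n)
    (h1 : 1 ≤ (v : ℕ)) (h2 : (v : ℕ) < K + 1) : (parGraph n (pS K S)).degree v = 2 := by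
  rw [sp_deg _ v (fun w => (w : ℕ) = 0 ∨ (w : ℕ) = v + K), card_or_fin n 0 1 (v + K) (v + K + 1)
    (by omega) (by omega) (by omega)]
  · omega
  · intro i; omega
  · intro w
    rw [sp_adj hK, pS_a h2]
    rcases pS_cases K S w with h | h | h | h <;> omega

theorem deg_leaf {n K S : ℕ} (hK : 1 ≤ K) (v : Fin n)
    (h1 : 2 * K + 1 ≤ (v : ℕ)) : (parGraph n (pS K S)).degree v = 1 := by
  have hp := pS_lt (S := S) hK (v : ℕ) (by omega)
  have hv := v.isLt
  rw [sp_deg _ v (fun w => (w : ℕ) = pS K S v), card_or_fin n (pS K S v) (pS K S v + 1) n n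
    (by omega) le_rfl (by omega)]
  · omega
  · intro i; omega
  · intro w
    rw [sp_adj hK]
    rcases pS_cases K S w with h | h | h | h <;> omega

theorem hub_adj {n K S : ℕ} (hK : 1 ≤ K) (v w : Fin n)
    (h1 : K + 1 ≤ (v : ℕ)) (h2 : (v : ℕ) < 2 * K + 1) :
    (parGraph n (pS K S)).Adj v w ↔ (v - K ≤ (w : ℕ) ∧ (w : ℕ) < v - K + 1) ∨
      (2 * K + 1 + (v - (K + 1)) * S ≤ (w : ℕ) ∧ (w : ℕ) < 2 * K + 1 + (v - (K + 1)) * S + S) := by
  rw [sp_adj hK, pS_b h1 h2]
  have key : ((w : ℕ) ≠ 0 ∧ (v : ℕ) = pS K S w) ↔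
      (2 * K + 1 + (v - (K + 1)) * S ≤ (w : ℕ) ∧ (w : ℕ) < 2 * K + 1 + (v - (K + 1)) * S + S) := by
    have hb : ((v : ℕ) - (K + 1) + 1) * S ≤ K * S := Nat.mul_le_mul_right S (by omega)
    rw [Nat.add_mul, Nat.one_mul] at hb
    rcases pS_cases K S w with h | h | h | h
    · constructor
      · rintro ⟨_, h3⟩; omega
      · rintro ⟨h3, _⟩; omega
    · constructor
      · rintro ⟨_, h3⟩; omega
      · rintro ⟨h3, _⟩; omega
    · obtain ⟨g1, g2, _, _⟩ := h
      obtain ⟨g3, g4⟩ := pS_c g1 g2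
      have hS : 0 < S := by
        rcases Nat.eq_zero_or_pos S with h0 | h0
        · subst h0; omega
        · exact h0
      have e1 := Nat.div_add_mod ((w : ℕ) - (2 * K + 1)) S
      have e2 := Nat.mod_lt ((w : ℕ) - (2 * K + 1)) hS
      rw [g3]
      constructor
      · rintro ⟨_, h3⟩
        have h4 : ((w : ℕ) - (2 * K + 1)) / S = v - (K + 1) := by
          rw [h3]; exact (Nat.add_sub_cancel_left _ _).symm
        rw [h4, Nat.mul_comm] at e1
        omega
      · rintro ⟨h3, h4⟩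
        have h5 : ((w : ℕ) - (2 * K + 1)) / S = v - (K + 1) := by
          apply Nat.div_eq_of_lt_le
          · omega
          · rw [Nat.add_mul, Nat.one_mul]; omega
        refine ⟨by omega, ?_⟩
        rw [h5]
        omega
    · constructor
      · rintro ⟨_, h3⟩; omega
      · rintro ⟨h3, h4⟩; omega
  rw [key]
  constructor
  · rintro (h | h)
    · exact Or.inl (by omega)
    · exact Or.inr h
  · rintro (h | h)
    · exact Or.inl (by omega)
    · exact Or.inr h

theorem deg_hub {n K S : ℕ} (hK : 1 ≤ K) (hn : 2 * K + 1 + K * S ≤ n) (v : Fin n)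
    (h1 : K + 1 ≤ (v : ℕ)) (h2 : (v : ℕ) < 2 * K + 1) :
    (parGraph n (pS K S)).degree v = S + 1 := by
  have hb : ((v : ℕ) - (K + 1) + 1) * S ≤ K * S := Nat.mul_le_mul_right S (by omega)
  rw [Nat.add_mul, Nat.one_mul] at hb
  rw [sp_deg _ v _ (fun w => hub_adj hK v w h1 h2), card_or_fin n (v - K) (v - K + 1)
    (2 * K + 1 + (v - (K + 1)) * S) (2 * K + 1 + (v - (K + 1)) * S + S) (by omega) (by omega)
    (by omega) _ (fun i => Iff.rfl)]
  omega

theorem cen_adj {n K S : ℕ} (hK : 1 ≤ K) (v w : Fin n) (h0 : (v : ℕ) = 0) :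
    (parGraph n (pS K S)).Adj v w ↔ (1 ≤ (w : ℕ) ∧ (w : ℕ) < K + 1) ∨
      (2 * K + 1 + K * S ≤ (w : ℕ) ∧ (w : ℕ) < n) := by
  rw [sp_adj hK, h0]
  have hw := w.isLt
  rcases pS_cases K S w with h | h | h | h <;> omega

theorem deg_cen {n K S : ℕ} (hK : 1 ≤ K) (hn : 2 * K + 1 + K * S ≤ n) (v : Fin n)
    (h0 : (v : ℕ) = 0) : (parGraph n (pS K S)).degree v = K + (n - (2 * K + 1 + K * S)) := by
  rw [sp_deg _ v _ (fun w => cen_adj hK v w h0), card_or_fin n 1 (K + 1)
    (2 * K + 1 + K * S) n (by omega) le_rfl (by omega) _ (fun i => Iff.rfl)]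
  omega

theorem sp_sum {n K S : ℕ} (v : Fin n) (m : ℕ)
    (hdeg : ∀ x, (parGraph n (pS K S)).Adj v x → (1 : ℝ) / ((parGraph n (pS K S)).degree x : ℝ) =
      1 - (if (x : ℕ) < K + 1 then 1 / 2 else 0))
    (hm : (Finset.univ.filter fun x : Fin n =>
      (parGraph n (pS K S)).Adj v x ∧ (x : ℕ) < K + 1).card = m) :
    ∑ x ∈ (parGraph n (pS K S)).neighborFinset v, 1 / ((parGraph n (pS K S)).degree x : ℝ) =
      ((parGraph n (pS K S)).degree v : ℝ) - (m : ℝ) / 2 := by
  have h1 : ∑ x ∈ (parGraph n (pS K S)).neighborFinset v, 1 / ((parGraph n (pS K S)).degree x : ℝ) =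
      ∑ x ∈ (parGraph n (pS K S)).neighborFinset v,
        (1 - (if (x : ℕ) < K + 1 then (1 : ℝ) / 2 else 0)) :=
    Finset.sum_congr rfl fun x hx => hdeg x ((SimpleGraph.mem_neighborFinset _ _ _).1 hx)
  rw [h1, Finset.sum_sub_distrib, ← Finset.sum_filter, Finset.sum_const, Finset.sum_const,
    SimpleGraph.card_neighborFinset_eq_degree]
  have h2 : (((parGraph n (pS K S)).neighborFinset v).filter fun x : Fin n => (x : ℕ) < K + 1) =
      Finset.univ.filter fun x : Fin n => (parGraph n (pS K S)).Adj v x ∧ (x : ℕ) < K + 1 := by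
    ext x
    simp
  rw [h2, hm, nsmul_eq_mul, nsmul_eq_mul]
  ring

theorem spider {k s n : ℕ} (hk : 2 ≤ k) (hs : 1 ≤ s) (hn : (k - 1) * s + k ≤ n) :
    ∃ T : SimpleGraph (Fin n), T.IsTree ∧ ∃ C : Finset (Fin n), C.card = k ∧
      (∀ v w, T.Adj v w → v ∈ C ∨ w ∈ C) ∧ (∀ v ∈ C, ∀ w ∈ C, ¬ T.Adj v w) ∧
      ∃ r ∈ C, T.degree r = n - 1 - (k - 1) * s ∧
        ∑ x ∈ T.neighborFinset r, 1 / (T.degree x : ℝ) = (T.degree r : ℝ) - ((k : ℝ) - 1) / 2 ∧
        ∀ v ∈ C, v ≠ r → T.degree v = s ∧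
          ∑ x ∈ T.neighborFinset v, 1 / (T.degree x : ℝ) = (s : ℝ) - 1 / 2 := by
  obtain ⟨K, rfl⟩ : ∃ K, k = K + 1 := ⟨k - 1, by omega⟩
  obtain ⟨S, rfl⟩ : ∃ S, s = S + 1 := ⟨s - 1, by omega⟩
  have hK : 1 ≤ K := by omega
  have hn' : 2 * K + 1 + K * S ≤ n := by
    have e : (K + 1 - 1) * (S + 1) + (K + 1) = 2 * K + 1 + K * S := by
      rw [Nat.add_sub_cancel]; ring
    omega
  have hn0 : 0 < n := by omega
  set T := parGraph n (pS K S) with hT
  have hdc : ∀ v : Fin n, ((v : ℕ) = 0 ∨ (K + 1 ≤ (v : ℕ) ∧ (v : ℕ) < 2 * K + 1)) → ∀ x,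
      T.Adj v x → (1 : ℝ) / (T.degree x : ℝ) = 1 - (if (x : ℕ) < K + 1 then 1 / 2 else 0) := by
    intro v hv x hx
    have hx1 : (1 ≤ (x : ℕ) ∧ (x : ℕ) < K + 1) ∨ 2 * K + 1 ≤ (x : ℕ) := by
      rcases hv with h0 | ⟨h1, h2⟩
      · rcases (cen_adj hK v x h0).1 hx with h | h
        · exact Or.inl h
        · exact Or.inr (by omega)
      · rcases (hub_adj hK v x h1 h2).1 hx with h | h
        · exact Or.inl (by omega)
        · exact Or.inr (by omega)
    rcases hx1 with ⟨h1, h2⟩ | h1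
    · rw [deg_conn hK hn' x h1 h2, if_pos h2]; norm_num
    · rw [deg_leaf hK x h1, if_neg (by omega)]; norm_num
  refine ⟨T, parGraph_isTree n (by omega) _ (fun i hi => pS_lt hK i hi),
    Finset.univ.filter (fun v : Fin n => (v : ℕ) = 0 ∨ (K + 1 ≤ (v : ℕ) ∧ (v : ℕ) < 2 * K + 1)),
    ?_, ?_, ?_, ⟨0, hn0⟩, ?_, ?_, ?_, ?_⟩
  · rw [card_or_fin n 0 1 (K + 1) (2 * K + 1) (by omega) (by omega) (by omega)]
    · omega
    · intro i; omega
  · intro v w hvw
    simp only [Finset.mem_filter, Finset.mem_univ, true_and]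
    rw [hT, sp_adj hK] at hvw
    rcases hvw with ⟨h0, h1⟩ | ⟨h0, h1⟩
    · rcases pS_cases K S v with h | h | h | h <;> omega
    · rcases pS_cases K S w with h | h | h | h <;> omega
  · intro v hv w hw hvw
    simp only [Finset.mem_filter, Finset.mem_univ, true_and] at hv hw
    rw [hT, sp_adj hK] at hvw
    rcases hvw with ⟨h0, h1⟩ | ⟨h0, h1⟩
    · rcases pS_cases K S v with h | h | h | h <;> omega
    · rcases pS_cases K S w with h | h | h | h <;> omega
  · simp
  · rw [deg_cen hK hn' _ rfl]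
    have e : (K + 1 - 1) * (S + 1) = K + K * S := by rw [Nat.add_sub_cancel]; ring
    omega
  · rw [sp_sum _ K (hdc _ (Or.inl rfl))]
    · push_cast; ring
    · rw [card_or_fin n 1 (K + 1) n n (by omega) le_rfl (by omega)]
      · omega
      · intro i
        rw [← hT, hT, cen_adj hK _ _ rfl]
        have := i.isLt
        omega
  · intro v hv hv0
    simp only [Finset.mem_filter, Finset.mem_univ, true_and] at hv
    have hvne : (v : ℕ) ≠ 0 := fun h => hv0 (Fin.ext h)
    obtain ⟨h1, h2⟩ : K + 1 ≤ (v : ℕ) ∧ (v : ℕ) < 2 * K + 1 := by omega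
    have hd := deg_hub hK hn' v h1 h2
    refine ⟨hd, ?_⟩
    rw [sp_sum _ 1 (hdc _ (Or.inr ⟨h1, h2⟩))]
    · rw [hd]; push_cast; ring
    · rw [card_or_fin n (v - K) (v - K + 1) n n (by omega) le_rfl (by omega)]
      · omega
      · intro i
        rw [hub_adj hK _ _ h1 h2]
        have := i.isLt
        omega

end job35708

end Helper78.LapRatio
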