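import Mathlib
set_option autoImplicit false
open scoped BigOperators

namespace Helper78.LapRatio

open Classical in
/-- `T` is a spider with hub set `C`, center `r`, connectors `y v` (v ∈ C, v ≠ r) of degree 2. -/
structure IsSpider {n : ℕ} (T : SimpleGraph (Fin n)) (C : Finset (Fin n)) (r : Fin n)
    (y : Fin n → Fin n) : Prop where
  cover : ∀ v w, T.Adj v w → v ∈ C ∨ w ∈ C
  indep : ∀ v ∈ C, ∀ w ∈ C, ¬ T.Adj v w
  mem : r ∈ C
  conn : ∀ v ∈ C, v ≠ r → T.Adj v (y v) ∧ T.Adj r (y v) ∧ T.degree (y v) = 2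
  leaf : ∀ v ∈ C, v ≠ r → ∀ x, T.Adj v x → x ≠ y v → T.degree x = 1
  leafr : ∀ x, T.Adj r x → T.degree x = 1 ∨ ∃ v ∈ C, v ≠ r ∧ x = y v

/-- the value of the Laplacian ratio of the spider with central hub of degree `d` and outer hubs of
degrees `s i` -/
noncomputable def spiderVal (k d : ℕ) (s : Fin (k - 1) → ℕ) : ℝ :=
  (∏ i, (2 - 1 / (2 * (s i : ℝ)))) *
    (2 - ((k : ℝ) - 1) / (2 * (d : ℝ)) - (1 / (2 * (d : ℝ))) * ∑ i, 1 / (4 * (s i : ℝ) - 1))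

/-- value of the balanced spider: `k - 1` outer hubs of total degree `S`, `t = S % (k-1)` of them
of degree `q + 1` and the others of degree `q = S / (k-1)`; central hub of degree `d` -/
noncomputable def Phi (k d S : ℕ) : ℝ :=
  (2 - 1 / (2 * (((S / (k - 1) : ℕ) : ℝ) + 1))) ^ (S % (k - 1)) *
    (2 - 1 / (2 * ((S / (k - 1) : ℕ) : ℝ))) ^ (k - 1 - S % (k - 1)) *
    (2 - ((k : ℝ) - 1) / (2 * (d : ℝ)) - (1 / (2 * (d : ℝ))) *
      (((S % (k - 1) : ℕ) : ℝ) * (1 / (4 * (((S / (k - 1) : ℕ) : ℝ) + 1) - 1)) +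
        ((k - 1 - S % (k - 1) : ℕ) : ℝ) * (1 / (4 * ((S / (k - 1) : ℕ) : ℝ) - 1))))

end Helper78.LapRatio
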