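import Pool.Agent.Helper78.LapRatioBase
set_option autoImplicit false
set_option linter.unusedSectionVars false
open scoped BigOperators
open Classical
namespace Helper78.LapRatio

theorem hub_isTree {k n : ℕ} (hk : 1 ≤ k) (hn : 1 ≤ n) : (hubTree k n).IsTree := by
  refine parGraph_isTree n hn _ ?_
  intro i hi
  split_ifs with h
  · omega
  · have := Nat.mod_lt i (show 0 < k by omega)
    omega

theorem two_isTree {n : ℕ} (hn : 1 ≤ n) : (twoTree n).IsTree := by
  refine parGraph_isTree n hn _ ?_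
  intro i hi
  split_ifs <;> omega

theorem upper_all {n k : ℕ} (hn : 2 ≤ n) (T : SimpleGraph (Fin n)) (hT : T.IsTree)
    (hk : MatchingNumberLE T k) : lapRatio T ≤ 2 ^ k := by
  obtain ⟨C, hC, hcov⟩ := konig T hT.isAcyclic k hk
  rw [lapRatio_eq T hT hn]
  refine (upper_cover T hT hn C hcov).trans ?_
  exact pow_le_pow_right₀ (by norm_num) hC

theorem num_aux {k n ℓ d : ℕ} (hk : 1 ≤ k) (hn : 2 * k ≤ n) (hd : 0 < d) (h1 : d ≤ ℓ + (k - 1))
    (h2 : n / k ≤ ℓ + 1) : 2 * (1 - (k : ℝ) * ((k : ℝ) - 1) / n) ≤ 1 + (ℓ : ℝ) / d := by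
  have hk0 : (0 : ℝ) < k := by exact_mod_cast hk
  have hn0 : (0 : ℝ) < n := by exact_mod_cast (by omega : 0 < n)
  have hd0 : (0 : ℝ) < d := by exact_mod_cast hd
  have h1' : (d : ℝ) ≤ ℓ + ((k : ℝ) - 1) := by
    have : ((k - 1 : ℕ) : ℝ) = (k : ℝ) - 1 := by push_cast [Nat.cast_sub hk]; ring
    rw [← this]; exact_mod_cast h1
  have hpos : (0 : ℝ) < ℓ + ((k : ℝ) - 1) := lt_of_lt_of_le hd0 h1'
  have hstep : (ℓ : ℝ) / (ℓ + ((k : ℝ) - 1)) ≤ (ℓ : ℝ) / d :=
    div_le_div_of_nonneg_left (Nat.cast_nonneg _) hd0 h1'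
  have hnat : (n : ℝ) * ((k:ℝ) - 1) ≤ 2 * k * ((k:ℝ) - 1) * (ℓ + ((k : ℝ) - 1)) := by
    rcases Nat.eq_or_lt_of_le hk with h | h
    · rw [← h]; simp
    · -- k ≥ 2
      have hq : 2 ≤ n / k := by
        rw [Nat.le_div_iff_mul_le (by omega)]; exact hn
      have hq2 : n < k * (n / k + 1) := by
        have := Nat.lt_mul_div_succ n (show 0 < k by omega)
        simpa using this
      have hq3 : n ≤ 2 * k * (ℓ + (k - 1)) := by
        have : n / k + 1 ≤ 2 * (ℓ + (k - 1)) := by omega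
        calc n ≤ k * (n / k + 1) := hq2.le
          _ ≤ k * (2 * (ℓ + (k - 1))) := Nat.mul_le_mul_left _ this
          _ = 2 * k * (ℓ + (k - 1)) := by ring
      have hq4 : (n : ℝ) ≤ 2 * k * (ℓ + ((k : ℝ) - 1)) := by
        have e : ((k - 1 : ℕ) : ℝ) = (k : ℝ) - 1 := by push_cast [Nat.cast_sub hk]; ring
        rw [← e]; exact_mod_cast hq3
      have hk1 : (0 : ℝ) ≤ (k : ℝ) - 1 := by
        have : (1 : ℝ) ≤ k := by exact_mod_cast hk
        linarith
      nlinarith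
  have hfr : ((k : ℝ) - 1) / (ℓ + ((k : ℝ) - 1)) ≤ 2 * (k * ((k : ℝ) - 1)) / n := by
    rw [div_le_div_iff₀ hpos hn0]
    nlinarith
  have hsum : (ℓ : ℝ) / (ℓ + ((k : ℝ) - 1)) = 1 - ((k : ℝ) - 1) / (ℓ + ((k : ℝ) - 1)) := by
    field_simp
    ring
  have : 2 * (1 - (k : ℝ) * ((k : ℝ) - 1) / n) = 2 - 2 * (k * ((k : ℝ) - 1)) / n := by ring
  rw [this]
  linarith

theorem lower_all {k n : ℕ} (hk : 1 ≤ k) (hn : 2 * k ≤ n) :
    ∃ T : SimpleGraph (Fin n), T.IsTree ∧ MatchingNumberLE T k ∧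
      (2 : ℝ) ^ k * (1 - (k : ℝ) ^ 3 / n) ≤ lapRatio T := by
  have hT : (hubTree k n).IsTree := hub_isTree hk (by omega)
  refine ⟨hubTree k n, hT, ?_, ?_⟩
  · obtain ⟨C, hC, hcov⟩ := hub_cover hk hn
    have := matching_of_cover _ C hcov
    rwa [hC] at this
  · rw [lapRatio_eq _ hT (by omega)]
    have key := lower_hubs (hubTree k n) hT (by omega) (fun i : Fin k => (⟨i, by omega⟩ : Fin n))
      (by intro a b h; simpa [Fin.ext_iff] using h)
      (fun i => Finset.univ.filter (fun x : Fin n => k ≤ (x : ℕ) ∧ (x : ℕ) % k = i))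
      (by
        intro i x hx
        simp only [Finset.mem_filter, Finset.mem_univ, true_and] at hx
        exact hub_leaf hk hn i x hx.1 hx.2)
      (by
        intro i j hij
        rw [Finset.disjoint_left]
        intro x hx hx'
        simp only [Finset.mem_filter, Finset.mem_univ, true_and] at hx hx'
        apply hij
        ext
        rw [← hx.2, ← hx'.2])
      (by
        intro i j h
        simp only [Finset.mem_filter, Finset.mem_univ, true_and] at h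
        have := i.2
        omega)
    refine le_trans ?_ key
    have hn0 : (0 : ℝ) < n := by exact_mod_cast (by omega : 0 < n)
    have hk1 : (1 : ℝ) ≤ k := by exact_mod_cast hk
    have hfac : ∀ i : Fin k, 2 * (1 - (k : ℝ) * ((k : ℝ) - 1) / n) ≤
        1 + ((Finset.univ.filter (fun x : Fin n => k ≤ (x : ℕ) ∧ (x : ℕ) % k = i)).card : ℝ) /
          ((hubTree k n).degree ⟨i, by omega⟩ : ℝ) := by
      intro i
      refine num_aux hk hn ?_ (hub_degree hk hn i) (hub_leaf_card hk hn i)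
      have hq : 2 ≤ n / k := by
        rw [Nat.le_div_iff_mul_le (by omega)]; exact hn
      have hl := hub_leaf_card hk hn i
      have hne : (Finset.univ.filter (fun x : Fin n => k ≤ (x : ℕ) ∧ (x : ℕ) % k = i)).Nonempty := by
        rw [← Finset.card_pos]; omega
      obtain ⟨x, hx⟩ := hne
      simp only [Finset.mem_filter, Finset.mem_univ, true_and] at hx
      have hadj := (hub_leaf hk hn i x hx.1 hx.2).1
      rw [SimpleGraph.degree_pos_iff_exists_adj]
      exact ⟨x, hadj⟩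
    have hpow : (2 : ℝ) ^ k * (1 - (k : ℝ) ^ 3 / n) ≤ ∏ _i : Fin k, (1 : ℝ) ∨
        0 ≤ 1 - (k : ℝ) * ((k : ℝ) - 1) / n := by
      by_cases h : 0 ≤ 1 - (k : ℝ) * ((k : ℝ) - 1) / n
      · exact Or.inr h
      · left
        push Not at h
        have h2 : (n : ℝ) < k * ((k : ℝ) - 1) := by
          rw [sub_neg, lt_div_iff₀ hn0] at h
          linarith
        have h3 : (n : ℝ) ≤ (k : ℝ) ^ 3 := by nlinarith
        have h4 : 1 - (k : ℝ) ^ 3 / n ≤ 0 := by
          rw [sub_nonpos, le_div_iff₀ hn0]; linarith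
        have h5 : (2 : ℝ) ^ k * (1 - (k : ℝ) ^ 3 / n) ≤ 0 :=
          mul_nonpos_of_nonneg_of_nonpos (by positivity) h4
        simp only [Finset.prod_const_one]
        linarith
    rcases hpow with h | h
    · refine h.trans (Finset.prod_le_prod (fun _ _ => zero_le_one) ?_)
      intro i _
      have : (0 : ℝ) ≤ ((Finset.univ.filter (fun x : Fin n => k ≤ (x : ℕ) ∧ (x : ℕ) % k = i)).card : ℝ) /
          ((hubTree k n).degree ⟨i, by omega⟩ : ℝ) := by positivity
      linarith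
    · have h1 : ∏ _i : Fin k, (2 * (1 - (k : ℝ) * ((k : ℝ) - 1) / n)) ≤
          ∏ i : Fin k, (1 + ((Finset.univ.filter (fun x : Fin n => k ≤ (x : ℕ) ∧ (x : ℕ) % k = i)).card : ℝ) /
          ((hubTree k n).degree ⟨i, by omega⟩ : ℝ)) :=
        Finset.prod_le_prod (fun _ _ => by positivity) (fun i _ => hfac i)
      refine le_trans ?_ h1
      rw [Finset.prod_const, Finset.card_univ, Fintype.card_fin, mul_pow]
      refine mul_le_mul_of_nonneg_left ?_ (by positivity)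
      have hb := one_add_mul_le_pow (a := -((k : ℝ) * ((k : ℝ) - 1) / n)) (by linarith) k
      have e1 : (1 : ℝ) + -((k : ℝ) * ((k : ℝ) - 1) / n) = 1 - (k : ℝ) * ((k : ℝ) - 1) / n := by ring
      rw [e1] at hb
      refine le_trans ?_ hb
      have e2 : (k : ℝ) * -((k : ℝ) * ((k : ℝ) - 1) / n) = -((k : ℝ) * ((k : ℝ) * ((k : ℝ) - 1))) / n := by ring
      rw [e2]
      have : (k : ℝ) * ((k : ℝ) * ((k : ℝ) - 1)) ≤ (k : ℝ) ^ 3 := by nlinarith
      have h6 : (k : ℝ) * ((k : ℝ) * ((k : ℝ) - 1)) / n ≤ (k : ℝ) ^ 3 / n := by gcongr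
      have e3 : -((k : ℝ) * ((k : ℝ) * ((k : ℝ) - 1))) / (n:ℝ) = -((k : ℝ) * ((k : ℝ) * ((k : ℝ) - 1)) / n) := by ring
      rw [e3]; linarith

theorem four_mul_le (A B N : ℕ) (h : A + B = N) : A * B ≤ N ^ 2 / 4 := by
  rw [Nat.le_div_iff_mul_le (by norm_num), ← h]
  nlinarith [sq_nonneg ((A : ℤ) - B), Nat.zero_le (A * B), four_mul_le_sq_add A B]

theorem quarter_aux (n : ℕ) (hn : 3 ≤ n) : n ^ 2 / 4 ≤ 2 * ((n - 1) ^ 2 / 4) := by
  obtain ⟨m, hm | hm⟩ := Nat.even_or_odd' n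
  · obtain ⟨j, rfl⟩ : ∃ j, m = j + 2 := ⟨m - 2, by omega⟩
    subst hm
    have e1 : (2 * (j + 2)) ^ 2 / 4 = (j + 2) ^ 2 := by
      have : (2 * (j + 2)) ^ 2 = 4 * (j + 2) ^ 2 := by ring
      rw [this]; omega
    have e2 : (2 * (j + 2) - 1) ^ 2 / 4 = (j + 2) * (j + 1) := by
      have h : 2 * (j + 2) - 1 = 2 * j + 3 := by omega
      have : (2 * j + 3) ^ 2 = 4 * ((j + 2) * (j + 1)) + 1 := by ring
      rw [h, this]; omega
    rw [e1, e2]; nlinarith
  · obtain ⟨j, rfl⟩ : ∃ j, m = j + 1 := ⟨m - 1, by omega⟩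
    subst hm
    have e1 : (2 * (j + 1) + 1) ^ 2 / 4 = (j + 1) * (j + 2) := by
      have : (2 * (j + 1) + 1) ^ 2 = 4 * ((j + 1) * (j + 2)) + 1 := by ring
      rw [this]; omega
    have e2 : (2 * (j + 1) + 1 - 1) ^ 2 / 4 = (j + 1) ^ 2 := by
      have h : 2 * (j + 1) + 1 - 1 = 2 * (j + 1) := by omega
      have : (2 * (j + 1)) ^ 2 = 4 * (j + 1) ^ 2 := by ring
      rw [h, this]; omega
    rw [e1, e2]; nlinarith

theorem nu_two (n : ℕ) (hn : 3 ≤ n) :
    IsGreatest {x : ℝ | ∃ T : SimpleGraph (Fin n), T.IsTree ∧ MatchingNumberLE T 2 ∧ lapRatio T = x}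
      (4 - ((n : ℝ) - 1) / (((n - 1) ^ 2 / 4 : ℕ) : ℝ)) := by
  have hn1 : (0 : ℝ) < (n : ℝ) - 1 := by
    have : (3 : ℝ) ≤ n := by exact_mod_cast hn
    linarith
  constructor
  · have hT := two_isTree (n := n) (by omega)
    obtain ⟨h1, h2, h3⟩ := twoTree_facts n hn
    have hcov : ∀ x y, (twoTree n).Adj x y →
        (x = (⟨0, by omega⟩ : Fin n) ∨ x = ⟨2, by omega⟩) ∨ (y = (⟨0, by omega⟩ : Fin n) ∨ y = ⟨2, by omega⟩) := by
      intro x y h
      simpa [Fin.ext_iff] using h2 x y h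
    refine ⟨twoTree n, hT, ?_, ?_⟩
    · have hcc : ∀ x y, (twoTree n).Adj x y →
          x ∈ ({(⟨0, by omega⟩ : Fin n), ⟨2, by omega⟩} : Finset (Fin n)) ∨
            y ∈ ({(⟨0, by omega⟩ : Fin n), ⟨2, by omega⟩} : Finset (Fin n)) := by
        intro x y h
        simpa only [Finset.mem_insert, Finset.mem_singleton] using hcov x y h
      have := matching_of_cover (twoTree n) _ hcc
      rwa [Finset.card_pair (by simp [Fin.ext_iff])] at this
    · obtain ⟨hd, c, huc, hvc, hc, hx⟩ := two_nonadj_struct (twoTree n) hT hn _ _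
        (by simp [Fin.ext_iff]) h1 hcov
      rw [lapRatio_eq _ hT (by omega), two_nonadj_sum (twoTree n) hT hn _ _ c
        (by simp [Fin.ext_iff]) h1 huc hvc hc hx hd, ← Nat.cast_mul, h3]
  · rintro _ ⟨T, hT, hM, rfl⟩
    obtain ⟨C, hC, hcov⟩ := konig T hT.isAcyclic 2 hM
    obtain ⟨D, hCD, hD⟩ := Finset.exists_superset_card_eq hC
      (by rw [Fintype.card_fin]; omega)
    obtain ⟨u, v, huv, rfl⟩ := Finset.card_eq_two.1 hD
    have hcov' : ∀ x y, T.Adj x y → (x = u ∨ x = v) ∨ (y = u ∨ y = v) := by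
      intro x y h
      rcases hcov x y h with h' | h'
      · left; simpa using hCD h'
      · right; simpa using hCD h'
    rw [lapRatio_eq T hT (by omega)]
    by_cases ha : T.Adj u v
    · obtain ⟨hd, hx⟩ := two_adj_struct T hT (by omega) u v ha hcov'
      rw [two_adj_sum T hT (by omega) u v ha hx hd]
      have hA : 0 < T.degree u := by rw [SimpleGraph.degree_pos_iff_exists_adj]; exact ⟨v, ha⟩
      have hB : 0 < T.degree v := by rw [SimpleGraph.degree_pos_iff_exists_adj]; exact ⟨u, ha.symm⟩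
      have hAB : T.degree u * T.degree v ≤ 2 * ((n - 1) ^ 2 / 4) :=
        (four_mul_le _ _ _ hd).trans (quarter_aux n hn)
      have hAB' : ((T.degree u : ℝ) * (T.degree v : ℝ)) ≤ 2 * (((n - 1) ^ 2 / 4 : ℕ) : ℝ) := by
        exact_mod_cast hAB
      have hpos : (0 : ℝ) < (T.degree u : ℝ) * (T.degree v : ℝ) := by positivity
      have hpos2 : (0 : ℝ) < (((n - 1) ^ 2 / 4 : ℕ) : ℝ) := by linarith
      have : ((n : ℝ) - 1) / (((n - 1) ^ 2 / 4 : ℕ) : ℝ) ≤
          2 * ((n : ℝ) - 1) / ((T.degree u : ℝ) * (T.degree v : ℝ)) := by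
        rw [div_le_div_iff₀ hpos2 hpos]
        nlinarith
      linarith
    · obtain ⟨hd, c, huc, hvc, hc, hx⟩ := two_nonadj_struct T hT hn u v huv ha hcov'
      rw [two_nonadj_sum T hT hn u v c huv ha huc hvc hc hx hd]
      have hA : 0 < T.degree u := by rw [SimpleGraph.degree_pos_iff_exists_adj]; exact ⟨c, huc⟩
      have hB : 0 < T.degree v := by rw [SimpleGraph.degree_pos_iff_exists_adj]; exact ⟨c, hvc⟩
      have hAB : T.degree u * T.degree v ≤ (n - 1) ^ 2 / 4 :=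
        four_mul_le _ _ _ (by omega)
      have hAB' : ((T.degree u : ℝ) * (T.degree v : ℝ)) ≤ (((n - 1) ^ 2 / 4 : ℕ) : ℝ) := by
        exact_mod_cast hAB
      have hpos : (0 : ℝ) < (T.degree u : ℝ) * (T.degree v : ℝ) := by positivity
      have := div_le_div_of_nonneg_left hn1.le hpos hAB'
      linarith

theorem diam_three (n : ℕ) (hn : 2 ≤ n) :
    IsGreatest {x : ℝ | ∃ T : SimpleGraph (Fin n), T.IsTree ∧ (∀ a b, T.dist a b ≤ 3) ∧ lapRatio T = x}
      (4 - 2 * ((n : ℝ) - 1) / ((n ^ 2 / 4 : ℕ) : ℝ)) := by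
  have hn1 : (0 : ℝ) < (n : ℝ) - 1 := by
    have : (2 : ℝ) ≤ n := by exact_mod_cast hn
    linarith
  constructor
  · have hT := hub_isTree (k := 2) (n := n) (by norm_num) (by omega)
    obtain ⟨h1, h2, h3, h4⟩ := dstar_facts n hn
    have hcov : ∀ x y, (hubTree 2 n).Adj x y →
        (x = (⟨0, by omega⟩ : Fin n) ∨ x = ⟨1, by omega⟩) ∨ (y = (⟨0, by omega⟩ : Fin n) ∨ y = ⟨1, by omega⟩) := by
      intro x y h
      simpa [Fin.ext_iff] using h2 x y h
    refine ⟨hubTree 2 n, hT, h4, ?_⟩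
    obtain ⟨hd, hx⟩ := two_adj_struct (hubTree 2 n) hT hn _ _ h1 hcov
    rw [lapRatio_eq _ hT (by omega), two_adj_sum (hubTree 2 n) hT hn _ _ h1 hx hd, ← Nat.cast_mul, h3]
  · rintro _ ⟨T, hT, hdiam, rfl⟩
    obtain ⟨u, v, ha, hcov⟩ := diam3_cover T hT hn hdiam
    rw [lapRatio_eq T hT (by omega)]
    obtain ⟨hd, hx⟩ := two_adj_struct T hT (by omega) u v ha hcov
    rw [two_adj_sum T hT (by omega) u v ha hx hd]
    have hA : 0 < T.degree u := by rw [SimpleGraph.degree_pos_iff_exists_adj]; exact ⟨v, ha⟩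
    have hB : 0 < T.degree v := by rw [SimpleGraph.degree_pos_iff_exists_adj]; exact ⟨u, ha.symm⟩
    have hAB' : ((T.degree u : ℝ) * (T.degree v : ℝ)) ≤ ((n ^ 2 / 4 : ℕ) : ℝ) := by
      exact_mod_cast four_mul_le _ _ _ hd
    have hpos : (0 : ℝ) < (T.degree u : ℝ) * (T.degree v : ℝ) := by positivity
    have := div_le_div_of_nonneg_left (a := 2 * ((n : ℝ) - 1)) (by linarith) hpos hAB'
    linarith


end Helper78.LapRatio
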