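import Pool.Agent.Helper78.LapRatioBase2
set_option autoImplicit false
set_option linter.unusedSectionVars false
open scoped BigOperators
open Classical
open Filter Topology
namespace Helper78.LapRatio

/-- α_k = (k-1) + √(k-1) -/
noncomputable def al (k : ℕ) : ℝ := ((k : ℝ) - 1) + Real.sqrt ((k : ℝ) - 1)

/-- number s_n = ⌊n / α_k⌋ -/
noncomputable def sn (k n : ℕ) : ℕ := ⌊(n : ℝ) / al k⌋₊

theorem deg_pos_tree {n : ℕ} (T : SimpleGraph (Fin n)) (hT : T.IsTree) (hn : 2 ≤ n) (v : Fin n) :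
    0 < T.degree v := by
  haveI : Nontrivial (Fin n) := Fin.nontrivial_iff_two_le.2 hn
  exact hT.connected.preconnected.degree_pos_of_nontrivial v

theorem upper_exp {n k : ℕ} (T : SimpleGraph (Fin n)) (hT : T.IsTree) (hn : 3 ≤ n) (hk : 2 ≤ k)
    (hkn : k ≤ n) (hM : MatchingNumberLE T k) :
    lapRatio T ≤ 2 ^ k * Real.exp (-((al k) ^ 2 / (4 * ((n : ℝ) + k - 2)))) := by
  obtain ⟨C, hC, hcov⟩ := konig T hT.isAcyclic k hM
  obtain ⟨D, hCD, hD⟩ := Finset.exists_superset_card_eq hC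
    (by rw [Fintype.card_fin]; exact hkn)
  have hcov' : ∀ x y, T.Adj x y → x ∈ D ∨ y ∈ D := by
    intro x y h
    rcases hcov x y h with h' | h'
    · exact Or.inl (hCD h')
    · exact Or.inr (hCD h')
  rw [lapRatio_eq T hT (by omega)]
  refine (upper_prod T hT hn D hcov').trans ?_
  have hdp : ∀ v, (0 : ℝ) < (T.degree v : ℝ) := fun v => by
    exact_mod_cast deg_pos_tree T hT (by omega) v
  have hhalf := cost_half T hT hn D hcov' (by rw [hD]; exact hk)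
  obtain ⟨hsum, hdeg⟩ := cost_sum T hT hn D hcov'
  have hsq := sqrt_min D (cst T D) (by rw [hD]; exact hk) hhalf hsum
  rw [hD] at hsum hdeg hsq
  have hfac : ∀ v ∈ D, 1 + (∑ x ∈ Np T D v, 1 / (T.degree x : ℝ)) / (T.degree v : ℝ) =
      2 * (1 - cst T D v / (2 * (T.degree v : ℝ))) := by
    intro v _
    have h0 := (hdp v).ne'
    unfold cst
    field_simp
    ring
  have hS : ∀ v ∈ D, (0 : ℝ) ≤ 1 + (∑ x ∈ Np T D v, 1 / (T.degree x : ℝ)) / (T.degree v : ℝ) := by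
    intro v _
    have : (0 : ℝ) ≤ ∑ x ∈ Np T D v, 1 / (T.degree x : ℝ) :=
      Finset.sum_nonneg (fun x _ => by positivity)
    positivity
  have h1 : ∏ v ∈ D, (1 + (∑ x ∈ Np T D v, 1 / (T.degree x : ℝ)) / (T.degree v : ℝ)) ≤
      ∏ v ∈ D, (2 * Real.exp (-(cst T D v / (2 * (T.degree v : ℝ))))) := by
    refine Finset.prod_le_prod hS ?_
    intro v hv
    rw [hfac v hv]
    have := Real.add_one_le_exp (-(cst T D v / (2 * (T.degree v : ℝ))))
    linarith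
  refine h1.trans ?_
  rw [Finset.prod_mul_distrib, Finset.prod_const, hD, ← Real.exp_sum]
  refine mul_le_mul_of_nonneg_left ?_ (by positivity)
  rw [Real.exp_le_exp, Finset.sum_neg_distrib, neg_le_neg_iff]
  -- Sedrakyan
  have hsed := Finset.sq_sum_div_le_sum_sq_div D (fun v => Real.sqrt (cst T D v))
    (g := fun v => (T.degree v : ℝ)) (fun v _ => hdp v)
  have hsed' : ∑ v ∈ D, (Real.sqrt (cst T D v)) ^ 2 / (T.degree v : ℝ) =
      ∑ v ∈ D, cst T D v / (T.degree v : ℝ) := by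
    refine Finset.sum_congr rfl ?_
    intro v hv
    rw [Real.sq_sqrt (by have := hhalf v hv; linarith)]
  rw [hsed'] at hsed
  have hsum2 : ∑ v ∈ D, cst T D v / (2 * (T.degree v : ℝ)) =
      (1 / 2) * ∑ v ∈ D, cst T D v / (T.degree v : ℝ) := by
    rw [Finset.mul_sum]
    refine Finset.sum_congr rfl ?_
    intro v _
    have h0 := (hdp v).ne'
    field_simp
  rw [hsum2]
  have hne : D.Nonempty := by rw [← Finset.card_pos, hD]; omega
  have hDpos : 0 < ∑ v ∈ D, (T.degree v : ℝ) := Finset.sum_pos (fun v _ => hdp v) hne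
  have hnk : (0 : ℝ) < (n : ℝ) + k - 2 := lt_of_lt_of_le hDpos hdeg
  have hk1 : (1 : ℝ) ≤ (k : ℝ) - 1 := by
    have : (2 : ℝ) ≤ k := by exact_mod_cast hk
    linarith
  have hal0 : 0 ≤ al k := by
    unfold al; have := Real.sqrt_nonneg ((k : ℝ) - 1); linarith
  have hal : al k / Real.sqrt 2 ≤ ∑ v ∈ D, Real.sqrt (cst T D v) := hsq
  have hal2 : (al k) ^ 2 / 2 ≤ (∑ v ∈ D, Real.sqrt (cst T D v)) ^ 2 := by
    have h2 : (al k) ^ 2 / 2 = (al k / Real.sqrt 2) ^ 2 := by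
      rw [div_pow, Real.sq_sqrt (by norm_num)]
    rw [h2]
    exact pow_le_pow_left₀ (by positivity) hal 2
  have hfin : (al k) ^ 2 / 2 / ((n : ℝ) + k - 2) ≤
      (∑ v ∈ D, Real.sqrt (cst T D v)) ^ 2 / ∑ v ∈ D, (T.degree v : ℝ) :=
    div_le_div₀ (sq_nonneg _) hal2 hDpos hdeg
  have e : (al k) ^ 2 / (4 * ((n : ℝ) + k - 2)) = (1 / 2) * ((al k) ^ 2 / 2 / ((n : ℝ) + k - 2)) := by
    field_simp
    ring
  rw [e]
  refine mul_le_mul_of_nonneg_left (hfin.trans hsed) (by norm_num)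

theorem lower_spider {k s n : ℕ} (hk : 2 ≤ k) (hs : 1 ≤ s) (hn : (k - 1) * s + k ≤ n)
    (m : ℕ) (hm : 1 ≤ m) (hms : m ≤ s) (hmd : m ≤ n - 1 - (k - 1) * s) :
    ∃ T : SimpleGraph (Fin n), T.IsTree ∧ MatchingNumberLE T k ∧
      2 ^ k - (2 ^ k * (((k : ℝ) - 1) / (4 * ((n - 1 - (k - 1) * s : ℕ) : ℝ))
        + ((k : ℝ) - 1) / (4 * (s : ℝ))) + 2 ^ k * (k : ℝ) ^ 2 / (m : ℝ) ^ 2) ≤ lapRatio T := by
  obtain ⟨T, hT, C, hCk, hcov, hind, r, hr, hdr, hsr, hoth⟩ := spider hk hs hn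
  have hn2 : 2 ≤ n := by omega
  refine ⟨T, hT, ?_, ?_⟩
  · have := matching_of_cover T C hcov
    rwa [hCk] at this
  · rw [lapRatio_eq T hT hn2]
    have hlow := lower_prod T hT hn2 C hcov hind m hm (by
      intro v hv
      by_cases h : v = r
      · rw [h, hdr]; exact hmd
      · rw [(hoth v hv h).1]; exact hms)
    refine le_trans ?_ hlow
    rw [hCk]
    set d : ℕ := n - 1 - (k - 1) * s with hd
    have hdk : k - 1 ≤ d := by omega
    have hk1 : (1 : ℝ) ≤ (k : ℝ) - 1 := by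
      have : (2 : ℝ) ≤ k := by exact_mod_cast hk
      linarith
    have hdk' : (k : ℝ) - 1 ≤ (d : ℝ) := by
      have e : ((k - 1 : ℕ) : ℝ) = (k : ℝ) - 1 := by push_cast [Nat.cast_sub (show 1 ≤ k by omega)]; ring
      rw [← e]; exact_mod_cast hdk
    have hd0 : (0 : ℝ) < d := by linarith
    have hs0 : (0 : ℝ) < s := by exact_mod_cast hs
    have hs1 : (1 : ℝ) ≤ s := by exact_mod_cast hs
    have hprod : ∏ v ∈ C, (1 + (∑ x ∈ T.neighborFinset v, 1 / (T.degree x : ℝ)) / (T.degree v : ℝ)) =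
        (2 * (1 - ((k : ℝ) - 1) / (4 * d))) * (2 * (1 - 1 / (4 * (s : ℝ)))) ^ (k - 1) := by
      rw [← Finset.mul_prod_erase C _ hr]
      congr 1
      · rw [hsr, hdr]
        field_simp
        ring
      · rw [Finset.prod_congr rfl (g := fun _ => (2 * (1 - 1 / (4 * (s : ℝ))))), Finset.prod_const,
          Finset.card_erase_of_mem hr, hCk]
        intro v hv
        obtain ⟨h1, h2⟩ := hoth v (Finset.mem_of_mem_erase hv) (Finset.ne_of_mem_erase hv)
        rw [h2, h1]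
        field_simp
        ring
    rw [hprod]
    have ha0 : 0 ≤ ((k : ℝ) - 1) / (4 * d) := by positivity
    have ha1 : ((k : ℝ) - 1) / (4 * d) ≤ 1 := by
      rw [div_le_one (by positivity)]; linarith
    have hb0 : 0 ≤ 1 / (4 * (s : ℝ)) := by positivity
    have hb1 : 1 / (4 * (s : ℝ)) ≤ 1 := by
      rw [div_le_one (by positivity)]; linarith
    have hbern := one_add_mul_le_pow (a := -(1 / (4 * (s : ℝ)))) (by linarith) (k - 1)
    have hcast : ((k - 1 : ℕ) : ℝ) = (k : ℝ) - 1 := by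
      push_cast [Nat.cast_sub (show 1 ≤ k by omega)]; ring
    rw [hcast] at hbern
    have hb2 : 1 - ((k : ℝ) - 1) / (4 * (s : ℝ)) ≤ (1 - 1 / (4 * (s : ℝ))) ^ (k - 1) := by
      have e1 : 1 + ((k : ℝ) - 1) * -(1 / (4 * (s : ℝ))) = 1 - ((k : ℝ) - 1) / (4 * (s : ℝ)) := by ring
      have e2 : 1 + -(1 / (4 * (s : ℝ))) = 1 - 1 / (4 * (s : ℝ)) := by ring
      rw [e1, e2] at hbern
      exact hbern
    have hc0 : 0 ≤ ((k : ℝ) - 1) / (4 * (s : ℝ)) := by positivity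
    have hpow : (2 : ℝ) ^ k = 2 * 2 ^ (k - 1) := by
      rw [← pow_succ']; congr 1; omega
    have hmain : 2 ^ k * (1 - (((k : ℝ) - 1) / (4 * d) + ((k : ℝ) - 1) / (4 * (s : ℝ)))) ≤
        (2 * (1 - ((k : ℝ) - 1) / (4 * d))) * (2 * (1 - 1 / (4 * (s : ℝ)))) ^ (k - 1) := by
      rw [mul_pow, hpow]
      have h3 : 1 - (((k : ℝ) - 1) / (4 * d) + ((k : ℝ) - 1) / (4 * (s : ℝ))) ≤
          (1 - ((k : ℝ) - 1) / (4 * d)) * (1 - 1 / (4 * (s : ℝ))) ^ (k - 1) := by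
        have h4 : (1 - ((k : ℝ) - 1) / (4 * d)) * (1 - ((k : ℝ) - 1) / (4 * (s : ℝ))) ≤
            (1 - ((k : ℝ) - 1) / (4 * d)) * (1 - 1 / (4 * (s : ℝ))) ^ (k - 1) :=
          mul_le_mul_of_nonneg_left hb2 (by linarith)
        have h5 := mul_nonneg ha0 hc0
        nlinarith
      have h6 : (0 : ℝ) ≤ 2 * 2 ^ (k - 1) := by positivity
      calc 2 * 2 ^ (k - 1) * (1 - (((k : ℝ) - 1) / (4 * d) + ((k : ℝ) - 1) / (4 * (s : ℝ))))
          ≤ 2 * 2 ^ (k - 1) * ((1 - ((k : ℝ) - 1) / (4 * d)) * (1 - 1 / (4 * (s : ℝ))) ^ (k - 1)) :=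
            mul_le_mul_of_nonneg_left h3 h6
        _ = _ := by ring
    linarith

end Helper78.LapRatio
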