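import Pool.Agent.Helper78.LapRatioMain2
set_option autoImplicit false
set_option linter.unusedSectionVars false
open scoped BigOperators
open Classical
open Filter Topology
namespace Helper78.LapRatio


section job36146


theorem lim_exp (k : ℕ) (hk : 2 ≤ k) :
    Tendsto (fun n : ℕ => (n : ℝ) * (2 ^ k - 2 ^ k * Real.exp (-((al k) ^ 2 / (4 * ((n : ℝ) + k - 2))))))
      atTop (𝓝 (2 ^ k * (al k) ^ 2 / 4)) := by
  set A : ℝ := (al k) ^ 2 with hA
  have hA0 : 0 ≤ A := sq_nonneg _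
  set c : ℝ := (k : ℝ) - 2 with hc
  have hc0 : 0 ≤ c := by
    have : (2:ℝ) ≤ k := by exact_mod_cast hk
    rw [hc]
    linarith
  have h1 : Tendsto (fun n : ℕ => (n : ℝ) / (n + c)) atTop (𝓝 1) :=
    tendsto_natCast_div_add_atTop c
  have h2 : Tendsto (fun n : ℕ => A / 4 * ((n : ℝ) / (n + c))) atTop (𝓝 (A / 4)) := by
    have := h1.const_mul (A / 4)
    rwa [mul_one] at this
  have h3 : Tendsto (fun n : ℕ => A / (4 * ((n : ℝ) + c))) atTop (𝓝 0) := by
    apply Tendsto.const_div_atTop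
    apply Tendsto.const_mul_atTop (by norm_num)
    exact tendsto_atTop_add_const_right _ _ tendsto_natCast_atTop_atTop
  have h4 : Tendsto (fun n : ℕ => A / 4 * ((n : ℝ) / (n + c)) / (1 + A / (4 * ((n : ℝ) + c)))) atTop
      (𝓝 (A / 4)) := by
    have h5 := h2.div (h3.const_add 1) (by norm_num)
    rw [add_zero, div_one] at h5
    exact h5
  have hmain : Tendsto (fun n : ℕ => (n : ℝ) * (1 - Real.exp (-(A / (4 * ((n : ℝ) + c)))))) atTop
      (𝓝 (A / 4)) := by
    refine tendsto_of_tendsto_of_tendsto_of_le_of_le' h4 h2 ?_ ?_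
    · filter_upwards [eventually_gt_atTop 0] with n hn
      have hn0 : (0:ℝ) < n := by exact_mod_cast hn
      have ht0 : 0 ≤ A / (4 * ((n : ℝ) + c)) := by positivity
      set t := A / (4 * ((n : ℝ) + c)) with ht
      have e1 : A / 4 * ((n : ℝ) / (n + c)) = n * t := by
        rw [ht]
        field_simp
      rw [e1, mul_div_assoc]
      apply mul_le_mul_of_nonneg_left _ hn0.le
      have e2 : Real.exp (-t) ≤ 1 / (1 + t) := by
        rw [Real.exp_neg, ← one_div]
        apply one_div_le_one_div_of_le (by positivity)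
        have := Real.add_one_le_exp t
        linarith
      have e3 : t / (1 + t) = 1 - 1 / (1 + t) := by
        field_simp
        ring
      rw [e3]
      linarith
    · filter_upwards [eventually_gt_atTop 0] with n hn
      have hn0 : (0:ℝ) < n := by exact_mod_cast hn
      set t := A / (4 * ((n : ℝ) + c)) with ht
      have e1 : A / 4 * ((n : ℝ) / (n + c)) = n * t := by
        rw [ht]
        field_simp
      rw [e1]
      apply mul_le_mul_of_nonneg_left _ hn0.le
      have := Real.add_one_le_exp (-t)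
      linarith
  have hfin := hmain.const_mul ((2:ℝ)^k)
  rw [show (2:ℝ) ^ k * A / 4 = 2 ^ k * (A / 4) by ring]
  refine hfin.congr fun n => ?_
  rw [show (n:ℝ) + k - 2 = n + c by rw [hc]; ring]
  ring

end job36146

section job36147


theorem lim_sn (k : ℕ) (hk : 2 ≤ k) :
    (∀ᶠ n : ℕ in atTop, 1 ≤ sn k n ∧ (k - 1) * sn k n + k ≤ n ∧ 1 ≤ n - 1 - (k - 1) * sn k n) ∧
    Tendsto (fun n : ℕ => (n : ℝ) * (2 ^ k * (((k : ℝ) - 1) / (4 * ((n - 1 - (k - 1) * sn k n : ℕ) : ℝ))
        + ((k : ℝ) - 1) / (4 * (sn k n : ℝ)))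
        + 2 ^ k * (k : ℝ) ^ 2 / ((min (sn k n) (n - 1 - (k - 1) * sn k n) : ℕ) : ℝ) ^ 2))
      atTop (𝓝 (2 ^ k * (al k) ^ 2 / 4)) := by
  have hkR : (2 : ℝ) ≤ (k : ℝ) := by exact_mod_cast hk
  obtain ⟨q, hq⟩ : ∃ q : ℝ, q = Real.sqrt ((k : ℝ) - 1) := ⟨_, rfl⟩
  have hq1 : 1 ≤ q := by
    rw [hq]; exact Real.one_le_sqrt.mpr (by linarith)
  have hqq : q ^ 2 = (k : ℝ) - 1 := by
    rw [hq]; exact Real.sq_sqrt (by linarith)
  have hal : al k = q ^ 2 + q := by
    unfold al; rw [hqq, hq]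
  have hapos : 0 < al k := by rw [hal]; positivity
  have hane : al k ≠ 0 := hapos.ne'
  have hqne : q ≠ 0 := by positivity
  have hk1 : ((k - 1 : ℕ) : ℝ) = (k : ℝ) - 1 := by
    rw [Nat.cast_sub (by omega)]; simp
  -- basic inequality
  have hs_le : ∀ n : ℕ, (sn k n : ℝ) ≤ (n : ℝ) / al k := fun n =>
    Nat.floor_le (by positivity)
  have hev : ∀ᶠ n : ℕ in atTop, 1 ≤ sn k n ∧ (k - 1) * sn k n + k ≤ n ∧
      1 ≤ n - 1 - (k - 1) * sn k n := by
    filter_upwards [eventually_ge_atTop ⌈(k : ℝ) * (q + 1) + al k⌉₊] with n hn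
    have hn' : (k : ℝ) * (q + 1) + al k ≤ (n : ℝ) := le_trans (Nat.le_ceil _) (by exact_mod_cast hn)
    have h1 : 1 ≤ sn k n := by
      unfold sn
      rw [Nat.one_le_floor_iff]
      rw [le_div_iff₀ hapos]
      have : 0 ≤ (k : ℝ) * (q + 1) := by positivity
      linarith
    have h2 : (k - 1) * sn k n + k ≤ n := by
      have h3 : (((k - 1) * sn k n + k : ℕ) : ℝ) ≤ (n : ℝ) := by
        push_cast
        rw [hk1]
        have h4 : ((k : ℝ) - 1) * (sn k n : ℝ) ≤ ((k : ℝ) - 1) * ((n : ℝ) / al k) :=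
          mul_le_mul_of_nonneg_left (hs_le n) (by linarith)
        have h5 : ((k : ℝ) - 1) * ((n : ℝ) / al k) = (n : ℝ) * (q / (q + 1)) := by
          rw [hal, ← hqq]
          have : q + 1 ≠ 0 := by positivity
          have h6 : q ^ 2 + q ≠ 0 := by positivity
          field_simp
        have h7 : (k : ℝ) ≤ (n : ℝ) / (q + 1) := by
          rw [le_div_iff₀ (by positivity)]
          linarith
        have h8 : (n : ℝ) * (q / (q + 1)) + (n : ℝ) / (q + 1) = n := by
          have : q + 1 ≠ 0 := by positivity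
          field_simp
        linarith
      exact_mod_cast h3
    refine ⟨h1, h2, ?_⟩
    omega
  refine ⟨hev, ?_⟩
  -- limits
  have hf : Tendsto (fun n : ℕ => (sn k n : ℝ) / (n : ℝ)) atTop (𝓝 (al k)⁻¹) := by
    have h := (tendsto_nat_floor_mul_div_atTop (R := ℝ) (a := (al k)⁻¹) (by positivity)).comp
      (tendsto_natCast_atTop_atTop (R := ℝ))
    refine h.congr (fun n => ?_)
    simp only [Function.comp]
    unfold sn
    rw [div_eq_inv_mul (n : ℝ) (al k)]
  have hinv : Tendsto (fun n : ℕ => ((n : ℝ))⁻¹) atTop (𝓝 0) := tendsto_inv_atTop_nhds_zero_nat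
  have hg : Tendsto (fun n : ℕ => ((n - 1 - (k - 1) * sn k n : ℕ) : ℝ) / (n : ℝ)) atTop
      (𝓝 (q / al k)) := by
    have h0 : Tendsto (fun n : ℕ => 1 - ((n : ℝ))⁻¹ - ((k : ℝ) - 1) * ((sn k n : ℝ) / (n : ℝ)))
        atTop (𝓝 (1 - 0 - ((k : ℝ) - 1) * (al k)⁻¹)) :=
      (tendsto_const_nhds.sub hinv).sub (hf.const_mul _)
    have he : (1 : ℝ) - 0 - ((k : ℝ) - 1) * (al k)⁻¹ = q / al k := by
      field_simp
      rw [hal, ← hqq]; ring
    rw [he] at h0
    refine h0.congr' ?_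
    filter_upwards [hev, eventually_ge_atTop 1] with n hn hn1
    obtain ⟨h1, h2, h3⟩ := hn
    have hcast : ((n - 1 - (k - 1) * sn k n : ℕ) : ℝ) = (n : ℝ) - 1 - ((k : ℝ) - 1) * (sn k n : ℝ) := by
      rw [Nat.cast_sub (by omega), Nat.cast_sub (by omega)]
      push_cast
      rw [hk1]
    rw [hcast]
    have hn0 : (n : ℝ) ≠ 0 := by
      have : (1 : ℝ) ≤ (n : ℝ) := by exact_mod_cast hn1
      linarith
    field_simp
  have hmin : Tendsto (fun n : ℕ => ((min (sn k n) (n - 1 - (k - 1) * sn k n) : ℕ) : ℝ) / (n : ℝ))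
      atTop (𝓝 (min (al k)⁻¹ (q / al k))) := by
    refine (hf.min hg).congr (fun n => ?_)
    rw [Nat.cast_min]
    exact (min_div_div_right (Nat.cast_nonneg n) _ _)
  have hmpos : min (al k)⁻¹ (q / al k) ≠ 0 := by
    have : 0 < min (al k)⁻¹ (q / al k) := lt_min (by positivity) (by positivity)
    exact this.ne'
  have hqa : q / al k ≠ 0 := by positivity
  have hA : Tendsto (fun n : ℕ => 2 ^ k * (((k : ℝ) - 1) / 4 *
        (((n - 1 - (k - 1) * sn k n : ℕ) : ℝ) / (n : ℝ))⁻¹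
        + ((k : ℝ) - 1) / 4 * ((sn k n : ℝ) / (n : ℝ))⁻¹)
        + 2 ^ k * (k : ℝ) ^ 2 * (((n : ℝ))⁻¹ *
          ((((min (sn k n) (n - 1 - (k - 1) * sn k n) : ℕ) : ℝ) / (n : ℝ))⁻¹) ^ 2))
      atTop (𝓝 (2 ^ k * (((k : ℝ) - 1) / 4 * (q / al k)⁻¹ + ((k : ℝ) - 1) / 4 * ((al k)⁻¹)⁻¹)
        + 2 ^ k * (k : ℝ) ^ 2 * (0 * ((min (al k)⁻¹ (q / al k))⁻¹) ^ 2))) := by
    refine Tendsto.add (Tendsto.const_mul _ (Tendsto.add ((hg.inv₀ hqa).const_mul _)
      ((hf.inv₀ (by positivity)).const_mul _))) (Tendsto.const_mul _ (hinv.mul ((hmin.inv₀ hmpos).pow 2)))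
  have hval : (2 ^ k * (((k : ℝ) - 1) / 4 * (q / al k)⁻¹ + ((k : ℝ) - 1) / 4 * ((al k)⁻¹)⁻¹)
        + 2 ^ k * (k : ℝ) ^ 2 * (0 * ((min (al k)⁻¹ (q / al k))⁻¹) ^ 2)) = 2 ^ k * (al k) ^ 2 / 4 := by
    rw [zero_mul, mul_zero, add_zero, inv_inv, inv_div, ← hqq]
    have : q ^ 2 / 4 * (al k / q) + q ^ 2 / 4 * al k = al k * (q ^ 2 + q) / 4 := by
      field_simp
      ring
    rw [this, ← hal]
    ring
  rw [hval] at hA
  refine hA.congr' ?_
  filter_upwards [eventually_ge_atTop 1] with n hn1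
  have hn0 : (n : ℝ) ≠ 0 := by
    have : (1 : ℝ) ≤ (n : ℝ) := by exact_mod_cast hn1
    linarith
  have e1 : ∀ c d : ℝ, (n : ℝ) * (c / (4 * d)) = c / 4 * (d / (n : ℝ))⁻¹ := by
    intro c d
    rw [inv_div]
    ring
  have e2 : ∀ c m : ℝ, (n : ℝ) * (c / m ^ 2) = c * ((n : ℝ)⁻¹ * ((m / (n : ℝ))⁻¹) ^ 2) := by
    intro c m
    rw [inv_div, div_pow]
    have : (n : ℝ)⁻¹ * ((n : ℝ) ^ 2 / m ^ 2) = (n : ℝ) / m ^ 2 := by
      rw [sq (n : ℝ), ← mul_div_assoc, ← mul_assoc, inv_mul_cancel₀ hn0, one_mul]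
    rw [this]
    ring
  rw [← e1, ← e1, ← e2]
  ring

end job36147

/-- values of the Laplacian ratio over trees on `n` vertices with matching number at most `k` -/
def SM (n k : ℕ) : Set ℝ :=
  {x : ℝ | ∃ T : SimpleGraph (Fin n), T.IsTree ∧ MatchingNumberLE T k ∧ lapRatio T = x}

theorem SM_finite (n k : ℕ) : (SM n k).Finite := by
  have : SM n k ⊆ Set.range (fun T : SimpleGraph (Fin n) => lapRatio T) := by
    rintro _ ⟨T, _, _, rfl⟩
    exact ⟨T, rfl⟩
  exact (Set.finite_range _).subset this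

theorem MatchingNumberLE.mono {V : Type*} {T : SimpleGraph V} {k l : ℕ} (h : MatchingNumberLE T k)
    (hkl : k ≤ l) : MatchingNumberLE T l := fun M h1 h2 => (h M h1 h2).trans hkl

theorem SM_nonempty (n k : ℕ) (hn : 1 ≤ n) (hk : 1 ≤ k) : (SM n k).Nonempty := by
  have hT : (parGraph n (fun _ => 0)).IsTree := parGraph_isTree n hn _ (fun i hi => by omega)
  refine ⟨_, parGraph n (fun _ => 0), hT, ?_, rfl⟩
  have hc : ∀ v w, (parGraph n (fun _ => 0)).Adj v w →
      v ∈ ({(⟨0, by omega⟩ : Fin n)} : Finset (Fin n)) ∨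
      w ∈ ({(⟨0, by omega⟩ : Fin n)} : Finset (Fin n)) := by
    intro v w h
    simp only [parGraph, SimpleGraph.fromRel_adj] at h
    simp only [Finset.mem_singleton, Fin.ext_iff]
    omega
  have := matching_of_cover _ _ hc
  rw [Finset.card_singleton] at this
  exact this.mono hk

theorem SM_isGreatest (n k : ℕ) (hn : 1 ≤ n) (hk : 1 ≤ k) : IsGreatest (SM n k) (sSup (SM n k)) :=
  ⟨(SM_nonempty n k hn hk).csSup_mem (SM_finite n k),
    fun _ hx => le_csSup (SM_finite n k).bddAbove hx⟩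

theorem lower_all' {k n : ℕ} (hk : 1 ≤ k) (hn : 2 * k ≤ n) :
    ∃ T : SimpleGraph (Fin n), T.IsTree ∧ MatchingNumberLE T k ∧
      (2 : ℝ) ^ k * (1 - (k : ℝ) * ((k : ℝ) * ((k : ℝ) - 1)) / n) ≤ lapRatio T := by
  have hT : (hubTree k n).IsTree := hub_isTree hk (by omega)
  refine ⟨hubTree k n, hT, ?_, ?_⟩
  · obtain ⟨C, hC, hcov⟩ := hub_cover hk hn
    have := matching_of_cover _ C hcov
    rwa [hC] at this
  · rw [lapRatio_eq _ hT (by omega)]
    have key := lower_hubs (hubTree k n) hT (by omega) (fun i : Fin k => (⟨i, by omega⟩ : Fin n))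
      (by intro a b h; simpa [Fin.ext_iff] using h)
      (fun i => Finset.univ.filter (fun x : Fin n => k ≤ (x : ℕ) ∧ (x : ℕ) % k = i))
      (by
        intro i x hx
        simp only [Finset.mem_filter, Finset.mem_univ, true_and] at hx
        exact hub_leaf hk hn i x hx.1 hx.2)
      (by
        intro i j hij
        rw [Finset.disjoint_left]
        intro x hx hx'
        simp only [Finset.mem_filter, Finset.mem_univ, true_and] at hx hx'
        apply hij
        ext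
        rw [← hx.2, ← hx'.2])
      (by
        intro i j h
        simp only [Finset.mem_filter, Finset.mem_univ, true_and] at h
        have := i.2
        omega)
    refine le_trans ?_ key
    have hn0 : (0 : ℝ) < n := by exact_mod_cast (by omega : 0 < n)
    have hk1 : (1 : ℝ) ≤ k := by exact_mod_cast hk
    have hfac : ∀ i : Fin k, 2 * (1 - (k : ℝ) * ((k : ℝ) - 1) / n) ≤
        1 + ((Finset.univ.filter (fun x : Fin n => k ≤ (x : ℕ) ∧ (x : ℕ) % k = i)).card : ℝ) /
          ((hubTree k n).degree ⟨i, by omega⟩ : ℝ) := by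
      intro i
      refine num_aux hk hn ?_ (hub_degree hk hn i) (hub_leaf_card hk hn i)
      have hq : 2 ≤ n / k := by
        rw [Nat.le_div_iff_mul_le (by omega)]; exact hn
      have hl := hub_leaf_card hk hn i
      have hne : (Finset.univ.filter (fun x : Fin n => k ≤ (x : ℕ) ∧ (x : ℕ) % k = i)).Nonempty := by
        rw [← Finset.card_pos]; omega
      obtain ⟨x, hx⟩ := hne
      simp only [Finset.mem_filter, Finset.mem_univ, true_and] at hx
      have hadj := (hub_leaf hk hn i x hx.1 hx.2).1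
      rw [SimpleGraph.degree_pos_iff_exists_adj]
      exact ⟨x, hadj⟩
    have hpow : (2 : ℝ) ^ k * (1 - (k : ℝ) * ((k : ℝ) * ((k : ℝ) - 1)) / n) ≤ ∏ _i : Fin k, (1 : ℝ) ∨
        0 ≤ 1 - (k : ℝ) * ((k : ℝ) - 1) / n := by
      by_cases h : 0 ≤ 1 - (k : ℝ) * ((k : ℝ) - 1) / n
      · exact Or.inr h
      · left
        push Not at h
        have h2 : (n : ℝ) < k * ((k : ℝ) - 1) := by
          rw [sub_neg, lt_div_iff₀ hn0] at h
          linarith
        have h3 : (n : ℝ) ≤ (k : ℝ) * ((k : ℝ) * ((k : ℝ) - 1)) := by nlinarith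
        have h4 : 1 - (k : ℝ) * ((k : ℝ) * ((k : ℝ) - 1)) / n ≤ 0 := by
          rw [sub_nonpos, le_div_iff₀ hn0]; linarith
        have h5 : (2 : ℝ) ^ k * (1 - (k : ℝ) * ((k : ℝ) * ((k : ℝ) - 1)) / n) ≤ 0 :=
          mul_nonpos_of_nonneg_of_nonpos (by positivity) h4
        simp only [Finset.prod_const_one]
        linarith
    rcases hpow with h | h
    · refine h.trans (Finset.prod_le_prod (fun _ _ => zero_le_one) ?_)
      intro i _
      have : (0 : ℝ) ≤ ((Finset.univ.filter (fun x : Fin n => k ≤ (x : ℕ) ∧ (x : ℕ) % k = i)).card : ℝ) /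
          ((hubTree k n).degree ⟨i, by omega⟩ : ℝ) := by positivity
      linarith
    · have h1 : ∏ _i : Fin k, (2 * (1 - (k : ℝ) * ((k : ℝ) - 1) / n)) ≤
          ∏ i : Fin k, (1 + ((Finset.univ.filter (fun x : Fin n => k ≤ (x : ℕ) ∧ (x : ℕ) % k = i)).card : ℝ) /
          ((hubTree k n).degree ⟨i, by omega⟩ : ℝ)) :=
        Finset.prod_le_prod (fun _ _ => by positivity) (fun i _ => hfac i)
      refine le_trans ?_ h1
      rw [Finset.prod_const, Finset.card_univ, Fintype.card_fin, mul_pow]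
      refine mul_le_mul_of_nonneg_left ?_ (by positivity)
      have hb := one_add_mul_le_pow (a := -((k : ℝ) * ((k : ℝ) - 1) / n)) (by linarith) k
      have e1 : (1 : ℝ) + -((k : ℝ) * ((k : ℝ) - 1) / n) = 1 - (k : ℝ) * ((k : ℝ) - 1) / n := by ring
      rw [e1] at hb
      refine le_trans ?_ hb
      have e2 : (k : ℝ) * -((k : ℝ) * ((k : ℝ) - 1) / n) = -((k : ℝ) * ((k : ℝ) * ((k : ℝ) - 1)) / n) := by ring
      rw [e2]; linarith

theorem tendsto_max (k : ℕ) (hk : 1 ≤ k) :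
    Tendsto (fun n : ℕ => (n : ℝ) * (2 ^ k - sSup (SM n k))) atTop (𝓝 (2 ^ k * (al k) ^ 2 / 4)) := by
  rcases Nat.eq_or_lt_of_le hk with h1 | h2
  · -- k = 1
    subst h1
    have hal : al 1 = 0 := by simp [al]
    have hev : (fun n : ℕ => (n : ℝ) * (2 ^ 1 - sSup (SM n 1))) =ᶠ[atTop] fun _ => (0 : ℝ) := by
      filter_upwards [eventually_ge_atTop 2] with n hn
      have hG := SM_isGreatest n 1 (by omega) le_rfl
      have hle : sSup (SM n 1) ≤ 2 ^ 1 := by
        obtain ⟨T, hT, hM, hx⟩ := hG.1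
        rw [← hx]
        exact upper_all hn T hT hM
      have hge : (2 : ℝ) ≤ sSup (SM n 1) := by
        obtain ⟨T, hT, hM, hx⟩ := lower_all' (k := 1) (n := n) le_rfl (by omega)
        have := hG.2 ⟨T, hT, hM, rfl⟩
        norm_num at hx
        linarith
      have : sSup (SM n 1) = 2 := by linarith
      rw [this]; ring
    rw [hal]
    refine Tendsto.congr' hev.symm ?_
    simp
  · have hk2 : 2 ≤ k := h2
    obtain ⟨hev, hlim⟩ := lim_sn k hk2
    refine tendsto_of_tendsto_of_tendsto_of_le_of_le' (lim_exp k hk2) hlim ?_ ?_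
    · filter_upwards [eventually_ge_atTop (max 3 k)] with n hn
      have hn3 : 3 ≤ n := le_trans (le_max_left _ _) hn
      have hnk : k ≤ n := le_trans (le_max_right _ _) hn
      refine mul_le_mul_of_nonneg_left ?_ (Nat.cast_nonneg _)
      have : sSup (SM n k) ≤ 2 ^ k * Real.exp (-((al k) ^ 2 / (4 * ((n : ℝ) + k - 2)))) := by
        refine csSup_le (SM_nonempty n k (by omega) (by omega)) ?_
        rintro _ ⟨T, hT, hM, rfl⟩
        exact upper_exp T hT hn3 hk2 hnk hM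
      linarith
    · filter_upwards [hev] with n hn
      refine mul_le_mul_of_nonneg_left ?_ (Nat.cast_nonneg _)
      obtain ⟨T, hT, hM, hx⟩ := lower_spider hk2 hn.1 hn.2.1
        (min (sn k n) (n - 1 - (k - 1) * sn k n)) (le_min hn.1 hn.2.2) (min_le_left _ _) (min_le_right _ _)
      have : lapRatio T ≤ sSup (SM n k) :=
        le_csSup (SM_finite n k).bddAbove ⟨T, hT, hM, rfl⟩
      linarith

end Helper78.LapRatio
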