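import Pool.Agent.Helper78.LapRatioMain3
import Pool.Agent.Helper78.LapRatioDefs2
set_option autoImplicit false
set_option linter.unusedSectionVars false
open scoped BigOperators
open Classical
open Filter Topology
namespace Helper78.LapRatio


section job36558




theorem cst_dich {n : ℕ} (T : SimpleGraph (Fin n)) (hT : T.IsTree) (hn : 3 ≤ n)
    (C : Finset (Fin n)) (hC : ∀ v w, T.Adj v w → v ∈ C ∨ w ∈ C) (hk : 2 ≤ C.card) :
    ∀ v ∈ C, cst T C v = 1 / 2 ∨ 2 / 3 ≤ cst T C v := by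
  intro v hv
  set t : Fin n → ℝ := fun x =>
    1 - (if ¬ (x ∈ C ∧ ori T x v) then 1 / (T.degree x : ℝ) else 0) with ht
  have hcst : cst T C v = ∑ x ∈ T.neighborFinset v, t x := by
    unfold cst Np
    rw [Finset.sum_filter, ht]
    simp only []
    rw [Finset.sum_sub_distrib, Finset.sum_const, nsmul_eq_mul, mul_one,
      T.card_neighborFinset_eq_degree]
  have hdeg : ∀ x ∈ T.neighborFinset v, 1 ≤ T.degree x := by
    intro x hx
    have h1 : T.Adj v x := (T.mem_neighborFinset v x).1 hx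
    rw [← T.card_neighborFinset_eq_degree]
    exact Finset.card_pos.2 ⟨v, (T.mem_neighborFinset x v).2 h1.symm⟩
  have htri : ∀ x ∈ T.neighborFinset v, t x = 0 ∨ t x = 1 / 2 ∨ 2 / 3 ≤ t x := by
    intro x hx
    have hd := hdeg x hx
    by_cases h : x ∈ C ∧ ori T x v
    · right; right
      simp only [ht]
      rw [if_neg (not_not.2 h)]
      norm_num
    · simp only [ht]
      rw [if_pos h]
      rcases Nat.lt_or_ge (T.degree x) 3 with h3 | h3
      · have : T.degree x = 1 ∨ T.degree x = 2 := by omega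
        rcases this with h4 | h4
        · left; rw [h4]; norm_num
        · right; left; rw [h4]; norm_num
      · right; right
        have h5 : (3 : ℝ) ≤ (T.degree x : ℝ) := by exact_mod_cast h3
        have h6 : 1 / (T.degree x : ℝ) ≤ 1 / 3 := one_div_le_one_div_of_le (by norm_num) h5
        linarith
  have hex : ∃ x ∈ T.neighborFinset v, t x ≠ 0 := by
    by_contra hcon
    push Not at hcon
    have h1 : ∀ x, T.Adj v x → ¬ (x ∈ C ∧ ori T x v) ∧ T.degree x = 1 := by
      intro x hx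
      have hx' := (T.mem_neighborFinset v x).2 hx
      have h0 := hcon x hx'
      have hd := hdeg x hx'
      by_cases h : x ∈ C ∧ ori T x v
      · simp only [ht] at h0
        rw [if_neg (not_not.2 h)] at h0
        norm_num at h0
      · refine ⟨h, ?_⟩
        simp only [ht] at h0
        rw [if_pos h] at h0
        have hd0 : (T.degree x : ℝ) ≠ 0 := by
          have : T.degree x ≠ 0 := by omega
          exact_mod_cast this
        have h2 : (1 : ℝ) = 1 / (T.degree x : ℝ) := by linarith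
        rw [eq_div_iff hd0, one_mul] at h2
        exact_mod_cast h2
    have hS : ∀ (u w : Fin n) (p : T.Walk u w), (u = v ∨ T.Adj v u) → (w = v ∨ T.Adj v w) := by
      intro u w p
      induction p with
      | nil => exact id
      | @cons a b c hab p ih =>
        intro ha
        apply ih
        rcases ha with ha | ha
        · right; rw [← ha]; exact hab
        · left
          have hd := (h1 a ha).2
          rw [← T.card_neighborFinset_eq_degree, Finset.card_eq_one] at hd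
          obtain ⟨y, hy⟩ := hd
          have e1 : b ∈ T.neighborFinset a := (T.mem_neighborFinset a b).2 hab
          have e2 : v ∈ T.neighborFinset a := (T.mem_neighborFinset a v).2 ha.symm
          rw [hy, Finset.mem_singleton] at e1 e2
          rw [e1, e2]
    have hall : ∀ w, w = v ∨ T.Adj v w := by
      intro w
      obtain ⟨p⟩ := hT.isConnected.preconnected v w
      exact hS v w p (Or.inl rfl)
    have hdv : 2 ≤ T.degree v := by
      rw [← T.card_neighborFinset_eq_degree]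
      have h2 : (Finset.univ.erase v : Finset (Fin n)) ⊆ T.neighborFinset v := by
        intro w hw
        rw [Finset.mem_erase] at hw
        rw [T.mem_neighborFinset]
        exact (hall w).resolve_left hw.1
      have h3 := Finset.card_le_card h2
      rw [Finset.card_erase_of_mem (Finset.mem_univ v), Finset.card_univ, Fintype.card_fin] at h3
      omega
    obtain ⟨v', hv', hne⟩ := Finset.exists_mem_ne (by omega : 1 < C.card) v
    have hadj := (hall v').resolve_left hne
    have h4 := h1 v' hadj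
    exact h4.1 ⟨hv', hdv, Or.inl h4.2⟩
  obtain ⟨x0, hx0, hx0t⟩ := hex
  have hnn : ∀ x ∈ T.neighborFinset v, 0 ≤ t x := by
    intro x hx
    rcases htri x hx with h | h | h
    · exact h.ge
    · rw [h]; norm_num
    · linarith
  rw [hcst, ← Finset.add_sum_erase _ _ hx0]
  by_cases hz : ∀ x ∈ (T.neighborFinset v).erase x0, t x = 0
  · rw [Finset.sum_eq_zero hz, add_zero]
    rcases htri x0 hx0 with h | h | h
    · exact absurd h hx0t
    · exact Or.inl h
    · exact Or.inr h
  · push Not at hz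
    obtain ⟨x1, hx1, hx1t⟩ := hz
    right
    have h1 : t x1 ≤ ∑ x ∈ (T.neighborFinset v).erase x0, t x :=
      Finset.single_le_sum (fun x hx => hnn x (Finset.mem_of_mem_erase hx)) hx1
    have h2 : 1 / 2 ≤ t x0 := by
      rcases htri x0 hx0 with h | h | h
      · exact absurd h hx0t
      · exact h.ge
      · linarith
    have h3 : 1 / 2 ≤ t x1 := by
      rcases htri x1 (Finset.mem_of_mem_erase hx1) with h | h | h
      · exact absurd h hx1t
      · exact h.ge
      · linarith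
    linarith

end job36558

section job36559




theorem csd_deg_pos {n : ℕ} (T : SimpleGraph (Fin n)) (hT : T.IsTree) (hn : 3 ≤ n)
    (v : Fin n) : 1 ≤ T.degree v := by
  haveI : Nontrivial (Fin n) := by
    haveI : Fact (1 < n) := ⟨by omega⟩
    exact Fin.nontrivial_iff_two_le.2 (by omega)
  exact hT.connected.preconnected.degree_pos_of_nontrivial v

theorem csd_not_both {n : ℕ} (T : SimpleGraph (Fin n)) (hT : T.IsTree) (hn : 3 ≤ n)
    (v x : Fin n) (h : T.Adj v x) : ¬ (T.degree v = 1 ∧ T.degree x = 1) := by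
  rintro ⟨h1, h2⟩
  have hv : ∀ w, T.Adj v w → w = x := by
    intro w hw
    have h3 : T.neighborFinset v = {x} := by
      rw [← SimpleGraph.card_neighborFinset_eq_degree] at h1
      obtain ⟨y, hy⟩ := Finset.card_eq_one.1 h1
      have h4 : x ∈ T.neighborFinset v := by rw [SimpleGraph.mem_neighborFinset]; exact h
      rw [hy, Finset.mem_singleton] at h4
      rw [hy, h4]
    have h5 : w ∈ T.neighborFinset v := by rw [SimpleGraph.mem_neighborFinset]; exact hw
    rw [h3, Finset.mem_singleton] at h5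
    exact h5
  have hx : ∀ w, T.Adj x w → w = v := by
    intro w hw
    have h3 : T.neighborFinset x = {v} := by
      rw [← SimpleGraph.card_neighborFinset_eq_degree] at h2
      obtain ⟨y, hy⟩ := Finset.card_eq_one.1 h2
      have h4 : v ∈ T.neighborFinset x := by rw [SimpleGraph.mem_neighborFinset]; exact h.symm
      rw [hy, Finset.mem_singleton] at h4
      rw [hy, h4]
    have h5 : w ∈ T.neighborFinset x := by rw [SimpleGraph.mem_neighborFinset]; exact hw
    rw [h3, Finset.mem_singleton] at h5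
    exact h5
  have hcl : ∀ a b : Fin n, T.Walk a b → (a = v ∨ a = x) → (b = v ∨ b = x) := by
    intro a b p
    induction p with
    | nil => exact id
    | cons hab p ih =>
      rintro (rfl | rfl)
      · exact ih (Or.inr (hv _ hab))
      · exact ih (Or.inl (hx _ hab))
  have hall : ∀ b : Fin n, b = v ∨ b = x := by
    intro b
    obtain ⟨p⟩ := hT.connected.preconnected v b
    exact hcl v b p (Or.inl rfl)
  have hcard : (Finset.univ : Finset (Fin n)) ⊆ {v, x} := by
    intro b _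
    rw [Finset.mem_insert, Finset.mem_singleton]
    exact hall b
  have h6 := Finset.card_le_card hcard
  rw [Finset.card_univ, Fintype.card_fin] at h6
  have h7 : ({v, x} : Finset (Fin n)).card ≤ 2 := Finset.card_le_two
  omega

theorem csd_ori {n : ℕ} (T : SimpleGraph (Fin n)) (hT : T.IsTree) (hn : 3 ≤ n)
    (v x : Fin n) (h : T.Adj v x) (h1 : ¬ ori T x v) : ori T v x := by
  have h2 := csd_deg_pos T hT hn v
  have h3 := csd_deg_pos T hT hn x
  have h4 := csd_not_both T hT hn v x h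
  have h5 : v ≠ x := h.ne
  unfold ori at h1 ⊢
  by_cases hv : 2 ≤ T.degree v
  · have h6 : ¬ (T.degree x = 1 ∨ x < v) := fun h7 => h1 ⟨hv, h7⟩
    push Not at h6
    have h7 : v < x := lt_of_le_of_ne h6.2 h5
    exact ⟨by omega, Or.inr h7⟩
  · have h6 : T.degree v = 1 := by omega
    have h7 : T.degree x ≠ 1 := fun h8 => h4 ⟨h6, h8⟩
    exact ⟨by omega, Or.inl h6⟩

theorem csd_total {n : ℕ} (T : SimpleGraph (Fin n)) (hT : T.IsTree) :
    ∑ v, (T.degree v : ℝ) = 2 * ((n : ℝ) - 1) := by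
  have h1 := T.sum_degrees_eq_twice_card_edges
  have h2 := hT.card_edgeFinset
  rw [Fintype.card_fin] at h2
  have h3 : ∑ v, (T.degree v : ℝ) = ((∑ v, T.degree v : ℕ) : ℝ) := by push_cast; rfl
  rw [h3, h1]
  have h4 : (n : ℝ) = (T.edgeFinset.card : ℝ) + 1 := by exact_mod_cast h2.symm
  rw [h4]
  push_cast
  ring

theorem csd_out {n : ℕ} (T : SimpleGraph (Fin n))
    (C : Finset (Fin n)) (hC : ∀ v w, T.Adj v w → v ∈ C ∨ w ∈ C) (f : Fin n → ℝ) :
    ∑ v ∈ C, ∑ x ∈ (T.neighborFinset v).filter (fun x => x ∉ C), f x =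
      ∑ x ∈ Cᶜ, (T.degree x : ℝ) * f x := by
  rw [Finset.sum_comm' (s' := fun x => T.neighborFinset x) (t' := Cᶜ)]
  · refine Finset.sum_congr rfl fun x _ => ?_
    rw [Finset.sum_const, SimpleGraph.card_neighborFinset_eq_degree, nsmul_eq_mul]
  · intro v x
    simp only [Finset.mem_filter, SimpleGraph.mem_neighborFinset, Finset.mem_compl]
    constructor
    · rintro ⟨h1, h2, h3⟩
      exact ⟨h2.symm, h3⟩
    · rintro ⟨h1, h2⟩
      refine ⟨?_, h1.symm, h2⟩
      rcases hC x v h1 with h | h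
      · exact absurd h h2
      · exact h

theorem csd_in {n : ℕ} (T : SimpleGraph (Fin n)) (hT : T.IsTree) (hn : 3 ≤ n)
    (C : Finset (Fin n)) :
    ∑ v ∈ C, (((T.neighborFinset v).filter (fun x => x ∈ C ∧ ¬ ori T x v)).card : ℝ) ≤
      ∑ v ∈ C, (((T.neighborFinset v).filter (fun x => x ∈ C ∧ ori T x v)).card : ℝ) := by
  have h1 : ∑ v ∈ C, (((T.neighborFinset v).filter (fun x => x ∈ C ∧ ori T x v)).card : ℝ) =
      ∑ v ∈ C, (((T.neighborFinset v).filter (fun x => x ∈ C ∧ ori T v x)).card : ℝ) := by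
    have h2 : ∀ v, (((T.neighborFinset v).filter (fun x => x ∈ C ∧ ori T x v)).card : ℝ) =
        ∑ x ∈ (T.neighborFinset v).filter (fun x => x ∈ C ∧ ori T x v), (1 : ℝ) := by
      intro v
      rw [Finset.sum_const, nsmul_eq_mul, mul_one]
    have h3 : ∀ v, (((T.neighborFinset v).filter (fun x => x ∈ C ∧ ori T v x)).card : ℝ) =
        ∑ x ∈ (T.neighborFinset v).filter (fun x => x ∈ C ∧ ori T v x), (1 : ℝ) := by
      intro v
      rw [Finset.sum_const, nsmul_eq_mul, mul_one]
    rw [Finset.sum_congr rfl fun v _ => h2 v, Finset.sum_congr rfl fun v _ => h3 v]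
    apply Finset.sum_comm'
    intro v x
    simp only [Finset.mem_filter, SimpleGraph.mem_neighborFinset]
    constructor
    · rintro ⟨h4, h5, h6, h7⟩
      exact ⟨⟨h5.symm, h4, h7⟩, h6⟩
    · rintro ⟨⟨h4, h5, h6⟩, h7⟩
      exact ⟨h5, h4.symm, h7, h6⟩
  rw [h1]
  refine Finset.sum_le_sum fun v _ => ?_
  norm_cast
  refine Finset.card_le_card fun x hx => ?_
  simp only [Finset.mem_filter, SimpleGraph.mem_neighborFinset] at hx ⊢
  exact ⟨hx.1, hx.2.1, csd_ori T hT hn v x hx.1 hx.2.2⟩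

theorem csd_Np {n : ℕ} (T : SimpleGraph (Fin n)) (hT : T.IsTree) (hn : 3 ≤ n)
    (C : Finset (Fin n)) (v : Fin n) :
    ∑ x ∈ Np T C v, 1 / (T.degree x : ℝ) ≤
      ∑ x ∈ (T.neighborFinset v).filter (fun x => x ∉ C), 1 / (T.degree x : ℝ) +
      (((T.neighborFinset v).filter (fun x => x ∈ C ∧ ¬ ori T x v)).card : ℝ) := by
  have h1 : Np T C v = (T.neighborFinset v).filter (fun x => x ∉ C) ∪
      (T.neighborFinset v).filter (fun x => x ∈ C ∧ ¬ ori T x v) := by
    ext x
    unfold Np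
    simp only [Finset.mem_filter, Finset.mem_union]
    tauto
  have h2 : Disjoint ((T.neighborFinset v).filter (fun x => x ∉ C))
      ((T.neighborFinset v).filter (fun x => x ∈ C ∧ ¬ ori T x v)) := by
    rw [Finset.disjoint_left]
    intro x hx hx'
    simp only [Finset.mem_filter] at hx hx'
    exact hx.2 hx'.2.1
  rw [h1, Finset.sum_union h2]
  have h3 : ∑ x ∈ (T.neighborFinset v).filter (fun x => x ∈ C ∧ ¬ ori T x v),
      1 / (T.degree x : ℝ) ≤ ∑ x ∈ (T.neighborFinset v).filter (fun x => x ∈ C ∧ ¬ ori T x v),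
      (1 : ℝ) := by
    refine Finset.sum_le_sum fun x _ => ?_
    have h4 := csd_deg_pos T hT hn x
    have h5 : (1 : ℝ) ≤ T.degree x := by exact_mod_cast h4
    rw [div_le_one (by linarith)]
    exact h5
  rw [Finset.sum_const, nsmul_eq_mul, mul_one] at h3
  linarith

theorem csd_split {n : ℕ} (T : SimpleGraph (Fin n)) (C : Finset (Fin n)) (v : Fin n) :
    (T.degree v : ℝ) =
      ∑ x ∈ (T.neighborFinset v).filter (fun x => x ∉ C), (1 : ℝ) +
      (((T.neighborFinset v).filter (fun x => x ∈ C ∧ ¬ ori T x v)).card : ℝ) +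
      (((T.neighborFinset v).filter (fun x => x ∈ C ∧ ori T x v)).card : ℝ) := by
  rw [Finset.sum_const, nsmul_eq_mul, mul_one, ← SimpleGraph.card_neighborFinset_eq_degree]
  have h1 := Finset.card_filter_add_card_filter_not (s := T.neighborFinset v) (fun x => x ∈ C)
  have h2 := Finset.card_filter_add_card_filter_not
    (s := (T.neighborFinset v).filter (fun x => x ∈ C)) (fun x => ori T x v)
  rw [Finset.filter_filter, Finset.filter_filter] at h2
  rw [← h1, ← h2]
  push_cast
  ring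



theorem csd_Np2 {n : ℕ} (T : SimpleGraph (Fin n)) (hT : T.IsTree) (hn : 3 ≤ n)
    (C : Finset (Fin n)) (v : Fin n) :
    ∑ x ∈ Np T C v, 1 / (T.degree x : ℝ) ≤
      ∑ x ∈ (T.neighborFinset v).filter (fun x => x ∉ C), 1 / (T.degree x : ℝ) +
      (((T.neighborFinset v).filter (fun x => x ∈ C ∧ ¬ ori T x v)).card : ℝ) * (1 / 2) := by
  have h1 : Np T C v = (T.neighborFinset v).filter (fun x => x ∉ C) ∪
      (T.neighborFinset v).filter (fun x => x ∈ C ∧ ¬ ori T x v) := by
    ext x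
    unfold Np
    simp only [Finset.mem_filter, Finset.mem_union]
    tauto
  have h2 : Disjoint ((T.neighborFinset v).filter (fun x => x ∉ C))
      ((T.neighborFinset v).filter (fun x => x ∈ C ∧ ¬ ori T x v)) := by
    rw [Finset.disjoint_left]
    intro x hx hx'
    simp only [Finset.mem_filter] at hx hx'
    exact hx.2 hx'.2.1
  rw [h1, Finset.sum_union h2]
  have h3 : ∑ x ∈ (T.neighborFinset v).filter (fun x => x ∈ C ∧ ¬ ori T x v),
      1 / (T.degree x : ℝ) ≤ ∑ x ∈ (T.neighborFinset v).filter (fun x => x ∈ C ∧ ¬ ori T x v),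
      (1 / 2 : ℝ) := by
    refine Finset.sum_le_sum fun x hx => ?_
    simp only [Finset.mem_filter, SimpleGraph.mem_neighborFinset] at hx
    have h4 := (csd_ori T hT hn v x hx.1 hx.2.2).1
    have h5 : (2 : ℝ) ≤ T.degree x := by exact_mod_cast h4
    exact one_div_le_one_div_of_le (by norm_num) h5
  rw [Finset.sum_const, nsmul_eq_mul] at h3
  linarith

theorem cst_sum_dich {n : ℕ} (T : SimpleGraph (Fin n)) (hT : T.IsTree) (hn : 3 ≤ n)
    (C : Finset (Fin n)) (hC : ∀ v w, T.Adj v w → v ∈ C ∨ w ∈ C) :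
    (∀ v ∈ C, ∀ w ∈ C, ¬ T.Adj v w) ∨ (C.card : ℝ) - 1 / 2 ≤ ∑ v ∈ C, cst T C v := by
  by_cases hne : ∀ v ∈ C, ∀ w ∈ C, ¬ T.Adj v w
  · exact Or.inl hne
  right
  push Not at hne
  obtain ⟨v0, hv0, w0, hw0, hadj⟩ := hne
  have hA : (1 : ℝ) ≤ ∑ v ∈ C, (((T.neighborFinset v).filter (fun x => x ∈ C ∧ ori T x v)).card : ℝ) := by
    have key : ∃ v ∈ C, ∃ x, x ∈ (T.neighborFinset v).filter (fun x => x ∈ C ∧ ori T x v) := by
      by_cases h : ori T w0 v0
      · exact ⟨v0, hv0, w0, by simp only [Finset.mem_filter, SimpleGraph.mem_neighborFinset]; exact ⟨hadj, hw0, h⟩⟩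
      · have h' := csd_ori T hT hn v0 w0 hadj h
        exact ⟨w0, hw0, v0, by simp only [Finset.mem_filter, SimpleGraph.mem_neighborFinset]; exact ⟨hadj.symm, hv0, h'⟩⟩
    obtain ⟨v, hv, x, hx⟩ := key
    have h1 : (1 : ℝ) ≤ (((T.neighborFinset v).filter (fun x => x ∈ C ∧ ori T x v)).card : ℝ) := by
      exact_mod_cast Finset.card_pos.2 ⟨x, hx⟩
    exact h1.trans (Finset.single_le_sum (f := fun v => (((T.neighborFinset v).filter (fun x => x ∈ C ∧ ori T x v)).card : ℝ))
      (fun i _ => Nat.cast_nonneg _) hv)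
  have hpos := csd_deg_pos T hT hn
  have htot := csd_total T hT
  have hsplit : ∑ v, (T.degree v : ℝ) = ∑ v ∈ C, (T.degree v : ℝ) + ∑ v ∈ Cᶜ, (T.degree v : ℝ) :=
    (Finset.sum_add_sum_compl C _).symm
  have hXcard : (Cᶜ.card : ℝ) = (n : ℝ) - C.card := by
    rw [Finset.card_compl, Fintype.card_fin, Nat.cast_sub]
    have := Finset.card_le_univ C
    rwa [Fintype.card_fin] at this
  have h1 := csd_out T C hC (fun _ => 1)
  simp only [mul_one] at h1
  have h2 := csd_out T C hC (fun x => 1 / (T.degree x : ℝ))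
  have h3 : ∑ x ∈ Cᶜ, (T.degree x : ℝ) * (1 / (T.degree x : ℝ)) = (Cᶜ.card : ℝ) := by
    have h4 : ∀ x ∈ Cᶜ, (T.degree x : ℝ) * (1 / (T.degree x : ℝ)) = 1 := by
      intro x _
      have h5 : (1 : ℝ) ≤ T.degree x := by exact_mod_cast hpos x
      rw [mul_one_div, div_self (by linarith)]
    rw [Finset.sum_congr rfl h4, Finset.sum_const, nsmul_eq_mul, mul_one]
  rw [h3] at h2
  have h7 : ∑ v ∈ C, (T.degree v : ℝ) = ∑ v ∈ C,
      (∑ x ∈ (T.neighborFinset v).filter (fun x => x ∉ C), (1 : ℝ) +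
      (((T.neighborFinset v).filter (fun x => x ∈ C ∧ ¬ ori T x v)).card : ℝ) +
      (((T.neighborFinset v).filter (fun x => x ∈ C ∧ ori T x v)).card : ℝ)) :=
    Finset.sum_congr rfl fun v _ => csd_split T C v
  rw [Finset.sum_add_distrib, Finset.sum_add_distrib, h1] at h7
  have h8 : ∑ v ∈ C, ∑ x ∈ Np T C v, 1 / (T.degree x : ℝ) ≤
      ∑ v ∈ C, (∑ x ∈ (T.neighborFinset v).filter (fun x => x ∉ C), 1 / (T.degree x : ℝ) +
      (((T.neighborFinset v).filter (fun x => x ∈ C ∧ ¬ ori T x v)).card : ℝ) * (1 / 2)) :=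
    Finset.sum_le_sum fun v _ => csd_Np2 T hT hn C v
  rw [Finset.sum_add_distrib, h2, ← Finset.sum_mul] at h8
  have h9 : ∑ v ∈ C, cst T C v = ∑ v ∈ C, (T.degree v : ℝ) -
      ∑ v ∈ C, ∑ x ∈ Np T C v, 1 / (T.degree x : ℝ) := by
    rw [← Finset.sum_sub_distrib]
    rfl
  rw [h9]
  linarith

end job36559

section job36560




/-- `√(a+y) + √(a+z) ≥ √a + √(a+y+z)` -/
theorem sqrt_sub (a u v : ℝ) (ha : 0 ≤ a) (hu : a ≤ u) (hv : a ≤ v) :
    Real.sqrt a + Real.sqrt (u + v - a) ≤ Real.sqrt u + Real.sqrt v := by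
  have hu0 : 0 ≤ u := ha.trans hu
  have hv0 : 0 ≤ v := ha.trans hv
  have hw0 : 0 ≤ u + v - a := by linarith
  have h1 := Real.sq_sqrt ha
  have h2 := Real.sq_sqrt hw0
  have h3 := Real.sq_sqrt hu0
  have h4 := Real.sq_sqrt hv0
  have p1 := Real.sqrt_nonneg a
  have p2 := Real.sqrt_nonneg (u + v - a)
  have p3 := Real.sqrt_nonneg u
  have p4 := Real.sqrt_nonneg v
  have h5 : Real.sqrt a * Real.sqrt (u + v - a) ≤ Real.sqrt u * Real.sqrt v := by
    rw [← Real.sqrt_mul ha, ← Real.sqrt_mul hu0]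
    apply Real.sqrt_le_sqrt
    nlinarith [mul_nonneg (sub_nonneg.mpr hu) (sub_nonneg.mpr hv)]
  rw [← pow_le_pow_iff_left₀ (by positivity) (by positivity) two_ne_zero]
  nlinarith

theorem sqrt_multi (a : ℝ) (ha : 0 ≤ a) {ι : Type} (t : Finset ι) (c : ι → ℝ)
    (hc : ∀ i ∈ t, a ≤ c i) (z : ℝ) (hz : a ≤ z) :
    (t.card : ℝ) * Real.sqrt a + Real.sqrt (z + ∑ i ∈ t, c i - t.card * a) ≤
      Real.sqrt z + ∑ i ∈ t, Real.sqrt (c i) := by
  induction t using Finset.induction_on generalizing z with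
  | empty => simp
  | insert i t hi ih =>
    have h1 := ih (fun j hj => hc j (Finset.mem_insert_of_mem hj)) (z + c i - a)
      (by have := hc i (Finset.mem_insert_self i t); linarith)
    have h2 := sqrt_sub a z (c i) ha hz (hc i (Finset.mem_insert_self i t))
    rw [Finset.sum_insert hi, Finset.sum_insert hi, Finset.card_insert_of_notMem hi]
    push_cast
    have h3 : z + c i - a + ∑ x ∈ t, c x - (t.card : ℝ) * a =
      z + (c i + ∑ x ∈ t, c x) - ((t.card : ℝ) + 1) * a := by ring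
    rw [h3] at h1
    linarith

theorem sqrt_gap (k : ℕ) (hk : 3 ≤ k) : ∃ δ : ℝ, 0 < δ ∧ ∀ (ι : Type) (s : Finset ι) (c : ι → ℝ),
    s.card = k → (∀ i ∈ s, c i = 1 / 2 ∨ 2 / 3 ≤ c i) → (k : ℝ) - 1 ≤ ∑ i ∈ s, c i →
    ((k : ℝ) - 1 / 2 ≤ ∑ i ∈ s, c i ∨ ∃ i ∈ s, ∃ j ∈ s, i ≠ j ∧ 2 / 3 ≤ c i ∧ 2 / 3 ≤ c j) →
    al k / Real.sqrt 2 + δ ≤ ∑ i ∈ s, Real.sqrt (c i) := by
  have hk3 : (3:ℝ) ≤ k := by exact_mod_cast hk
  obtain ⟨b, hb⟩ : ∃ b : ℝ, b = ((k:ℝ) - 1) / 2 := ⟨_, rfl⟩
  have hb1 : 1 ≤ b := by rw [hb]; linarith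
  have hal : al k / Real.sqrt 2 = ((k:ℝ) - 1) * Real.sqrt (1 / 2) + Real.sqrt b := by
    unfold al
    rw [add_div, hb, Real.sqrt_div (by linarith : (0:ℝ) ≤ (k:ℝ) - 1), Real.sqrt_div (by norm_num),
      Real.sqrt_one]
    ring
  have g1 : Real.sqrt b < Real.sqrt (b + 1 / 2) := Real.sqrt_lt_sqrt (by linarith) (by linarith)
  have g2 : Real.sqrt b - Real.sqrt (b - 1 / 6) < Real.sqrt (2 / 3) - Real.sqrt (1 / 2) := by
    have p1 : (Real.sqrt b - Real.sqrt (b - 1 / 6)) * (Real.sqrt b + Real.sqrt (b - 1 / 6)) = 1 / 6 := by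
      have h1 := Real.sq_sqrt (show (0:ℝ) ≤ b by linarith)
      have h2 := Real.sq_sqrt (show (0:ℝ) ≤ b - 1 / 6 by linarith)
      nlinarith
    have p2 : (Real.sqrt (2 / 3) - Real.sqrt (1 / 2)) * (Real.sqrt (2 / 3) + Real.sqrt (1 / 2)) = 1 / 6 := by
      have h1 := Real.sq_sqrt (show (0:ℝ) ≤ 2 / 3 by norm_num)
      have h2 := Real.sq_sqrt (show (0:ℝ) ≤ 1 / 2 by norm_num)
      nlinarith
    have q1 : Real.sqrt (2 / 3) < Real.sqrt b := Real.sqrt_lt_sqrt (by norm_num) (by linarith)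
    have q2 : Real.sqrt (1 / 2) < Real.sqrt (b - 1 / 6) := Real.sqrt_lt_sqrt (by norm_num) (by linarith)
    have q3 : 0 < Real.sqrt (1 / 2) := Real.sqrt_pos.mpr (by norm_num)
    have q4 : 0 < Real.sqrt (2 / 3) := Real.sqrt_pos.mpr (by norm_num)
    by_contra hcon
    rw [not_lt] at hcon
    have r1 : 0 < Real.sqrt (2 / 3) - Real.sqrt (1 / 2) :=
      sub_pos.mpr (Real.sqrt_lt_sqrt (by norm_num) (by norm_num))
    have r2 : (Real.sqrt (2 / 3) - Real.sqrt (1 / 2)) * (Real.sqrt (2 / 3) + Real.sqrt (1 / 2)) <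
        (Real.sqrt b - Real.sqrt (b - 1 / 6)) * (Real.sqrt b + Real.sqrt (b - 1 / 6)) := by
      apply mul_lt_mul' hcon (by linarith) (by positivity)
      linarith
    linarith
  refine ⟨min (Real.sqrt (b + 1 / 2) - Real.sqrt b)
    ((Real.sqrt (2 / 3) - Real.sqrt (1 / 2)) - (Real.sqrt b - Real.sqrt (b - 1 / 6))),
    lt_min (by linarith) (by linarith), ?_⟩
  intro ι s c hs hc hsum hor
  have hcl : ∀ i ∈ s, 1 / 2 ≤ c i := by
    intro i hi
    rcases hc i hi with h | h <;> linarith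
  rw [hal]
  rcases hor with h | ⟨i, hi, j, hj, hij, hci, hcj⟩
  · have hne : s.Nonempty := by
      rw [← Finset.card_pos]; omega
    obtain ⟨i, hi⟩ := hne
    have h1 := sqrt_multi (1 / 2) (by norm_num) (s.erase i) c
      (fun j hj => hcl j (Finset.mem_of_mem_erase hj)) (c i) (hcl i hi)
    rw [Finset.add_sum_erase s c hi, Finset.add_sum_erase s (fun i => Real.sqrt (c i)) hi,
      Finset.card_erase_of_mem hi, hs, Nat.cast_sub (by omega)] at h1
    push_cast at h1
    have h2 : Real.sqrt (b + 1 / 2) ≤ Real.sqrt (∑ x ∈ s, c x - ((k:ℝ) - 1) * (1 / 2)) :=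
      Real.sqrt_le_sqrt (by rw [hb]; linarith)
    have h3 := min_le_left (Real.sqrt (b + 1 / 2) - Real.sqrt b)
      ((Real.sqrt (2 / 3) - Real.sqrt (1 / 2)) - (Real.sqrt b - Real.sqrt (b - 1 / 6)))
    linarith
  · have hj' : j ∈ s.erase i := Finset.mem_erase.mpr ⟨hij.symm, hj⟩
    have h0 := sqrt_sub (2 / 3) (c i) (c j) (by norm_num) hci hcj
    have h1 := sqrt_multi (1 / 2) (by norm_num) ((s.erase i).erase j) c
      (fun l hl => hcl l (Finset.mem_of_mem_erase (Finset.mem_of_mem_erase hl)))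
      (c i + c j - 2 / 3) (by linarith)
    have e1 : ∑ x ∈ (s.erase i).erase j, c x = ∑ x ∈ s, c x - c i - c j := by
      rw [← Finset.add_sum_erase s c hi, ← Finset.add_sum_erase (s.erase i) c hj']; ring
    have e2 : ∑ x ∈ (s.erase i).erase j, Real.sqrt (c x) =
        ∑ x ∈ s, Real.sqrt (c x) - Real.sqrt (c i) - Real.sqrt (c j) := by
      rw [← Finset.add_sum_erase s (fun x => Real.sqrt (c x)) hi,
        ← Finset.add_sum_erase (s.erase i) (fun x => Real.sqrt (c x)) hj']; ring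
    have e3 : (((s.erase i).erase j).card : ℝ) = (k:ℝ) - 2 := by
      rw [Finset.card_erase_of_mem hj', Finset.card_erase_of_mem hi, hs]
      rw [Nat.sub_sub, Nat.cast_sub (by omega)]
      norm_num
    rw [e1, e2, e3] at h1
    have h2 : Real.sqrt (b - 1 / 6) ≤ Real.sqrt (c i + c j - 2 / 3 + (∑ x ∈ s, c x - c i - c j) -
        ((k:ℝ) - 2) * (1 / 2)) :=
      Real.sqrt_le_sqrt (by rw [hb]; linarith)
    have h3 := min_le_right (Real.sqrt (b + 1 / 2) - Real.sqrt b)
      ((Real.sqrt (2 / 3) - Real.sqrt (1 / 2)) - (Real.sqrt b - Real.sqrt (b - 1 / 6)))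
    linarith

end job36560

section job36561






theorem sp_one_nb {n : ℕ} (T : SimpleGraph (Fin n)) {z v z' : Fin n} (h : T.degree z = 1)
    (h1 : T.Adj z v) (h2 : T.Adj z z') : z' = v := by
  rw [← SimpleGraph.card_neighborFinset_eq_degree, Finset.card_eq_one] at h
  obtain ⟨a, ha⟩ := h
  have e1 : v ∈ T.neighborFinset z := (T.mem_neighborFinset z v).2 h1
  have e2 : z' ∈ T.neighborFinset z := (T.mem_neighborFinset z z').2 h2
  rw [ha, Finset.mem_singleton] at e1 e2
  rw [e1, e2]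

theorem sp_two_nb {n : ℕ} (T : SimpleGraph (Fin n)) {z v w z' : Fin n} (h : T.degree z = 2)
    (h1 : T.Adj z v) (h2 : T.Adj z w) (hne : v ≠ w) (h3 : T.Adj z z') : z' = v ∨ z' = w := by
  rw [← SimpleGraph.card_neighborFinset_eq_degree] at h
  have hs : ({v, w} : Finset (Fin n)) ⊆ T.neighborFinset z := by
    intro a ha
    rw [Finset.mem_insert, Finset.mem_singleton] at ha
    rcases ha with rfl | rfl
    · exact (T.mem_neighborFinset z _).2 h1
    · exact (T.mem_neighborFinset z _).2 h2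
  have he := Finset.eq_of_subset_of_card_le hs (by rw [h, Finset.card_pair hne])
  have e3 : z' ∈ T.neighborFinset z := (T.mem_neighborFinset z z').2 h3
  rw [← he, Finset.mem_insert, Finset.mem_singleton] at e3
  exact e3

theorem sp_deg_pos {n : ℕ} (T : SimpleGraph (Fin n)) {x v : Fin n} (h : T.Adj v x) :
    1 ≤ T.degree x := (T.degree_pos_iff_exists_adj x).2 ⟨v, h.symm⟩

theorem sp_exists {n : ℕ} (T : SimpleGraph (Fin n)) (C : Finset (Fin n))
    (hind : ∀ v ∈ C, ∀ w ∈ C, ¬ T.Adj v w) (v : Fin n) (hv : v ∈ C) (hc : cst T C v = 1 / 2) :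
    ∃ x, T.Adj v x ∧ T.degree x = 2 ∧ ∀ x', T.Adj v x' → x' ≠ x → T.degree x' = 1 := by
  have hNp : Np T C v = T.neighborFinset v := by
    unfold Np
    apply Finset.filter_true_of_mem
    intro x hx h
    exact hind v hv x h.1 ((T.mem_neighborFinset v x).1 hx)
  have hsum : ∑ x ∈ T.neighborFinset v, (1 - 1 / (T.degree x : ℝ)) = 1 / 2 := by
    rw [Finset.sum_sub_distrib, Finset.sum_const, SimpleGraph.card_neighborFinset_eq_degree,
      nsmul_eq_mul, mul_one, ← hc]
    unfold cst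
    rw [hNp]
  have hnn : ∀ x ∈ T.neighborFinset v, 0 ≤ 1 - 1 / (T.degree x : ℝ) := by
    intro x hx
    have h1 := sp_deg_pos T ((T.mem_neighborFinset v x).1 hx)
    have h2 : (1 : ℝ) ≤ T.degree x := by exact_mod_cast h1
    have h3 : 1 / (T.degree x : ℝ) ≤ 1 := by
      rw [div_le_one (by linarith)]
      exact h2
    linarith
  obtain ⟨x, hx, hx1⟩ : ∃ x ∈ T.neighborFinset v, T.degree x ≠ 1 := by
    by_contra hcon
    push Not at hcon
    have : ∑ x ∈ T.neighborFinset v, (1 - 1 / (T.degree x : ℝ)) = 0 := by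
      apply Finset.sum_eq_zero
      intro x hx
      rw [hcon x hx]
      norm_num
    rw [this] at hsum
    norm_num at hsum
  have hxa := (T.mem_neighborFinset v x).1 hx
  have hx2 : 2 ≤ T.degree x := by
    have := sp_deg_pos T hxa
    omega
  have hx3 : T.degree x = 2 := by
    have h1 := Finset.single_le_sum hnn hx
    rw [hsum] at h1
    have h2 : (0 : ℝ) < T.degree x := by
      have : 0 < T.degree x := by omega
      exact_mod_cast this
    have h3 : 1 / 2 ≤ 1 / (T.degree x : ℝ) := by linarith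
    have h4 : (T.degree x : ℝ) ≤ 2 := by
      rw [div_le_div_iff₀ (by norm_num) h2] at h3
      linarith
    have h5 : T.degree x ≤ 2 := by exact_mod_cast h4
    omega
  refine ⟨x, hxa, hx3, ?_⟩
  intro x' hx' hne
  have hx'm : x' ∈ T.neighborFinset v := (T.mem_neighborFinset v x').2 hx'
  have hs : ({x, x'} : Finset (Fin n)) ⊆ T.neighborFinset v := by
    intro a ha
    rw [Finset.mem_insert, Finset.mem_singleton] at ha
    rcases ha with rfl | rfl
    · exact hx
    · exact hx'm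
  have h1 := Finset.sum_le_sum_of_subset_of_nonneg hs (fun i hi _ => hnn i hi)
  rw [hsum, Finset.sum_pair (Ne.symm hne), hx3] at h1
  have h2 := sp_deg_pos T hx'
  have h3 : (0 : ℝ) < T.degree x' := by exact_mod_cast h2
  have h4 : 1 ≤ 1 / (T.degree x' : ℝ) := by
    push_cast at h1
    linarith
  rw [le_div_iff₀ h3, one_mul] at h4
  have h5 : T.degree x' ≤ 1 := by exact_mod_cast h4
  omega

theorem spider_struct {n : ℕ} (T : SimpleGraph (Fin n)) (hT : T.IsTree) (hn : 3 ≤ n)
    (C : Finset (Fin n)) (hC : ∀ v w, T.Adj v w → v ∈ C ∨ w ∈ C) (hk : 3 ≤ C.card)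
    (hind : ∀ v ∈ C, ∀ w ∈ C, ¬ T.Adj v w) (r : Fin n) (hr : r ∈ C)
    (hc : ∀ v ∈ C, v ≠ r → cst T C v = 1 / 2) :
    (∃ y, IsSpider T C r y) ∧ ∑ v ∈ C, T.degree v = n - 1 := by
  have hex : ∀ v : Fin n, ∃ x, v ∈ C → v ≠ r → (T.Adj v x ∧ T.degree x = 2 ∧
      ∀ x', T.Adj v x' → x' ≠ x → T.degree x' = 1) := by
    intro v
    by_cases h : v ∈ C ∧ v ≠ r
    · obtain ⟨x, hx⟩ := sp_exists T C hind v h.1 (hc v h.1 h.2)
      exact ⟨x, fun _ _ => hx⟩
    · exact ⟨v, fun h1 h2 => absurd ⟨h1, h2⟩ h⟩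
  choose y hy using hex
  have huniq : ∀ v ∈ C, v ≠ r → ∀ x, T.Adj v x → T.degree x ≠ 1 → x = y v := by
    intro v hv hvr x hx hd
    by_contra hne
    exact hd ((hy v hv hvr).2.2 x hx hne)
  have hconn : ∀ v ∈ C, v ≠ r → T.Adj r (y v) := by
    intro v hv hvr
    obtain ⟨h1, h2, h3⟩ := hy v hv hvr
    have hyC : y v ∉ C := fun h => hind v hv _ h h1
    -- the other neighbour
    obtain ⟨w, hw, hwv⟩ : ∃ w, T.Adj (y v) w ∧ w ≠ v := by
      by_contra hcon
      push Not at hcon
      have h4 : T.neighborFinset (y v) ⊆ {v} := by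
        intro a ha
        rw [Finset.mem_singleton]
        exact hcon a ((T.mem_neighborFinset _ a).1 ha)
      have h5 := Finset.card_le_card h4
      rw [SimpleGraph.card_neighborFinset_eq_degree, Finset.card_singleton, h2] at h5
      omega
    have hwC : w ∈ C := by
      rcases hC _ _ hw with h | h
      · exact absurd h hyC
      · exact h
    by_cases hwr : w = r
    · rw [← hwr]
      exact hw.symm
    · exfalso
      obtain ⟨g1, g2, g3⟩ := hy w hwC hwr
      have hyw : y v = y w := huniq w hwC hwr (y v) hw.symm (by rw [h2]; norm_num)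
      -- closed set
      have hclosed : ∀ z z', (z = v ∨ z = w ∨ T.Adj v z ∨ T.Adj w z) → T.Adj z z' →
          (z' = v ∨ z' = w ∨ T.Adj v z' ∨ T.Adj w z') := by
        intro z z' hz hzz
        rcases hz with rfl | rfl | hz | hz
        · exact Or.inr (Or.inr (Or.inl hzz))
        · exact Or.inr (Or.inr (Or.inr hzz))
        · by_cases hzy : z = y v
          · subst hzy
            rcases sp_two_nb T h2 h1.symm hw (Ne.symm hwv) hzz with h | h
            · exact Or.inl h
            · exact Or.inr (Or.inl h)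
          · exact Or.inl (sp_one_nb T (h3 z hz hzy) hz.symm hzz)
        · by_cases hzy : z = y w
          · rw [← hyw] at hzy
            subst hzy
            rcases sp_two_nb T h2 h1.symm hw (Ne.symm hwv) hzz with h | h
            · exact Or.inl h
            · exact Or.inr (Or.inl h)
          · exact Or.inr (Or.inl (sp_one_nb T (g3 z hz hzy) hz.symm hzz))
      have hall : ∀ u, (u = v ∨ u = w ∨ T.Adj v u ∨ T.Adj w u) := by
        intro u
        obtain ⟨p⟩ := hT.connected.preconnected v u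
        have : ∀ (a b : Fin n) (q : T.Walk a b), (a = v ∨ a = w ∨ T.Adj v a ∨ T.Adj w a) →
            (b = v ∨ b = w ∨ T.Adj v b ∨ T.Adj w b) := by
          intro a b q
          induction q with
          | nil => exact fun h => h
          | cons hadj q ih => exact fun h => ih (hclosed _ _ h hadj)
        exact this v u p (Or.inl rfl)
      have hsub : C ⊆ {v, w} := by
        intro u hu
        rw [Finset.mem_insert, Finset.mem_singleton]
        rcases hall u with h | h | h | h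
        · exact Or.inl h
        · exact Or.inr h
        · exact absurd h (hind v hv u hu)
        · exact absurd h (hind w hwC u hu)
      have h6 := (Finset.card_le_card hsub).trans Finset.card_le_two
      omega
  refine ⟨⟨y, ?_⟩, ?_⟩
  · refine ⟨hC, hind, hr, ?_, ?_, ?_⟩
    · intro v hv hvr
      exact ⟨(hy v hv hvr).1, hconn v hv hvr, (hy v hv hvr).2.1⟩
    · intro v hv hvr x hx hne
      exact (hy v hv hvr).2.2 x hx hne
    · intro x hx
      by_cases hd : T.degree x = 1
      · exact Or.inl hd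
      · right
        have hxC : x ∉ C := fun h => hind r hr x h hx
        obtain ⟨v, hv, hvr⟩ : ∃ v, T.Adj x v ∧ v ≠ r := by
          by_contra hcon
          push Not at hcon
          have h4 : T.neighborFinset x ⊆ {r} := by
            intro a ha
            rw [Finset.mem_singleton]
            exact hcon a ((T.mem_neighborFinset _ a).1 ha)
          have h5 := Finset.card_le_card h4
          rw [SimpleGraph.card_neighborFinset_eq_degree, Finset.card_singleton] at h5
          have := sp_deg_pos T hx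
          omega
        have hvC : v ∈ C := by
          rcases hC _ _ hv with h | h
          · exact absurd h hxC
          · exact h
        exact ⟨v, hvC, hvr, huniq v hvC hvr x hv.symm hd⟩
  · have hbip : T.IsBipartiteWith (C : Set (Fin n)) ((Cᶜ : Finset (Fin n)) : Set (Fin n)) := by
      refine ⟨?_, ?_⟩
      · rw [Finset.disjoint_coe]
        exact disjoint_compl_right
      · intro v w hvw
        rw [Finset.mem_coe, Finset.mem_coe, Finset.mem_coe, Finset.mem_coe, Finset.mem_compl,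
          Finset.mem_compl]
        rcases hC v w hvw with h | h
        · exact Or.inl ⟨h, fun h' => hind v h w h' hvw⟩
        · exact Or.inr ⟨fun h' => hind v h' w h hvw, h⟩
    have h1 := SimpleGraph.isBipartiteWith_sum_degrees_eq_card_edges hbip
    have h2 := hT.card_edgeFinset
    rw [Fintype.card_fin] at h2
    have h3 : ∑ v ∈ C, T.degree v = T.edgeFinset.card := by
      convert h1
    omega

end job36561

section job36562






theorem spider_sum {n : ℕ} (T : SimpleGraph (Fin n)) (hT : T.IsTree) (hn : 3 ≤ n)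
    (C : Finset (Fin n)) (r : Fin n) (y : Fin n → Fin n) (h : IsSpider T C r y) :
    ∑ σ ∈ inv T, wt T σ =
      (∏ v ∈ C.erase r, (2 - 1 / (2 * (T.degree v : ℝ)))) *
      (2 - ((C.card : ℝ) - 1) / (2 * (T.degree r : ℝ))
        - (1 / (2 * (T.degree r : ℝ))) * ∑ v ∈ C.erase r, 1 / (4 * (T.degree v : ℝ) - 1)) := by
  have hnt : Nontrivial (Fin n) := Fin.nontrivial_iff_two_le.2 (by omega)
  have hdpos : ∀ v, 0 < T.degree v := fun v => hT.1.preconnected.degree_pos_of_nontrivial v
  have hdR : ∀ v, (0:ℝ) < (T.degree v : ℝ) := fun v => by exact_mod_cast hdpos v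
  have hd1 : ∀ v, (1:ℝ) ≤ (T.degree v : ℝ) := fun v => by exact_mod_cast hdpos v
  have hmem : ∀ σ, σ ∈ inv T ↔ ∀ v, σ v = v ∨ T.Adj v (σ v) := by
    intro σ; simp [inv]
  obtain ⟨N, hN⟩ : ∃ N : Fin n → Finset (Fin n), ∀ v, N v = insert v (T.neighborFinset v) :=
    ⟨_, fun _ => rfl⟩
  have hNm : ∀ v z, z ∈ N v ↔ z = v ∨ T.Adj v z := by intro v z; rw [hN]; simp
  have hyN : ∀ v ∈ C, v ≠ r → ∀ w, T.Adj (y v) w → w = v ∨ w = r := by
    intro v hv hvr w hw
    obtain ⟨h1, h2, h3⟩ := h.conn v hv hvr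
    have hsub : ({v, r} : Finset (Fin n)) ⊆ T.neighborFinset (y v) := by
      intro z hz
      rw [Finset.mem_insert, Finset.mem_singleton] at hz
      rw [T.mem_neighborFinset]
      rcases hz with rfl | rfl
      · exact h1.symm
      · exact h2.symm
    have hc : (T.neighborFinset (y v)).card ≤ ({v, r} : Finset (Fin n)).card := by
      rw [Finset.card_pair hvr, T.card_neighborFinset_eq_degree, h3]
    have he := Finset.eq_of_subset_of_card_le hsub hc
    have hw' : w ∈ T.neighborFinset (y v) := by rw [T.mem_neighborFinset]; exact hw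
    rw [← he, Finset.mem_insert, Finset.mem_singleton] at hw'
    exact hw'
  have hconf : ∀ v ∈ C, v ≠ r → ∀ w ∈ C, w ≠ v → ∀ z, z ∈ N v → z ∈ N w → z = y v ∧ w = r := by
    intro v hv hvr w hw hwv z hzv hzw
    rw [hNm] at hzv hzw
    have hadj : T.Adj v z := by
      rcases hzv with h1 | h1
      · rcases hzw with h2 | h2
        · exact absurd (h2.symm.trans h1) hwv
        · rw [h1] at h2
          exact absurd h2 (h.indep w hw v hv)
      · exact h1
    have hadj2 : T.Adj w z := by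
      rcases hzw with h1 | h1
      · rw [h1] at hadj
        exact absurd hadj (h.indep v hv w hw)
      · exact h1
    by_cases hzy : z = y v
    · refine ⟨hzy, ?_⟩
      rw [hzy] at hadj2
      rcases hyN v hv hvr w hadj2.symm with h1 | h1
      · exact absurd h1 hwv
      · exact h1
    · exfalso
      have hdz := h.leaf v hv hvr z hadj hzy
      have hsub : ({v, w} : Finset (Fin n)) ⊆ T.neighborFinset z := by
        intro q hq
        rw [Finset.mem_insert, Finset.mem_singleton] at hq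
        rw [T.mem_neighborFinset]
        rcases hq with rfl | rfl
        · exact hadj.symm
        · exact hadj2.symm
      have hcc := Finset.card_le_card hsub
      rw [Finset.card_pair (Ne.symm hwv), T.card_neighborFinset_eq_degree, hdz] at hcc
      omega
  obtain ⟨om, hom⟩ : ∃ om : Fin n → Fin n → ℝ, ∀ v z, om v z =
      if z = v then (1:ℝ) else 1 / (T.degree v : ℝ) * (1 / (T.degree z : ℝ)) := ⟨_, fun _ _ => rfl⟩
  have hwt : ∀ σ ∈ inv T, wt T σ = ∏ v ∈ C, om v (σ v) := by
    intro σ hσ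
    have h1 := (hmem σ).1 hσ
    have h2 := acyc_invol T hT σ h1
    unfold wt
    have a1 : ∀ (S : Finset (Fin n)) (g : Fin n → ℝ),
        ∏ z ∈ S, (if σ z = z then (1:ℝ) else g z) = ∏ z ∈ S.filter (fun z => σ z ≠ z), g z := by
      intro S g
      rw [Finset.prod_filter]
      apply Finset.prod_congr rfl
      intro z _
      by_cases hz : σ z = z <;> simp [hz]
    have hc : ∏ z ∈ Cᶜ, (if σ z = z then (1:ℝ) else 1 / (T.degree z : ℝ)) =
        ∏ v ∈ C, (if σ v = v then (1:ℝ) else 1 / (T.degree (σ v) : ℝ)) := by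
      rw [a1, a1 C (fun v => 1 / (T.degree (σ v) : ℝ))]
      refine Finset.prod_nbij' (fun z => σ z) (fun z => σ z) ?_ ?_ ?_ ?_ ?_
      · intro z hz
        rw [Finset.mem_filter, Finset.mem_compl] at hz
        rw [Finset.mem_filter]
        rcases h1 z with h3 | h3
        · exact absurd h3 hz.2
        · rcases h.cover _ _ h3 with h4 | h4
          · exact absurd h4 hz.1
          · refine ⟨h4, ?_⟩
            rw [h2]; exact Ne.symm hz.2
      · intro z hz
        rw [Finset.mem_filter] at hz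
        rw [Finset.mem_filter, Finset.mem_compl]
        rcases h1 z with h3 | h3
        · exact absurd h3 hz.2
        · refine ⟨fun h4 => h.indep z hz.1 _ h4 h3, ?_⟩
          rw [h2]; exact Ne.symm hz.2
      · intro z _; exact h2 z
      · intro z _; exact h2 z
      · intro z _
        rw [h2]
    rw [← Finset.prod_mul_prod_compl C, hc, ← Finset.prod_mul_distrib]
    apply Finset.prod_congr rfl
    intro v _
    rw [hom]
    by_cases hv : σ v = v
    · rw [if_pos hv, if_pos hv, if_pos hv, one_mul]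
    · rw [if_neg hv, if_neg hv, if_neg hv]
  have hfib : ∑ σ ∈ inv T, wt T σ =
      ∑ x ∈ N r, ∑ σ ∈ (inv T).filter (fun σ => σ r = x), wt T σ := by
    refine (Finset.sum_fiberwise_of_maps_to (fun σ hσ => ?_) _).symm
    rw [hNm]
    exact (hmem σ).1 hσ r
  have hcore : ∀ x ∈ N r, ∑ σ ∈ (inv T).filter (fun σ => σ r = x), wt T σ =
      om r x * ∏ v ∈ C.erase r, ∑ z ∈ (N v).erase x, om v z := by
    intro x hx
    obtain ⟨S, hS⟩ : ∃ S : Fin n → Finset (Fin n), ∀ v, S v =
        if v = r then {x} else if v ∈ C then (N v).erase x else {v} := ⟨_, fun _ => rfl⟩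
    have e1 : om r x * ∏ v ∈ C.erase r, ∑ z ∈ (N v).erase x, om v z =
        ∏ v, ∑ z ∈ S v, (if v ∈ C then om v z else 1) := by
      rw [← Finset.prod_mul_prod_compl C, ← Finset.mul_prod_erase C _ h.mem]
      have e2 : ∏ v ∈ Cᶜ, ∑ z ∈ S v, (if v ∈ C then om v z else 1) = 1 := by
        apply Finset.prod_eq_one
        intro v hv
        rw [Finset.mem_compl] at hv
        have hvr : v ≠ r := fun h0 => hv (h0 ▸ h.mem)
        rw [hS, if_neg hvr, if_neg hv, Finset.sum_singleton, if_neg hv]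
      rw [e2, mul_one, hS, if_pos rfl, Finset.sum_singleton, if_pos h.mem]
      congr 1
      apply Finset.prod_congr rfl
      intro v hv
      rw [Finset.mem_erase] at hv
      rw [hS, if_neg hv.1, if_pos hv.2]
      apply Finset.sum_congr rfl
      intro z _
      rw [if_pos hv.2]
    rw [e1, Finset.prod_univ_sum]
    refine Finset.sum_nbij (fun σ v => if v ∈ C then σ v else v) ?_ ?_ ?_ ?_
    · intro σ hσ
      rw [Finset.mem_filter] at hσ
      have h1 := (hmem σ).1 hσ.1
      rw [Fintype.mem_piFinset]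
      intro v
      rw [hS]
      by_cases hvr : v = r
      · rw [if_pos hvr, if_pos (hvr ▸ h.mem), hvr, hσ.2]
        exact Finset.mem_singleton_self x
      · rw [if_neg hvr]
        by_cases hvC : v ∈ C
        · rw [if_pos hvC, if_pos hvC, Finset.mem_erase, hNm]
          refine ⟨?_, h1 v⟩
          rw [← hσ.2]
          exact fun h0 => hvr (σ.injective h0)
        · rw [if_neg hvC, if_neg hvC]
          exact Finset.mem_singleton_self v
    · intro σ hσ τ hτ hst
      have hσ' := Finset.mem_filter.1 (Finset.mem_coe.1 hσ)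
      have hτ' := Finset.mem_filter.1 (Finset.mem_coe.1 hτ)
      have hs1 := (hmem σ).1 hσ'.1
      have hs2 := acyc_invol T hT σ hs1
      have ht1 := (hmem τ).1 hτ'.1
      have ht2 := acyc_invol T hT τ ht1
      have hC : ∀ v ∈ C, σ v = τ v := by
        intro v hv
        have h0 := congrFun hst v
        simp only [if_pos hv] at h0
        exact h0
      have aux : ∀ (α β : Equiv.Perm (Fin n)), (∀ v, α v = v ∨ T.Adj v (α v)) →
          (∀ v, α (α v) = v) → (∀ v, β (β v) = v) → (∀ v ∈ C, α v = β v) →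
          ∀ z, z ∉ C → α z ≠ z → α z = β z := by
        intro α β ha1 ha2 hb2 hab z hz hne
        rcases ha1 z with h3 | h3
        · exact absurd h3 hne
        · rcases h.cover _ _ h3 with h4 | h4
          · exact absurd h4 hz
          · have h5 := hab _ h4
            rw [ha2] at h5
            conv_rhs => rw [h5]
            rw [hb2]
      apply Equiv.ext
      intro z
      by_cases hz : z ∈ C
      · exact hC z hz
      · by_cases h3 : σ z = z
        · by_cases h4 : τ z = z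
          · rw [h3, h4]
          · exact (aux τ σ ht1 ht2 hs2 (fun v hv => (hC v hv).symm) z hz h4).symm
        · exact aux σ τ hs1 hs2 ht2 hC z hz h3
    · intro p hp
      have hp' := Fintype.mem_piFinset.1 (Finset.mem_coe.1 hp)
      have hpr : p r = x := by
        have h0 := hp' r
        rw [hS, if_pos rfl, Finset.mem_singleton] at h0
        exact h0
      have hpn : ∀ v, v ∉ C → p v = v := by
        intro v hv
        have hvr : v ≠ r := fun h0 => hv (h0 ▸ h.mem)
        have h0 := hp' v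
        rw [hS, if_neg hvr, if_neg hv, Finset.mem_singleton] at h0
        exact h0
      have hpC : ∀ v ∈ C, p v ∈ N v := by
        intro v hv
        by_cases hvr : v = r
        · rw [hvr, hpr]; exact hx
        · have h0 := hp' v
          rw [hS, if_neg hvr, if_pos hv, Finset.mem_erase] at h0
          exact h0.2
      have hpx : ∀ v ∈ C, v ≠ r → p v ≠ p r := by
        intro v hv hvr
        have h0 := hp' v
        rw [hS, if_neg hvr, if_pos hv, Finset.mem_erase] at h0
        rw [hpr]; exact h0.1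
      have hinj : ∀ v ∈ C, ∀ w ∈ C, p v = p w → v = w := by
        intro v hv w hw hvw
        by_contra hne
        by_cases hvr : v = r
        · have hwr : w ≠ r := fun h0 => hne (hvr.trans h0.symm)
          exact hpx w hw hwr (by rw [← hvw, hvr])
        · have h0 := hconf v hv hvr w hw (Ne.symm hne) (p v) (hpC v hv) (hvw ▸ hpC w hw)
          exact hpx v hv hvr (by rw [hvw, h0.2])
      obtain ⟨g, hg1, hg2, hg3⟩ : ∃ g : Fin n → Fin n, (∀ v ∈ C, g v = p v) ∧
          (∀ z, z ∉ C → ∀ v ∈ C, p v = z → g z = v) ∧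
          (∀ z, z ∉ C → (¬ ∃ v ∈ C, p v = z) → g z = z) := by
        refine ⟨fun z => if z ∈ C then p z else if hh : ∃ v ∈ C, p v = z then hh.choose else z,
          ?_, ?_, ?_⟩
        · intro v hv; simp only [if_pos hv]
        · intro z hz v hv hpv
          have hh : ∃ v ∈ C, p v = z := ⟨v, hv, hpv⟩
          simp only [if_neg hz, dif_pos hh]
          exact hinj _ hh.choose_spec.1 v hv (hh.choose_spec.2.trans hpv.symm)
        · intro z hz hh
          simp only [if_neg hz, dif_neg hh]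
      have hadjC : ∀ v ∈ C, p v ≠ v → T.Adj v (p v) ∧ p v ∉ C := by
        intro v hv hne
        rcases (hNm v (p v)).1 (hpC v hv) with h0 | h0
        · exact absurd h0 hne
        · exact ⟨h0, fun h3 => h.indep v hv _ h3 h0⟩
      have hginv : Function.Involutive g := by
        intro z
        by_cases hz : z ∈ C
        · by_cases hpz : p z = z
          · rw [hg1 z hz, hpz, hg1 z hz, hpz]
          · rw [hg1 z hz]
            exact hg2 (p z) (hadjC z hz hpz).2 z hz rfl
        · by_cases hh : ∃ v ∈ C, p v = z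
          · obtain ⟨v, hv, hpv⟩ := hh
            rw [hg2 z hz v hv hpv, hg1 v hv, hpv]
          · rw [hg3 z hz hh, hg3 z hz hh]
      refine ⟨hginv.toPerm g, ?_, ?_⟩
      · rw [Finset.mem_coe, Finset.mem_filter, hmem]
        refine ⟨?_, ?_⟩
        · intro z
          show g z = z ∨ T.Adj z (g z)
          by_cases hz : z ∈ C
          · rw [hg1 z hz]
            exact (hNm z (p z)).1 (hpC z hz)
          · by_cases hh : ∃ v ∈ C, p v = z
            · obtain ⟨v, hv, hpv⟩ := hh
              rw [hg2 z hz v hv hpv]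
              right
              have hne : p v ≠ v := fun h0 => hz (by rw [← hpv, h0]; exact hv)
              have h0 := (hadjC v hv hne).1
              rw [hpv] at h0
              exact h0.symm
            · left; exact hg3 z hz hh
        · show g r = x
          rw [hg1 r h.mem, hpr]
      · funext v
        show (if v ∈ C then g v else v) = p v
        by_cases hv : v ∈ C
        · rw [if_pos hv, hg1 v hv]
        · rw [if_neg hv, hpn v hv]
    · intro σ hσ
      rw [Finset.mem_filter] at hσ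
      rw [hwt σ hσ.1, ← Finset.prod_mul_prod_compl C
        (fun v => if v ∈ C then om v (if v ∈ C then σ v else v) else 1)]
      have e3 : ∏ v ∈ Cᶜ, (if v ∈ C then om v (if v ∈ C then σ v else v) else 1) = 1 := by
        apply Finset.prod_eq_one
        intro v hv
        rw [Finset.mem_compl] at hv
        rw [if_neg hv]
      rw [e3, mul_one]
      apply Finset.prod_congr rfl
      intro v hv
      rw [if_pos hv, if_pos hv]
  rw [hfib, Finset.sum_congr rfl hcore]
  -- evaluation of the inner sums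
  have hA : ∀ v ∈ C.erase r, ∑ z ∈ N v, om v z = 2 - 1 / (2 * (T.degree v : ℝ)) := by
    intro v hv
    rw [Finset.mem_erase] at hv
    obtain ⟨c1, c2, c3⟩ := h.conn v hv.2 hv.1
    rw [hN, Finset.sum_insert (by rw [T.mem_neighborFinset]; exact fun h0 => T.irrefl h0), hom,
      if_pos rfl]
    have hyv : y v ∈ T.neighborFinset v := by rw [T.mem_neighborFinset]; exact c1
    rw [← Finset.add_sum_erase _ _ hyv, hom, if_neg c1.ne.symm, c3]
    have e4 : ∑ z ∈ (T.neighborFinset v).erase (y v), om v z =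
        ∑ z ∈ (T.neighborFinset v).erase (y v), 1 / (T.degree v : ℝ) := by
      apply Finset.sum_congr rfl
      intro z hz
      rw [Finset.mem_erase, T.mem_neighborFinset] at hz
      rw [hom, if_neg hz.2.ne.symm, h.leaf v hv.2 hv.1 z hz.2 hz.1]
      simp
    rw [e4, Finset.sum_const, Finset.card_erase_of_mem hyv, T.card_neighborFinset_eq_degree,
      nsmul_eq_mul, Nat.cast_sub (hdpos v)]
    have h0 := hdR v
    field_simp
    push_cast
    ring
  have hAy : ∀ v ∈ C.erase r, ∑ z ∈ (N v).erase (y v), om v z = 2 - 1 / (T.degree v : ℝ) := by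
    intro v hv
    have h1 := hA v hv
    rw [Finset.mem_erase] at hv
    obtain ⟨c1, c2, c3⟩ := h.conn v hv.2 hv.1
    have hyv : y v ∈ N v := by rw [hNm]; exact Or.inr c1
    rw [← Finset.add_sum_erase _ _ hyv, hom, if_neg c1.ne.symm, c3] at h1
    have h0 := hdR v
    have h2 : ∑ z ∈ (N v).erase (y v), om v z = 2 - 1 / (2 * (T.degree v : ℝ)) -
        1 / (T.degree v : ℝ) * (1 / ((2 : ℕ) : ℝ)) := by linarith
    rw [h2]
    field_simp
    push_cast
    ring
  have hAx : ∀ v ∈ C.erase r, ∀ x ∈ N r, x ≠ y v →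
      ∑ z ∈ (N v).erase x, om v z = 2 - 1 / (2 * (T.degree v : ℝ)) := by
    intro v hv x hx hxy
    rw [Finset.erase_eq_of_notMem, hA v hv]
    intro hxv
    rw [Finset.mem_erase] at hv
    exact hxy (hconf v hv.2 hv.1 r h.mem (Ne.symm hv.1) x hxv hx).1
  have hyinj : ∀ v ∈ C.erase r, ∀ w ∈ C.erase r, y v = y w → v = w := by
    intro v hv w hw hvw
    rw [Finset.mem_erase] at hv hw
    obtain ⟨c1, _, _⟩ := h.conn w hw.2 hw.1
    rw [← hvw] at c1
    rcases hyN v hv.2 hv.1 w c1.symm with h1 | h1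
    · exact h1.symm
    · exact absurd h1 hw.1
  set P : ℝ := ∏ v ∈ C.erase r, (2 - 1 / (2 * (T.degree v : ℝ))) with hP
  have hAne : ∀ v, (2 - 1 / (2 * (T.degree v : ℝ))) ≠ 0 := by
    intro v
    have h0 := hd1 v
    have h1 : 1 / (2 * (T.degree v : ℝ)) ≤ 1 := by
      rw [div_le_one (by linarith)]; linarith
    have h2 : (0:ℝ) < 2 - 1 / (2 * (T.degree v : ℝ)) := by linarith
    exact h2.ne'
  have hFy : ∀ v ∈ C.erase r, om r (y v) * ∏ w ∈ C.erase r, ∑ z ∈ (N w).erase (y v), om w z =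
      P * ((2 - 1 / (T.degree v : ℝ)) / (2 - 1 / (2 * (T.degree v : ℝ)))) *
        (1 / (2 * (T.degree r : ℝ))) := by
    intro v hv
    have hv' := Finset.mem_erase.1 hv
    obtain ⟨c1, c2, c3⟩ := h.conn v hv'.2 hv'.1
    have hyr : y v ∈ N r := by rw [hNm]; exact Or.inr c2
    rw [← Finset.mul_prod_erase (C.erase r) _ hv, hAy v hv, hP,
      ← Finset.mul_prod_erase (C.erase r) (fun v => (2 - 1 / (2 * (T.degree v : ℝ)))) hv, hom,
      if_neg c2.ne.symm, c3]
    have e5 : ∏ w ∈ (C.erase r).erase v, ∑ z ∈ (N w).erase (y v), om w z =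
        ∏ w ∈ (C.erase r).erase v, (2 - 1 / (2 * (T.degree w : ℝ))) := by
      apply Finset.prod_congr rfl
      intro w hw
      rw [Finset.mem_erase] at hw
      exact hAx w hw.2 (y v) hyr (fun h0 => hw.1 (hyinj v hv w hw.2 h0).symm)
    rw [e5]
    have h0 := hAne v
    have h1 := hdR r
    generalize (∏ w ∈ (C.erase r).erase v, (2 - 1 / (2 * (T.degree w : ℝ)))) = Q
    have e6 : (2 - 1 / (2 * (T.degree v : ℝ))) * Q *
        ((2 - 1 / (T.degree v : ℝ)) / (2 - 1 / (2 * (T.degree v : ℝ)))) =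
        Q * (2 - 1 / (T.degree v : ℝ)) := by
      generalize (2 - 1 / (2 * (T.degree v : ℝ))) = a at h0 ⊢
      generalize (2 - 1 / (T.degree v : ℝ)) = b
      field_simp
    rw [e6]
    push_cast
    field_simp
  rw [hN r, Finset.sum_insert (by rw [T.mem_neighborFinset]; exact fun h0 => T.irrefl h0)]
  have hFr : om r r * ∏ w ∈ C.erase r, ∑ z ∈ (N w).erase r, om w z = P := by
    rw [hom, if_pos rfl, one_mul]
    apply Finset.prod_congr rfl
    intro w hw
    have hw' := Finset.mem_erase.1 hw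
    obtain ⟨c1, c2, c3⟩ := h.conn w hw'.2 hw'.1
    exact hAx w hw r (by rw [hNm]; exact Or.inl rfl) c2.ne
  rw [hFr]
  have hsum : ∑ x ∈ T.neighborFinset r,
      (om r x * ∏ w ∈ C.erase r, ∑ z ∈ (N w).erase x, om w z - P * (1 / (T.degree r : ℝ))) =
      ∑ v ∈ C.erase r, (om r (y v) * ∏ w ∈ C.erase r, ∑ z ∈ (N w).erase (y v), om w z -
        P * (1 / (T.degree r : ℝ))) := by
    have hsub : (C.erase r).image y ⊆ T.neighborFinset r := by
      intro x hx
      rw [Finset.mem_image] at hx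
      obtain ⟨v, hv, rfl⟩ := hx
      rw [Finset.mem_erase] at hv
      rw [T.mem_neighborFinset]
      exact (h.conn v hv.2 hv.1).2.1
    rw [← Finset.sum_subset hsub, Finset.sum_image hyinj]
    intro x hx hxn
    rw [T.mem_neighborFinset] at hx
    have hdx : T.degree x = 1 := by
      rcases h.leafr x hx with h1 | ⟨v, hv, hvr, hxv⟩
      · exact h1
      · exfalso
        apply hxn
        rw [Finset.mem_image]
        exact ⟨v, Finset.mem_erase.2 ⟨hvr, hv⟩, hxv.symm⟩
    have e7 : ∏ w ∈ C.erase r, ∑ z ∈ (N w).erase x, om w z = P := by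
      apply Finset.prod_congr rfl
      intro w hw
      refine hAx w hw x (by rw [hNm]; exact Or.inr hx) ?_
      intro h0
      apply hxn
      rw [Finset.mem_image]
      exact ⟨w, hw, h0.symm⟩
    rw [e7, hom, if_neg hx.ne.symm, hdx]
    push_cast
    ring
  rw [Finset.sum_sub_distrib, Finset.sum_const, T.card_neighborFinset_eq_degree, nsmul_eq_mul] at hsum
  have hdr := hdR r
  have e8 : (T.degree r : ℝ) * (P * (1 / (T.degree r : ℝ))) = P := by field_simp
  rw [e8] at hsum
  have e9 : ∑ v ∈ C.erase r, (om r (y v) * ∏ w ∈ C.erase r, ∑ z ∈ (N w).erase (y v), om w z -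
        P * (1 / (T.degree r : ℝ))) =
      ∑ v ∈ C.erase r, (P * (-(1 / (2 * (T.degree r : ℝ))) -
        (1 / (2 * (T.degree r : ℝ))) * (1 / (4 * (T.degree v : ℝ) - 1)))) := by
    apply Finset.sum_congr rfl
    intro v hv
    rw [hFy v hv]
    have h0 := hd1 v
    have h1 : (4 * (T.degree v : ℝ) - 1) ≠ 0 := by
      have : (0:ℝ) < 4 * (T.degree v : ℝ) - 1 := by linarith
      exact this.ne'
    have h2 : (2 - 1 / (T.degree v : ℝ)) / (2 - 1 / (2 * (T.degree v : ℝ))) =
        1 - 1 / (4 * (T.degree v : ℝ) - 1) := by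
      have h3 := hdR v
      have h4 : (2 - 1 / (2 * (T.degree v : ℝ))) = (4 * (T.degree v : ℝ) - 1) /
          (2 * (T.degree v : ℝ)) := by field_simp; ring
      rw [h4, div_div_eq_mul_div, eq_sub_iff_add_eq, ← add_div, div_eq_one_iff_eq h1]
      field_simp
      ring
    rw [h2]
    field_simp
    ring
  rw [e9, ← Finset.mul_sum, Finset.sum_sub_distrib, Finset.sum_const, ← Finset.mul_sum,
    nsmul_eq_mul, Finset.card_erase_of_mem h.mem, Nat.cast_sub (Finset.card_pos.2 ⟨r, h.mem⟩)] at hsum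
  have hfin : ∑ x ∈ T.neighborFinset r, om r x * ∏ w ∈ C.erase r, ∑ z ∈ (N w).erase x, om w z =
      P + P * (((C.card : ℝ) - ((1 : ℕ) : ℝ)) * -(1 / (2 * (T.degree r : ℝ))) -
        (1 / (2 * (T.degree r : ℝ))) * ∑ v ∈ C.erase r, 1 / (4 * (T.degree v : ℝ) - 1)) := by
    linarith
  rw [hfin]
  push_cast
  field_simp
  ring

end job36562

namespace SG






/-- the parent function of the spider -/
noncomputable def pS (K : ℕ) (P : ℕ → ℕ) (i : ℕ) : ℕ :=
  if i < K + 1 then 0 else if i < 2 * K + 1 then i - K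
    else if i < 2 * K + 1 + P K then (K + 1) + Nat.findGreatest (fun j => P j ≤ i - (2 * K + 1)) K else 0

theorem fg_spec {K : ℕ} {P : ℕ → ℕ} (hP0 : P 0 = 0) (x : ℕ) (hx : x < P K) :
    Nat.findGreatest (fun j => P j ≤ x) K < K ∧
      P (Nat.findGreatest (fun j => P j ≤ x) K) ≤ x ∧
      x < P (Nat.findGreatest (fun j => P j ≤ x) K + 1) := by
  have h1 : P (Nat.findGreatest (fun j => P j ≤ x) K) ≤ x :=
    Nat.findGreatest_spec (P := fun j => P j ≤ x) (m := 0) (Nat.zero_le _) (by rw [hP0]; exact Nat.zero_le _)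
  have h2 : Nat.findGreatest (fun j => P j ≤ x) K ≤ K := Nat.findGreatest_le K
  have h3 : Nat.findGreatest (fun j => P j ≤ x) K < K := by
    rcases Nat.lt_or_ge (Nat.findGreatest (fun j => P j ≤ x) K) K with h | h
    · exact h
    · have h4 : Nat.findGreatest (fun j => P j ≤ x) K = K := le_antisymm h2 h
      rw [h4] at h1
      omega
  refine ⟨h3, h1, ?_⟩
  by_contra hcon
  have := Nat.findGreatest_is_greatest (P := fun j => P j ≤ x) (n := K)
    (k := Nat.findGreatest (fun j => P j ≤ x) K + 1) (Nat.lt_succ_self _) h3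
  exact this (not_lt.1 hcon)

theorem fg_eq {K : ℕ} {P : ℕ → ℕ} (hP0 : P 0 = 0) (hm : Monotone P) (x j : ℕ) (hj : j < K)
    (h1 : P j ≤ x) (h2 : x < P (j + 1)) : Nat.findGreatest (fun j => P j ≤ x) K = j := by
  obtain ⟨a, b, c⟩ := fg_spec (K := K) hP0 x (lt_of_lt_of_le h2 (hm hj))
  rcases Nat.lt_trichotomy (Nat.findGreatest (fun j => P j ≤ x) K) j with h | h | h
  · have := hm (show Nat.findGreatest (fun j => P j ≤ x) K + 1 ≤ j from h)
    omega
  · exact h
  · have := hm (show j + 1 ≤ Nat.findGreatest (fun j => P j ≤ x) K from h)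
    omega

theorem pS_a {K i : ℕ} {P : ℕ → ℕ} (h : i < K + 1) : pS K P i = 0 := by rw [pS, if_pos h]

theorem pS_b {K i : ℕ} {P : ℕ → ℕ} (h : K + 1 ≤ i) (h2 : i < 2 * K + 1) : pS K P i = i - K := by
  rw [pS, if_neg (by omega), if_pos h2]

theorem pS_c {K i : ℕ} {P : ℕ → ℕ} (hP0 : P 0 = 0) (h : 2 * K + 1 ≤ i) (h2 : i < 2 * K + 1 + P K) :
    ∃ j, j < K ∧ P j ≤ i - (2 * K + 1) ∧ i - (2 * K + 1) < P (j + 1) ∧ pS K P i = (K + 1) + j := by
  obtain ⟨a, b, c⟩ := fg_spec (K := K) (P := P) hP0 (i - (2 * K + 1)) (by omega)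
  refine ⟨_, a, b, c, ?_⟩
  rw [pS, if_neg (by omega), if_neg (by omega), if_pos h2]

theorem pS_d {K i : ℕ} {P : ℕ → ℕ} (h : 2 * K + 1 + P K ≤ i) : pS K P i = 0 := by
  rw [pS, if_neg (by omega), if_neg (by omega), if_neg (by omega)]

theorem pS_cases (K : ℕ) (P : ℕ → ℕ) (hP0 : P 0 = 0) (i : ℕ) : (i < K + 1 ∧ pS K P i = 0) ∨
    (K + 1 ≤ i ∧ i < 2 * K + 1 ∧ pS K P i = i - K) ∨
    (2 * K + 1 ≤ i ∧ i < 2 * K + 1 + P K ∧ K + 1 ≤ pS K P i ∧ pS K P i < 2 * K + 1) ∨
      (2 * K + 1 + P K ≤ i ∧ pS K P i = 0) := by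
  by_cases h1 : i < K + 1
  · exact Or.inl ⟨h1, pS_a h1⟩
  by_cases h2 : i < 2 * K + 1
  · exact Or.inr (Or.inl ⟨by omega, h2, pS_b (by omega) h2⟩)
  by_cases h3 : i < 2 * K + 1 + P K
  · obtain ⟨j, g1, g2, g3, g4⟩ := pS_c (K := K) hP0 (by omega : 2 * K + 1 ≤ i) h3
    refine Or.inr (Or.inr (Or.inl ⟨by omega, h3, ?_, ?_⟩))
    · rw [g4]; exact Nat.le_add_right _ _
    · rw [g4]; omega
  · exact Or.inr (Or.inr (Or.inr ⟨by omega, pS_d (by omega)⟩))

theorem pS_lt {K : ℕ} {P : ℕ → ℕ} (hP0 : P 0 = 0) (hK : 1 ≤ K) (i : ℕ) (hi : 1 ≤ i) : pS K P i < i := by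
  rcases pS_cases K P hP0 i with h | h | h | h <;> omega

theorem sp_adj {n K : ℕ} {P : ℕ → ℕ} (hP0 : P 0 = 0) (hK : 1 ≤ K) (v w : Fin n) :
    (parGraph n (pS K P)).Adj v w ↔ ((v : ℕ) ≠ 0 ∧ (w : ℕ) = pS K P v) ∨
      ((w : ℕ) ≠ 0 ∧ (v : ℕ) = pS K P w) := by
  unfold parGraph
  rw [SimpleGraph.fromRel_adj]
  constructor
  · rintro ⟨_, h⟩; exact h
  · intro h
    refine ⟨?_, h⟩
    rintro rfl
    have h2 := fun h0 => pS_lt (P := P) hP0 hK (v : ℕ) h0
    rcases h with ⟨h0, h1⟩ | ⟨h0, h1⟩ <;>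
    · have := h2 (by omega)
      omega

theorem sp_deg {n : ℕ} (T : SimpleGraph (Fin n)) (v : Fin n) (q : Fin n → Prop) [DecidablePred q]
    (h : ∀ w, T.Adj v w ↔ q w) : T.degree v = (Finset.univ.filter q).card := by
  rw [← SimpleGraph.card_neighborFinset_eq_degree]
  congr 1
  ext w
  simp [h]

theorem card_Ico_fin (n a b : ℕ) (hb : b ≤ n) :
    (Finset.univ.filter (fun i : Fin n => a ≤ (i : ℕ) ∧ (i : ℕ) < b)).card = b - a := by
  have h : (Finset.univ.filter (fun i : Fin n => a ≤ (i : ℕ) ∧ (i : ℕ) < b)).map Fin.valEmbedding =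
      Finset.Ico a b := by
    ext x
    simp only [Finset.mem_map, Finset.mem_filter, Finset.mem_univ, true_and, Fin.valEmbedding_apply,
      Finset.mem_Ico]
    constructor
    · rintro ⟨i, h, rfl⟩; exact h
    · rintro ⟨h1, h2⟩; exact ⟨⟨x, by omega⟩, ⟨h1, h2⟩, rfl⟩
  rw [← Finset.card_map Fin.valEmbedding, h, Nat.card_Ico]

theorem card_or_fin (n a b c d : ℕ) (hb : b ≤ n) (hd : d ≤ n) (hbc : b ≤ c) (q : Fin n → Prop) [DecidablePred q]
    (hq : ∀ i : Fin n, q i ↔ (a ≤ (i : ℕ) ∧ (i : ℕ) < b) ∨ (c ≤ (i : ℕ) ∧ (i : ℕ) < d)) :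
    (Finset.univ.filter q).card = (b - a) + (d - c) := by
  rw [← card_Ico_fin n a b hb, ← card_Ico_fin n c d hd, ← Finset.card_union_of_disjoint]
  · congr 1
    ext i
    simp [hq]
  · rw [Finset.disjoint_left]
    intro i h1 h2
    simp only [Finset.mem_filter, Finset.mem_univ, true_and] at h1 h2
    omega

/-- connectors -/
theorem deg_conn {n K : ℕ} {P : ℕ → ℕ} (hP0 : P 0 = 0) (hK : 1 ≤ K) (hn : 2 * K + 1 + P K ≤ n) (v : Fin n)
    (h1 : 1 ≤ (v : ℕ)) (h2 : (v : ℕ) < K + 1) : (parGraph n (pS K P)).degree v = 2 := by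
  rw [sp_deg _ v (fun w => (w : ℕ) = 0 ∨ (w : ℕ) = v + K), card_or_fin n 0 1 (v + K) (v + K + 1)
    (by omega) (by omega) (by omega)]
  · omega
  · intro i; omega
  · intro w
    rw [sp_adj hP0 hK, pS_a h2]
    rcases pS_cases K P hP0 w with h | h | h | h <;> omega

theorem deg_leaf {n K : ℕ} {P : ℕ → ℕ} (hP0 : P 0 = 0) (hK : 1 ≤ K) (v : Fin n)
    (h1 : 2 * K + 1 ≤ (v : ℕ)) : (parGraph n (pS K P)).degree v = 1 := by
  have hp := pS_lt (P := P) hP0 hK (v : ℕ) (by omega)
  have hv := v.isLt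
  rw [sp_deg _ v (fun w => (w : ℕ) = pS K P v), card_or_fin n (pS K P v) (pS K P v + 1) n n
    (by omega) le_rfl (by omega)]
  · omega
  · intro i; omega
  · intro w
    rw [sp_adj hP0 hK]
    rcases pS_cases K P hP0 w with h | h | h | h <;> omega

theorem hub_adj {n K : ℕ} {P : ℕ → ℕ} (hP0 : P 0 = 0) (hm : Monotone P) (hK : 1 ≤ K) (v w : Fin n)
    (h1 : K + 1 ≤ (v : ℕ)) (h2 : (v : ℕ) < 2 * K + 1) :
    (parGraph n (pS K P)).Adj v w ↔ (v - K ≤ (w : ℕ) ∧ (w : ℕ) < v - K + 1) ∨
      (2 * K + 1 + P (v - (K + 1)) ≤ (w : ℕ) ∧ (w : ℕ) < 2 * K + 1 + P (v - (K + 1) + 1)) := by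
  rw [sp_adj hP0 hK, pS_b h1 h2]
  have hb : P ((v : ℕ) - (K + 1) + 1) ≤ P K := hm (by omega)
  have key : ((w : ℕ) ≠ 0 ∧ (v : ℕ) = pS K P w) ↔
      (2 * K + 1 + P (v - (K + 1)) ≤ (w : ℕ) ∧ (w : ℕ) < 2 * K + 1 + P (v - (K + 1) + 1)) := by
    rcases pS_cases K P hP0 w with h | h | h | h
    · constructor
      · rintro ⟨_, h3⟩; omega
      · rintro ⟨h3, _⟩; omega
    · constructor
      · rintro ⟨_, h3⟩; omega
      · rintro ⟨h3, _⟩; omega
    · obtain ⟨g1, g2, _, _⟩ := h
      obtain ⟨j, g3, g4, g5, g6⟩ := pS_c hP0 g1 g2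
      rw [g6]
      constructor
      · rintro ⟨_, h3⟩
        have h4 : (v : ℕ) - (K + 1) = j := by omega
        rw [h4]
        omega
      · rintro ⟨h3, h4⟩
        refine ⟨by omega, ?_⟩
        have h5 : (v : ℕ) - (K + 1) = j := by
          have e1 := fg_eq hP0 hm ((w : ℕ) - (2 * K + 1)) j g3 g4 g5
          have e2 := fg_eq (K := K) hP0 hm ((w : ℕ) - (2 * K + 1)) ((v : ℕ) - (K + 1)) (by omega)
            (by omega) (by omega)
          rw [← e2, e1]
        omega
    · constructor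
      · rintro ⟨_, h3⟩; omega
      · rintro ⟨h3, h4⟩; omega
  rw [key]
  constructor
  · rintro (h | h)
    · exact Or.inl (by omega)
    · exact Or.inr h
  · rintro (h | h)
    · exact Or.inl (by omega)
    · exact Or.inr h

theorem deg_hub {n K : ℕ} {P : ℕ → ℕ} (hP0 : P 0 = 0) (hm : Monotone P) (hK : 1 ≤ K)
    (hn : 2 * K + 1 + P K ≤ n) (v : Fin n)
    (h1 : K + 1 ≤ (v : ℕ)) (h2 : (v : ℕ) < 2 * K + 1) :
    (parGraph n (pS K P)).degree v = P (v - (K + 1) + 1) - P (v - (K + 1)) + 1 := by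
  have hb : P ((v : ℕ) - (K + 1) + 1) ≤ P K := hm (by omega)
  rw [sp_deg _ v _ (fun w => hub_adj hP0 hm hK v w h1 h2), card_or_fin n (v - K) (v - K + 1)
    (2 * K + 1 + P (v - (K + 1))) (2 * K + 1 + P (v - (K + 1) + 1)) (by omega) (by omega)
    (by omega) _ (fun i => Iff.rfl)]
  omega

theorem cen_adj {n K : ℕ} {P : ℕ → ℕ} (hP0 : P 0 = 0) (hK : 1 ≤ K) (v w : Fin n) (h0 : (v : ℕ) = 0) :
    (parGraph n (pS K P)).Adj v w ↔ (1 ≤ (w : ℕ) ∧ (w : ℕ) < K + 1) ∨
      (2 * K + 1 + P K ≤ (w : ℕ) ∧ (w : ℕ) < n) := by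
  rw [sp_adj hP0 hK, h0]
  have hw := w.isLt
  rcases pS_cases K P hP0 w with h | h | h | h <;> omega

theorem deg_cen {n K : ℕ} {P : ℕ → ℕ} (hP0 : P 0 = 0) (hK : 1 ≤ K) (hn : 2 * K + 1 + P K ≤ n) (v : Fin n)
    (h0 : (v : ℕ) = 0) : (parGraph n (pS K P)).degree v = K + (n - (2 * K + 1 + P K)) := by
  rw [sp_deg _ v _ (fun w => cen_adj hP0 hK v w h0), card_or_fin n 1 (K + 1)
    (2 * K + 1 + P K) n (by omega) le_rfl (by omega) _ (fun i => Iff.rfl)]
  omega

theorem spider_gen {k n d : ℕ} (hk : 2 ≤ k) (s : Fin (k - 1) → ℕ) (hs : ∀ i, 1 ≤ s i) (hd : k - 1 ≤ d)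
    (hn : d + ∑ i, s i = n - 1) (hn1 : 1 ≤ n) :
    ∃ T : SimpleGraph (Fin n), T.IsTree ∧ ∃ (C : Finset (Fin n)) (r : Fin n) (y : Fin n → Fin n),
      IsSpider T C r y ∧ C.card = k ∧ T.degree r = d ∧
      ∃ e : Fin (k - 1) → Fin n, Function.Injective e ∧ C.erase r = Finset.univ.image e ∧
        ∀ i, T.degree (e i) = s i := by
  obtain ⟨K, rfl⟩ : ∃ K, k = K + 1 := ⟨k - 1, by omega⟩
  have hK : 1 ≤ K := by omega
  change Fin K → ℕ at s
  change d + ∑ i : Fin K, s i = n - 1 at hn
  change K ≤ d at hd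
  let S : ℕ → ℕ := fun l => if h : l < K then s ⟨l, h⟩ - 1 else 0
  let P : ℕ → ℕ := fun j => ∑ l ∈ Finset.range j, S l
  have hP0 : P 0 = 0 := by simp [P]
  have hPs : ∀ j, P (j + 1) = P j + S j := fun j => Finset.sum_range_succ _ _
  have hm : Monotone P := monotone_nat_of_le_succ fun j => by rw [hPs]; exact Nat.le_add_right _ _
  have hPK : P K + K = ∑ i : Fin K, s i := by
    have h1 : P K = ∑ i : Fin K, (s i - 1) := by
      show ∑ l ∈ Finset.range K, S l = _
      rw [Finset.sum_range]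
      exact Finset.sum_congr rfl fun i _ => by simp [S]
    have h2 : ∑ i : Fin K, s i = ∑ i : Fin K, ((s i - 1) + 1) :=
      Finset.sum_congr rfl fun i _ => by have := hs i; omega
    rw [h1, h2, Finset.sum_add_distrib]
    simp
  have hn' : 2 * K + 1 + P K ≤ n := by omega
  have hn0 : 0 < n := by omega
  set T := parGraph n (pS K P) with hT
  have hyp : ∀ v : Fin n, (v : ℕ) - K < n := fun v => lt_of_le_of_lt (Nat.sub_le _ _) v.isLt
  have hmemC : ∀ v : Fin n, v ∈ Finset.univ.filter (fun v : Fin n => (v : ℕ) = 0 ∨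
      (K + 1 ≤ (v : ℕ) ∧ (v : ℕ) < 2 * K + 1)) ↔
      ((v : ℕ) = 0 ∨ (K + 1 ≤ (v : ℕ) ∧ (v : ℕ) < 2 * K + 1)) := fun v => by simp
  refine ⟨T, parGraph_isTree n (by omega) _ (fun i hi => pS_lt hP0 hK i hi),
    Finset.univ.filter (fun v : Fin n => (v : ℕ) = 0 ∨ (K + 1 ≤ (v : ℕ) ∧ (v : ℕ) < 2 * K + 1)),
    ⟨0, hn0⟩, fun v => ⟨(v : ℕ) - K, hyp v⟩, ?_, ?_, ?_, fun i => ⟨K + 1 + i, ?_⟩, ?_, ?_, ?_⟩
  · refine ⟨?_, ?_, ?_, ?_, ?_, ?_⟩
    · intro v w hvw
      rw [hmemC, hmemC]
      rw [hT, sp_adj hP0 hK] at hvw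
      rcases hvw with ⟨h0, h1⟩ | ⟨h0, h1⟩
      · rcases pS_cases K P hP0 v with h | h | h | h <;> omega
      · rcases pS_cases K P hP0 w with h | h | h | h <;> omega
    · intro v hv w hw hvw
      rw [hmemC] at hv hw
      rw [hT, sp_adj hP0 hK] at hvw
      rcases hvw with ⟨h0, h1⟩ | ⟨h0, h1⟩
      · rcases pS_cases K P hP0 v with h | h | h | h <;> omega
      · rcases pS_cases K P hP0 w with h | h | h | h <;> omega
    · rw [hmemC]; exact Or.inl rfl
    · intro v hv hv0
      rw [hmemC] at hv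
      have hvne : (v : ℕ) ≠ 0 := fun h => hv0 (Fin.ext h)
      obtain ⟨h1, h2⟩ : K + 1 ≤ (v : ℕ) ∧ (v : ℕ) < 2 * K + 1 := by omega
      refine ⟨?_, ?_, ?_⟩
      · rw [hT, hub_adj hP0 hm hK _ _ h1 h2]
        left
        exact ⟨le_refl _, Nat.lt_succ_self _⟩
      · rw [hT, cen_adj hP0 hK _ _ rfl]
        left
        show 1 ≤ (v : ℕ) - K ∧ (v : ℕ) - K < K + 1
        omega
      · rw [hT]
        refine deg_conn hP0 hK hn' _ ?_ ?_
        · show 1 ≤ (v : ℕ) - K
          omega
        · show (v : ℕ) - K < K + 1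
          omega
    · intro v hv hv0 x hx hxy
      rw [hmemC] at hv
      have hvne : (v : ℕ) ≠ 0 := fun h => hv0 (Fin.ext h)
      obtain ⟨h1, h2⟩ : K + 1 ≤ (v : ℕ) ∧ (v : ℕ) < 2 * K + 1 := by omega
      rw [hT] at hx
      rcases (hub_adj hP0 hm hK v x h1 h2).1 hx with h | h
      · exfalso
        apply hxy
        apply Fin.ext
        show (x : ℕ) = (v : ℕ) - K
        omega
      · rw [hT]
        exact deg_leaf hP0 hK x (by omega)
    · intro x hx
      rw [hT] at hx
      rcases (cen_adj hP0 hK _ x rfl).1 hx with h | h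
      · right
        refine ⟨⟨(x : ℕ) + K, by omega⟩, ?_, ?_, ?_⟩
        · rw [hmemC]
          right
          show K + 1 ≤ (x : ℕ) + K ∧ (x : ℕ) + K < 2 * K + 1
          omega
        · intro h3
          have := congrArg Fin.val h3
          simp only at this
          omega
        · apply Fin.ext
          show (x : ℕ) = (x : ℕ) + K - K
          omega
      · left
        rw [hT]
        exact deg_leaf hP0 hK x (by omega)
  · rw [card_or_fin n 0 1 (K + 1) (2 * K + 1) (by omega) (by omega) (by omega)]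
    · omega
    · intro i; omega
  · rw [hT, deg_cen hP0 hK hn' _ rfl]
    omega
  · have : (i : ℕ) < K := i.isLt
    omega
  · intro i j hij
    have := congrArg Fin.val hij
    simp only at this
    exact Fin.ext (by omega)
  · ext v
    rw [Finset.mem_erase, hmemC, Finset.mem_image]
    constructor
    · rintro ⟨h1, h2⟩
      have hvne : (v : ℕ) ≠ 0 := fun h => h1 (Fin.ext h)
      obtain ⟨h3, h4⟩ : K + 1 ≤ (v : ℕ) ∧ (v : ℕ) < 2 * K + 1 := by omega
      refine ⟨(⟨(v : ℕ) - (K + 1), by omega⟩ : Fin K), Finset.mem_univ _, ?_⟩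
      apply Fin.ext
      show K + 1 + ((v : ℕ) - (K + 1)) = v
      omega
    · rintro ⟨i, _, rfl⟩
      have hi : (i : ℕ) < K := i.isLt
      refine ⟨?_, Or.inr ?_⟩
      · intro h3
        have := congrArg Fin.val h3
        simp only at this
        omega
      · show K + 1 ≤ K + 1 + (i : ℕ) ∧ K + 1 + (i : ℕ) < 2 * K + 1
        omega
  · intro i
    have hi : (i : ℕ) < K := i.isLt
    rw [hT, deg_hub hP0 hm hK hn' _ (by show K + 1 ≤ K + 1 + (i : ℕ); omega)
      (by show K + 1 + (i : ℕ) < 2 * K + 1; omega)]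
    show P (K + 1 + (i : ℕ) - (K + 1) + 1) - P (K + 1 + (i : ℕ) - (K + 1)) + 1 = s i
    rw [Nat.add_sub_cancel_left, hPs]
    have h5 : S (i : ℕ) = s i - 1 := by
      show (if h : (i : ℕ) < K then s ⟨(i : ℕ), h⟩ - 1 else 0) = s i - 1
      rw [dif_pos hi]
      rfl
    have := hs i
    omega

end SG

section job36564


theorem lim_exp_gen (k : ℕ) (β : ℝ) :
    Filter.Tendsto (fun n : ℕ => (n : ℝ) * (2 ^ k - 2 ^ k * Real.exp (-(β / ((n : ℝ) + k - 2)))))
      Filter.atTop (nhds (2 ^ k * β)) := by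
  set t : ℕ → ℝ := fun n => β / ((n : ℝ) + k - 2) with ht
  have hden : Filter.Tendsto (fun n : ℕ => (n : ℝ) + k - 2) Filter.atTop Filter.atTop := by
    have h1 : Filter.Tendsto (fun n : ℕ => (n : ℝ) + ((k : ℝ) - 2)) Filter.atTop Filter.atTop :=
      Filter.tendsto_atTop_add_const_right _ _ tendsto_natCast_atTop_atTop
    refine h1.congr (fun n => ?_)
    ring
  have ht0 : Filter.Tendsto t Filter.atTop (nhds 0) := tendsto_const_nhds.div_atTop hden
  have hnt : Filter.Tendsto (fun n : ℕ => (n : ℝ) * t n) Filter.atTop (nhds β) := by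
    have h1 := (tendsto_natCast_div_add_atTop ((k : ℝ) - 2)).mul_const β
    rw [one_mul] at h1
    refine h1.congr (fun n => ?_)
    rw [ht]
    have : (n : ℝ) + ((k : ℝ) - 2) = (n : ℝ) + k - 2 := by ring
    rw [this]
    ring
  have hE : Filter.Tendsto (fun n : ℕ => (n : ℝ) * (Real.exp (-(t n)) - 1 - (-(t n))))
      Filter.atTop (nhds 0) := by
    have h1 : Filter.Tendsto (fun n : ℕ => |(n : ℝ) * t n| * |t n|) Filter.atTop (nhds 0) := by
      have h2 := hnt.abs.mul ht0.abs
      rw [abs_zero, mul_zero] at h2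
      exact h2
    have h3 : ∀ᶠ n : ℕ in Filter.atTop, |t n| < 1 := by
      have h4 := ht0.abs
      rw [abs_zero] at h4
      exact h4.eventually (gt_mem_nhds one_pos)
    refine squeeze_zero_norm' ?_ h1
    filter_upwards [h3] with n hn
    have h5 := Real.abs_exp_sub_one_sub_id_le (x := -(t n)) (by rw [abs_neg]; exact hn.le)
    rw [Real.norm_eq_abs, abs_mul, abs_mul, Nat.abs_cast]
    have h6 : (-(t n)) ^ 2 = |t n| * |t n| := by
      rw [neg_sq, ← sq, sq_abs]
    rw [h6] at h5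
    calc (n : ℝ) * |Real.exp (-(t n)) - 1 - -(t n)| ≤ (n : ℝ) * (|t n| * |t n|) :=
          mul_le_mul_of_nonneg_left h5 (Nat.cast_nonneg n)
      _ = (n : ℝ) * |t n| * |t n| := by ring
  have hfin := (hnt.sub hE).const_mul ((2 : ℝ) ^ k)
  rw [sub_zero] at hfin
  refine hfin.congr (fun n => ?_)
  rw [ht]
  ring

end job36564


/-- values of spiders on `n` vertices with `k` hubs -/
def SV (n k : ℕ) : Set ℝ :=
  {x : ℝ | ∃ (d : ℕ) (s : Fin (k - 1) → ℕ), (∀ i, 1 ≤ s i) ∧ k - 1 ≤ d ∧ d + ∑ i, s i = n - 1 ∧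
    x = spiderVal k d s}

theorem upper_expA {n k : ℕ} (T : SimpleGraph (Fin n)) (hT : T.IsTree) (hn : 3 ≤ n) (hk : 2 ≤ k)
    (D : Finset (Fin n)) (hD : D.card = k) (hcov' : ∀ x y, T.Adj x y → x ∈ D ∨ y ∈ D)
    (A : ℝ) (hA : 0 ≤ A) (hsq : A ≤ ∑ v ∈ D, Real.sqrt (cst T D v)) :
    lapRatio T ≤ 2 ^ k * Real.exp (-((A ^ 2 / 2) / ((n : ℝ) + k - 2))) := by
  rw [lapRatio_eq T hT (by omega)]
  refine (upper_prod T hT hn D hcov').trans ?_
  have hdp : ∀ v, (0 : ℝ) < (T.degree v : ℝ) := fun v => by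
    exact_mod_cast deg_pos_tree T hT (by omega) v
  have hhalf := cost_half T hT hn D hcov' (by rw [hD]; exact hk)
  obtain ⟨hsum, hdeg⟩ := cost_sum T hT hn D hcov'
  rw [hD] at hsum hdeg
  have hfac : ∀ v ∈ D, 1 + (∑ x ∈ Np T D v, 1 / (T.degree x : ℝ)) / (T.degree v : ℝ) =
      2 * (1 - cst T D v / (2 * (T.degree v : ℝ))) := by
    intro v _
    have h0 := (hdp v).ne'
    unfold cst
    field_simp
    ring
  have hS : ∀ v ∈ D, (0 : ℝ) ≤ 1 + (∑ x ∈ Np T D v, 1 / (T.degree x : ℝ)) / (T.degree v : ℝ) := by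
    intro v _
    have : (0 : ℝ) ≤ ∑ x ∈ Np T D v, 1 / (T.degree x : ℝ) :=
      Finset.sum_nonneg (fun x _ => by positivity)
    positivity
  have h1 : ∏ v ∈ D, (1 + (∑ x ∈ Np T D v, 1 / (T.degree x : ℝ)) / (T.degree v : ℝ)) ≤
      ∏ v ∈ D, (2 * Real.exp (-(cst T D v / (2 * (T.degree v : ℝ))))) := by
    refine Finset.prod_le_prod hS ?_
    intro v hv
    rw [hfac v hv]
    have := Real.add_one_le_exp (-(cst T D v / (2 * (T.degree v : ℝ))))
    linarith
  refine h1.trans ?_
  rw [Finset.prod_mul_distrib, Finset.prod_const, hD, ← Real.exp_sum]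
  refine mul_le_mul_of_nonneg_left ?_ (by positivity)
  rw [Real.exp_le_exp, Finset.sum_neg_distrib, neg_le_neg_iff]
  have hsed := Finset.sq_sum_div_le_sum_sq_div D (fun v => Real.sqrt (cst T D v))
    (g := fun v => (T.degree v : ℝ)) (fun v _ => hdp v)
  have hsed' : ∑ v ∈ D, (Real.sqrt (cst T D v)) ^ 2 / (T.degree v : ℝ) =
      ∑ v ∈ D, cst T D v / (T.degree v : ℝ) := by
    refine Finset.sum_congr rfl ?_
    intro v hv
    rw [Real.sq_sqrt (by have := hhalf v hv; linarith)]
  rw [hsed'] at hsed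
  have hsum2 : ∑ v ∈ D, cst T D v / (2 * (T.degree v : ℝ)) =
      (1 / 2) * ∑ v ∈ D, cst T D v / (T.degree v : ℝ) := by
    rw [Finset.mul_sum]
    refine Finset.sum_congr rfl ?_
    intro v _
    have h0 := (hdp v).ne'
    field_simp
  rw [hsum2]
  have hne : D.Nonempty := by rw [← Finset.card_pos, hD]; omega
  have hDpos : 0 < ∑ v ∈ D, (T.degree v : ℝ) := Finset.sum_pos (fun v _ => hdp v) hne
  have hnk : (0 : ℝ) < (n : ℝ) + k - 2 := lt_of_lt_of_le hDpos hdeg
  have hal2 : A ^ 2 ≤ (∑ v ∈ D, Real.sqrt (cst T D v)) ^ 2 := pow_le_pow_left₀ hA hsq 2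
  have hfin : A ^ 2 / ((n : ℝ) + k - 2) ≤
      (∑ v ∈ D, Real.sqrt (cst T D v)) ^ 2 / ∑ v ∈ D, (T.degree v : ℝ) :=
    div_le_div₀ (sq_nonneg _) hal2 hDpos hdeg
  have e : (A ^ 2 / 2) / ((n : ℝ) + k - 2) = (1 / 2) * (A ^ 2 / ((n : ℝ) + k - 2)) := by
    ring
  rw [e]
  refine mul_le_mul_of_nonneg_left (hfin.trans hsed) (by norm_num)

theorem spider_deg {n : ℕ} (T : SimpleGraph (Fin n)) (C : Finset (Fin n)) (r : Fin n)
    (y : Fin n → Fin n) (h : IsSpider T C r y) : C.card - 1 ≤ T.degree r := by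
  rw [← Finset.card_erase_of_mem h.mem, ← SimpleGraph.card_neighborFinset_eq_degree]
  refine Finset.card_le_card_of_injOn y ?_ ?_
  · intro v hv
    rw [Finset.mem_coe, Finset.mem_erase] at hv
    rw [Finset.mem_coe, SimpleGraph.mem_neighborFinset]
    exact (h.conn v hv.2 hv.1).2.1
  · intro v hv w hw hvw
    rw [Finset.mem_coe, Finset.mem_erase] at hv hw
    by_contra hne
    have h1 := h.conn v hv.2 hv.1
    have h2 := h.conn w hw.2 hw.1
    have hsub : ({v, w, r} : Finset (Fin n)) ⊆ T.neighborFinset (y v) := by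
      intro x hx
      simp only [Finset.mem_insert, Finset.mem_singleton] at hx
      rw [SimpleGraph.mem_neighborFinset]
      rcases hx with rfl | rfl | rfl
      · exact h1.1.symm
      · rw [hvw]; exact h2.1.symm
      · exact h1.2.1.symm
    have hc := Finset.card_le_card hsub
    rw [SimpleGraph.card_neighborFinset_eq_degree, h1.2.2] at hc
    have h3 : ({v, w, r} : Finset (Fin n)).card = 3 := by
      rw [Finset.card_insert_of_notMem, Finset.card_insert_of_notMem, Finset.card_singleton]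
      · simpa using hw.1
      · simp only [Finset.mem_insert, Finset.mem_singleton, not_or]
        exact ⟨hne, hv.1⟩
    omega

/-- the Laplacian ratio of a spider is a spider value -/
theorem spider_mem_SV {n k : ℕ} (T : SimpleGraph (Fin n)) (hT : T.IsTree) (hn : 3 ≤ n)
    (C : Finset (Fin n)) (r : Fin n) (y : Fin n → Fin n) (h : IsSpider T C r y) (hk : 1 ≤ k)
    (hCk : C.card = k) (hdeg : ∑ v ∈ C, T.degree v = n - 1) : lapRatio T ∈ SV n k := by
  have hcard : (C.erase r).card = k - 1 := by rw [Finset.card_erase_of_mem h.mem, hCk]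
  let e : Fin (k - 1) ≃ (C.erase r : Finset (Fin n)) := ((C.erase r).equivFinOfCardEq hcard).symm
  refine ⟨T.degree r, fun i => T.degree (e i : Fin n), fun i => deg_pos_tree T hT (by omega) _, ?_, ?_, ?_⟩
  · have := spider_deg T C r y h
    rwa [hCk] at this
  · have h1 : ∑ i, T.degree (e i : Fin n) = ∑ v ∈ C.erase r, T.degree v := by
      rw [Equiv.sum_comp e (fun v : (C.erase r : Finset (Fin n)) => T.degree (v : Fin n)),
        Finset.sum_coe_sort (C.erase r) (fun v => T.degree v)]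
    have h9 := Finset.add_sum_erase C (fun v => T.degree v) h.mem
    rw [h1, h9, hdeg]
  · rw [lapRatio_eq T hT (by omega), spider_sum T hT hn C r y h, hCk]
    unfold spiderVal
    have h2 : ∏ i, (2 - 1 / (2 * ((T.degree (e i : Fin n) : ℕ) : ℝ))) =
        ∏ v ∈ C.erase r, (2 - 1 / (2 * (T.degree v : ℝ))) := by
      rw [Equiv.prod_comp e (fun v : (C.erase r : Finset (Fin n)) => (2 - 1 / (2 * ((T.degree (v : Fin n) : ℕ) : ℝ)))),
        Finset.prod_coe_sort (C.erase r) (fun v => (2 - 1 / (2 * ((T.degree v : ℕ) : ℝ))))]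
    have h3 : ∑ i, 1 / (4 * ((T.degree (e i : Fin n) : ℕ) : ℝ) - 1) =
        ∑ v ∈ C.erase r, 1 / (4 * (T.degree v : ℝ) - 1) := by
      rw [Equiv.sum_comp e (fun v : (C.erase r : Finset (Fin n)) => 1 / (4 * ((T.degree (v : Fin n) : ℕ) : ℝ) - 1)),
        Finset.sum_coe_sort (C.erase r) (fun v => 1 / (4 * ((T.degree v : ℕ) : ℝ) - 1))]
    rw [h2, h3]

/-- every spider value is attained -/
theorem SV_le {n k : ℕ} (hk : 2 ≤ k) (hn : 3 ≤ n) : SV n k ⊆ SM n k := by
  rintro _ ⟨d, s, hs, hd, hsum, rfl⟩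
  obtain ⟨T, hT, C, r, y, h, hCk, hdr, e, hinj, himg, hde⟩ := SG.spider_gen hk s hs hd hsum (by omega)
  refine ⟨T, hT, ?_, ?_⟩
  · have := matching_of_cover T C h.cover
    rwa [hCk] at this
  · rw [lapRatio_eq T hT (by omega), spider_sum T hT hn C r y h, hCk, hdr, himg]
    unfold spiderVal
    rw [Finset.prod_image (fun a _ b _ hab => hinj hab), Finset.sum_image (fun a _ b _ hab => hinj hab)]
    simp only [hde]

theorem exact_large (k : ℕ) (hk : 3 ≤ k) : ∃ N : ℕ, ∀ n ≥ N,
    IsGreatest (SV n k) (sSup (SM n k)) ∧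
    ∀ T : SimpleGraph (Fin n), T.IsTree → MatchingNumberLE T k → lapRatio T = sSup (SM n k) →
      ∃ (C : Finset (Fin n)) (r : Fin n) (y : Fin n → Fin n), C.card = k ∧ IsSpider T C r y := by
  obtain ⟨δ, hδ, hgap⟩ := sqrt_gap k hk
  have hk1 : (2 : ℝ) ≤ (k : ℝ) - 1 := by
    have : (3 : ℝ) ≤ k := by exact_mod_cast hk
    linarith
  have hal0 : 0 ≤ al k := by
    unfold al; have := Real.sqrt_nonneg ((k : ℝ) - 1); linarith
  set A : ℝ := al k / Real.sqrt 2 + δ with hAdef
  have hA0 : 0 ≤ A := by positivity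
  obtain ⟨hev, hlim⟩ := lim_sn k (by omega)
  have hlim2 := lim_exp_gen k (A ^ 2 / 2)
  have hlt : 2 ^ k * (al k) ^ 2 / 4 < 2 ^ k * (A ^ 2 / 2) := by
    have h2 : (al k) ^ 2 / 2 = (al k / Real.sqrt 2) ^ 2 := by
      rw [div_pow, Real.sq_sqrt (by norm_num)]
    have h3 : (al k / Real.sqrt 2) ^ 2 < A ^ 2 := by
      have h4 : 0 ≤ al k / Real.sqrt 2 := by positivity
      have h5 : al k / Real.sqrt 2 < A := by rw [hAdef]; linarith
      exact pow_lt_pow_left₀ h5 h4 (by norm_num)
    rw [← h2] at h3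
    have h6 : (0 : ℝ) < 2 ^ k := by positivity
    nlinarith
  have hev2 := hlim.eventually_lt hlim2 hlt
  obtain ⟨N, hN⟩ := eventually_atTop.1 (hev.and (hev2.and (eventually_ge_atTop (max 3 k))))
  refine ⟨N, fun n hn => ?_⟩
  obtain ⟨h1, h2, h3⟩ := hN n hn
  have hn3 : 3 ≤ n := le_trans (le_max_left _ _) h3
  have hnk : k ≤ n := le_trans (le_max_right _ _) h3
  have hn0 : (0 : ℝ) < n := by exact_mod_cast (by omega : 0 < n)
  have hG := SM_isGreatest n k (by omega) (by omega)
  -- the maximum beats the gap bound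
  have hbig : 2 ^ k * Real.exp (-((A ^ 2 / 2) / ((n : ℝ) + k - 2))) < sSup (SM n k) := by
    obtain ⟨T, hT, hM, hx⟩ := lower_spider (show 2 ≤ k by omega) h1.1 h1.2.1
      (min (sn k n) (n - 1 - (k - 1) * sn k n)) (le_min h1.1 h1.2.2) (min_le_left _ _) (min_le_right _ _)
    have h4 : lapRatio T ≤ sSup (SM n k) := hG.2 ⟨T, hT, hM, rfl⟩
    have h5 := lt_of_mul_lt_mul_left h2 hn0.le
    linarith
  -- structure of the extremal trees
  have hstruct : ∀ T : SimpleGraph (Fin n), T.IsTree → MatchingNumberLE T k →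
      lapRatio T = sSup (SM n k) →
      ∃ (C : Finset (Fin n)) (r : Fin n) (y : Fin n → Fin n), C.card = k ∧ IsSpider T C r y ∧
        ∑ v ∈ C, T.degree v = n - 1 := by
    intro T hT hM hmax
    obtain ⟨C, hC, hcov⟩ := konig T hT.isAcyclic k hM
    obtain ⟨D, hCD, hD⟩ := Finset.exists_superset_card_eq hC
      (by rw [Fintype.card_fin]; exact hnk)
    have hcov' : ∀ x y, T.Adj x y → x ∈ D ∨ y ∈ D := by
      intro x y h
      rcases hcov x y h with h' | h'
      · exact Or.inl (hCD h')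
      · exact Or.inr (hCD h')
    have hdich := cst_dich T hT hn3 D hcov' (by omega)
    obtain ⟨hsum, -⟩ := cost_sum T hT hn3 D hcov'
    rw [hD] at hsum
    have hno : ¬ ((k : ℝ) - 1 / 2 ≤ ∑ i ∈ D, cst T D i ∨
        ∃ i ∈ D, ∃ j ∈ D, i ≠ j ∧ 2 / 3 ≤ cst T D i ∧ 2 / 3 ≤ cst T D j) := by
      intro hcon
      have h6 := hgap (Fin n) D (cst T D) hD hdich hsum hcon
      have h7 := upper_expA T hT hn3 (show 2 ≤ k by omega) D hD hcov' A hA0 h6
      linarith
    push Not at hno
    obtain ⟨hno1, hno2⟩ := hno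
    have hind : ∀ v ∈ D, ∀ w ∈ D, ¬ T.Adj v w := by
      rcases cst_sum_dich T hT hn3 D hcov' with h | h
      · exact h
      · rw [hD] at h; linarith
    obtain ⟨r, hr, hrc⟩ : ∃ r ∈ D, ∀ v ∈ D, v ≠ r → cst T D v = 1 / 2 := by
      by_cases hex : ∃ r ∈ D, 2 / 3 ≤ cst T D r
      · obtain ⟨r, hr, hrb⟩ := hex
        refine ⟨r, hr, fun v hv hne => ?_⟩
        rcases hdich v hv with h | h
        · exact h
        · exact absurd h (not_le.2 (hno2 r hr v hv (Ne.symm hne) hrb))
      · push Not at hex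
        obtain ⟨r, hr⟩ : D.Nonempty := by rw [← Finset.card_pos, hD]; omega
        refine ⟨r, hr, fun v hv _ => ?_⟩
        rcases hdich v hv with h | h
        · exact h
        · exact absurd h (not_le.2 (hex v hv))
    obtain ⟨⟨y, hy⟩, hdeg⟩ := spider_struct T hT hn3 D hcov' (by omega) hind r hr hrc
    exact ⟨D, r, y, hD, hy, hdeg⟩
  refine ⟨⟨?_, ?_⟩, ?_⟩
  · obtain ⟨T, hT, hM, hx⟩ := hG.1
    obtain ⟨C, r, y, hCk, hy, hdeg⟩ := hstruct T hT hM hx
    rw [← hx]
    exact spider_mem_SV T hT hn3 C r y hy (by omega) hCk hdeg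
  · intro x hx
    exact hG.2 (SV_le (by omega) hn3 hx)
  · intro T hT hM hx
    obtain ⟨C, r, y, hCk, hy, -⟩ := hstruct T hT hM hx
    exact ⟨C, r, y, hCk, hy⟩

end Helper78.LapRatio
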