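import Pool.Agent.Helper78.LapRatioMain4
set_option autoImplicit false
set_option linter.unusedSectionVars false
open scoped BigOperators
open Classical
open Filter Topology
namespace Helper78.LapRatio

namespace J37009


theorem bal_g_pos (a : ℕ) (ha : 1 ≤ a) : 0 < 2 - 1 / (2 * (a : ℝ)) := by
  have h : (1:ℝ) ≤ a := by exact_mod_cast ha
  have : 1 / (2 * (a : ℝ)) ≤ 1 / 2 := by
    apply one_div_le_one_div_of_le (by norm_num)
    linarith
  linarith

theorem bal_g_step (a b : ℝ) (hb : 1 ≤ b) (hab : b + 2 ≤ a) :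
    (2 - 1 / (2 * a)) * (2 - 1 / (2 * b)) ≤ (2 - 1 / (2 * (a - 1))) * (2 - 1 / (2 * (b + 1))) := by
  have h1 : 0 < a := by linarith
  have h2 : 0 < a - 1 := by linarith
  have h3 : 0 < b := by linarith
  have h4 : 0 < b + 1 := by linarith
  rw [← sub_nonneg]
  have e : (2 - 1 / (2 * (a - 1))) * (2 - 1 / (2 * (b + 1))) - (2 - 1 / (2 * a)) * (2 - 1 / (2 * b))
      = (a - b - 1) * (a + b - 1 / 4) / (a * b * (a - 1) * (b + 1)) := by
    field_simp
    ring
  rw [e]
  apply div_nonneg
  · apply mul_nonneg <;> linarith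
  · positivity

theorem bal_h_step (a b : ℝ) (hb : 1 ≤ b) (hab : b + 2 ≤ a) :
    1 / (4 * (a - 1) - 1) + 1 / (4 * (b + 1) - 1) ≤ 1 / (4 * a - 1) + 1 / (4 * b - 1) := by
  have h1 : 0 < 4 * a - 1 := by linarith
  have h2 : 0 < 4 * (a - 1) - 1 := by linarith
  have h3 : 0 < 4 * b - 1 := by linarith
  have h4 : 0 < 4 * (b + 1) - 1 := by linarith
  rw [← sub_nonneg]
  have e : 1 / (4 * a - 1) + 1 / (4 * b - 1) - (1 / (4 * (a - 1) - 1) + 1 / (4 * (b + 1) - 1))
      = 4 * ((4 * a - 1) * (4 * (a - 1) - 1) - (4 * b - 1) * (4 * (b + 1) - 1)) /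
        ((4 * a - 1) * (4 * b - 1) * (4 * (a - 1) - 1) * (4 * (b + 1) - 1)) := by
    rw [eq_div_iff (by positivity)]
    field_simp
    ring
  rw [e]
  apply div_nonneg
  · have : 0 ≤ (4 * a - 1) * (4 * (a - 1) - 1) - (4 * b - 1) * (4 * (b + 1) - 1) := by
      nlinarith
    linarith
  · positivity

theorem bal_upper {k d S : ℕ} (hk : 2 ≤ k) (hd : k - 1 ≤ d) (s : Fin (k - 1) → ℕ) (hs : ∀ i, 1 ≤ s i)
    (hsum : ∑ i, s i = S) : spiderVal k d s ≤ Phi k d S := by
  classical
  have hkR : ((k - 1 : ℕ) : ℝ) = (k : ℝ) - 1 := by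
    rw [Nat.cast_sub (by omega)]; simp
  have hd1 : 1 ≤ d := by omega
  have hdR : (k : ℝ) - 1 ≤ d := by rw [← hkR]; exact_mod_cast hd
  have hdpos : (0:ℝ) < d := by exact_mod_cast hd1
  obtain ⟨N, hN⟩ : ∃ N, N = ∑ i, (s i) ^ 2 := ⟨_, rfl⟩
  induction N using Nat.strong_induction_on generalizing s with
  | _ N ih =>
    by_cases hbal : ∀ i j, s i ≤ s j + 1
    · -- balanced
      have hne : Nonempty (Fin (k - 1)) := ⟨⟨0, by omega⟩⟩
      obtain ⟨i0, hi0⟩ := Finite.exists_min s
      set m := s i0 with hm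
      have hm1 : 1 ≤ m := hs i0
      have hcase : ∀ i, s i = m ∨ s i = m + 1 := fun i => by
        have h1 := hi0 i
        have h2 := hbal i i0
        omega
      set F : Finset (Fin (k - 1)) := Finset.univ.filter (fun i => s i = m + 1) with hF
      have hFn : ∀ i, i ∈ Finset.univ.filter (fun i => ¬ s i = m + 1) → s i = m := fun i hi => by
        rcases hcase i with h | h
        · exact h
        · exact absurd h (Finset.mem_filter.1 hi).2
      have hFc : F.card + (Finset.univ.filter (fun i => ¬ s i = m + 1)).card = k - 1 := by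
        rw [hF, Finset.card_filter_add_card_filter_not]
        simp
      have hFlt : F.card < k - 1 := by
        have : 0 < (Finset.univ.filter (fun i => ¬ s i = m + 1)).card := by
          apply Finset.card_pos.2
          exact ⟨i0, Finset.mem_filter.2 ⟨Finset.mem_univ _, by omega⟩⟩
        omega
      have hS : S = F.card * (m + 1) + (k - 1 - F.card) * m := by
        rw [← hsum, ← Finset.sum_filter_add_sum_filter_not Finset.univ (fun i => s i = m + 1)]
        rw [Finset.sum_congr rfl (fun i hi => (Finset.mem_filter.1 hi).2),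
          Finset.sum_congr rfl (fun i hi => hFn i hi)]
        simp only [Finset.sum_const, smul_eq_mul]
        congr 2
        omega
      have hS2 : S = (k - 1) * m + F.card := by
        have gen : ∀ K c m : ℕ, c ≤ K → c * (m + 1) + (K - c) * m = K * m + c := by
          intro K c m h
          obtain ⟨r, rfl⟩ := Nat.exists_eq_add_of_le h
          have : c + r - c = r := by omega
          rw [this]
          ring
        rw [hS]
        exact gen _ _ _ hFlt.le
      have hq : S / (k - 1) = m := by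
        rw [hS2, Nat.mul_add_div (by omega), Nat.div_eq_of_lt hFlt]
        simp
      have ht : S % (k - 1) = F.card := by
        rw [hS2, Nat.mul_add_mod]
        exact Nat.mod_eq_of_lt hFlt
      have hrest : (Finset.univ.filter (fun i => ¬ s i = m + 1)).card = k - 1 - F.card := by omega
      apply le_of_eq
      unfold spiderVal Phi
      rw [hq, ht]
      have P : ∏ i, (2 - 1 / (2 * (s i : ℝ))) = (2 - 1 / (2 * ((m : ℝ) + 1))) ^ F.card *
          (2 - 1 / (2 * (m : ℝ))) ^ (k - 1 - F.card) := by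
        rw [← Finset.prod_filter_mul_prod_filter_not Finset.univ (fun i => s i = m + 1)]
        have q1 : ∏ i ∈ Finset.univ.filter (fun i => s i = m + 1), (2 - 1 / (2 * (s i : ℝ))) =
            (2 - 1 / (2 * ((m : ℝ) + 1))) ^ F.card := by
          rw [← Finset.prod_const]
          refine Finset.prod_congr rfl fun i hi => ?_
          rw [(Finset.mem_filter.1 hi).2]
          push_cast
          ring
        have q2 : ∏ i ∈ Finset.univ.filter (fun i => ¬ s i = m + 1), (2 - 1 / (2 * (s i : ℝ))) =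
            (2 - 1 / (2 * (m : ℝ))) ^ (k - 1 - F.card) := by
          rw [← hrest, ← Finset.prod_const]
          refine Finset.prod_congr rfl fun i hi => ?_
          rw [hFn i hi]
        rw [q1, q2]
      have Q : ∑ i, 1 / (4 * (s i : ℝ) - 1) = (F.card : ℝ) * (1 / (4 * ((m : ℝ) + 1) - 1)) +
          ((k - 1 - F.card : ℕ) : ℝ) * (1 / (4 * (m : ℝ) - 1)) := by
        rw [← Finset.sum_filter_add_sum_filter_not Finset.univ (fun i => s i = m + 1)]
        have q1 : ∑ i ∈ Finset.univ.filter (fun i => s i = m + 1), 1 / (4 * (s i : ℝ) - 1) =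
            (F.card : ℝ) * (1 / (4 * ((m : ℝ) + 1) - 1)) := by
          rw [← nsmul_eq_mul, ← Finset.sum_const]
          refine Finset.sum_congr rfl fun i hi => ?_
          rw [(Finset.mem_filter.1 hi).2]
          push_cast
          ring
        have q2 : ∑ i ∈ Finset.univ.filter (fun i => ¬ s i = m + 1), 1 / (4 * (s i : ℝ) - 1) =
            ((k - 1 - F.card : ℕ) : ℝ) * (1 / (4 * (m : ℝ) - 1)) := by
          rw [← hrest, ← nsmul_eq_mul, ← Finset.sum_const]
          refine Finset.sum_congr rfl fun i hi => ?_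
          rw [hFn i hi]
        rw [q1, q2]
      rw [P, Q]
    · push Not at hbal
      obtain ⟨i, j, hij⟩ := hbal
      have hne : i ≠ j := by
        rintro rfl
        omega
      set s' : Fin (k - 1) → ℕ := Function.update (Function.update s i (s i - 1)) j (s j + 1) with hs'
      have e1 : s' i = s i - 1 := by
        simp [hs', hne]
      have e2 : s' j = s j + 1 := by
        simp [hs']
      have e3 : ∀ l, l ≠ i → l ≠ j → s' l = s l := by
        intro l h1 h2
        simp [hs', h1, h2]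
      have hpos' : ∀ l, 1 ≤ s' l := by
        intro l
        by_cases h1 : l = i
        · rw [h1, e1]; omega
        by_cases h2 : l = j
        · rw [h2, e2]; omega
        rw [e3 l h1 h2]; exact hs l
      have hji : j ∈ Finset.univ.erase i := Finset.mem_erase.2 ⟨hne.symm, Finset.mem_univ _⟩
      have hsplit : ∀ f : Fin (k - 1) → ℕ, ∑ l, f l = f i + (f j + ∑ l ∈ (Finset.univ.erase i).erase j, f l) := by
        intro f
        rw [Finset.add_sum_erase _ _ hji, Finset.add_sum_erase _ _ (Finset.mem_univ i)]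
      have hmem : ∀ l ∈ (Finset.univ.erase i).erase j, s' l = s l := by
        intro l hl
        rw [Finset.mem_erase, Finset.mem_erase] at hl
        exact e3 l hl.2.1 hl.1
      have hsum' : ∑ l, s' l = S := by
        have hh : ∑ l ∈ (Finset.univ.erase i).erase j, s' l = ∑ l ∈ (Finset.univ.erase i).erase j, s l :=
          Finset.sum_congr rfl hmem
        rw [← hsum, hsplit s', hsplit s, e1, e2, hh]
        omega
      have hsq : ∑ l, (s' l) ^ 2 < N := by
        rw [hN, hsplit (fun l => (s' l) ^ 2), hsplit (fun l => (s l) ^ 2), e1, e2,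
          Finset.sum_congr rfl (fun l hl => by rw [hmem l hl])]
        have h1 : (s i - 1) ^ 2 + (s j + 1) ^ 2 < (s i) ^ 2 + (s j) ^ 2 := by
          obtain ⟨r, hr⟩ : ∃ r, s i = s j + 2 + r := ⟨s i - (s j + 2), by omega⟩
          rw [hr]
          have : s j + 2 + r - 1 = s j + 1 + r := by omega
          rw [this]
          nlinarith
        omega
      refine le_trans ?_ (ih _ hsq s' hpos' hsum' rfl)
      have hbR : (1:ℝ) ≤ (s j : ℝ) := by exact_mod_cast hs j
      have habR : (s j : ℝ) + 2 ≤ (s i : ℝ) := by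
        have : s j + 2 ≤ s i := by omega
        exact_mod_cast this
      have ciR : ((s' i : ℕ) : ℝ) = (s i : ℝ) - 1 := by
        rw [e1, Nat.cast_sub (by omega)]; simp
      have cjR : ((s' j : ℕ) : ℝ) = (s j : ℝ) + 1 := by
        rw [e2]; push_cast; ring
      have psplit : ∀ f : Fin (k - 1) → ℝ, ∏ l, f l = f i * (f j * ∏ l ∈ (Finset.univ.erase i).erase j, f l) := by
        intro f
        rw [Finset.mul_prod_erase _ _ hji, Finset.mul_prod_erase _ _ (Finset.mem_univ i)]
      have ssplit : ∀ f : Fin (k - 1) → ℝ, ∑ l, f l = f i + (f j + ∑ l ∈ (Finset.univ.erase i).erase j, f l) := by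
        intro f
        rw [Finset.add_sum_erase _ _ hji, Finset.add_sum_erase _ _ (Finset.mem_univ i)]
      have hG : ∏ l, (2 - 1 / (2 * (s l : ℝ))) ≤ ∏ l, (2 - 1 / (2 * (s' l : ℝ))) := by
        rw [psplit (fun l => 2 - 1 / (2 * (s l : ℝ))), psplit (fun l => 2 - 1 / (2 * (s' l : ℝ)))]
        have hh : ∏ l ∈ (Finset.univ.erase i).erase j, (2 - 1 / (2 * (s' l : ℝ))) =
            ∏ l ∈ (Finset.univ.erase i).erase j, (2 - 1 / (2 * (s l : ℝ))) :=
          Finset.prod_congr rfl (fun l hl => by rw [hmem l hl])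
        rw [ciR, cjR, hh, ← mul_assoc, ← mul_assoc]
        refine mul_le_mul_of_nonneg_right (bal_g_step _ _ hbR habR) ?_
        exact Finset.prod_nonneg fun l _ => (bal_g_pos _ (hs l)).le
      have hH : ∑ l, 1 / (4 * (s' l : ℝ) - 1) ≤ ∑ l, 1 / (4 * (s l : ℝ) - 1) := by
        rw [ssplit (fun l => 1 / (4 * (s l : ℝ) - 1)), ssplit (fun l => 1 / (4 * (s' l : ℝ) - 1))]
        have hh : ∑ l ∈ (Finset.univ.erase i).erase j, 1 / (4 * (s' l : ℝ) - 1) =
            ∑ l ∈ (Finset.univ.erase i).erase j, 1 / (4 * (s l : ℝ) - 1) :=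
          Finset.sum_congr rfl (fun l hl => by rw [hmem l hl])
        rw [ciR, cjR, hh, ← add_assoc, ← add_assoc]
        have := bal_h_step _ _ hbR habR
        linarith
      have hH1 : ∑ l, 1 / (4 * (s l : ℝ) - 1) ≤ (k : ℝ) - 1 := by
        calc ∑ l, 1 / (4 * (s l : ℝ) - 1) ≤ ∑ _l : Fin (k - 1), (1:ℝ) := by
              refine Finset.sum_le_sum fun l _ => ?_
              have h1 : (1:ℝ) ≤ s l := by exact_mod_cast hs l
              rw [div_le_one (by linarith)]
              linarith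
          _ = (k : ℝ) - 1 := by simp [hkR]
      have hbr : 0 ≤ 2 - ((k : ℝ) - 1) / (2 * (d : ℝ)) - (1 / (2 * (d : ℝ))) * ∑ i, 1 / (4 * (s i : ℝ) - 1) := by
        have h1 : ((k : ℝ) - 1) / (2 * (d : ℝ)) ≤ 1 / 2 := by
          rw [div_le_iff₀ (by positivity)]
          linarith
        have h2 : (1 / (2 * (d : ℝ))) * ∑ i, 1 / (4 * (s i : ℝ) - 1) ≤ 1 / 2 := by
          rw [one_div_mul_eq_div, div_le_iff₀ (by positivity)]
          linarith
        linarith
      unfold spiderVal
      refine mul_le_mul hG ?_ hbr (Finset.prod_nonneg fun l _ => (bal_g_pos _ (hpos' l)).le)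
      have h3 : (1 / (2 * (d : ℝ))) * ∑ i, 1 / (4 * (s' i : ℝ) - 1) ≤
          (1 / (2 * (d : ℝ))) * ∑ i, 1 / (4 * (s i : ℝ) - 1) :=
        mul_le_mul_of_nonneg_left hH (by positivity)
      linarith

end J37009
open J37009

namespace J37010


theorem prod_split {M : Type} [CommMonoid M] (m t : ℕ) (htm : t ≤ m) (x y : M) :
    (∏ i : Fin m, (if (i : ℕ) < t then x else y)) = x ^ t * y ^ (m - t) := by
  rw [Fin.prod_univ_eq_prod_range (fun i => if i < t then x else y) m]
  obtain ⟨r, rfl⟩ := Nat.exists_eq_add_of_le htm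
  rw [Finset.prod_range_add]
  congr 1
  · rw [Finset.prod_congr rfl (g := fun _ => x)]
    · simp
    · intro i hi
      rw [Finset.mem_range] at hi
      rw [if_pos hi]
  · rw [Finset.prod_congr rfl (g := fun _ => y)]
    · simp
    · intro i hi
      rw [if_neg (by omega)]

theorem sum_split {M : Type} [AddCommMonoid M] (m t : ℕ) (htm : t ≤ m) (x y : M) :
    (∑ i : Fin m, (if (i : ℕ) < t then x else y)) = t • x + (m - t) • y := by
  rw [Fin.sum_univ_eq_sum_range (fun i => if i < t then x else y) m]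
  obtain ⟨r, rfl⟩ := Nat.exists_eq_add_of_le htm
  rw [Finset.sum_range_add]
  congr 1
  · rw [Finset.sum_congr rfl (g := fun _ => x)]
    · simp
    · intro i hi
      rw [Finset.mem_range] at hi
      rw [if_pos hi]
  · rw [Finset.sum_congr rfl (g := fun _ => y)]
    · simp
    · intro i hi
      rw [if_neg (by omega)]

theorem bal_attained {k d S : ℕ} (hk : 2 ≤ k) (hS : k - 1 ≤ S) :
    ∃ s : Fin (k - 1) → ℕ, (∀ i, 1 ≤ s i) ∧ ∑ i, s i = S ∧ spiderVal k d s = Phi k d S := by
  have hm : 0 < k - 1 := by omega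
  have ht : S % (k - 1) < k - 1 := Nat.mod_lt _ hm
  have hq : 1 ≤ S / (k - 1) := (Nat.one_le_div_iff hm).2 hS
  refine ⟨fun i => if (i : ℕ) < S % (k - 1) then S / (k - 1) + 1 else S / (k - 1), ?_, ?_, ?_⟩
  · intro i
    dsimp only
    split_ifs <;> omega
  · rw [sum_split _ _ ht.le]
    have h := Nat.div_add_mod S (k - 1)
    rw [smul_eq_mul, smul_eq_mul, mul_add, mul_one]
    have h2 : S % (k - 1) * (S / (k - 1)) + (k - 1 - S % (k - 1)) * (S / (k - 1))
        = (k - 1) * (S / (k - 1)) := by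
      rw [← add_mul]
      congr 1
      omega
    omega
  · unfold spiderVal Phi
    have h1 : (∏ i : Fin (k - 1), (2 - 1 / (2 * (((if (i : ℕ) < S % (k - 1) then S / (k - 1) + 1
        else S / (k - 1) : ℕ)) : ℝ))))
        = (2 - 1 / (2 * (((S / (k - 1) : ℕ) : ℝ) + 1))) ^ (S % (k - 1)) *
          (2 - 1 / (2 * ((S / (k - 1) : ℕ) : ℝ))) ^ (k - 1 - S % (k - 1)) := by
      rw [← prod_split _ _ ht.le]
      apply Finset.prod_congr rfl
      intro i _
      split_ifs
      · push_cast; rfl
      · rfl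
    have h2 : (∑ i : Fin (k - 1), 1 / (4 * (((if (i : ℕ) < S % (k - 1) then S / (k - 1) + 1
        else S / (k - 1) : ℕ)) : ℝ) - 1))
        = ((S % (k - 1) : ℕ) : ℝ) * (1 / (4 * (((S / (k - 1) : ℕ) : ℝ) + 1) - 1)) +
          ((k - 1 - S % (k - 1) : ℕ) : ℝ) * (1 / (4 * ((S / (k - 1) : ℕ) : ℝ) - 1)) := by
      rw [← nsmul_eq_mul, ← nsmul_eq_mul, ← sum_split _ _ ht.le]
      apply Finset.sum_congr rfl
      intro i _
      split_ifs
      · push_cast; rfl
      · rfl
    rw [h1, h2]

end J37010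
open J37010

theorem exact_large_phi (k : ℕ) (hk : 3 ≤ k) : ∃ N : ℕ, ∀ n ≥ N,
    IsGreatest {x : ℝ | ∃ d : ℕ, k - 1 ≤ d ∧ d ≤ n - k ∧ x = Phi k d (n - 1 - d)} (sSup (SM n k)) ∧
    ∀ T : SimpleGraph (Fin n), T.IsTree → MatchingNumberLE T k → lapRatio T = sSup (SM n k) →
      ∃ (C : Finset (Fin n)) (r : Fin n) (y : Fin n → Fin n), C.card = k ∧ IsSpider T C r y := by
  obtain ⟨N, hN⟩ := exact_large k hk
  refine ⟨max N (2 * k), fun n hn => ?_⟩
  have hn1 : N ≤ n := le_trans (le_max_left _ _) hn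
  have hn2 : 2 * k ≤ n := le_trans (le_max_right _ _) hn
  obtain ⟨⟨hmem, hub⟩, hst⟩ := hN n hn1
  have hle : ∀ d : ℕ, k - 1 ≤ d → d ≤ n - k → Phi k d (n - 1 - d) ≤ sSup (SM n k) := by
    intro d h1 h2
    obtain ⟨s, hs, hsum, hval⟩ := bal_attained (k := k) (d := d) (S := n - 1 - d) (by omega) (by omega)
    rw [← hval]
    exact hub ⟨d, s, hs, h1, by omega, rfl⟩
  refine ⟨⟨?_, ?_⟩, hst⟩
  · obtain ⟨d, s, hs, hd, hsum, hx⟩ := hmem
    have hS : ∑ i, s i = n - 1 - d := by omega
    have hSk : k - 1 ≤ ∑ i, s i := by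
      have : ∑ _i : Fin (k - 1), 1 ≤ ∑ i, s i := Finset.sum_le_sum (fun i _ => hs i)
      simpa using this
    have hdn : d ≤ n - k := by omega
    refine ⟨d, hd, hdn, ?_⟩
    have h1 := bal_upper (k := k) (d := d) (by omega) hd s hs hS
    have h2 := hle d hd hdn
    linarith
  · rintro x ⟨d, h1, h2, rfl⟩
    exact hle d h1 h2

theorem max_one (n : ℕ) (hn : 2 ≤ n) : sSup (SM n 1) = 2 := by
  have hG := SM_isGreatest n 1 (by omega) le_rfl
  have hle : sSup (SM n 1) ≤ 2 ^ 1 := by
    obtain ⟨T, hT, hM, hx⟩ := hG.1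
    rw [← hx]
    exact upper_all hn T hT hM
  have hge : (2 : ℝ) ≤ sSup (SM n 1) := by
    obtain ⟨T, hT, hM, hx⟩ := lower_all' (k := 1) (n := n) le_rfl (by omega)
    have := hG.2 ⟨T, hT, hM, rfl⟩
    norm_num at hx
    linarith
  linarith

end Helper78.LapRatio
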