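import Pool.Agent.Helper78.LapRatioMain5
set_option autoImplicit false
set_option linter.unusedSectionVars false
open scoped BigOperators
open Classical
open Filter Topology
namespace Helper78.LapRatio

namespace J37467


theorem d4c_uniq {V : Type*} (T : SimpleGraph V) (hT : T.IsTree) {x u v₁ v₂ : V}
    (h₁ : T.Adj u v₁) (h₂ : T.Adj u v₂) (d₁ : T.dist x v₁ + 1 = T.dist x u)
    (d₂ : T.dist x v₂ + 1 = T.dist x u) : v₁ = v₂ := by
  obtain ⟨p₁, hp₁⟩ := hT.connected.exists_walk_length_eq_dist x v₁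
  obtain ⟨p₂, hp₂⟩ := hT.connected.exists_walk_length_eq_dist x v₂
  have q₁ : (p₁.concat h₁.symm).IsPath := by
    apply SimpleGraph.Walk.isPath_of_length_eq_dist
    rw [SimpleGraph.Walk.length_concat, hp₁, d₁]
  have q₂ : (p₂.concat h₂.symm).IsPath := by
    apply SimpleGraph.Walk.isPath_of_length_eq_dist
    rw [SimpleGraph.Walk.length_concat, hp₂, d₂]
  have h := hT.isAcyclic.path_unique ⟨_, q₁⟩ ⟨_, q₂⟩
  have h' : p₁.concat h₁.symm = p₂.concat h₂.symm := congrArg Subtype.val h
  have h3 := congrArg SimpleGraph.Walk.penultimate h'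
  rwa [SimpleGraph.Walk.penultimate_concat, SimpleGraph.Walk.penultimate_concat] at h3

theorem d4c_closer {V : Type*} (T : SimpleGraph V) (hT : T.IsTree) {x u : V}
    (h : T.dist x u ≠ 0) : ∃ v, T.Adj u v ∧ T.dist x v + 1 = T.dist x u := by
  obtain ⟨p, hp⟩ := hT.connected.exists_walk_length_eq_dist u x
  cases p with
  | nil =>
    simp at h
  | @cons _ v _ hadj p =>
    refine ⟨v, hadj, ?_⟩
    rw [SimpleGraph.Walk.length_cons] at hp
    have h1 := SimpleGraph.dist_le p
    have h2 := hT.dist_eq_dist_add_one_of_adj x hadj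
    rw [SimpleGraph.dist_comm (u := u) (v := x)] at hp
    rw [SimpleGraph.dist_comm (u := v) (v := x)] at h1
    omega

theorem d4c_add {V : Type*} (T : SimpleGraph V) (hT : T.IsTree) (a x : V) : ∀ (k : ℕ) (r : V),
    T.dist a r = k →
    (∀ v, T.Adj r v → T.dist x v + 1 = T.dist x r → T.dist a v + 1 = T.dist a r → False) →
    T.dist a x = T.dist a r + T.dist r x := by
  intro k
  induction k with
  | zero =>
    intro r hr _
    have : a = r := (hT.connected.dist_eq_zero_iff).1 hr
    rw [this]; simp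
  | succ k ih =>
    intro r hr hno
    obtain ⟨a', hadj, ha'⟩ := d4c_closer T hT (x := a) (u := r) (by omega)
    have h1 := hT.dist_eq_dist_add_one_of_adj x hadj
    have h2 : T.dist x a' = T.dist x r + 1 := by
      rcases h1 with h1 | h1
      · exact absurd (hno a' hadj h1.symm ha') (fun h => h)
      · exact h1
    have h3 := ih a' (by omega) (by
      intro v hv hxv hav
      have : v = r := d4c_uniq T hT (x := x) hv hadj.symm hxv h2.symm
      rw [this] at hav
      omega)
    rw [SimpleGraph.dist_comm (u := r) (v := x)]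
    rw [SimpleGraph.dist_comm (u := a') (v := x)] at h3
    omega

theorem diam4_center {n : ℕ} (T : SimpleGraph (Fin n)) (hT : T.IsTree)
    (hd : ∀ x y, T.dist x y ≤ 4) : ∃ r, ∀ x, T.dist r x ≤ 2 := by
  haveI : Nonempty (Fin n) := hT.connected.nonempty
  obtain ⟨⟨a, b⟩, hmax⟩ := Finite.exists_max (fun q : Fin n × Fin n => T.dist q.1 q.2)
  have hmax' : ∀ x y, T.dist x y ≤ T.dist a b := fun x y => hmax (x, y)
  obtain ⟨D, hD⟩ : ∃ D, D = T.dist a b := ⟨_, rfl⟩
  rw [← hD] at hmax'
  have hD4 : D ≤ 4 := by rw [hD]; exact hd a b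
  by_cases h2 : D ≤ 2
  · exact ⟨a, fun x => (hmax' a x).trans h2⟩
  push Not at h2
  have hba : T.dist b a = D := by rw [SimpleGraph.dist_comm, hD]
  obtain ⟨a', ha1, ha2⟩ := d4c_closer T hT (x := b) (u := a) (by omega)
  obtain ⟨r, hr1, hr2⟩ := d4c_closer T hT (x := b) (u := a') (by omega)
  have hbr : T.dist b r = D - 2 := by omega
  have har : T.dist a r = 2 := by
    have e1 : T.dist a r ≤ T.dist a a' + T.dist a' r := hT.connected.dist_triangle
    have e2 : T.dist a a' = 1 := SimpleGraph.dist_eq_one_iff_adj.2 ha1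
    have e3 : T.dist a' r = 1 := SimpleGraph.dist_eq_one_iff_adj.2 hr1
    have e4 : T.dist a b ≤ T.dist a r + T.dist r b := hT.connected.dist_triangle
    rw [SimpleGraph.dist_comm (u := r) (v := b)] at e4
    omega
  refine ⟨r, fun x => ?_⟩
  by_contra hx
  push Not at hx
  by_cases hcom : ∃ v, T.Adj r v ∧ T.dist x v + 1 = T.dist x r ∧ T.dist a v + 1 = T.dist a r
  · obtain ⟨v, hv1, hv2, hv3⟩ := hcom
    have h5 := d4c_add T hT b x (T.dist b r) r rfl (by
      intro w hw1 hw2 hw3
      have hwv : w = v := d4c_uniq T hT (x := x) hw1 hv1 hw2 hv2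
      rw [hwv] at hw3
      have e4 : T.dist a b ≤ T.dist a v + T.dist v b := hT.connected.dist_triangle
      rw [SimpleGraph.dist_comm (u := v) (v := b)] at e4
      omega)
    have h6 := hmax' b x
    omega
  · have h5 := d4c_add T hT a x (T.dist a r) r rfl (by
      intro w hw1 hw2 hw3
      exact hcom ⟨w, hw1, hw2, hw3⟩)
    have h6 := hmax' a x
    omega

end J37467
open J37467

namespace J37468




section tls
variable {n : ℕ} (T : SimpleGraph (Fin n)) (hT : T.IsTree) (r : Fin n) (hr : ∀ x, T.dist r x ≤ 2)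

include hT in
theorem tls_ind (i j : Fin n) (hi : T.Adj r i) (hij : T.Adj i j) : ¬ T.Adj r j := by
  intro hj
  have h1 := hT.dist_eq_dist_add_one_of_adj r hij
  rw [SimpleGraph.dist_eq_one_iff_adj.2 hi, SimpleGraph.dist_eq_one_iff_adj.2 hj] at h1
  omega

include hT hr in
theorem tls_cov (x y : Fin n) (hxy : T.Adj x y) : T.Adj r x ∨ T.Adj r y := by
  have h1 := hT.dist_eq_dist_add_one_of_adj r hxy
  have h2 := hr x
  have h3 := hr y
  rw [← SimpleGraph.dist_eq_one_iff_adj, ← SimpleGraph.dist_eq_one_iff_adj]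
  omega

include hT in
theorem tls_uni (x i j : Fin n) (hx : x ≠ r) (hi : T.Adj r i) (hj : T.Adj r j) (hix : T.Adj i x)
    (hjx : T.Adj j x) : i = j := by
  have hp : ∀ i (hi : T.Adj r i) (hix : T.Adj i x),
      (SimpleGraph.Walk.cons hi (SimpleGraph.Walk.cons hix SimpleGraph.Walk.nil)).IsPath := by
    intro i hi hix
    simp only [SimpleGraph.Walk.cons_isPath_iff, SimpleGraph.Walk.isPath_iff_nil,
      SimpleGraph.Walk.support_cons, SimpleGraph.Walk.support_nil, List.mem_cons,
      List.not_mem_nil, or_false]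
    refine ⟨?_, ?_⟩
    · exact ⟨SimpleGraph.Walk.Nil.nil, hix.ne⟩
    · push Not
      exact ⟨hi.ne, hx.symm⟩
  have h1 := (hT.existsUnique_path r x).unique (hp i hi hix) (hp j hj hjx)
  have h2 := congrArg (fun w : T.Walk r x => w.support) h1
  simp only [SimpleGraph.Walk.support_cons, SimpleGraph.Walk.support_nil, List.cons.injEq,
    true_and, and_true] at h2
  exact h2

include hT hr in
theorem tls_deg (x i : Fin n) (hx : x ≠ r) (hi : T.Adj r i) (hix : T.Adj i x) : T.degree x = 1 := by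
  have h1 : T.neighborFinset x = {i} := by
    ext y
    rw [SimpleGraph.mem_neighborFinset, Finset.mem_singleton]
    constructor
    · intro hxy
      have h2 := tls_ind T hT r i x hi hix
      have h3 := (tls_cov T hT r hr x y hxy).resolve_left h2
      exact (tls_uni T hT r x i y hx hi h3 hix hxy.symm).symm
    · rintro rfl
      exact hix.symm
  rw [← SimpleGraph.card_neighborFinset_eq_degree, h1, Finset.card_singleton]

/-- local factor -/
noncomputable def tF (v x : Fin n) : ℝ :=
  if x = v then 1 else 1 / ((T.degree v : ℝ) * (T.degree x : ℝ))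

/-- local choices -/
noncomputable def tS (c v : Fin n) : Finset (Fin n) :=
  if T.Adj r v then (if v = c then {r} else insert v ((T.neighborFinset v).erase r)) else {v}

include hT hr in
theorem tls_wt (σ : Equiv.Perm (Fin n)) (h : ∀ v, σ v = v ∨ T.Adj v (σ v)) :
    wt T σ = ∏ v, tF T v (if T.Adj r v then σ v else v) := by
  have hinv := acyc_invol T hT σ h
  obtain ⟨A, hAm⟩ : ∃ A : Finset (Fin n), ∀ v, v ∈ A ↔ T.Adj r v :=
    ⟨Finset.univ.filter (fun v => T.Adj r v), fun v => by simp⟩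
  have hAm' : ∀ v, v ∈ Aᶜ ↔ ¬ T.Adj r v := fun v => by rw [Finset.mem_compl, hAm]
  unfold wt
  rw [← Finset.prod_mul_prod_compl A, ← Finset.prod_mul_prod_compl A (fun v => tF T v _)]
  have h1 : ∏ v ∈ Aᶜ, tF T v (if T.Adj r v then σ v else v) = 1 := by
    apply Finset.prod_eq_one
    intro v hv
    rw [if_neg ((hAm' v).1 hv)]
    unfold tF
    rw [if_pos rfl]
  have h2 : ∏ v ∈ A, tF T v (if T.Adj r v then σ v else v) =
      (∏ v ∈ A, if σ v = v then (1 : ℝ) else 1 / (T.degree v : ℝ)) *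
        ∏ v ∈ A, if σ v = v then (1 : ℝ) else 1 / (T.degree (σ v) : ℝ) := by
    rw [← Finset.prod_mul_distrib]
    apply Finset.prod_congr rfl
    intro v hv
    rw [if_pos ((hAm v).1 hv)]
    unfold tF
    split_ifs
    · rw [one_mul]
    · rw [one_div_mul_one_div]
  have h3 : (∏ v ∈ Aᶜ, if σ v = v then (1 : ℝ) else 1 / (T.degree v : ℝ)) =
      ∏ v ∈ A, if σ v = v then (1 : ℝ) else 1 / (T.degree (σ v) : ℝ) := by
    have e1 : (∏ v ∈ Aᶜ, if σ v = v then (1 : ℝ) else 1 / (T.degree v : ℝ)) =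
        ∏ v ∈ Aᶜ with ¬ σ v = v, 1 / (T.degree v : ℝ) := by
      rw [Finset.prod_filter]
      apply Finset.prod_congr rfl
      intro v _
      by_cases hv : σ v = v
      · rw [if_pos hv, if_neg (fun h => h hv)]
      · rw [if_neg hv, if_pos hv]
    have e2 : (∏ v ∈ A, if σ v = v then (1 : ℝ) else 1 / (T.degree (σ v) : ℝ)) =
        ∏ v ∈ A with ¬ σ v = v, 1 / (T.degree (σ v) : ℝ) := by
      rw [Finset.prod_filter]
      apply Finset.prod_congr rfl
      intro v _
      by_cases hv : σ v = v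
      · rw [if_pos hv, if_neg (fun h => h hv)]
      · rw [if_neg hv, if_pos hv]
    rw [e1, e2]
    refine Finset.prod_nbij' (fun v => σ v) (fun v => σ v) ?_ ?_ ?_ ?_ ?_
    · intro v hv
      rw [Finset.mem_filter, hAm'] at hv
      rw [Finset.mem_filter, hAm]
      have h4 := (h v).resolve_left hv.2
      refine ⟨(tls_cov T hT r hr v (σ v) h4).resolve_left hv.1, ?_⟩
      rw [hinv v]
      exact fun h5 => hv.2 h5.symm
    · intro v hv
      rw [Finset.mem_filter, hAm] at hv
      rw [Finset.mem_filter, hAm']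
      have h4 := (h v).resolve_left hv.2
      refine ⟨tls_ind T hT r v (σ v) hv.1 h4, ?_⟩
      rw [hinv v]
      exact fun h5 => hv.2 h5.symm
    · intro v _
      exact hinv v
    · intro v _
      exact hinv v
    · intro v _
      rw [hinv v]
  rw [h1, h2, h3, mul_one]

theorem tls_mem (c : Fin n) (g : Fin n → Fin n) (hg : g ∈ Fintype.piFinset (tS T r c)) :
    (∀ v, ¬ T.Adj r v → g v = v) ∧ (∀ v, T.Adj r v → v = c → g v = r) ∧
    (∀ v, T.Adj r v → v ≠ c → (g v = v ∨ T.Adj v (g v)) ∧ g v ≠ r) := by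
  rw [Fintype.mem_piFinset] at hg
  refine ⟨fun v hv => ?_, fun v hv hvc => ?_, fun v hv hvc => ?_⟩
  · have h := hg v
    unfold tS at h
    rw [if_neg hv] at h
    exact Finset.mem_singleton.1 h
  · have h := hg v
    unfold tS at h
    rw [if_pos hv, if_pos hvc] at h
    exact Finset.mem_singleton.1 h
  · have h := hg v
    unfold tS at h
    rw [if_pos hv, if_neg hvc, Finset.mem_insert, Finset.mem_erase,
      SimpleGraph.mem_neighborFinset] at h
    rcases h with h | h
    · refine ⟨Or.inl h, ?_⟩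
      rw [h]
      exact hv.ne'
    · exact ⟨Or.inr h.2, h.1⟩

include hT in
theorem tls_inj (c : Fin n) (g : Fin n → Fin n) (hg : g ∈ Fintype.piFinset (tS T r c))
    (i j : Fin n) (hi : T.Adj r i) (hj : T.Adj r j) (he : g i = g j) : i = j := by
  obtain ⟨_, h2, h3⟩ := tls_mem T r c g hg
  by_cases hic : i = c
  · by_cases hjc : j = c
    · rw [hic, hjc]
    · exact absurd (he ▸ h2 i hi hic) (h3 j hj hjc).2
  · by_cases hjc : j = c
    · exact absurd (he.trans (h2 j hj hjc)) (h3 i hi hic).2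
    · obtain ⟨hi1, hi2⟩ := h3 i hi hic
      obtain ⟨hj1, hj2⟩ := h3 j hj hjc
      rcases hi1 with hi1 | hi1
      · rcases hj1 with hj1 | hj1
        · rw [← hi1, he, hj1]
        · rw [← he, hi1] at hj1
          exact absurd hi (tls_ind T hT r j i hj hj1)
      · rcases hj1 with hj1 | hj1
        · rw [he, hj1] at hi1
          exact absurd hj (tls_ind T hT r i j hi hi1)
        · rw [← he] at hj1
          exact tls_uni T hT r (g i) i j hi2 hi hj hi1 hj1

include hT in
theorem tls_adj (c : Fin n) (g : Fin n → Fin n) (hg : g ∈ Fintype.piFinset (tS T r c))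
    (i : Fin n) (hi : T.Adj r i) : g i = i ∨ T.Adj i (g i) := by
  obtain ⟨_, h2, h3⟩ := tls_mem T r c g hg
  by_cases hic : i = c
  · rw [h2 i hi hic]
    exact Or.inr hi.symm
  · exact (h3 i hi hic).1

/-- extension to an involution -/
noncomputable def tG (g : Fin n → Fin n) (y : Fin n) : Fin n :=
  if T.Adj r y then g y else if h : ∃ i, T.Adj r i ∧ g i = y then h.choose else y

include hT hr in
theorem tls_surj (c : Fin n) (hc : c = r ∨ T.Adj r c) (g : Fin n → Fin n)
    (hg : g ∈ Fintype.piFinset (tS T r c)) :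
    ∃ σ : Equiv.Perm (Fin n), (∀ v, σ v = v ∨ T.Adj v (σ v)) ∧ σ r = c ∧
      (fun v => if T.Adj r v then σ v else v) = g := by
  have hA : ∀ i, T.Adj r i → T.Adj r (g i) → g i = i := by
    intro i hi hgi
    rcases tls_adj T hT r c g hg i hi with h | h
    · exact h
    · exact absurd hgi (tls_ind T hT r i (g i) hi h)
  have e1 : ∀ y, T.Adj r y → tG T r g y = g y := fun y hy => if_pos hy
  have e2 : ∀ y, ¬ T.Adj r y → ∀ i, T.Adj r i → g i = y → tG T r g y = i := by
    intro y hy i hi hgi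
    have hex : ∃ i, T.Adj r i ∧ g i = y := ⟨i, hi, hgi⟩
    unfold tG
    rw [if_neg hy, dif_pos hex]
    exact tls_inj T hT r c g hg _ _ hex.choose_spec.1 hi (hex.choose_spec.2.trans hgi.symm)
  have e3 : ∀ y, ¬ T.Adj r y → (¬ ∃ i, T.Adj r i ∧ g i = y) → tG T r g y = y := by
    intro y hy hex
    unfold tG
    rw [if_neg hy, dif_neg hex]
  have hinv : Function.Involutive (tG T r g) := by
    intro y
    by_cases hy : T.Adj r y
    · rw [e1 y hy]
      by_cases hgy : T.Adj r (g y)
      · rw [e1 _ hgy, hA y hy hgy, hA y hy hgy]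
      · exact e2 _ hgy y hy rfl
    · by_cases hex : ∃ i, T.Adj r i ∧ g i = y
      · obtain ⟨i, hi, hgi⟩ := hex
        rw [e2 y hy i hi hgi, e1 i hi, hgi]
      · rw [e3 y hy hex, e3 y hy hex]
  refine ⟨hinv.toPerm _, ?_, ?_, ?_⟩
  · intro v
    show tG T r g v = v ∨ T.Adj v (tG T r g v)
    by_cases hv : T.Adj r v
    · rw [e1 v hv]
      exact tls_adj T hT r c g hg v hv
    · by_cases hex : ∃ i, T.Adj r i ∧ g i = v
      · obtain ⟨i, hi, hgi⟩ := hex
        rw [e2 v hv i hi hgi]
        right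
        have h := (tls_adj T hT r c g hg i hi)
        rw [hgi] at h
        rcases h with h | h
        · exact absurd (h ▸ hi) hv
        · exact h.symm
      · exact Or.inl (e3 v hv hex)
  · show tG T r g r = c
    obtain ⟨_, h2, h3⟩ := tls_mem T r c g hg
    have hrr : ¬ T.Adj r r := T.irrefl
    rcases hc with hc | hc
    · rw [e3 r hrr, hc]
      rintro ⟨i, hi, hgi⟩
      exact (h3 i hi (by rw [hc]; exact hi.ne')).2 hgi
    · exact e2 r hrr c hc (h2 c hc rfl)
  · funext v
    show (if T.Adj r v then tG T r g v else v) = g v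
    by_cases hv : T.Adj r v
    · rw [if_pos hv, e1 v hv]
    · rw [if_neg hv]
      exact ((tls_mem T r c g hg).1 v hv).symm

include hT hr in
theorem tls_fiber (c : Fin n) (hc : c = r ∨ T.Adj r c) :
    ∑ σ ∈ inv T with σ r = c, wt T σ = ∏ v, ∑ x ∈ tS T r c v, tF T v x := by
  rw [Finset.prod_univ_sum]
  have hmem : ∀ σ ∈ (inv T).filter (fun σ => σ r = c), (∀ v, σ v = v ∨ T.Adj v (σ v)) ∧ σ r = c := by
    intro σ hσ
    rw [Finset.mem_filter, inv, Finset.mem_filter] at hσ
    exact ⟨hσ.1.2, hσ.2⟩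
  refine Finset.sum_bij (fun σ _ => fun v => if T.Adj r v then σ v else v) ?_ ?_ ?_ ?_
  · intro σ hσ
    obtain ⟨h1, h2⟩ := hmem σ hσ
    have hinv := acyc_invol T hT σ h1
    rw [Fintype.mem_piFinset]
    intro v
    unfold tS
    by_cases hv : T.Adj r v
    · rw [if_pos hv, if_pos hv]
      by_cases hvc : v = c
      · rw [if_pos hvc, Finset.mem_singleton, hvc, ← h2, hinv r]
      · rw [if_neg hvc, Finset.mem_insert, Finset.mem_erase, SimpleGraph.mem_neighborFinset]
        rcases h1 v with h3 | h3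
        · exact Or.inl h3
        · refine Or.inr ⟨fun h4 => hvc ?_, h3⟩
          rw [← h2, ← h4, hinv v]
    · rw [if_neg hv, if_neg hv, Finset.mem_singleton]
  · intro σ hσ τ hτ he
    obtain ⟨h1, h2⟩ := hmem σ hσ
    obtain ⟨h1', h2'⟩ := hmem τ hτ
    have key : ∀ σ τ : Equiv.Perm (Fin n), (∀ v, σ v = v ∨ T.Adj v (σ v)) →
        (∀ v, τ v = v ∨ T.Adj v (τ v)) → (∀ v, T.Adj r v → σ v = τ v) →
        ∀ v, ¬ T.Adj r v → σ v ≠ v → τ v = σ v := by
      intro σ τ hσ hτ hst v hv hne
      have i1 := acyc_invol T hT σ hσ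
      have i2 := acyc_invol T hT τ hτ
      have h3 := (hσ v).resolve_left hne
      have h4 := (tls_cov T hT r hr v (σ v) h3).resolve_left hv
      have h5 : τ (σ v) = v := by rw [← hst _ h4, i1 v]
      have h6 := i2 (σ v)
      rw [h5] at h6
      exact h6
    have hag : ∀ v, T.Adj r v → σ v = τ v := by
      intro v hv
      have h3 := congrFun he v
      simp only [if_pos hv] at h3
      exact h3
    ext v
    by_cases hv : T.Adj r v
    · rw [hag v hv]
    · by_cases h3 : σ v = v
      · by_cases h4 : τ v = v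
        · rw [h3, h4]
        · rw [key τ σ h1' h1 (fun v hv => (hag v hv).symm) v hv h4]
      · rw [key σ τ h1 h1' hag v hv h3]
  · intro g hg
    obtain ⟨σ, h1, h2, h3⟩ := tls_surj T hT r hr c hc g hg
    refine ⟨σ, ?_, h3⟩
    rw [Finset.mem_filter, inv, Finset.mem_filter]
    exact ⟨⟨Finset.mem_univ _, h1⟩, h2⟩
  · intro σ hσ
    exact tls_wt T hT r hr σ (hmem σ hσ).1

include hT hr in
theorem tls_loc (c v : Fin n) (hv : T.Adj r v) (hvc : v ≠ c) :
    ∑ x ∈ tS T r c v, tF T v x = 2 - 1 / (T.degree v : ℝ) := by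
  unfold tS
  have hnv : v ∉ (T.neighborFinset v).erase r := by
    rw [Finset.mem_erase, SimpleGraph.mem_neighborFinset]
    exact fun h => T.irrefl h.2
  rw [if_pos hv, if_neg hvc, Finset.sum_insert hnv]
  have h1 : ∀ x ∈ (T.neighborFinset v).erase r, tF T v x = 1 / (T.degree v : ℝ) := by
    intro x hx
    rw [Finset.mem_erase, SimpleGraph.mem_neighborFinset] at hx
    unfold tF
    rw [if_neg hx.2.ne', tls_deg T hT r hr x v hx.1 hv hx.2]
    simp
  rw [Finset.sum_congr rfl h1, Finset.sum_const, Finset.card_erase_of_mem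
    (by rw [SimpleGraph.mem_neighborFinset]; exact hv.symm),
    SimpleGraph.card_neighborFinset_eq_degree, nsmul_eq_mul]
  have hd : 1 ≤ T.degree v := by
    rw [Nat.one_le_iff_ne_zero, ← Nat.pos_iff_ne_zero, SimpleGraph.degree_pos_iff_exists_adj]
    exact ⟨r, hv.symm⟩
  unfold tF
  rw [if_pos rfl, Nat.cast_sub hd]
  have hd' : (T.degree v : ℝ) ≠ 0 := by positivity
  push_cast
  field_simp
  ring

theorem tls_locc (v : Fin n) (hv : T.Adj r v) :
    ∑ x ∈ tS T r v v, tF T v x = 1 / ((T.degree v : ℝ) * (T.degree r : ℝ)) := by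
  unfold tS
  rw [if_pos hv, if_pos rfl, Finset.sum_singleton]
  unfold tF
  rw [if_neg hv.ne]

theorem tls_locn (c v : Fin n) (hv : ¬ T.Adj r v) : ∑ x ∈ tS T r c v, tF T v x = 1 := by
  unfold tS
  rw [if_neg hv, Finset.sum_singleton]
  unfold tF
  rw [if_pos rfl]

end tls

theorem two_level_sum {n : ℕ} (T : SimpleGraph (Fin n)) (hT : T.IsTree) (hn : 2 ≤ n) (r : Fin n)
    (hr : ∀ x, T.dist r x ≤ 2) :
    ∑ i ∈ T.neighborFinset r, T.degree i = n - 1 ∧
    ∑ σ ∈ inv T, wt T σ = (2 / (T.degree r : ℝ)) * ∑ j ∈ T.neighborFinset r,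
      ∏ i ∈ (T.neighborFinset r).erase j, (2 - 1 / (T.degree i : ℝ)) := by
  have hAm : ∀ v, v ∈ T.neighborFinset r ↔ T.Adj r v := fun v => by
    rw [SimpleGraph.mem_neighborFinset]
  constructor
  · have hb : T.IsBipartiteWith (↑(T.neighborFinset r)) (↑((T.neighborFinset r)ᶜ)) := by
      refine ⟨?_, ?_⟩
      · rw [Finset.coe_compl]
        exact disjoint_compl_right
      · intro v w hvw
        rw [Finset.mem_coe, Finset.mem_coe, Finset.mem_coe, Finset.mem_coe, Finset.mem_compl,
          Finset.mem_compl, hAm, hAm]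
        rcases tls_cov T hT r hr v w hvw with h | h
        · exact Or.inl ⟨h, tls_ind T hT r v w h hvw⟩
        · exact Or.inr ⟨tls_ind T hT r w v h hvw.symm, h⟩
    have h1 := SimpleGraph.isBipartiteWith_sum_degrees_eq_card_edges hb
    have h2 := hT.card_edgeFinset
    rw [Fintype.card_fin] at h2
    rw [h1]
    omega
  · have hrA : r ∉ T.neighborFinset r := by rw [hAm]; exact T.irrefl
    have hmaps : ∀ σ ∈ inv T, σ r ∈ insert r (T.neighborFinset r) := by
      intro σ hσ
      rw [inv, Finset.mem_filter] at hσ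
      rw [Finset.mem_insert, hAm]
      exact hσ.2 r
    rw [← Finset.sum_fiberwise_of_maps_to hmaps]
    rw [Finset.sum_insert hrA, tls_fiber T hT r hr r (Or.inl rfl)]
    have hprod : ∀ c, ∏ v, ∑ x ∈ tS T r c v, tF T v x =
        ∏ v ∈ T.neighborFinset r, ∑ x ∈ tS T r c v, tF T v x := by
      intro c
      have h1 : (∏ v ∈ (T.neighborFinset r)ᶜ, ∑ x ∈ tS T r c v, tF T v x) = (1 : ℝ) := by
        apply Finset.prod_eq_one
        intro v hv
        rw [Finset.mem_compl, hAm] at hv
        exact tls_locn T r c v hv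
      have h2 := Finset.prod_mul_prod_compl (T.neighborFinset r)
        (fun v => ∑ x ∈ tS T r c v, tF T v x)
      rw [← h2, h1, mul_one]
    have e0 : ∏ v, ∑ x ∈ tS T r r v, tF T v x =
        ∏ v ∈ T.neighborFinset r, (2 - 1 / (T.degree v : ℝ)) := by
      rw [hprod]
      apply Finset.prod_congr rfl
      intro v hv
      have hv' := (hAm v).1 hv
      exact tls_loc T hT r hr r v hv' hv'.ne'
    have ej : ∀ j ∈ T.neighborFinset r, ∑ σ ∈ inv T with σ r = j, wt T σ =
        1 / ((T.degree j : ℝ) * (T.degree r : ℝ)) *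
          ∏ i ∈ (T.neighborFinset r).erase j, (2 - 1 / (T.degree i : ℝ)) := by
      intro j hj
      have hj' := (hAm j).1 hj
      rw [tls_fiber T hT r hr j (Or.inr hj'), hprod, ← Finset.mul_prod_erase _ _ hj,
        tls_locc T r j hj']
      congr 1
      apply Finset.prod_congr rfl
      intro v hv
      rw [Finset.mem_erase] at hv
      exact tls_loc T hT r hr j v ((hAm v).1 hv.2) hv.1
    rw [e0, Finset.sum_congr rfl ej]
    -- algebra
    have hDpos : 0 < T.degree r := by
      rw [SimpleGraph.degree_pos_iff_exists_adj]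
      have hnt : Nontrivial (Fin n) := Fin.nontrivial_iff_two_le.2 hn
      obtain ⟨x, hx⟩ := exists_ne r
      obtain ⟨w, hw⟩ := hT.connected.preconnected.exists_adj_of_nontrivial r
      exact ⟨w, hw⟩
    have hD : (T.degree r : ℝ) ≠ 0 := by positivity
    have hprodD : (∏ v ∈ T.neighborFinset r, (2 - 1 / (T.degree v : ℝ))) =
        (1 / (T.degree r : ℝ)) * ∑ j ∈ T.neighborFinset r, (2 - 1 / (T.degree j : ℝ)) *
          ∏ i ∈ (T.neighborFinset r).erase j, (2 - 1 / (T.degree i : ℝ)) := by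
      have h1 : ∀ j ∈ T.neighborFinset r, (2 - 1 / (T.degree j : ℝ)) *
          ∏ i ∈ (T.neighborFinset r).erase j, (2 - 1 / (T.degree i : ℝ)) =
          ∏ v ∈ T.neighborFinset r, (2 - 1 / (T.degree v : ℝ)) := by
        intro j hj
        exact Finset.mul_prod_erase (T.neighborFinset r) (fun i => (2 - 1 / (T.degree i : ℝ))) hj
      rw [Finset.sum_congr rfl h1, Finset.sum_const, SimpleGraph.card_neighborFinset_eq_degree,
        nsmul_eq_mul]
      field_simp
    rw [hprodD, Finset.mul_sum, Finset.mul_sum, ← Finset.sum_add_distrib]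
    apply Finset.sum_congr rfl
    intro j hj
    have hdj : (T.degree j : ℝ) ≠ 0 := by
      have : 0 < T.degree j := by
        rw [SimpleGraph.degree_pos_iff_exists_adj]
        exact ⟨r, ((hAm j).1 hj).symm⟩
      positivity
    generalize (∏ i ∈ (T.neighborFinset r).erase j, (2 - 1 / (T.degree i : ℝ))) = P
    field_simp
    ring

end J37468
open J37468

namespace J37469




theorem two_level_exists {n D : ℕ} (hD : 1 ≤ D) (d : Fin D → ℕ) (hd : ∀ i, 1 ≤ d i)
    (hsum : ∑ i, d i = n - 1) (hn : 2 ≤ n) :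
    ∃ T : SimpleGraph (Fin n), T.IsTree ∧ ∃ r, (∀ x, T.dist r x ≤ 2) ∧
      ∃ e : Fin D → Fin n, Function.Injective e ∧ T.neighborFinset r = Finset.univ.image e ∧
        ∀ i, T.degree (e i) = d i := by
  obtain ⟨L, hLdef⟩ : ∃ L, L = ∑ i, (d i - 1) := ⟨_, rfl⟩
  have hL : L + D = n - 1 := by
    have h1 : ∑ i, d i = ∑ i, (d i - 1) + ∑ i : Fin D, 1 := by
      rw [← Finset.sum_add_distrib]
      apply Finset.sum_congr rfl
      intro i _
      have := hd i
      omega
    simp only [Finset.sum_const, Finset.card_univ, Fintype.card_fin, smul_eq_mul, mul_one] at h1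
    omega
  let E : (Σ i : Fin D, Fin (d i - 1)) ≃ Fin L := finSigmaFinEquiv.trans (finCongr hLdef.symm)
  let p : ℕ → ℕ := fun j =>
    if h : D + 1 ≤ j ∧ j - (D + 1) < L then ((E.symm ⟨j - (D + 1), h.2⟩).1 : ℕ) + 1 else 0
  have hp1 : ∀ j, j ≤ D → p j = 0 := by
    intro j hj
    have : ¬ (D + 1 ≤ j ∧ j - (D + 1) < L) := by omega
    simp only [p, dif_neg this]
  have hp2 : ∀ s : Fin L, p (D + 1 + s) = ((E.symm s).1 : ℕ) + 1 := by
    intro s
    have h : D + 1 ≤ D + 1 + (s : ℕ) ∧ D + 1 + (s : ℕ) - (D + 1) < L := by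
      have := s.2
      omega
    simp only [p, dif_pos h]
    have hs : (⟨D + 1 + (s : ℕ) - (D + 1), h.2⟩ : Fin L) = s := by
      apply Fin.ext
      simp
    rw [hs]
  have hsplit : ∀ j, j < n → D < j → ∃ s : Fin L, j = D + 1 + s := by
    intro j hj hDj
    exact ⟨⟨j - (D + 1), by omega⟩, by simp; omega⟩
  have hplt : ∀ i, 1 ≤ i → p i < i := by
    intro i hi
    by_cases h : D + 1 ≤ i ∧ i - (D + 1) < L
    · simp only [p, dif_pos h]
      have := (E.symm ⟨i - (D + 1), h.2⟩).1.2
      omega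
    · simp only [p, dif_neg h]
      omega
  have hadj : ∀ a b : Fin n, (parGraph n p).Adj a b ↔
      a ≠ b ∧ (((a : ℕ) ≠ 0 ∧ (b : ℕ) = p a) ∨ ((b : ℕ) ≠ 0 ∧ (a : ℕ) = p b)) := by
    intro a b
    unfold parGraph
    rw [SimpleGraph.fromRel_adj]
  let r : Fin n := ⟨0, by omega⟩
  let e : Fin D → Fin n := fun i => ⟨i + 1, by have := i.2; omega⟩
  have hre : ∀ i, (parGraph n p).Adj r (e i) := by
    intro i
    rw [hadj]
    refine ⟨?_, Or.inr ⟨?_, ?_⟩⟩
    · intro h
      have := congrArg Fin.val h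
      simp [r, e] at this
    · simp [e]
    · have : p ((e i : Fin n) : ℕ) = 0 := hp1 _ (by have := i.2; simp only [e]; omega)
      rw [this]
  have hex : ∀ (x : Fin n) (s : Fin L), (x : ℕ) = D + 1 + s →
      (parGraph n p).Adj (e (E.symm s).1) x := by
    intro x s hx
    rw [hadj]
    have h1 : p x = ((E.symm s).1 : ℕ) + 1 := by rw [hx, hp2]
    refine ⟨?_, Or.inr ⟨by omega, ?_⟩⟩
    · intro h
      have h2 := congrArg Fin.val h
      have h3 := (E.symm s).1.2
      simp only [e] at h2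
      omega
    · rw [h1]
  refine ⟨parGraph n p, parGraph_isTree n (by omega) p hplt, r, ?_, e, ?_, ?_, ?_⟩
  · intro x
    rcases Nat.eq_zero_or_pos (x : ℕ) with hx | hx
    · have : x = r := Fin.ext hx
      rw [this, SimpleGraph.dist_self]
      omega
    · by_cases hxD : (x : ℕ) ≤ D
      · have hxe : x = e ⟨(x : ℕ) - 1, by omega⟩ := by
          apply Fin.ext
          simp only [e]
          omega
        rw [hxe]
        refine le_trans (SimpleGraph.dist_le (SimpleGraph.Walk.cons (hre _) SimpleGraph.Walk.nil)) ?_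
        simp
      · obtain ⟨s, hs⟩ := hsplit x x.2 (by omega)
        refine le_trans (SimpleGraph.dist_le (SimpleGraph.Walk.cons (hre (E.symm s).1)
          (SimpleGraph.Walk.cons (hex x s hs) SimpleGraph.Walk.nil))) ?_
        simp
  · intro i j hij
    have := congrArg Fin.val hij
    simp only [e] at this
    exact Fin.ext (by omega)
  · ext b
    rw [SimpleGraph.mem_neighborFinset, Finset.mem_image]
    constructor
    · intro hb
      rw [hadj] at hb
      obtain ⟨hne, hb⟩ := hb
      rcases hb with ⟨h0, _⟩ | ⟨h0, h1⟩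
      · exact absurd rfl h0
      · have hbD : (b : ℕ) ≤ D := by
          by_contra hc
          obtain ⟨s, hs⟩ := hsplit b b.2 (by omega)
          rw [hs, hp2] at h1
          simp only [r] at h1
          omega
        refine ⟨⟨(b : ℕ) - 1, by omega⟩, Finset.mem_univ _, ?_⟩
        apply Fin.ext
        simp only [e]
        omega
    · rintro ⟨i, _, rfl⟩
      exact hre i
  · intro i
    have hset : (parGraph n p).neighborFinset (e i) =
        insert r (Finset.univ.image fun j : Fin (d i - 1) =>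
          (⟨D + 1 + (E ⟨i, j⟩ : ℕ), by have := (E ⟨i, j⟩).2; omega⟩ : Fin n)) := by
      ext b
      rw [SimpleGraph.mem_neighborFinset, Finset.mem_insert, Finset.mem_image]
      constructor
      · intro hb
        rw [hadj] at hb
        obtain ⟨hne, hb⟩ := hb
        have hpe : p ((e i : Fin n) : ℕ) = 0 := hp1 _ (by have := i.2; simp only [e]; omega)
        rcases hb with ⟨h0, h1⟩ | ⟨h0, h1⟩
        · left
          apply Fin.ext
          rw [h1, hpe]
        · right
          have hbD : D < (b : ℕ) := by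
            by_contra hc
            rw [hp1 _ (by omega)] at h1
            simp [e] at h1
          obtain ⟨s, hs⟩ := hsplit b b.2 hbD
          rw [hs, hp2] at h1
          have hi : (E.symm s).1 = i := by
            apply Fin.ext
            simp only [e] at h1
            omega
          subst hi
          refine ⟨(E.symm s).2, Finset.mem_univ _, ?_⟩
          apply Fin.ext
          simp only
          rw [hs]
          have : E ⟨(E.symm s).1, (E.symm s).2⟩ = s := E.apply_symm_apply s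
          rw [this]
      · rintro (rfl | ⟨j, _, rfl⟩)
        · exact (hre i).symm
        · have h1 := hex ⟨D + 1 + (E ⟨i, j⟩ : ℕ), by have := (E ⟨i, j⟩).2; omega⟩ (E ⟨i, j⟩) rfl
          rw [E.symm_apply_apply] at h1
          exact h1
    rw [← SimpleGraph.card_neighborFinset_eq_degree, hset, Finset.card_insert_of_notMem,
      Finset.card_image_of_injective, Finset.card_univ, Fintype.card_fin]
    · have := hd i
      omega
    · intro j j' hjj
      have h1 := congrArg Fin.val hjj
      simp only at h1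
      have h2 : E ⟨i, j⟩ = E ⟨i, j'⟩ := Fin.ext (by omega)
      have h3 := E.injective h2
      simpa using h3
    · rw [Finset.mem_image]
      rintro ⟨j, _, hj⟩
      have := congrArg Fin.val hj
      simp [r] at this

end J37469
open J37469

namespace J37470


noncomputable def hz_y (d : ℕ) : ℝ := if d = 1 then 2/3 else if d = 2 then 1 else 200/243

theorem hz_y_nonneg (d : ℕ) : 0 ≤ hz_y d := by
  unfold hz_y
  split_ifs <;> norm_num

theorem hz_y_le_one (d : ℕ) : hz_y d ≤ 1 := by
  unfold hz_y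
  split_ifs <;> norm_num

theorem hz_a_sq (d : ℕ) (hd : 1 ≤ d) : (2 - 1 / (d : ℝ)) ^ 2 ≤ hz_y d * (3/2 : ℝ) ^ d := by
  unfold hz_y
  rcases Nat.lt_or_ge d 4 with h | h
  · interval_cases d <;> norm_num
  · have h1 : d ≠ 1 := by omega
    have h2 : d ≠ 2 := by omega
    rw [if_neg h1, if_neg h2]
    have hd0 : (0:ℝ) < d := by exact_mod_cast (by omega : 0 < d)
    have hd1 : (1:ℝ) ≤ d := by exact_mod_cast hd
    have e1 : 0 < 1 / (d:ℝ) := by positivity
    have e2 : 1 / (d:ℝ) ≤ 1 := by
      rw [div_le_one hd0]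
      exact hd1
    have e3 : (2 - 1 / (d : ℝ)) ^ 2 ≤ 4 := by nlinarith
    have e4 : (3/2 : ℝ) ^ 4 ≤ (3/2 : ℝ) ^ d := pow_le_pow_right₀ (by norm_num) h
    have e5 : (3/2 : ℝ) ^ 4 = 81/16 := by norm_num
    rw [e5] at e4
    linarith

theorem hz_fin (P H Q Y : ℝ) (hQ : 0 < Q) (hP : P^2 ≤ Y * (9/4 * Q^2))
    (hY : Y * (9/4) * H^2 ≤ 1) : P * H ≤ Q := by
  have h1 : (P * H)^2 ≤ Q^2 := by
    calc (P * H)^2 = P^2 * H^2 := by ring
      _ ≤ Y * (9/4 * Q^2) * H^2 := mul_le_mul_of_nonneg_right hP (sq_nonneg H)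
      _ = (Y * (9/4) * H^2) * Q^2 := by ring
      _ ≤ 1 * Q^2 := mul_le_mul_of_nonneg_right hY (sq_nonneg Q)
      _ = Q^2 := one_mul _
  exact (le_abs_self _).trans (abs_le_of_sq_le_sq h1 hQ.le)

theorem hz_prod_two {D : ℕ} (y : Fin D → ℝ) (h0 : ∀ i, 0 ≤ y i) (h1 : ∀ i, y i ≤ 1) (i j : Fin D)
    (hij : i ≠ j) : ∏ k, y k ≤ y i * y j := by
  rw [← Finset.mul_prod_erase _ _ (Finset.mem_univ i)]
  apply mul_le_mul_of_nonneg_left _ (h0 i)
  rw [← Finset.mul_prod_erase _ _ (Finset.mem_erase.mpr ⟨hij.symm, Finset.mem_univ j⟩)]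
  have := Finset.prod_le_one (s := (Finset.univ.erase i).erase j) (f := y) (fun k _ => h0 k) (fun k _ => h1 k)
  nlinarith [h0 j]

theorem opt_even {D m : ℕ} (hD : 1 ≤ D) (hm : 1 ≤ m) (d : Fin D → ℕ) (hd : ∀ i, 1 ≤ d i)
    (hsum : ∑ i, d i = 2 * m) :
    (2 / (D : ℝ)) * ∑ j, ∏ i ∈ Finset.univ.erase j, (2 - 1 / (d i : ℝ)) ≤ 2 * (3 / 2 : ℝ) ^ (m - 1) := by
  have hDpos : (0:ℝ) < D := by exact_mod_cast hD
  have ha1 : ∀ i, 1 ≤ 2 - 1 / (d i : ℝ) := by
    intro i
    have hd1 : (1:ℝ) ≤ d i := by exact_mod_cast hd i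
    have : 1 / (d i:ℝ) ≤ 1 := by
      rw [div_le_one (by linarith)]
      exact hd1
    linarith
  have ha2 : ∀ i, d i ≠ 1 → 3/2 ≤ 2 - 1 / (d i : ℝ) := by
    intro i hi
    have h2 : 2 ≤ d i := by
      have := hd i
      omega
    have hd1 : (2:ℝ) ≤ d i := by exact_mod_cast h2
    have : 1 / (d i:ℝ) ≤ 1/2 := one_div_le_one_div_of_le (by norm_num) hd1
    linarith
  obtain ⟨P, hP⟩ : ∃ P : ℝ, P = ∏ i, (2 - 1 / (d i : ℝ)) := ⟨_, rfl⟩
  have hLHS : (2 / (D : ℝ)) * ∑ j, ∏ i ∈ Finset.univ.erase j, (2 - 1 / (d i : ℝ))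
      = 2 * (P * ((∑ j, 1 / (2 - 1 / (d j : ℝ))) / D)) := by
    have h1 : ∀ j, ∏ i ∈ Finset.univ.erase j, (2 - 1 / (d i : ℝ)) = P * (1 / (2 - 1 / (d j : ℝ))) := by
      intro j
      have hj : (2 - 1 / (d j : ℝ)) ≠ 0 := by
        have := ha1 j
        linarith
      rw [hP, ← Finset.mul_prod_erase _ _ (Finset.mem_univ j), mul_one_div, mul_div_cancel_left₀ _ hj]
    rw [Finset.sum_congr rfl fun j _ => h1 j, ← Finset.mul_sum]
    ring
  rw [hLHS]
  have hQ : (0:ℝ) < (3/2 : ℝ)^(m-1) := by positivity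
  have hpow : (3/2 : ℝ)^(2*m) = 9/4 * ((3/2 : ℝ)^(m-1))^2 := by
    obtain ⟨k, rfl⟩ : ∃ k, m = k + 1 := ⟨m - 1, by omega⟩
    rw [Nat.add_sub_cancel]
    ring
  have hP2 : P^2 ≤ (∏ i, hz_y (d i)) * (9/4 * ((3/2 : ℝ)^(m-1))^2) := by
    rw [← hpow, ← hsum, ← Finset.prod_pow_eq_pow_sum, ← Finset.prod_mul_distrib, hP, ← Finset.prod_pow]
    exact Finset.prod_le_prod (fun i _ => sq_nonneg _) (fun i _ => hz_a_sq (d i) (hd i))
  have hY0 : 0 ≤ ∏ i, hz_y (d i) := Finset.prod_nonneg fun i _ => hz_y_nonneg _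
  have hinv1 : ∀ j, 1 / (2 - 1 / (d j : ℝ)) ≤ 1 := by
    intro j
    rw [div_le_one (by linarith [ha1 j])]
    exact ha1 j
  have hinv0 : ∀ j, 0 ≤ 1 / (2 - 1 / (d j : ℝ)) := by
    intro j
    have := ha1 j
    apply one_div_nonneg.mpr
    linarith
  have hinv2 : ∀ j, d j ≠ 1 → 1 / (2 - 1 / (d j : ℝ)) ≤ 2/3 := by
    intro j hj
    have h1 := ha2 j hj
    rw [div_le_iff₀ (by linarith)]
    linarith
  have hH0 : 0 ≤ (∑ j, 1 / (2 - 1 / (d j : ℝ))) / D :=
    div_nonneg (Finset.sum_nonneg fun j _ => hinv0 j) hDpos.le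
  obtain ⟨H, hH⟩ : ∃ H, H = (∑ j, 1 / (2 - 1 / (d j : ℝ))) / D := ⟨_, rfl⟩
  rw [← hH] at hH0 ⊢
  have hHD : H * D = ∑ j, 1 / (2 - 1 / (d j : ℝ)) := by
    rw [hH, div_mul_cancel₀ _ hDpos.ne']
  have hcard : ∑ _j : Fin D, (1:ℝ) = D := by simp
  have hfin : P * H ≤ (3/2 : ℝ)^(m-1) := by
    refine hz_fin P H _ (∏ i, hz_y (d i)) hQ hP2 ?_
    obtain ⟨Y, hY⟩ : ∃ Y, Y = ∏ i, hz_y (d i) := ⟨_, rfl⟩
    rw [← hY] at hY0 ⊢
    by_cases hone : ∃ i, d i = 1
    · obtain ⟨i, hi⟩ := hone
      by_cases htwo : ∃ j, i ≠ j ∧ d j = 1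
      · obtain ⟨j, hij, hj⟩ := htwo
        have hYle : Y ≤ 4/9 := by
          rw [hY]
          have := hz_prod_two (fun i => hz_y (d i)) (fun i => hz_y_nonneg _) (fun i => hz_y_le_one _) i j hij
          refine this.trans ?_
          simp only [hi, hj]
          unfold hz_y
          norm_num
        have hHle : H ≤ 1 := by
          have h1 : H * D ≤ 1 * D := by
            rw [hHD, one_mul, ← hcard]
            exact Finset.sum_le_sum fun j _ => hinv1 j
          exact le_of_mul_le_mul_right h1 hDpos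
        have hH2 : H^2 ≤ 1 := by nlinarith
        nlinarith [sq_nonneg H]
      · have hone' : ∀ j, i ≠ j → d j ≠ 1 := fun j hj hcon => htwo ⟨j, hj, hcon⟩
        obtain ⟨j, hij, hj⟩ : ∃ j, i ≠ j ∧ 3 ≤ d j := by
          by_contra hcon
          push Not at hcon
          have heven : ∀ j ∈ Finset.univ.erase i, Even (d j) := by
            intro j hj
            have h1 : i ≠ j := (Finset.ne_of_mem_erase hj).symm
            have h2 := hcon j h1
            have h3 := hone' j h1
            have h4 := hd j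
            have h5 : d j = 2 := by omega
            rw [h5]
            exact even_two
          have h6 := Finset.even_sum _ heven
          rw [← Finset.add_sum_erase _ _ (Finset.mem_univ i), hi] at hsum
          obtain ⟨r, hr⟩ := h6
          omega
        have hYle : Y ≤ 2/3 * (200/243) := by
          rw [hY]
          have := hz_prod_two (fun i => hz_y (d i)) (fun i => hz_y_nonneg _) (fun i => hz_y_le_one _) i j hij
          refine this.trans ?_
          have e1 : hz_y (d i) = 2/3 := by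
            unfold hz_y
            rw [if_pos hi]
          have e2 : hz_y (d j) = 200/243 := by
            unfold hz_y
            rw [if_neg (by omega), if_neg (by omega)]
          show hz_y (d i) * hz_y (d j) ≤ _
          rw [e1, e2]
        have hD2 : 2 ≤ D := by
          by_contra hcon
          have hD1 : D = 1 := by omega
          subst hD1
          exact hij (Subsingleton.elim i j)
        have hD2' : (2:ℝ) ≤ D := by exact_mod_cast hD2
        have hHle : H ≤ 5/6 := by
          have h1 : H * D ≤ 1 + (2/3) * (D - 1) := by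
            rw [hHD, ← Finset.add_sum_erase _ _ (Finset.mem_univ i)]
            have h2 : ∑ j ∈ Finset.univ.erase i, 1 / (2 - 1 / (d j : ℝ)) ≤ ∑ j ∈ Finset.univ.erase i, (2/3 : ℝ) :=
              Finset.sum_le_sum fun j hj => hinv2 j (hone' j (Finset.ne_of_mem_erase hj).symm)
            have h3 : ∑ j ∈ Finset.univ.erase i, (2/3 : ℝ) = (2/3) * (D - 1) := by
              rw [Finset.sum_const, Finset.card_erase_of_mem (Finset.mem_univ i), Finset.card_univ,
                Fintype.card_fin, nsmul_eq_mul, Nat.cast_sub hD]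
              push_cast
              ring
            rw [h3] at h2
            have h4 := hinv1 i
            linarith
          have h5 : H * D ≤ (5/6) * D := by linarith
          exact le_of_mul_le_mul_right h5 hDpos
        have hH2 : H^2 ≤ (5/6)^2 := by nlinarith
        have h6 : Y * (9/4) * H^2 ≤ (2/3 * (200/243)) * (9/4) * (5/6)^2 := by
          have : Y * (9/4) ≤ (2/3 * (200/243)) * (9/4) := by linarith
          exact mul_le_mul this hH2 (sq_nonneg H) (by norm_num)
        refine h6.trans ?_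
        norm_num
    · have hnone : ∀ j, d j ≠ 1 := fun j hcon => hone ⟨j, hcon⟩
      have hYle : Y ≤ 1 := by
        rw [hY]
        exact Finset.prod_le_one (fun i _ => hz_y_nonneg _) (fun i _ => hz_y_le_one _)
      have hHle : H ≤ 2/3 := by
        have h1 : H * D ≤ (2/3) * D := by
          rw [hHD, ← hcard, Finset.mul_sum]
          refine Finset.sum_le_sum fun j _ => ?_
          rw [mul_one]
          exact hinv2 j (hnone j)
        exact le_of_mul_le_mul_right h1 hDpos
      have hH2 : H^2 ≤ (2/3)^2 := by nlinarith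
      have h6 : Y * (9/4) * H^2 ≤ 1 * (9/4) * (2/3)^2 := by
        have : Y * (9/4) ≤ 1 * (9/4) := by linarith
        exact mul_le_mul this hH2 (sq_nonneg H) (by norm_num)
      refine h6.trans ?_
      norm_num
  linarith

end J37470
open J37470

namespace J37471


noncomputable def oaa (k : ℕ) : ℝ := 2 - 1 / (k : ℝ)
noncomputable def ovv (k : ℕ) : ℝ := oaa k ^ 2 * (2 / 3) ^ k

theorem oaa_one {k : ℕ} (hk : 1 ≤ k) : 1 ≤ oaa k := by
  unfold oaa
  have h : (1:ℝ) ≤ k := by exact_mod_cast hk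
  have : 1 / (k:ℝ) ≤ 1 := by rw [div_le_one (by linarith)]; exact h
  linarith

theorem oaa_two {k : ℕ} (hk : 2 ≤ k) : 3 / 2 ≤ oaa k := by
  unfold oaa
  have h : (2:ℝ) ≤ k := by exact_mod_cast hk
  have : 1 / (k:ℝ) ≤ 1 / 2 := one_div_le_one_div_of_le (by norm_num) h
  linarith

theorem oaa_le {k : ℕ} : oaa k ≤ 2 := by
  unfold oaa
  have : 0 ≤ 1 / (k:ℝ) := by positivity
  linarith

theorem ovv_nonneg (k : ℕ) : 0 ≤ ovv k := by
  unfold ovv
  positivity

theorem ovv_five {k : ℕ} (hk : 5 ≤ k) : ovv k ≤ 128 / 243 := by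
  unfold ovv
  have h1 : oaa k ^ 2 ≤ 4 := by
    have h2 := oaa_le (k := k)
    have h3 := oaa_one (show 1 ≤ k by omega)
    nlinarith
  have h2 : (2 / 3 : ℝ) ^ k ≤ (2 / 3) ^ 5 := pow_le_pow_of_le_one (by norm_num) (by norm_num) hk
  calc oaa k ^ 2 * (2 / 3) ^ k ≤ 4 * (2 / 3) ^ 5 := mul_le_mul h1 h2 (by positivity) (by norm_num)
    _ = 128 / 243 := by norm_num

theorem ovv_bnd {k : ℕ} (hk : 1 ≤ k) : ovv k ≤ (if k = 1 then 2 / 3 else 1) *
    (if k % 2 = 1 ∧ 3 ≤ k then 200 / 243 else 1) * (if k % 2 = 0 ∧ 4 ≤ k then 49 / 81 else 1) := by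
  rcases Nat.lt_or_ge k 5 with h | h
  · have : k = 1 ∨ k = 2 ∨ k = 3 ∨ k = 4 := by omega
    rcases this with rfl | rfl | rfl | rfl <;> norm_num [ovv, oaa]
  · have h5 := ovv_five h
    rw [if_neg (by omega)]
    rcases Nat.mod_two_eq_zero_or_one k with h2 | h2
    · rw [if_neg (by omega), if_pos ⟨h2, by omega⟩]
      linarith
    · rw [if_pos ⟨h2, by omega⟩, if_neg (by omega)]
      linarith

theorem ovv_le_one {k : ℕ} (hk : 1 ≤ k) : ovv k ≤ 1 := by
  refine (ovv_bnd hk).trans ?_
  split_ifs <;> norm_num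

set_option maxHeartbeats 4000000 in
theorem opt_odd {D m : ℕ} (hD : 1 ≤ D) (hm : 1 ≤ m) (d : Fin D → ℕ) (hd : ∀ i, 1 ≤ d i)
    (hsum : ∑ i, d i = 2 * m + 1) :
    (2 / (D : ℝ)) * ∑ j, ∏ i ∈ Finset.univ.erase j, (2 - 1 / (d i : ℝ)) ≤
      (3 / 2 : ℝ) ^ (m - 1) * max (2 * (10 * (m : ℝ) - 1) / (9 * (m : ℝ))) ((2 * (m : ℝ) + 3) / ((m : ℝ) + 1)) := by
  have hDr : (0:ℝ) < D := by exact_mod_cast hD
  show (2 / (D : ℝ)) * ∑ j, ∏ i ∈ Finset.univ.erase j, oaa (d i) ≤ _
  obtain ⟨P, hP⟩ : ∃ P, P = ∏ i, oaa (d i) := ⟨_, rfl⟩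
  have hA1 : ∀ i, 1 ≤ oaa (d i) := fun i => oaa_one (hd i)
  have hP0 : 0 < P := by
    rw [hP]
    exact Finset.prod_pos (fun i _ => by linarith [hA1 i])
  obtain ⟨Hs, hHs⟩ : ∃ Hs, Hs = (∑ i, 1 / oaa (d i)) / D := ⟨_, rfl⟩
  have hL : (2 / (D : ℝ)) * ∑ j, ∏ i ∈ Finset.univ.erase j, oaa (d i) = 2 * (P * Hs) := by
    have h1 : ∀ j, ∏ i ∈ Finset.univ.erase j, oaa (d i) = P * (1 / oaa (d j)) := by
      intro j
      rw [hP, ← Finset.mul_prod_erase Finset.univ (fun i => oaa (d i)) (Finset.mem_univ j)]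
      have := hA1 j
      have h0 : oaa (d j) ≠ 0 := by linarith
      field_simp
    rw [Finset.sum_congr rfl (fun j _ => h1 j), ← Finset.mul_sum, hHs]
    ring
  rw [hL]
  have hHs0 : 0 ≤ Hs := by
    rw [hHs]
    apply div_nonneg _ hDr.le
    exact Finset.sum_nonneg (fun i _ => by have := hA1 i; positivity)
  -- counts
  obtain ⟨n1, hn1⟩ : ∃ n1, n1 = (Finset.univ.filter (fun i => d i = 1)).card := ⟨_, rfl⟩
  obtain ⟨n3, hn3⟩ : ∃ n3, n3 = (Finset.univ.filter (fun i => d i % 2 = 1 ∧ 3 ≤ d i)).card := ⟨_, rfl⟩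
  obtain ⟨n4, hn4⟩ : ∃ n4, n4 = (Finset.univ.filter (fun i => d i % 2 = 0 ∧ 4 ≤ d i)).card := ⟨_, rfl⟩
  obtain ⟨Pv, hPv⟩ : ∃ Pv, Pv = ∏ i, ovv (d i) := ⟨_, rfl⟩
  have hPv0 : 0 ≤ Pv := by rw [hPv]; exact Finset.prod_nonneg (fun i _ => ovv_nonneg _)
  have hPvb : Pv ≤ (2 / 3) ^ n1 * (200 / 243) ^ n3 * (49 / 81) ^ n4 := by
    rw [hPv, hn1, hn3, hn4]
    calc ∏ i, ovv (d i) ≤ ∏ i, ((if d i = 1 then (2 / 3 : ℝ) else 1) *
        (if d i % 2 = 1 ∧ 3 ≤ d i then 200 / 243 else 1) * (if d i % 2 = 0 ∧ 4 ≤ d i then 49 / 81 else 1)) :=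
          Finset.prod_le_prod (fun i _ => ovv_nonneg _) (fun i _ => ovv_bnd (hd i))
      _ = _ := by
        rw [Finset.prod_mul_distrib, Finset.prod_mul_distrib]
        simp only [Finset.prod_ite, Finset.prod_const, Finset.prod_const_one, mul_one, one_pow]
  have hodd : (n1 + n3) % 2 = 1 := by
    have h1 : Odd (∑ i, d i) := by rw [hsum]; exact ⟨m, rfl⟩
    rw [Finset.odd_sum_iff_odd_card_odd] at h1
    have h2 : (Finset.univ.filter (fun i => Odd (d i))).card = n1 + n3 := by
      rw [hn1, hn3, ← Finset.card_union_of_disjoint]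
      · congr 1
        ext i
        simp only [Finset.mem_filter, Finset.mem_univ, true_and, Finset.mem_union, Nat.odd_iff]
        have := hd i
        omega
      · rw [Finset.disjoint_left]
        intro i h1 h2
        simp only [Finset.mem_filter, Finset.mem_univ, true_and] at h1 h2
        omega
    rw [h2] at h1
    exact Nat.odd_iff.mp h1
  have hcard : n1 + n3 + n4 ≤ D := by
    have h2 : (Finset.univ.filter (fun i => d i = 1) ∪ Finset.univ.filter (fun i => d i % 2 = 1 ∧ 3 ≤ d i)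
        ∪ Finset.univ.filter (fun i => d i % 2 = 0 ∧ 4 ≤ d i)).card = n1 + n3 + n4 := by
      rw [hn1, hn3, hn4, Finset.card_union_of_disjoint, Finset.card_union_of_disjoint]
      · rw [Finset.disjoint_left]
        intro i h1 h2
        simp only [Finset.mem_filter, Finset.mem_univ, true_and] at h1 h2
        omega
      · rw [Finset.disjoint_left]
        intro i h1 h2
        simp only [Finset.mem_filter, Finset.mem_univ, true_and, Finset.mem_union] at h1 h2
        omega
    rw [← h2]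
    calc _ ≤ (Finset.univ : Finset (Fin D)).card := Finset.card_le_card (Finset.subset_univ _)
      _ = D := by simp
  have hHb : Hs ≤ 2 / 3 + (n1 : ℝ) / (3 * D) := by
    have h1 : ∑ i, 1 / oaa (d i) ≤ ∑ i, ((2 / 3 : ℝ) + if d i = 1 then 1 / 3 else 0) := by
      apply Finset.sum_le_sum
      intro i _
      split_ifs with h
      · rw [h]; norm_num [oaa]
      · have h2 : 2 ≤ d i := by have := hd i; omega
        have h3 := oaa_two h2
        rw [add_zero, div_le_iff₀ (by linarith)]
        linarith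
    have h2 : ∑ i, ((2 / 3 : ℝ) + if d i = 1 then 1 / 3 else 0) = D * (2 / 3) + n1 * (1 / 3) := by
      rw [Finset.sum_add_distrib, ← Finset.sum_filter, Finset.sum_const, Finset.sum_const, ← hn1]
      simp
    rw [hHs, div_le_iff₀ hDr]
    rw [h2] at h1
    have h3 : (2 / 3 + (n1 : ℝ) / (3 * D)) * D = D * (2 / 3) + n1 * (1 / 3) := by field_simp
    rw [h3]
    exact h1
  obtain ⟨R, hR⟩ : ∃ R : ℝ, R = (3 / 2 : ℝ) ^ (m - 1) := ⟨_, rfl⟩
  have hR0 : 0 < R := by rw [hR]; positivity
  rw [← hR]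
  have hmr : (1:ℝ) ≤ m := by exact_mod_cast hm
  have hmax : 2 ≤ max (2 * (10 * (m : ℝ) - 1) / (9 * (m : ℝ))) ((2 * (m : ℝ) + 3) / ((m : ℝ) + 1)) := by
    refine le_trans ?_ (le_max_right _ _)
    rw [le_div_iff₀ (by linarith)]
    linarith
  have hP2 : P ^ 2 = R ^ 2 * (27 / 8) * Pv := by
    have h1 : Pv = P ^ 2 * (2 / 3) ^ (2 * m + 1) := by
      rw [hPv, hP, ← hsum, ← Finset.prod_pow, ← Finset.prod_pow_eq_pow_sum, ← Finset.prod_mul_distrib]
      rfl
    have h2 : R ^ 2 * (27 / 8) * (2 / 3) ^ (2 * m + 1) = 1 := by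
      obtain ⟨m', rfl⟩ : ∃ m', m = m' + 1 := ⟨m - 1, by omega⟩
      rw [hR, show m' + 1 - 1 = m' by omega, ← pow_mul, show 2 * (m' + 1) + 1 = m' * 2 + 3 by ring, pow_add]
      have h3 : (3 / 2 : ℝ) ^ (m' * 2) * (2 / 3) ^ (m' * 2) = 1 := by
        rw [← mul_pow]; norm_num
      linear_combination h3
    rw [h1]
    linear_combination (-P ^ 2) * h2
  have hgood : Pv * Hs ^ 2 ≤ 8 / 27 → 2 * (P * Hs) ≤ R *
      max (2 * (10 * (m : ℝ) - 1) / (9 * (m : ℝ))) ((2 * (m : ℝ) + 3) / ((m : ℝ) + 1)) := by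
    intro h
    have h1 : (P * Hs) ^ 2 ≤ R ^ 2 := by
      rw [mul_pow, hP2]
      have h2 : 0 < R ^ 2 := by positivity
      nlinarith
    have h2 : P * Hs ≤ R := by
      rwa [pow_le_pow_iff_left₀ (by positivity) hR0.le (by norm_num)] at h1
    nlinarith
  have hX : ∀ (x : ℝ) (a b : ℕ), 0 ≤ x → x ≤ 1 → a ≤ b → x ^ b ≤ x ^ a := fun x a b h0 h1 h =>
    pow_le_pow_of_le_one h0 h1 h
  have hfin : ∀ (c e : ℝ), 0 ≤ c → Pv ≤ c → Hs ≤ e → c * e ^ 2 ≤ 8 / 27 → Pv * Hs ^ 2 ≤ 8 / 27 := by
    intro c e hc h1 h2 h3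
    refine le_trans ?_ h3
    exact mul_le_mul h1 (pow_le_pow_left₀ hHs0 h2 2) (by positivity) hc
  have h30 : (0:ℝ) ≤ (200 / 243) ^ n3 := by positivity
  have h31 : ((200:ℝ) / 243) ^ n3 ≤ 1 := pow_le_one₀ (by norm_num) (by norm_num)
  have h40 : (0:ℝ) ≤ (49 / 81) ^ n4 := by positivity
  have h41 : ((49:ℝ) / 81) ^ n4 ≤ 1 := pow_le_one₀ (by norm_num) (by norm_num)
  have h341 : ((200:ℝ) / 243) ^ n3 * (49 / 81) ^ n4 ≤ 1 := by nlinarith
  have h340 : 0 ≤ ((200:ℝ) / 243) ^ n3 * (49 / 81) ^ n4 := by positivity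
  rw [mul_assoc] at hPvb
  -- the ratio n1/(3D)
  have hratio : ∀ (a : ℕ), 0 < a → a ≤ D → (n1 : ℝ) / (3 * D) ≤ n1 / (3 * a) := by
    intro a ha haD
    have h1 : (0:ℝ) < a := by exact_mod_cast ha
    have h2 : (a:ℝ) ≤ D := by exact_mod_cast haD
    apply div_le_div_of_nonneg_left (by positivity) (by positivity)
    linarith
  -- all but one are two
  have hspecial : ∀ i0 : Fin D, (∀ i, i ≠ i0 → d i = 2) →
      P = oaa (d i0) * (3 / 2) ^ (D - 1) ∧ Hs = (1 / oaa (d i0) + (D - 1) * (2 / 3)) / D ∧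
      d i0 + 2 * (D - 1) = 2 * m + 1 := by
    intro i0 h
    have hc : (Finset.univ.erase i0).card = D - 1 := by
      rw [Finset.card_erase_of_mem (Finset.mem_univ _)]; simp
    refine ⟨?_, ?_, ?_⟩
    · rw [hP, ← Finset.mul_prod_erase Finset.univ (fun i => oaa (d i)) (Finset.mem_univ i0)]
      congr 1
      rw [Finset.prod_congr rfl (g := fun _ => (3 / 2 : ℝ)), Finset.prod_const, hc]
      intro i hi
      rw [h i (Finset.ne_of_mem_erase hi)]
      norm_num [oaa]
    · rw [hHs, ← Finset.add_sum_erase Finset.univ (fun i => 1 / oaa (d i)) (Finset.mem_univ i0)]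
      congr 2
      rw [Finset.sum_congr rfl (g := fun _ => (2 / 3 : ℝ)), Finset.sum_const, hc, nsmul_eq_mul,
        Nat.cast_sub hD, Nat.cast_one]
      intro i hi
      rw [h i (Finset.ne_of_mem_erase hi)]
      norm_num [oaa]
    · rw [← hsum, ← Finset.add_sum_erase Finset.univ d (Finset.mem_univ i0)]
      congr 1
      rw [Finset.sum_congr rfl (g := fun _ => 2), Finset.sum_const, hc, smul_eq_mul, mul_comm]
      intro i hi
      exact h i (Finset.ne_of_mem_erase hi)
  rcases Nat.lt_or_ge n1 4 with hlt | hge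
  · have hcases : n1 = 0 ∨ n1 = 1 ∨ n1 = 2 ∨ n1 = 3 := by omega
    rcases hcases with h | h | h | h
    · -- n1 = 0
      have hH : Hs ≤ 2 / 3 := by
        rw [h] at hHb
        simpa using hHb
      have hPb : Pv ≤ (200 / 243) ^ n3 * (49 / 81) ^ n4 := by
        rw [h, pow_zero, one_mul] at hPvb
        exact hPvb
      by_cases h3 : 3 ≤ n3
      · apply hgood
        apply hfin ((200 / 243) ^ 3) (2 / 3) (by norm_num) _ hH (by norm_num)
        have := hX (200 / 243) 3 n3 (by norm_num) (by norm_num) h3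
        nlinarith
      · have hn31 : n3 = 1 := by omega
        by_cases h4 : 1 ≤ n4
        · apply hgood
          apply hfin ((200 / 243) * (49 / 81)) (2 / 3) (by norm_num) _ hH (by norm_num)
          have := hX (49 / 81) 1 n4 (by norm_num) (by norm_num) h4
          rw [hn31, pow_one] at hPb
          rw [pow_one] at this
          nlinarith
        · have hn40 : n4 = 0 := by omega
          rw [hn31] at hn3
          obtain ⟨i0, hi0⟩ := Finset.card_eq_one.mp hn3.symm
          have hmem : i0 ∈ Finset.univ.filter (fun i => d i % 2 = 1 ∧ 3 ≤ d i) := by rw [hi0]; simp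
          simp only [Finset.mem_filter, Finset.mem_univ, true_and] at hmem
          have hoth : ∀ i, i ≠ i0 → d i = 2 := by
            intro i hi
            have a1 : d i ≠ 1 := by
              intro hh
              have : i ∈ Finset.univ.filter (fun i => d i = 1) := by simp [hh]
              have : 0 < (Finset.univ.filter (fun i => d i = 1)).card := Finset.card_pos.mpr ⟨i, this⟩
              omega
            have a2 : ¬ (d i % 2 = 1 ∧ 3 ≤ d i) := by
              intro hh
              have : i ∈ Finset.univ.filter (fun i => d i % 2 = 1 ∧ 3 ≤ d i) := by simp [hh]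
              rw [hi0, Finset.mem_singleton] at this
              exact hi this
            have a3 : ¬ (d i % 2 = 0 ∧ 4 ≤ d i) := by
              intro hh
              have : i ∈ Finset.univ.filter (fun i => d i % 2 = 0 ∧ 4 ≤ d i) := by simp [hh]
              have : 0 < (Finset.univ.filter (fun i => d i % 2 = 0 ∧ 4 ≤ d i)).card :=
                Finset.card_pos.mpr ⟨i, this⟩
              omega
            have := hd i
            omega
          by_cases h33 : d i0 = 3
          · obtain ⟨e1, e2, e3⟩ := hspecial i0 hoth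
            have hDm : D = m := by omega
            subst hDm
            rw [e1, e2, h33]
            have hoa : oaa 3 = 5 / 3 := by norm_num [oaa]
            rw [hoa, ← hR]
            have hval : 2 * (5 / 3 * R * ((1 / (5 / 3) + ((D:ℝ) - 1) * (2 / 3)) / D)) =
                R * (2 * (10 * (D : ℝ) - 1) / (9 * (D : ℝ))) := by
              field_simp
              ring
            rw [hval]
            exact mul_le_mul_of_nonneg_left (le_max_left _ _) hR0.le
          · apply hgood
            apply hfin (128 / 243) (2 / 3) (by norm_num) _ hH (by norm_num)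
            rw [hPv, ← Finset.mul_prod_erase Finset.univ (fun i => ovv (d i)) (Finset.mem_univ i0)]
            have b1 : ovv (d i0) ≤ 128 / 243 := ovv_five (by omega)
            have b2 : ∏ i ∈ Finset.univ.erase i0, ovv (d i) ≤ 1 :=
              Finset.prod_le_one (fun i _ => ovv_nonneg _) (fun i _ => ovv_le_one (hd i))
            have b3 : 0 ≤ ∏ i ∈ Finset.univ.erase i0, ovv (d i) :=
              Finset.prod_nonneg (fun i _ => ovv_nonneg _)
            calc ovv (d i0) * ∏ i ∈ Finset.univ.erase i0, ovv (d i) ≤ 128 / 243 * 1 :=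
                  mul_le_mul b1 b2 b3 (by norm_num)
              _ = 128 / 243 := by norm_num
    · -- n1 = 1
      have hPb : Pv ≤ (2 / 3) * ((200 / 243) ^ n3 * (49 / 81) ^ n4) := by
        rw [h, pow_one] at hPvb
        exact hPvb
      by_cases h4 : 1 ≤ n4
      · have hH : Hs ≤ 5 / 6 := by
          have := hratio 2 (by norm_num) (by omega)
          rw [h] at this hHb
          norm_num at this hHb
          linarith
        apply hgood
        apply hfin ((2 / 3) * (49 / 81)) (5 / 6) (by norm_num) _ hH (by norm_num)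
        have := hX (49 / 81) 1 n4 (by norm_num) (by norm_num) h4
        rw [pow_one] at this
        nlinarith
      · have hn40 : n4 = 0 := by omega
        by_cases h3 : 2 ≤ n3
        · have hH : Hs ≤ 7 / 9 := by
            have := hratio 3 (by norm_num) (by omega)
            rw [h] at this hHb
            norm_num at this hHb
            linarith
          apply hgood
          apply hfin ((2 / 3) * (200 / 243) ^ 2) (7 / 9) (by norm_num) _ hH (by norm_num)
          have := hX (200 / 243) 2 n3 (by norm_num) (by norm_num) h3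
          nlinarith
        · have hn30 : n3 = 0 := by omega
          rw [h] at hn1
          obtain ⟨i0, hi0⟩ := Finset.card_eq_one.mp hn1.symm
          have hmem : i0 ∈ Finset.univ.filter (fun i => d i = 1) := by rw [hi0]; simp
          simp only [Finset.mem_filter, Finset.mem_univ, true_and] at hmem
          have hoth : ∀ i, i ≠ i0 → d i = 2 := by
            intro i hi
            have a1 : d i ≠ 1 := by
              intro hh
              have : i ∈ Finset.univ.filter (fun i => d i = 1) := by simp [hh]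
              rw [hi0, Finset.mem_singleton] at this
              exact hi this
            have a2 : ¬ (d i % 2 = 1 ∧ 3 ≤ d i) := by
              intro hh
              have : i ∈ Finset.univ.filter (fun i => d i % 2 = 1 ∧ 3 ≤ d i) := by simp [hh]
              have : 0 < (Finset.univ.filter (fun i => d i % 2 = 1 ∧ 3 ≤ d i)).card :=
                Finset.card_pos.mpr ⟨i, this⟩
              omega
            have a3 : ¬ (d i % 2 = 0 ∧ 4 ≤ d i) := by
              intro hh
              have : i ∈ Finset.univ.filter (fun i => d i % 2 = 0 ∧ 4 ≤ d i) := by simp [hh]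
              have : 0 < (Finset.univ.filter (fun i => d i % 2 = 0 ∧ 4 ≤ d i)).card :=
                Finset.card_pos.mpr ⟨i, this⟩
              omega
            have := hd i
            omega
          obtain ⟨e1, e2, e3⟩ := hspecial i0 hoth
          have hDm : D = m + 1 := by omega
          subst hDm
          rw [e1, e2, hmem]
          have hoa : oaa 1 = 1 := by norm_num [oaa]
          have hpm : (3 / 2 : ℝ) ^ (m + 1 - 1) = R * (3 / 2) := by
            rw [hR, ← pow_succ]
            congr 1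
            omega
          rw [hoa, hpm]
          have hval : 2 * (1 * (R * (3 / 2)) * ((1 / 1 + (((m + 1 : ℕ) : ℝ) - 1) * (2 / 3)) / ((m + 1 : ℕ) : ℝ))) =
              R * ((2 * (m : ℝ) + 3) / ((m : ℝ) + 1)) := by
            push_cast
            field_simp
            ring
          rw [hval]
          exact mul_le_mul_of_nonneg_left (le_max_right _ _) hR0.le
    · -- n1 = 2
      have h3 : 1 ≤ n3 := by omega
      have hH : Hs ≤ 8 / 9 := by
        have := hratio 3 (by norm_num) (by omega)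
        rw [h] at this hHb
        norm_num at this hHb
        linarith
      apply hgood
      apply hfin ((2 / 3) ^ 2 * (200 / 243)) (8 / 9) (by norm_num) _ hH (by norm_num)
      have := hX (200 / 243) 1 n3 (by norm_num) (by norm_num) h3
      rw [pow_one] at this
      rw [h] at hPvb
      nlinarith
    · -- n1 = 3
      have hH : Hs ≤ 1 := by
        have := hratio 3 (by norm_num) (by omega)
        rw [h] at this hHb
        norm_num at this hHb
        linarith
      apply hgood
      apply hfin ((2 / 3) ^ 3) 1 (by norm_num) _ hH (by norm_num)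
      rw [h] at hPvb
      nlinarith
  · have hH : Hs ≤ 1 := by
      have h1 := hratio n1 (by omega) (by omega)
      have h2 : (n1 : ℝ) / (3 * n1) = 1 / 3 := by
        have : (0:ℝ) < n1 := by exact_mod_cast (by omega : 0 < n1)
        field_simp
      linarith
    apply hgood
    apply hfin ((2 / 3) ^ 4) 1 (by norm_num) _ hH (by norm_num)
    have h1 := hX (2 / 3) 4 n1 (by norm_num) (by norm_num) hge
    have h2 : (0:ℝ) ≤ (2 / 3) ^ n1 := by positivity
    nlinarith

end J37471
open J37471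

namespace J37753


theorem val_one {D : ℕ} (hD : 1 ≤ D) (a : ℕ) :
    (∑ i : Fin D, (if (i : ℕ) = 0 then a else 2) = a + 2 * (D - 1)) ∧
    ∑ j : Fin D, ∏ i ∈ Finset.univ.erase j, (2 - 1 / (((if (i : ℕ) = 0 then a else 2 : ℕ)) : ℝ)) =
      (3 / 2 : ℝ) ^ (D - 1) + ((D : ℝ) - 1) * ((2 - 1 / (a : ℝ)) * (3 / 2 : ℝ) ^ (D - 1) / (3 / 2)) := by
  obtain ⟨E, rfl⟩ : ∃ E, D = E + 1 := ⟨D - 1, by omega⟩
  constructor
  · rw [Fin.sum_univ_succ]
    simp [mul_comm]
  · have key : ∀ j : Fin (E + 1), (2 - 1 / (((if (j : ℕ) = 0 then a else 2 : ℕ)) : ℝ)) *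
        ∏ i ∈ Finset.univ.erase j, (2 - 1 / (((if (i : ℕ) = 0 then a else 2 : ℕ)) : ℝ)) =
        (2 - 1 / (a : ℝ)) * (3 / 2 : ℝ) ^ E := by
      intro j
      rw [Finset.mul_prod_erase Finset.univ
        (fun i : Fin (E + 1) => (2 - 1 / (((if (i : ℕ) = 0 then a else 2 : ℕ)) : ℝ))) (Finset.mem_univ j)]
      rw [Fin.prod_univ_succ]
      have : ∀ i : Fin E, (2 - 1 / (((if ((i.succ : Fin (E + 1)) : ℕ) = 0 then a else 2 : ℕ)) : ℝ)) = 3 / 2 := by
        intro i
        simp
        norm_num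
      simp only [this]
      simp [div_pow]
    have h0 : ∏ i ∈ Finset.univ.erase (0 : Fin (E + 1)), (2 - 1 / (((if (i : ℕ) = 0 then a else 2 : ℕ)) : ℝ)) =
        (3 / 2 : ℝ) ^ E := by
      have : ∀ i ∈ Finset.univ.erase (0 : Fin (E + 1)), (2 - 1 / (((if (i : ℕ) = 0 then a else 2 : ℕ)) : ℝ)) = 3 / 2 := by
        intro i hi
        have hne : i ≠ 0 := (Finset.mem_erase.mp hi).1
        have hne' : (i : ℕ) ≠ 0 := fun h => hne (Fin.ext h)
        rw [if_neg hne']
        norm_num
      rw [Finset.prod_congr rfl this, Finset.prod_const]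
      simp
    have hs : ∀ j : Fin E, ∏ i ∈ Finset.univ.erase (j.succ : Fin (E + 1)), (2 - 1 / (((if (i : ℕ) = 0 then a else 2 : ℕ)) : ℝ)) =
        (2 - 1 / (a : ℝ)) * (3 / 2 : ℝ) ^ E / (3 / 2) := by
      intro j
      have h1 := key j.succ
      have h2 : (2 - 1 / (((if ((j.succ : Fin (E + 1)) : ℕ) = 0 then a else 2 : ℕ)) : ℝ)) = 3 / 2 := by
        simp
        norm_num
      rw [h2] at h1
      rw [← h1]
      field_simp
    rw [Fin.sum_univ_succ, h0, Finset.sum_congr rfl (fun j _ => hs j)]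
    simp

end J37753
open J37753

namespace J37835




theorem diam2_val {n : ℕ} (T : SimpleGraph (Fin n)) (hT : T.IsTree) (hn : 2 ≤ n)
    (hd : ∀ x y, T.dist x y ≤ 2) : ∑ σ ∈ inv T, wt T σ = 2 := by
  have hstar : ∀ r s, T.Adj r s → 2 ≤ T.degree r → T.degree s ≤ 1 := by
    intro r s hrs h2
    by_contra hs
    push Not at hs
    obtain ⟨a, ha, has⟩ : ∃ a, T.Adj r a ∧ a ≠ s := by
      by_contra hcon
      push Not at hcon
      have : T.neighborFinset r ⊆ {s} := by
        intro x hx
        rw [SimpleGraph.mem_neighborFinset] at hx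
        exact Finset.mem_singleton.2 (hcon x hx)
      have h3 := Finset.card_le_card this
      rw [SimpleGraph.card_neighborFinset_eq_degree, Finset.card_singleton] at h3
      omega
    obtain ⟨b, hb, hbr⟩ : ∃ b, T.Adj s b ∧ b ≠ r := by
      by_contra hcon
      push Not at hcon
      have : T.neighborFinset s ⊆ {r} := by
        intro x hx
        rw [SimpleGraph.mem_neighborFinset] at hx
        exact Finset.mem_singleton.2 (hcon x hx)
      have h3 := Finset.card_le_card this
      rw [SimpleGraph.card_neighborFinset_eq_degree, Finset.card_singleton] at h3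
      omega
    have hab : a ≠ b := by
      rintro rfl
      let p : T.Walk r s := SimpleGraph.Walk.cons hrs SimpleGraph.Walk.nil
      let q : T.Walk r s := SimpleGraph.Walk.cons ha (SimpleGraph.Walk.cons hb.symm SimpleGraph.Walk.nil)
      have hp : p.IsPath := by
        simp [p, SimpleGraph.Walk.cons_isPath_iff, hrs.ne]
      have hq : q.IsPath := by
        simp [q, SimpleGraph.Walk.cons_isPath_iff, hrs.ne, ha.ne, has]
      have h3 := hT.IsAcyclic.path_unique ⟨p, hp⟩ ⟨q, hq⟩
      have h4 : p.length = q.length := congrArg SimpleGraph.Walk.length (congrArg Subtype.val h3)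
      simp [p, q] at h4
    let p : T.Walk a b := SimpleGraph.Walk.cons ha.symm (SimpleGraph.Walk.cons hrs
      (SimpleGraph.Walk.cons hb SimpleGraph.Walk.nil))
    have hp : p.IsPath := by
      simp [p, SimpleGraph.Walk.cons_isPath_iff, hrs.ne, ha.ne.symm, has, hb.ne, hab, hbr.symm]
    obtain ⟨q, hq1, hq2⟩ := (hT.isConnected.preconnected a b).exists_path_of_dist
    have h3 := hT.IsAcyclic.path_unique ⟨p, hp⟩ ⟨q, hq1⟩
    have h4 : p.length = q.length := congrArg SimpleGraph.Walk.length (congrArg Subtype.val h3)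
    rw [hq2] at h4
    have h5 : p.length = 3 := rfl
    have h6 := hd a b
    omega
  haveI : Nonempty (Fin n) := ⟨⟨0, by omega⟩⟩
  obtain ⟨r, hr⟩ := Finite.exists_max (fun r : Fin n => T.degree r)
  have hdeg : ∀ s ∈ T.neighborFinset r, T.degree s = 1 := by
    intro s hs
    rw [SimpleGraph.mem_neighborFinset] at hs
    have h1 : 0 < T.degree s := by
      rw [SimpleGraph.degree_pos_iff_exists_adj]
      exact ⟨r, hs.symm⟩
    have h2 : T.degree s ≤ 1 := by
      by_cases h3 : 2 ≤ T.degree r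
      · exact hstar r s hs h3
      · have := hr s
        omega
    omega
  obtain ⟨h1, h2⟩ := two_level_sum T hT hn r (hd r)
  rw [Finset.sum_congr rfl hdeg, Finset.sum_const, smul_eq_mul, mul_one,
    SimpleGraph.card_neighborFinset_eq_degree] at h1
  have hr0 : (T.degree r : ℝ) ≠ 0 := by
    have : T.degree r ≠ 0 := by omega
    exact_mod_cast this
  rw [h2]
  have h3 : ∀ j ∈ T.neighborFinset r, ∏ i ∈ (T.neighborFinset r).erase j,
      (2 - 1 / (T.degree i : ℝ)) = 1 := by
    intro j _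
    refine Finset.prod_eq_one (fun i hi => ?_)
    rw [hdeg i (Finset.mem_of_mem_erase hi)]
    norm_num
  rw [Finset.sum_congr rfl h3, Finset.sum_const, nsmul_eq_mul, mul_one,
    SimpleGraph.card_neighborFinset_eq_degree]
  field_simp

end J37835
open J37835

namespace J37836


theorem star_diam {n : ℕ} (hn : 2 ≤ n) : ∀ x y, (parGraph n (fun _ => 0)).dist x y ≤ 2 := by
  intro x y
  have z : Fin n := ⟨0, by omega⟩
  have hadj : ∀ a : Fin n, (a : ℕ) ≠ 0 → (parGraph n (fun _ => 0)).Adj a ⟨0, by omega⟩ := by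
    intro a ha
    unfold parGraph
    rw [SimpleGraph.fromRel_adj]
    refine ⟨?_, Or.inl ⟨ha, rfl⟩⟩
    intro h
    apply ha
    rw [h]
  by_cases hx : (x : ℕ) = 0
  · have hx' : x = ⟨0, by omega⟩ := Fin.ext hx
    by_cases hy : (y : ℕ) = 0
    · have hy' : y = ⟨0, by omega⟩ := Fin.ext hy
      rw [hx', hy', SimpleGraph.dist_self]; omega
    · have h1 := SimpleGraph.dist_le (SimpleGraph.Walk.cons (hadj y hy).symm SimpleGraph.Walk.nil)
      rw [hx']
      simp only [SimpleGraph.Walk.length_cons, SimpleGraph.Walk.length_nil] at h1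
      omega
  · by_cases hy : (y : ℕ) = 0
    · have hy' : y = ⟨0, by omega⟩ := Fin.ext hy
      have h1 := SimpleGraph.dist_le (SimpleGraph.Walk.cons (hadj x hx) SimpleGraph.Walk.nil)
      rw [hy']
      simp only [SimpleGraph.Walk.length_cons, SimpleGraph.Walk.length_nil] at h1
      omega
    · have h1 := SimpleGraph.dist_le (SimpleGraph.Walk.cons (hadj x hx)
        (SimpleGraph.Walk.cons (hadj y hy).symm SimpleGraph.Walk.nil))
      simp only [SimpleGraph.Walk.length_cons, SimpleGraph.Walk.length_nil] at h1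
      omega

end J37836
open J37836

theorem two_level_fin {n D : ℕ} (T : SimpleGraph (Fin n)) (hT : T.IsTree) (hn : 2 ≤ n) (r : Fin n)
    (hr : ∀ x, T.dist r x ≤ 2) (e : Fin D → Fin n) (hinj : Function.Injective e)
    (himg : T.neighborFinset r = Finset.univ.image e) :
    T.degree r = D ∧ ∑ i, T.degree (e i) = n - 1 ∧
    ∑ σ ∈ inv T, wt T σ = (2 / (D : ℝ)) * ∑ j, ∏ i ∈ Finset.univ.erase j,
      (2 - 1 / (T.degree (e i) : ℝ)) := by
  have hdeg : T.degree r = D := by
    rw [← SimpleGraph.card_neighborFinset_eq_degree, himg, Finset.card_image_of_injective _ hinj,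
      Finset.card_univ, Fintype.card_fin]
  obtain ⟨h1, h2⟩ := two_level_sum T hT hn r hr
  refine ⟨hdeg, ?_, ?_⟩
  · rw [himg, Finset.sum_image (fun a _ b _ hab => hinj hab)] at h1
    exact h1
  · rw [h2, hdeg, himg, Finset.sum_image (fun a _ b _ hab => hinj hab)]
    congr 1
    refine Finset.sum_congr rfl (fun j _ => ?_)
    rw [← Finset.image_erase hinj, Finset.prod_image (fun a _ b _ hab => hinj hab)]

/-- values of the Laplacian ratio over trees on `n` vertices with diameter at most `k` -/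
def SD (n k : ℕ) : Set ℝ :=
  {x : ℝ | ∃ T : SimpleGraph (Fin n), T.IsTree ∧ (∀ a b, T.dist a b ≤ k) ∧ lapRatio T = x}

theorem diam4_upper {n : ℕ} (hn : 2 ≤ n) (B : ℝ)
    (hB : ∀ (D : ℕ) (d : Fin D → ℕ), 1 ≤ D → (∀ i, 1 ≤ d i) → ∑ i, d i = n - 1 →
      (2 / (D : ℝ)) * ∑ j, ∏ i ∈ Finset.univ.erase j, (2 - 1 / (d i : ℝ)) ≤ B) :
    ∀ x ∈ SD n 4, x ≤ B := by
  rintro _ ⟨T, hT, hd, rfl⟩
  obtain ⟨r, hr⟩ := diam4_center T hT hd
  have hc : (T.neighborFinset r).card = T.degree r := SimpleGraph.card_neighborFinset_eq_degree _ _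
  let e0 : Fin (T.degree r) ≃ (T.neighborFinset r : Finset (Fin n)) :=
    ((T.neighborFinset r).equivFinOfCardEq hc).symm
  let e : Fin (T.degree r) → Fin n := fun i => (e0 i : Fin n)
  have hinj : Function.Injective e := fun a b hab => e0.injective (Subtype.ext hab)
  have himg : T.neighborFinset r = Finset.univ.image e := by
    ext x
    simp only [Finset.mem_image, Finset.mem_univ, true_and]
    constructor
    · intro hx
      refine ⟨e0.symm ⟨x, hx⟩, ?_⟩
      show ((e0 (e0.symm ⟨x, hx⟩) : (T.neighborFinset r : Finset (Fin n))) : Fin n) = x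
      rw [Equiv.apply_symm_apply]
    · rintro ⟨i, rfl⟩
      exact (e0 i).2
  obtain ⟨-, h1, h2⟩ := two_level_fin T hT hn r hr e hinj himg
  rw [lapRatio_eq T hT hn, h2]
  exact hB _ _ (deg_pos_tree T hT hn r) (fun i => deg_pos_tree T hT hn _) h1

theorem diam4_attained {n D : ℕ} (hn : 2 ≤ n) (hD : 1 ≤ D) (d : Fin D → ℕ) (hd : ∀ i, 1 ≤ d i)
    (hsum : ∑ i, d i = n - 1) :
    (2 / (D : ℝ)) * ∑ j, ∏ i ∈ Finset.univ.erase j, (2 - 1 / (d i : ℝ)) ∈ SD n 4 := by
  obtain ⟨T, hT, r, hr, e, hinj, himg, hdeg⟩ := two_level_exists hD d hd hsum hn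
  refine ⟨T, hT, ?_, ?_⟩
  · intro a b
    have h1 := hT.connected.dist_triangle (u := a) (v := r) (w := b)
    have h2 := hr a
    have h3 := hr b
    rw [SimpleGraph.dist_comm] at h2
    omega
  · obtain ⟨-, -, h2⟩ := two_level_fin T hT hn r hr e hinj himg
    rw [lapRatio_eq T hT hn, h2]
    simp only [hdeg]

theorem diam4_odd (m : ℕ) (hm : 1 ≤ m) : IsGreatest (SD (2 * m + 1) 4) (2 * (3 / 2 : ℝ) ^ (m - 1)) := by
  constructor
  · obtain ⟨h1, h2⟩ := val_one (D := m) hm 2
    have h3 := diam4_attained (n := 2 * m + 1) (D := m) (by omega) hm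
      (fun i => if (i : ℕ) = 0 then 2 else 2) (fun i => by split_ifs <;> norm_num)
      (by rw [h1]; omega)
    rw [h2] at h3
    have hm0 : (0 : ℝ) < m := by exact_mod_cast hm
    have e : (2 / (m : ℝ)) * ((3 / 2 : ℝ) ^ (m - 1) +
        ((m : ℝ) - 1) * ((2 - 1 / ((2 : ℕ) : ℝ)) * (3 / 2 : ℝ) ^ (m - 1) / (3 / 2))) =
        2 * (3 / 2 : ℝ) ^ (m - 1) := by
      push_cast
      field_simp
      ring
    rw [e] at h3
    exact h3
  · intro x hx
    refine diam4_upper (n := 2 * m + 1) (by omega) _ ?_ x hx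
    intro D d hD hd hs
    exact opt_even hD hm d hd (by omega)

theorem diam4_even (m : ℕ) (hm : 1 ≤ m) : IsGreatest (SD (2 * m + 2) 4)
    ((3 / 2 : ℝ) ^ (m - 1) *
      max (2 * (10 * (m : ℝ) - 1) / (9 * (m : ℝ))) ((2 * (m : ℝ) + 3) / ((m : ℝ) + 1))) := by
  have hm0 : (0 : ℝ) < m := by exact_mod_cast hm
  constructor
  · rcases le_total (2 * (10 * (m : ℝ) - 1) / (9 * (m : ℝ))) ((2 * (m : ℝ) + 3) / ((m : ℝ) + 1)) with h | h
    · rw [max_eq_right h]
      obtain ⟨h1, h2⟩ := val_one (D := m + 1) (by omega) 1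
      have h3 := diam4_attained (n := 2 * m + 2) (D := m + 1) (by omega) (by omega)
        (fun i => if (i : ℕ) = 0 then 1 else 2) (fun i => by split_ifs <;> norm_num)
        (by rw [h1]; omega)
      rw [h2] at h3
      have e : (2 / ((m + 1 : ℕ) : ℝ)) * ((3 / 2 : ℝ) ^ (m + 1 - 1) +
          (((m + 1 : ℕ) : ℝ) - 1) * ((2 - 1 / ((1 : ℕ) : ℝ)) * (3 / 2 : ℝ) ^ (m + 1 - 1) / (3 / 2))) =
          (3 / 2 : ℝ) ^ (m - 1) * ((2 * (m : ℝ) + 3) / ((m : ℝ) + 1)) := by
        have hp : (3 / 2 : ℝ) ^ (m + 1 - 1) = (3 / 2) * (3 / 2 : ℝ) ^ (m - 1) := by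
          rw [← pow_succ']; congr 1; omega
        rw [hp]
        push_cast
        field_simp
        ring
      rw [e] at h3
      exact h3
    · rw [max_eq_left h]
      obtain ⟨h1, h2⟩ := val_one (D := m) hm 3
      have h3 := diam4_attained (n := 2 * m + 2) (D := m) (by omega) hm
        (fun i => if (i : ℕ) = 0 then 3 else 2) (fun i => by split_ifs <;> norm_num)
        (by rw [h1]; omega)
      rw [h2] at h3
      have e : (2 / (m : ℝ)) * ((3 / 2 : ℝ) ^ (m - 1) +
          ((m : ℝ) - 1) * ((2 - 1 / ((3 : ℕ) : ℝ)) * (3 / 2 : ℝ) ^ (m - 1) / (3 / 2))) =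
          (3 / 2 : ℝ) ^ (m - 1) * (2 * (10 * (m : ℝ) - 1) / (9 * (m : ℝ))) := by
        push_cast
        field_simp
        ring
      rw [e] at h3
      exact h3
  · intro x hx
    refine diam4_upper (n := 2 * m + 2) (by omega) _ ?_ x hx
    intro D d hD hd hs
    exact opt_odd hD hm d hd (by omega)

theorem diam_two (n : ℕ) (hn : 2 ≤ n) : IsGreatest (SD n 2) 2 := by
  constructor
  · have hT : (parGraph n (fun _ => 0)).IsTree := parGraph_isTree n (by omega) _ (fun i hi => by omega)
    refine ⟨parGraph n (fun _ => 0), hT, star_diam hn, ?_⟩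
    rw [lapRatio_eq _ hT hn]
    exact diam2_val _ hT hn (star_diam hn)
  · rintro _ ⟨T, hT, hd, rfl⟩
    rw [lapRatio_eq _ hT hn, diam2_val _ hT hn hd]

theorem two_sided (n k : ℕ) (hn : 3 ≤ n) (hk : 2 ≤ k) (hkn : k ≤ n) :
    (∀ d : ℕ, k - 1 ≤ d → d ≤ n - k → Phi k d (n - 1 - d) ≤ sSup (SM n k)) ∧
    sSup (SM n k) ≤ 2 ^ k * Real.exp (-((al k) ^ 2 / (4 * ((n : ℝ) + k - 2)))) := by
  constructor
  · intro d h1 h2
    obtain ⟨s, hs, hsum, hval⟩ := J37010.bal_attained (k := k) (d := d) (S := n - 1 - d) (by omega) (by omega)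
    rw [← hval]
    exact (SM_isGreatest n k (by omega) (by omega)).2
      (SV_le hk hn ⟨d, s, hs, h1, by omega, rfl⟩)
  · refine csSup_le (SM_nonempty n k (by omega) (by omega)) ?_
    rintro _ ⟨T, hT, hM, rfl⟩
    exact upper_exp T hT hn hk hkn hM

end Helper78.LapRatio
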