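import Mathlib
set_option autoImplicit false

theorem Sch.count_dim_aux {ι : Type} [Fintype ι] (S : Submodule ℝ (EuclideanSpace ℝ ι))
    (c : ℝ) (hc : 0 ≤ c) (h : ∀ x ∈ S, ∀ i, (x i) ^ 2 ≤ c * ∑ k, (x k) ^ 2) :
    (Module.finrank ℝ S : ℝ) ≤ c * Fintype.card ι := by
  let b := stdOrthonormalBasis ℝ S
  have hcoord : ∀ i, ∑ j, ((b j : EuclideanSpace ℝ ι) i) ^ 2 ≤ c := by
    intro i
    set F : S := ∑ j, ((b j : EuclideanSpace ℝ ι) i) • b j with hF
    set t : ℝ := ∑ j, ((b j : EuclideanSpace ℝ ι) i) ^ 2 with ht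
    have ht0 : 0 ≤ t := Finset.sum_nonneg fun j _ => sq_nonneg _
    have hFi : (F : EuclideanSpace ℝ ι) i = t := by
      rw [hF, Submodule.coe_sum]
      simp only [Submodule.coe_smul, WithLp.ofLp_sum, WithLp.ofLp_smul, Finset.sum_apply,
        Pi.smul_apply, smul_eq_mul]
      rw [ht]
      exact Finset.sum_congr rfl fun j _ => by ring
    have hFn : ∑ k, ((F : EuclideanSpace ℝ ι) k) ^ 2 = t := by
      have h1 : inner ℝ F F = t := by
        rw [hF, b.orthonormal.inner_sum, ht]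
        exact Finset.sum_congr rfl fun j _ => by simp [sq]
      rw [real_inner_self_eq_norm_sq, ← Submodule.norm_coe, EuclideanSpace.real_norm_sq_eq] at h1
      exact h1
    have h2 := h F F.2 i
    rw [hFi, hFn] at h2
    rcases ht0.eq_or_lt with h0 | h0
    · rw [← h0]
      exact hc
    · nlinarith
  have hd : (Module.finrank ℝ S : ℝ) = ∑ j, ∑ i, ((b j : EuclideanSpace ℝ ι) i) ^ 2 := by
    have h3 : ∀ j, ∑ i, ((b j : EuclideanSpace ℝ ι) i) ^ 2 = 1 := by
      intro j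
      rw [← EuclideanSpace.real_norm_sq_eq, Submodule.norm_coe, b.orthonormal.1 j, one_pow]
    simp [h3]
  rw [hd, Finset.sum_comm]
  calc ∑ i, ∑ j, ((b j : EuclideanSpace ℝ ι) i) ^ 2 ≤ ∑ _i : ι, c :=
        Finset.sum_le_sum fun i _ => hcoord i
    _ = c * Fintype.card ι := by
        rw [Finset.sum_const, Finset.card_univ, nsmul_eq_mul, mul_comm]

theorem Sch.count_dim {E ι J : Type} [AddCommGroup E] [Module ℝ E] [FiniteDimensional ℝ E]
    [Fintype ι] [Fintype J] (K : Submodule ℝ E) (α : E →ₗ[ℝ] (ι → ℝ)) (φ : J → E →ₗ[ℝ] ℝ)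
    (c : ℝ) (hc : 0 ≤ c)
    (h1 : ∀ f ∈ K, (∀ j, φ j f = 0) → α f = 0 → f = 0)
    (h2 : ∀ f ∈ K, (∀ j, φ j f = 0) → ∀ i, (α f i) ^ 2 ≤ c * ∑ k, (α f k) ^ 2) :
    (Module.finrank ℝ K : ℝ) ≤ Fintype.card J + c * Fintype.card ι := by
  set Φ : E →ₗ[ℝ] (J → ℝ) := LinearMap.pi φ with hΦ
  set ψ : K →ₗ[ℝ] (J → ℝ) := Φ.domRestrict K with hψ
  set β : E →ₗ[ℝ] EuclideanSpace ℝ ι :=
    (WithLp.linearEquiv 2 ℝ (ι → ℝ)).symm.toLinearMap ∘ₗ α with hβ
  have hβi : ∀ f i, (β f) i = α f i := fun f i => rfl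
  set γ : LinearMap.ker ψ →ₗ[ℝ] EuclideanSpace ℝ ι :=
    β ∘ₗ K.subtype ∘ₗ (LinearMap.ker ψ).subtype with hγ
  have hker : ∀ x : LinearMap.ker ψ, (∀ j, φ j ((x : K) : E) = 0) := by
    intro x j
    have h3 : ψ x = 0 := x.2
    exact congrFun h3 j
  have hinj : Function.Injective γ := by
    rw [injective_iff_map_eq_zero]
    intro x hx
    have h4 : α ((x : K) : E) = 0 := by
      funext i
      have h5 : (γ x) i = 0 := by rw [hx]; rfl
      exact h5
    have h6 := h1 _ (x : K).2 (hker x) h4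
    exact Subtype.ext (Subtype.ext h6)
  have hS : (Module.finrank ℝ (LinearMap.range γ) : ℝ) ≤ c * Fintype.card ι := by
    refine Sch.count_dim_aux _ c hc ?_
    rintro _ ⟨x, rfl⟩ i
    exact h2 _ (x : K).2 (hker x) i
  have e1 : Module.finrank ℝ (LinearMap.range γ) = Module.finrank ℝ (LinearMap.ker ψ) :=
    LinearMap.finrank_range_of_inj hinj
  have e2 : Module.finrank ℝ (LinearMap.range ψ) + Module.finrank ℝ (LinearMap.ker ψ)
      = Module.finrank ℝ K := LinearMap.finrank_range_add_finrank_ker ψ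
  have e3 : Module.finrank ℝ (LinearMap.range ψ) ≤ Fintype.card J := by
    have := Submodule.finrank_le (LinearMap.range ψ)
    rwa [Module.finrank_pi] at this
  rw [e1] at hS
  have e4 : (Module.finrank ℝ K : ℝ) = (Module.finrank ℝ (LinearMap.range ψ) : ℝ)
      + (Module.finrank ℝ (LinearMap.ker ψ) : ℝ) := by exact_mod_cast e2.symm
  have e5 : (Module.finrank ℝ (LinearMap.range ψ) : ℝ) ≤ Fintype.card J := by exact_mod_cast e3
  rw [e4]
  linarith
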