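import Pool.Agent.Helper78.SchHg
set_option autoImplicit false
set_option linter.unusedSectionVars false
namespace Sch
open Finset Matrix

section jobs
variable {V ι : Type} [Fintype V] [DecidableEq V] [Fintype ι] [DecidableEq ι] {L : Matrix V V ℝ}
  {Δ R s : ℕ} {θ : ℝ} {π : V → ι} {h : V → ℝ}

/-- comparison of the coordinates of `x` and `|x|` -/
theorem Lvl.al_ab (hS : Sys L Δ R) (hL : Lvl L s θ π h) (hR : 2 * s ≤ R) (hθ : 0 ≤ θ) (i : ι)
    (x : V → ℝ) (N : ℝ) (hN : Real.sqrt (nn L π i x) ≤ N) :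
    |al L π h i x| ≤ al L π h i (ab x) + 2 * θ * N ∧ al L π h i (ab x) ≤ |al L π h i x| + 2 * θ * N ∧
      - (θ * N) ≤ al L π h i (ab x) := by
  obtain ⟨u, rfl⟩ := hL.surj i
  have hu := hL.pos u
  have hn1 : Real.sqrt (nn L π (π u) (ab x)) ≤ N :=
    (Real.sqrt_le_sqrt (Lvl.nn_ab_le hS (π u) x)).trans hN
  have k1 := abs_le.1 (hL.K1 x u)
  have k2 := abs_le.1 (hL.K1 (ab x) u)
  have e : ab x u = |x u| := rfl
  rw [e] at k2
  have b1 : θ * Real.sqrt (nn L π (π u) x) * h u ≤ θ * N * h u := by gcongr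
  have b2 : θ * Real.sqrt (nn L π (π u) (ab x)) * h u ≤ θ * N * h u := by gcongr
  have hx0 := abs_nonneg (x u)
  have hx1 := le_abs_self (x u)
  have hx2 := neg_abs_le (x u)
  have ha1 := le_abs_self (al L π h (π u) x)
  have ha2 := neg_abs_le (al L π h (π u) x)
  refine ⟨?_, ?_, ?_⟩
  · have : |al L π h (π u) x| * h u ≤ (al L π h (π u) (ab x) + 2 * θ * N) * h u := by
      rw [← abs_of_pos hu, ← abs_mul, abs_of_pos hu, abs_le]
      constructor <;> nlinarith [k1.1, k1.2, k2.1, k2.2]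
    exact le_of_mul_le_mul_right this hu
  · have h3 : |x u| ≤ |al L π h (π u) x| * h u + θ * N * h u := by
      rw [abs_le]
      have h4 : al L π h (π u) x * h u ≤ |al L π h (π u) x| * h u :=
        mul_le_mul_of_nonneg_right ha1 hu.le
      have h5 : -|al L π h (π u) x| * h u ≤ al L π h (π u) x * h u :=
        mul_le_mul_of_nonneg_right ha2 hu.le
      constructor <;> nlinarith [k1.1, k1.2]
    have : al L π h (π u) (ab x) * h u ≤ (|al L π h (π u) x| + 2 * θ * N) * h u := by
      nlinarith [k2.1, k2.2]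
    exact le_of_mul_le_mul_right this hu
  · have : -(θ * N) * h u ≤ al L π h (π u) (ab x) * h u := by
      nlinarith [k2.1, k2.2]
    exact le_of_mul_le_mul_right this hu

end jobs
end Sch
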