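import Pool.Agent.Helper78.SchDefs
set_option autoImplicit false
set_option linter.unusedSectionVars false
namespace Sch
open Finset Matrix

section basic
variable {V : Type} [Fintype V] {L : Matrix V V ℝ}

lemma q_add_left (x y z : V → ℝ) : q L (x + y) z = q L x z + q L y z := by
  simp only [q, Pi.add_apply, add_mul, sum_add_distrib]

lemma q_smul_left (c : ℝ) (x z : V → ℝ) : q L (c • x) z = c * q L x z := by
  simp only [q, Pi.smul_apply, smul_eq_mul, mul_sum, mul_assoc]

lemma q_comm (hs : ∀ u v, L u v = L v u) (x y : V → ℝ) : q L x y = q L y x := by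
  unfold q
  rw [sum_comm]
  refine sum_congr rfl fun u _ => sum_congr rfl fun v _ => ?_
  rw [hs v u]; ring

lemma q_add_right (x y z : V → ℝ) : q L x (y + z) = q L x y + q L x z := by
  simp only [q, Pi.add_apply, mul_add, sum_add_distrib]

lemma q_smul_right (c : ℝ) (x z : V → ℝ) : q L x (c • z) = c * q L x z := by
  simp only [q, Pi.smul_apply, smul_eq_mul, mul_sum]
  refine sum_congr rfl fun u _ => sum_congr rfl fun v _ => ?_
  ring

lemma q_neg_left (x z : V → ℝ) : q L (-x) z = - q L x z := by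
  have := q_smul_left (L := L) (-1) x z
  simpa using this

lemma q_neg_right (x z : V → ℝ) : q L x (-z) = - q L x z := by
  have := q_smul_right (L := L) (-1) x z
  simpa using this

lemma q_sub_left (x y z : V → ℝ) : q L (x - y) z = q L x z - q L y z := by
  rw [sub_eq_add_neg, q_add_left, q_neg_left]; ring

lemma q_sub_right (x y z : V → ℝ) : q L x (y - z) = q L x y - q L x z := by
  rw [sub_eq_add_neg, q_add_right, q_neg_right]; ring

lemma q_zero_left (z : V → ℝ) : q L 0 z = 0 := by simp [q]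
lemma q_zero_right (z : V → ℝ) : q L z 0 = 0 := by simp [q]

lemma q_sum_left {ι : Type} (s : Finset ι) (x : ι → V → ℝ) (z : V → ℝ) :
    q L (∑ i ∈ s, x i) z = ∑ i ∈ s, q L (x i) z := by
  classical
  induction s using Finset.induction_on with
  | empty => simp [q_zero_left]
  | insert a s ha ih => rw [sum_insert ha, sum_insert ha, q_add_left, ih]

lemma q_sum_right {ι : Type} (s : Finset ι) (x : ι → V → ℝ) (z : V → ℝ) :
    q L z (∑ i ∈ s, x i) = ∑ i ∈ s, q L z (x i) := by
  classical
  induction s using Finset.induction_on with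
  | empty => simp [q_zero_right]
  | insert a s ha ih => rw [sum_insert ha, sum_insert ha, q_add_right, ih]

/-- pointwise absolute value -/
def ab (x : V → ℝ) : V → ℝ := fun v => |x v|

lemma q_ker {f : V → ℝ} (hf : ∀ u, ∑ v, L u v * f v = 0) (x : V → ℝ) : q L x f = 0 := by
  unfold q
  refine sum_eq_zero fun u _ => ?_
  have := hf u
  calc ∑ v, x u * L u v * f v = x u * ∑ v, L u v * f v := by
        rw [mul_sum]; exact sum_congr rfl fun v _ => by ring
    _ = 0 := by rw [this, mul_zero]

lemma LPD.nonneg {R : ℕ} (h : LPD L R) {S : Finset V} (hS : S.card ≤ R) {x : V → ℝ}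
    (hx : ∀ v, v ∉ S → x v = 0) : 0 ≤ q L x x := by
  by_cases h0 : x = 0
  · rw [h0, q_zero_left]
  · exact (h S hS x hx h0).le

lemma LPD.cs {R : ℕ} (h : LPD L R) (hs : ∀ u v, L u v = L v u) {S : Finset V} (hS : S.card ≤ R)
    {x y : V → ℝ} (hx : ∀ v, v ∉ S → x v = 0) (hy : ∀ v, v ∉ S → y v = 0) :
    (q L x y) ^ 2 ≤ q L x x * q L y y := by
  have key : ∀ t : ℝ, 0 ≤ q L y y * (t * t) + 2 * q L x y * t + q L x x := by
    intro t
    have h1 : 0 ≤ q L (x + t • y) (x + t • y) :=
      h.nonneg hS (fun v hv => by simp [hx v hv, hy v hv])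
    have h2 : q L (x + t • y) (x + t • y) = q L y y * (t * t) + 2 * q L x y * t + q L x x := by
      simp only [q_add_left, q_add_right, q_smul_left, q_smul_right]
      rw [q_comm hs y x]; ring
    linarith [h1, h2]
  have := discrim_le_zero key
  unfold discrim at this
  nlinarith [this]

lemma LPD.abs_le {R : ℕ} (h : LPD L R) (hs : ∀ u v, L u v = L v u) {S : Finset V} (hS : S.card ≤ R)
    {x y : V → ℝ} (hx : ∀ v, v ∉ S → x v = 0) (hy : ∀ v, v ∉ S → y v = 0) :
    |q L x y| ≤ Real.sqrt (q L x x) * Real.sqrt (q L y y) := by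
  rw [← Real.sqrt_mul (h.nonneg hS hx)]
  exact Real.abs_le_sqrt (h.cs hs hS hx hy)

lemma q_abs_le (ho : ∀ u v, u ≠ v → L u v ≤ 0) {x y : V → ℝ} (hxy : ∀ u, x u = 0 ∨ y u = 0) :
    |q L x y| ≤ - q L (ab x) (ab y) := by
  unfold q ab
  rw [← sum_neg_distrib]
  refine (abs_sum_le_sum_abs _ _).trans (sum_le_sum fun u _ => ?_)
  rw [← sum_neg_distrib]
  refine (abs_sum_le_sum_abs _ _).trans (sum_le_sum fun v _ => ?_)
  by_cases huv : u = v
  · subst huv
    rcases hxy u with h | h <;> simp [h]
  · rw [abs_mul, abs_mul, abs_of_nonpos (ho u v huv)]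
    ring_nf; rfl

lemma q_ab_le (ho : ∀ u v, u ≠ v → L u v ≤ 0) (x : V → ℝ) : q L (ab x) (ab x) ≤ q L x x := by
  unfold q ab
  refine sum_le_sum fun u _ => sum_le_sum fun v _ => ?_
  by_cases huv : u = v
  · subst huv
    have : |x u| * |x u| = x u * x u := abs_mul_abs_self _
    calc |x u| * L u u * |x u| = (|x u| * |x u|) * L u u := by ring
      _ = x u * L u u * x u := by rw [this]; ring
      _ ≤ _ := le_rfl
  · have h1 := ho u v huv
    have h2 : x u * x v ≤ |x u| * |x v| := by rw [← abs_mul]; exact le_abs_self _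
    nlinarith

lemma q_nonpos_of_nonneg (ho : ∀ u v, u ≠ v → L u v ≤ 0) {x y : V → ℝ} (hx : ∀ u, 0 ≤ x u)
    (hy : ∀ u, 0 ≤ y u) (hxy : ∀ u, x u = 0 ∨ y u = 0) : q L x y ≤ 0 := by
  unfold q
  refine sum_nonpos fun u _ => sum_nonpos fun v _ => ?_
  by_cases huv : u = v
  · subst huv
    rcases hxy u with h | h <;> simp [h]
  · have h1 := ho u v huv
    have := mul_nonneg (mul_nonneg (hx u) (neg_nonneg.2 h1)) (hy v)
    nlinarith

/-- monotonicity of `-q` in nonneg arguments with disjoint supports -/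
lemma neg_q_mono (ho : ∀ u v, u ≠ v → L u v ≤ 0) {x x' y : V → ℝ} (hx : ∀ u, x u ≤ x' u)
    (hy : ∀ u, 0 ≤ y u) (hxy : ∀ u, (x u = 0 ∧ x' u = 0) ∨ y u = 0) : - q L x y ≤ - q L x' y := by
  have := q_nonpos_of_nonneg ho (x := x' - x) (y := y) (fun u => sub_nonneg.2 (hx u)) hy
    (fun u => by rcases hxy u with h | h
                 · left; simp [h.1, h.2]
                 · right; exact h)
  rw [q_sub_left] at this; linarith

end basic

section blocks
variable {V ι : Type} [Fintype V] [DecidableEq ι] {L : Matrix V V ℝ} {π : V → ι} {h : V → ℝ}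

lemma blk_add (i : ι) (x y : V → ℝ) : blk π i (x + y) = blk π i x + blk π i y := by
  funext v; simp only [blk, Pi.add_apply]; split_ifs <;> simp
lemma blk_smul (i : ι) (c : ℝ) (x : V → ℝ) : blk π i (c • x) = c • blk π i x := by
  funext v; simp only [blk, Pi.smul_apply, smul_eq_mul]; split_ifs <;> simp
lemma blk_sub (i : ι) (x y : V → ℝ) : blk π i (x - y) = blk π i x - blk π i y := by
  funext v; simp only [blk, Pi.sub_apply]; split_ifs <;> simp
lemma blk_ab (i : ι) (x : V → ℝ) : blk π i (ab x) = ab (blk π i x) := by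
  funext v; simp only [blk, ab]; split_ifs <;> simp
lemma blk_zero (i : ι) : blk π i (0 : V → ℝ) = 0 := by
  funext v; simp [blk]
lemma blk_blk (i : ι) (x : V → ℝ) : blk π i (blk π i x) = blk π i x := by
  funext v; simp only [blk]; split_ifs <;> simp
lemma blk_blk_ne {i j : ι} (hij : i ≠ j) (x : V → ℝ) : blk π i (blk π j x) = 0 := by
  funext v; simp only [blk]
  by_cases hi : π v = i
  · rw [if_pos hi, if_neg (by rw [hi]; exact hij)]; rfl
  · rw [if_neg hi]; rfl

lemma sum_blk [Fintype ι] (x : V → ℝ) : ∑ i, blk π i x = x := by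
  funext v; simp [blk, Finset.sum_apply]

lemma blk_supp (i : ι) (x : V → ℝ) (v : V) (hv : v ∉ univ.filter (fun v => π v = i)) :
    blk π i x v = 0 := by
  simp only [mem_filter, mem_univ, true_and] at hv
  simp [blk, hv]

lemma blk_ne {i : ι} {v : V} (hv : π v ≠ i) (x : V → ℝ) : blk π i x v = 0 := by simp [blk, hv]
lemma blk_eq {i : ι} {v : V} (hv : π v = i) (x : V → ℝ) : blk π i x v = x v := by simp [blk, hv]

lemma blk_disj {i j : ι} (hij : i ≠ j) (x y : V → ℝ) (u : V) : blk π i x u = 0 ∨ blk π j y u = 0 := by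
  by_cases hi : π u = i
  · right; exact blk_ne (by rw [hi]; exact hij) y
  · left; exact blk_ne hi x

lemma q_expand [Fintype ι] (x y : V → ℝ) : q L x y = ∑ i, ∑ j, q L (blk π i x) (blk π j y) := by
  conv_lhs => rw [← sum_blk (π := π) x, ← sum_blk (π := π) y]
  rw [q_sum_left]
  exact sum_congr rfl fun i _ => q_sum_right _ _ _

lemma w_symm (hs : ∀ u v, L u v = L v u) (i j : ι) : w L π h i j = w L π h j i := by
  unfold w
  by_cases hij : i = j
  · subst hij; rfl
  · rw [if_neg hij, if_neg (fun h => hij h.symm), q_comm hs]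

lemma w_nonneg (ho : ∀ u v, u ≠ v → L u v ≤ 0) (hp : ∀ v, 0 < h v) (i j : ι) : 0 ≤ w L π h i j := by
  unfold w
  split_ifs with hij
  · exact le_rfl
  · have := q_nonpos_of_nonneg ho (x := blk π i h) (y := blk π j h)
      (fun u => by simp only [blk]; split_ifs <;> [exact (hp u).le; exact le_rfl])
      (fun u => by simp only [blk]; split_ifs <;> [exact (hp u).le; exact le_rfl])
      (blk_disj hij h h)
    linarith

end blocks

section lvl
variable {V ι : Type} [Fintype V] [DecidableEq V] [DecidableEq ι] {L : Matrix V V ℝ}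
  {Δ R s : ℕ} {θ : ℝ} {π : V → ι} {h : V → ℝ}

lemma Lvl.blk_nonneg_q (hS : Sys L Δ R) (hL : Lvl L s θ π h) (hR : s ≤ R) (i : ι) (x : V → ℝ) :
    0 ≤ nn L π i x :=
  hS.lpd.nonneg ((hL.card_le i).trans hR) (blk_supp i x)

lemma Lvl.al_sq_le (hS : Sys L Δ R) (hL : Lvl L s θ π h) (hR : s ≤ R) (i : ι) (x : V → ℝ) :
    (al L π h i x) ^ 2 ≤ nn L π i x := by
  have := hS.lpd.cs hS.symm ((hL.card_le i).trans hR) (blk_supp (π := π) i x) (blk_supp (π := π) i h)
  rw [hL.norm i, mul_one] at this
  exact this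

lemma Lvl.abs_al_le (hS : Sys L Δ R) (hL : Lvl L s θ π h) (hR : s ≤ R) (i : ι) (x : V → ℝ) :
    |al L π h i x| ≤ Real.sqrt (nn L π i x) :=
  Real.abs_le_sqrt (hL.al_sq_le hS hR i x)

lemma Lvl.K1 (hL : Lvl L s θ π h) (x : V → ℝ) (u : V) :
    |x u - al L π h (π u) x * h u| ≤ θ * Real.sqrt (nn L π (π u) x) * h u := by
  have := hL.tight (π u) (blk π (π u) x) (fun v hv => blk_ne hv x) u rfl
  rw [blk_eq rfl] at this
  exact this

lemma Lvl.K1u (hL : Lvl L s θ π h) (x : V → ℝ) (u : V) :
    |x u| ≤ (|al L π h (π u) x| + θ * Real.sqrt (nn L π (π u) x)) * h u := by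
  have h1 := hL.K1 x u
  have h2 := abs_add_le (x u - al L π h (π u) x * h u) (al L π h (π u) x * h u)
  rw [sub_add_cancel, abs_mul, abs_of_pos (hL.pos u)] at h2
  nlinarith

lemma Lvl.K1l (hL : Lvl L s θ π h) (x : V → ℝ) (u : V) :
    (al L π h (π u) x - θ * Real.sqrt (nn L π (π u) x)) * h u ≤ x u := by
  have h1 := (abs_le.1 (hL.K1 x u)).1
  nlinarith

lemma Lvl.nn_ab_le (hS : Sys L Δ R) (i : ι) (x : V → ℝ) : nn L π i (ab x) ≤ nn L π i x := by
  unfold nn
  rw [blk_ab]
  exact q_ab_le hS.offdiag _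

lemma Lvl.K2 (hS : Sys L Δ R) (hL : Lvl L s θ π h) (hθ : 0 ≤ θ) {i j : ι} (hij : i ≠ j) (x y : V → ℝ) :
    |q L (blk π i x) (blk π j y)| ≤
      (|al L π h i x| + θ * Real.sqrt (nn L π i x)) * (|al L π h j y| + θ * Real.sqrt (nn L π j y))
        * w L π h i j := by
  refine (q_abs_le hS.offdiag (blk_disj hij x y)).trans ?_
  set A := |al L π h i x| + θ * Real.sqrt (nn L π i x) with hA
  set B := |al L π h j y| + θ * Real.sqrt (nn L π j y) with hB
  have hA0 : 0 ≤ A := by positivity
  have hB0 : 0 ≤ B := by positivity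
  have e1 : ∀ u, ab (blk π i x) u ≤ (A • blk π i h) u := by
    intro u
    by_cases hu : π u = i
    · have := hL.K1u x u
      simp only [ab, blk_eq hu, Pi.smul_apply, smul_eq_mul]
      rw [hu] at this; exact this
    · simp [ab, blk_ne hu]
  have e2 : ∀ u, ab (blk π j y) u ≤ (B • blk π j h) u := by
    intro u
    by_cases hu : π u = j
    · have := hL.K1u y u
      simp only [ab, blk_eq hu, Pi.smul_apply, smul_eq_mul]
      rw [hu] at this; exact this
    · simp [ab, blk_ne hu]
  have hh : ∀ k u, 0 ≤ blk π k h u := fun k u => by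
    simp only [blk]; split_ifs <;> [exact (hL.pos u).le; exact le_rfl]
  have s1 : - q L (ab (blk π i x)) (ab (blk π j y)) ≤ - q L (A • blk π i h) (ab (blk π j y)) := by
    refine neg_q_mono hS.offdiag e1 (fun u => abs_nonneg _) (fun u => ?_)
    by_cases hi : π u = i
    · right; simp [ab, blk_ne (show π u ≠ j by rw [hi]; exact hij)]
    · left; simp [ab, blk_ne hi]
  have s2 : - q L (A • blk π i h) (ab (blk π j y)) ≤ - q L (A • blk π i h) (B • blk π j h) := by
    rw [q_comm hS.symm (A • blk π i h), q_comm hS.symm (A • blk π i h)]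
    refine neg_q_mono hS.offdiag e2 (fun u => mul_nonneg hA0 (hh i u)) (fun u => ?_)
    by_cases hi : π u = j
    · right; simp [blk_ne (show π u ≠ i by rw [hi]; exact fun h => hij h.symm)]
    · left; simp [ab, blk_ne hi]
  refine s1.trans (s2.trans ?_)
  rw [q_smul_left, q_smul_right]
  unfold w
  rw [if_neg hij]
  nlinarith

lemma Lvl.w_le_one (hS : Sys L Δ R) (hL : Lvl L s θ π h) (hR : 2 * s ≤ R) (i j : ι) :
    w L π h i j ≤ 1 := by
  unfold w
  split_ifs with hij
  · exact zero_le_one
  · have hc : ((univ.filter (fun v => π v = i)) ∪ (univ.filter (fun v => π v = j))).card ≤ R := by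
      refine (card_union_le _ _).trans ?_
      have h1 := hL.card_le i
      have h2 := hL.card_le j
      omega
    have := hS.lpd.abs_le hS.symm (x := blk π i h) (y := blk π j h) hc
      (fun v hv => blk_supp i h v (fun h' => hv (mem_union_left _ h')))
      (fun v hv => blk_supp j h v (fun h' => hv (mem_union_right _ h')))
    rw [hL.norm i, hL.norm j, Real.sqrt_one, mul_one] at this
    linarith [(abs_le.1 this).1]

lemma Lvl.cross_le (hS : Sys L Δ R) (hL : Lvl L s θ π h) (hR : 2 * s ≤ R) (i j : ι) (x y : V → ℝ) :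
    |q L (blk π i x) (blk π j y)| ≤ Real.sqrt (nn L π i x) * Real.sqrt (nn L π j y) := by
  have hc : ((univ.filter (fun v => π v = i)) ∪ (univ.filter (fun v => π v = j))).card ≤ R := by
    refine (card_union_le _ _).trans ?_
    have h1 := hL.card_le i
    have h2 := hL.card_le j
    omega
  exact hS.lpd.abs_le hS.symm (x := blk π i x) (y := blk π j y) hc
      (fun v hv => blk_supp i x v (fun h' => hv (mem_union_left _ h')))
      (fun v hv => blk_supp j y v (fun h' => hv (mem_union_right _ h')))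

/-- no entries between blocks of weight zero -/
lemma Lvl.w_zero (hS : Sys L Δ R) (hL : Lvl L s θ π h) {i j : ι} (hij : i ≠ j)
    (hw : w L π h i j = 0) (u v : V) (hu : π u = i) (hv : π v = j) : L u v = 0 := by
  unfold w q at hw
  rw [if_neg hij, neg_eq_zero] at hw
  have hle : ∀ a b, blk π i h a * L a b * blk π j h b ≤ 0 := by
    intro a b
    by_cases ha : π a = i
    · by_cases hb : π b = j
      · have hab : a ≠ b := by rintro rfl; exact hij (ha.symm.trans hb)
        rw [blk_eq ha, blk_eq hb]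
        have := mul_nonneg (mul_nonneg (hL.pos a).le (neg_nonneg.2 (hS.offdiag a b hab))) (hL.pos b).le
        nlinarith
      · simp [blk_ne hb]
    · simp [blk_ne ha]
  have h1 := (sum_eq_zero_iff_of_nonpos (fun a _ => sum_nonpos fun b _ => hle a b)).1 hw u (mem_univ u)
  have h2 := (sum_eq_zero_iff_of_nonpos (fun b _ => hle u b)).1 h1 v (mem_univ v)
  rw [blk_eq hu, blk_eq hv] at h2
  have h3 := (hL.pos u).ne'
  have h4 := (hL.pos v).ne'
  simpa [h3, h4] using h2

lemma Lvl.q_zero (hS : Sys L Δ R) (hL : Lvl L s θ π h) {i j : ι} (hij : i ≠ j)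
    (hw : w L π h i j = 0) (x y : V → ℝ) : q L (blk π i x) (blk π j y) = 0 := by
  unfold q
  refine sum_eq_zero fun u _ => sum_eq_zero fun v _ => ?_
  by_cases hu : π u = i
  · by_cases hv : π v = j
    · rw [hL.w_zero hS hij hw u v hu hv]; ring
    · simp [blk_ne hv]
  · simp [blk_ne hu]

/-- block degree -/
lemma Lvl.bdeg [Fintype ι] (hS : Sys L Δ R) (hL : Lvl L s θ π h) (i : ι) :
    (univ.filter (fun j => w L π h i j ≠ 0)).card ≤ s * Δ := by
  have hsub : (univ.filter (fun j => w L π h i j ≠ 0)) ⊆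
      (univ.filter (fun v => π v = i)).biUnion
        (fun u => (univ.filter (fun v => v ≠ u ∧ L u v ≠ 0)).image π) := by
    intro j hj
    simp only [mem_filter, mem_univ, true_and] at hj
    have hij : i ≠ j := by rintro rfl; exact hj (by simp [w])
    by_contra hc
    apply hj
    unfold w q
    rw [if_neg hij, neg_eq_zero]
    refine sum_eq_zero fun u _ => sum_eq_zero fun v _ => ?_
    by_cases hu : π u = i
    · by_cases hv : π v = j
      · have : L u v = 0 := by
          by_contra hne
          apply hc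
          simp only [mem_biUnion, mem_filter, mem_univ, true_and, mem_image]
          exact ⟨u, hu, v, ⟨by rintro rfl; exact hij (hu.symm.trans hv), hne⟩, hv⟩
        rw [this]; ring
      · simp [blk_ne hv]
    · simp [blk_ne hu]
  refine (card_le_card hsub).trans ?_
  refine (card_biUnion_le_card_mul _ _ Δ (fun u _ => card_image_le.trans (hS.deg u))).trans ?_
  exact Nat.mul_le_mul_right _ (hL.card_le i)

/-- propagation step -/
lemma Lvl.prop [Fintype ι] (hS : Sys L Δ R) (hL : Lvl L s θ π h) (hθ : 0 ≤ θ) {S : Finset V}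
    (hc : S.card + s ≤ R) {x : V → ℝ} (hx : ∀ v, v ∉ S → x v = 0) {i j : ι} (hij : i ≠ j) :
    w L π h i j * (al L π h i (ab x) - θ * Real.sqrt (nn L π i x)) - Real.sqrt (q L x x)
      ≤ al L π h j (ab x) := by
  have hcc : (S ∪ (univ.filter (fun v => π v = j))).card ≤ R := by
    refine (card_union_le _ _).trans ?_
    have := hL.card_le j
    omega
  have h1 := hS.lpd.abs_le hS.symm (x := ab x) (y := blk π j h) hcc
    (fun v hv => by simp [ab, hx v (fun h' => hv (mem_union_left _ h'))])
    (fun v hv => blk_supp j h v (fun h' => hv (mem_union_right _ h')))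
  rw [hL.norm j, Real.sqrt_one, mul_one] at h1
  have h2 : - Real.sqrt (q L x x) ≤ q L (ab x) (blk π j h) :=
    le_trans (neg_le_neg (Real.sqrt_le_sqrt (q_ab_le hS.offdiag x))) (abs_le.1 h1).1
  have hh : ∀ k u, 0 ≤ blk π k h u := fun k u => by
    simp only [blk]; split_ifs <;> [exact (hL.pos u).le; exact le_rfl]
  have h3 : q L (ab x) (blk π j h) ≤ al L π h j (ab x) + q L (blk π i (ab x)) (blk π j h) := by
    have e : q L (ab x) (blk π j h) = ∑ k, q L (blk π k (ab x)) (blk π j h) := by
      conv_lhs => rw [← sum_blk (π := π) (ab x)]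
      rw [q_sum_left]
    rw [e, ← Finset.add_sum_erase _ _ (mem_univ j)]
    unfold al
    refine add_le_add le_rfl ?_
    rw [← Finset.add_sum_erase _ _ (mem_erase.2 ⟨hij, mem_univ i⟩)]
    have : ∑ k ∈ (univ.erase j).erase i, q L (blk π k (ab x)) (blk π j h) ≤ 0 := by
      refine sum_nonpos fun k hk => ?_
      simp only [mem_erase, mem_univ, and_true] at hk
      refine q_nonpos_of_nonneg hS.offdiag (fun u => ?_) (hh j) (blk_disj hk.2 _ _)
      rw [blk_ab]; exact abs_nonneg _
    linarith
  have h4 : (al L π h i (ab x) - θ * Real.sqrt (nn L π i (ab x))) * w L π h i j ≤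
      - q L (blk π i (ab x)) (blk π j h) := by
    have := neg_q_mono hS.offdiag (L := L)
      (x := (al L π h i (ab x) - θ * Real.sqrt (nn L π i (ab x))) • blk π i h)
      (x' := blk π i (ab x)) (y := blk π j h) (fun u => ?_) (hh j) (fun u => ?_)
    · rw [q_smul_left] at this
      unfold w; rw [if_neg hij]
      linarith
    · by_cases hu : π u = i
      · have := hL.K1l (ab x) u
        rw [hu] at this
        simpa [blk_eq hu] using this
      · simp [blk_ne hu]
    · by_cases hu : π u = i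
      · right; exact blk_ne (by rw [hu]; exact hij) h
      · left; simp [blk_ne hu]
  have h5 : θ * Real.sqrt (nn L π i (ab x)) ≤ θ * Real.sqrt (nn L π i x) :=
    mul_le_mul_of_nonneg_left (Real.sqrt_le_sqrt (Lvl.nn_ab_le hS i x)) hθ
  have hw := w_nonneg (π := π) hS.offdiag hL.pos i j
  nlinarith

end lvl
end Sch
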