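import Pool.Agent.Helper78.SchDefs
set_option autoImplicit false
set_option linter.unusedSectionVars false
namespace Sch
open Finset Matrix

section TruncAux

variable {V ι : Type} [Fintype V] [DecidableEq V] [Fintype ι] [DecidableEq ι]

theorem tr_q_comm {L : Matrix V V ℝ} (h : ∀ u v, L u v = L v u) (x y : V → ℝ) :
    q L x y = q L y x := by
  unfold q
  rw [Finset.sum_comm]
  apply Finset.sum_congr rfl
  intro u _
  apply Finset.sum_congr rfl
  intro v _
  rw [h v u]
  ring

theorem tr_q_add_left (L : Matrix V V ℝ) (x y z : V → ℝ) :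
    q L (x + y) z = q L x z + q L y z := by
  unfold q
  rw [← Finset.sum_add_distrib]
  apply Finset.sum_congr rfl
  intro u _
  rw [← Finset.sum_add_distrib]
  apply Finset.sum_congr rfl
  intro v _
  rw [Pi.add_apply]
  ring

theorem tr_q_add_right (L : Matrix V V ℝ) (x y z : V → ℝ) :
    q L z (x + y) = q L z x + q L z y := by
  unfold q
  rw [← Finset.sum_add_distrib]
  apply Finset.sum_congr rfl
  intro u _
  rw [← Finset.sum_add_distrib]
  apply Finset.sum_congr rfl
  intro v _
  rw [Pi.add_apply]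
  ring

theorem tr_q_scale (L : Matrix V V ℝ) (c : ℝ) (x : V → ℝ) :
    q L (fun v => c * x v) (fun v => c * x v) = c ^ 2 * q L x x := by
  unfold q
  rw [Finset.mul_sum]
  apply Finset.sum_congr rfl
  intro u _
  rw [Finset.mul_sum]
  apply Finset.sum_congr rfl
  intro v _
  ring

theorem tr_q_nonneg {L : Matrix V V ℝ} {R : ℕ} (h : LPD L R) (S : Finset V) (hS : S.card ≤ R)
    (x : V → ℝ) (hx : ∀ v, v ∉ S → x v = 0) : 0 ≤ q L x x := by
  by_cases h0 : x = 0
  · subst h0
    unfold q
    simp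
  · exact (h S hS x hx h0).le

theorem tr_sum (L : Matrix V V ℝ) (π : V → ι) (f : V → ℝ) (c : ι → ι → ℝ) :
    ∑ i, ∑ j, c i j * q L (blk π i f) (blk π j f) =
      ∑ u, ∑ v, c (π u) (π v) * (f u * L u v * f v) := by
  have h1 : ∀ i j, c i j * q L (blk π i f) (blk π j f) =
      ∑ u, ∑ v, c i j * (blk π i f u * L u v * blk π j f v) := by
    intro i j
    unfold q
    rw [Finset.mul_sum]
    apply Finset.sum_congr rfl
    intro u _
    rw [Finset.mul_sum]
  have h2 : ∑ i, ∑ j, c i j * q L (blk π i f) (blk π j f) =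
      ∑ i, ∑ j, ∑ u, ∑ v, c i j * (blk π i f u * L u v * blk π j f v) := by
    apply Finset.sum_congr rfl
    intro i _
    apply Finset.sum_congr rfl
    intro j _
    exact h1 i j
  rw [h2]
  have h3 : ∑ i, ∑ j, ∑ u, ∑ v, c i j * (blk π i f u * L u v * blk π j f v) =
      ∑ u, ∑ v, ∑ i, ∑ j, c i j * (blk π i f u * L u v * blk π j f v) := by
    have e1 : ∀ i, ∑ j, ∑ u, ∑ v, c i j * (blk π i f u * L u v * blk π j f v) =
        ∑ u, ∑ v, ∑ j, c i j * (blk π i f u * L u v * blk π j f v) := by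
      intro i
      rw [Finset.sum_comm]
      apply Finset.sum_congr rfl
      intro u _
      rw [Finset.sum_comm]
    rw [Finset.sum_congr rfl (fun i _ => e1 i), Finset.sum_comm]
    apply Finset.sum_congr rfl
    intro u _
    rw [Finset.sum_comm]
  rw [h3]
  apply Finset.sum_congr rfl
  intro u _
  apply Finset.sum_congr rfl
  intro v _
  rw [Finset.sum_eq_single (π u)]
  · rw [Finset.sum_eq_single (π v)]
    · unfold blk
      rw [if_pos rfl, if_pos rfl]
    · intro j _ hj
      unfold blk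
      rw [if_neg (Ne.symm hj)]
      ring
    · intro h
      exact absurd (Finset.mem_univ _) h
  · intro i _ hi
    apply Finset.sum_eq_zero
    intro j _
    have : blk π i f u = 0 := if_neg (Ne.symm hi)
    rw [this]
    ring
  · intro h
    exact absurd (Finset.mem_univ _) h

/-- adjacency of blocks -/
def tr_adj (L : Matrix V V ℝ) (π : V → ι) (i j : ι) : Prop :=
  i ≠ j ∧ ∃ u v, π u = i ∧ π v = j ∧ L u v ≠ 0

open Classical in
/-- neighbours of a block -/
noncomputable def tr_nbr (L : Matrix V V ℝ) (π : V → ι) (i : ι) : Finset ι :=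
  univ.filter (fun j => tr_adj L π i j)

theorem tr_mem_nbr (L : Matrix V V ℝ) (π : V → ι) (i j : ι) :
    j ∈ tr_nbr L π i ↔ tr_adj L π i j := by
  classical
  unfold tr_nbr
  rw [Finset.mem_filter]
  exact ⟨fun h => h.2, fun h => ⟨Finset.mem_univ _, h⟩⟩

theorem tr_adj_symm {L : Matrix V V ℝ} (h : ∀ u v, L u v = L v u) {π : V → ι} {i j : ι}
    (ha : tr_adj L π i j) : tr_adj L π j i := by
  obtain ⟨h1, u, v, hu, hv, h2⟩ := ha
  exact ⟨h1.symm, v, u, hv, hu, by rwa [h v u]⟩

theorem tr_deg {L : Matrix V V ℝ} {Δ R s : ℕ} {θ : ℝ} {π : V → ι} {h : V → ℝ}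
    (hS : Sys L Δ R) (hL : Lvl L s θ π h) (i : ι) : (tr_nbr L π i).card ≤ s * Δ := by
  classical
  have hsub : tr_nbr L π i ⊆ (univ.filter (fun v => π v = i)).biUnion
      (fun u => (univ.filter (fun v => v ≠ u ∧ L u v ≠ 0)).image π) := by
    intro j hj
    rw [tr_mem_nbr] at hj
    obtain ⟨h1, u, v, hu, hv, h2⟩ := hj
    rw [Finset.mem_biUnion]
    refine ⟨u, Finset.mem_filter.2 ⟨Finset.mem_univ _, hu⟩, ?_⟩
    rw [Finset.mem_image]
    refine ⟨v, Finset.mem_filter.2 ⟨Finset.mem_univ _, ?_, h2⟩, hv⟩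
    rintro rfl
    exact h1 (hu.symm.trans hv)
  refine le_trans (Finset.card_le_card hsub) (le_trans Finset.card_biUnion_le ?_)
  calc ∑ u ∈ univ.filter (fun v => π v = i),
        ((univ.filter (fun v => v ≠ u ∧ L u v ≠ 0)).image π).card
      ≤ ∑ u ∈ univ.filter (fun v => π v = i), Δ := by
        apply Finset.sum_le_sum
        intro u _
        exact le_trans Finset.card_image_le (hS.deg u)
    _ = (univ.filter (fun v => π v = i)).card * Δ := by
        rw [Finset.sum_const, smul_eq_mul]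
    _ ≤ s * Δ := Nat.mul_le_mul_right _ (hL.card_le i)

/-- balls in the block graph -/
noncomputable def tr_BB (L : Matrix V V ℝ) (π : V → ι) (i0 : ι) : ℕ → Finset ι
  | 0 => {i0}
  | k + 1 => tr_BB L π i0 k ∪ (tr_BB L π i0 k).biUnion (tr_nbr L π)

theorem tr_BB_card {L : Matrix V V ℝ} {Δ R s : ℕ} {θ : ℝ} {π : V → ι} {h : V → ℝ}
    (hS : Sys L Δ R) (hL : Lvl L s θ π h) (i0 : ι) (k : ℕ) :
    (tr_BB L π i0 k).card ≤ (s * Δ + 1) ^ k := by
  induction k with
  | zero => simp [tr_BB]
  | succ k ih =>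
    unfold tr_BB
    refine le_trans (Finset.card_union_le _ _) ?_
    have h1 : ((tr_BB L π i0 k).biUnion (tr_nbr L π)).card ≤ (tr_BB L π i0 k).card * (s * Δ) :=
      Finset.card_biUnion_le_card_mul _ _ _ (fun i _ => tr_deg hS hL i)
    calc (tr_BB L π i0 k).card + ((tr_BB L π i0 k).biUnion (tr_nbr L π)).card
        ≤ (tr_BB L π i0 k).card + (tr_BB L π i0 k).card * (s * Δ) := Nat.add_le_add_left h1 _
      _ = (tr_BB L π i0 k).card * (s * Δ + 1) := by ring
      _ ≤ (s * Δ + 1) ^ k * (s * Δ + 1) := Nat.mul_le_mul_right _ ih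
      _ = (s * Δ + 1) ^ (k + 1) := by ring

theorem tr_BB_mono (L : Matrix V V ℝ) (π : V → ι) (i0 : ι) {k l : ℕ} (h : k ≤ l) :
    tr_BB L π i0 k ⊆ tr_BB L π i0 l := by
  induction l, h using Nat.le_induction with
  | base => exact Finset.Subset.refl _
  | succ l _ ih => exact ih.trans Finset.subset_union_left

theorem tr_BB_i0 (L : Matrix V V ℝ) (π : V → ι) (i0 : ι) (k : ℕ) : i0 ∈ tr_BB L π i0 k :=
  tr_BB_mono L π i0 (Nat.zero_le k) (Finset.mem_singleton_self i0)

theorem tr_BB_adj (L : Matrix V V ℝ) (π : V → ι) (i0 : ι) (k : ℕ) {i j : ι}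
    (hi : i ∈ tr_BB L π i0 k) (h : tr_adj L π i j) : j ∈ tr_BB L π i0 (k + 1) := by
  unfold tr_BB
  rw [Finset.mem_union, Finset.mem_biUnion]
  right
  exact ⟨i, hi, (tr_mem_nbr L π i j).2 h⟩

/-- number of balls containing a block -/
noncomputable def tr_N (L : Matrix V V ℝ) (π : V → ι) (i0 : ι) (r : ℕ) (i : ι) : ℕ :=
  ((range r).filter (fun k => i ∈ tr_BB L π i0 k)).card

theorem tr_N_le (L : Matrix V V ℝ) (π : V → ι) (i0 : ι) (r : ℕ) (i : ι) :
    tr_N L π i0 r i ≤ r := by
  unfold tr_N
  refine le_trans (Finset.card_filter_le _ _) ?_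
  rw [Finset.card_range]

theorem tr_N_i0 (L : Matrix V V ℝ) (π : V → ι) (i0 : ι) (r : ℕ) :
    tr_N L π i0 r i0 = r := by
  unfold tr_N
  rw [Finset.filter_true_of_mem (fun k _ => tr_BB_i0 L π i0 k), Finset.card_range]

theorem tr_N_zero (L : Matrix V V ℝ) (π : V → ι) (i0 : ι) (r : ℕ) (i : ι)
    (h : i ∉ tr_BB L π i0 (r - 1)) : tr_N L π i0 r i = 0 := by
  unfold tr_N
  rw [Finset.card_eq_zero, Finset.filter_eq_empty_iff]
  intro k hk hi
  rw [Finset.mem_range] at hk
  exact h (tr_BB_mono L π i0 (by omega) hi)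

theorem tr_N_adj (L : Matrix V V ℝ) (π : V → ι) (i0 : ι) (r : ℕ) {i j : ι}
    (h : tr_adj L π i j) : tr_N L π i0 r i ≤ tr_N L π i0 r j + 1 := by
  classical
  unfold tr_N
  have h1 : (((range r).filter (fun k => i ∈ tr_BB L π i0 k)).image (fun k => k + 1)) ⊆
      insert r ((range r).filter (fun k => j ∈ tr_BB L π i0 k)) := by
    intro m hm
    rw [Finset.mem_image] at hm
    obtain ⟨k, hk, rfl⟩ := hm
    rw [Finset.mem_filter, Finset.mem_range] at hk
    rw [Finset.mem_insert, Finset.mem_filter, Finset.mem_range]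
    by_cases hkr : k + 1 = r
    · exact Or.inl hkr
    · exact Or.inr ⟨by omega, tr_BB_adj L π i0 k hk.2 h⟩
  have h2 := Finset.card_le_card h1
  rw [Finset.card_image_of_injective _ (fun a b hab => Nat.succ_injective hab)] at h2
  exact le_trans h2 (Finset.card_insert_le _ _)

end TruncAux

/-- truncation of a kernel vector -/
theorem trunc {V ι : Type} [Fintype V] [DecidableEq V] [Fintype ι] [DecidableEq ι]
    {L : Matrix V V ℝ} {Δ R s : ℕ} {θ : ℝ} {π : V → ι} {h : V → ℝ}
    (hS : Sys L Δ R) (hL : Lvl L s θ π h) (hR : 2 * s ≤ R)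
    {f : V → ℝ} (hf : ∀ u, ∑ v, L u v * f v = 0) (i0 : ι) (r : ℕ) (hr : 1 ≤ r) :
    ∃ (g : V → ℝ) (B : Finset ι), B.card ≤ (s * Δ + 1) ^ r ∧ (∀ v, π v ∉ B → g v = 0) ∧
      (∀ v, π v = i0 → g v = f v) ∧ (∀ i, nn L π i g ≤ nn L π i f) ∧
      q L g g ≤ ((s * Δ : ℕ) : ℝ) / (2 * (r : ℝ) ^ 2) * QQ L π f := by
  classical
  have hr0 : (0 : ℝ) < r := by
    exact_mod_cast (show 0 < r by omega)
  obtain ⟨chi, hchi⟩ : ∃ chi : ι → ℝ, chi = fun i => (tr_N L π i0 r i : ℝ) / r := ⟨_, rfl⟩
  have hchi0 : ∀ i, 0 ≤ chi i := by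
    intro i
    rw [hchi]
    positivity
  have hchi1 : ∀ i, chi i ≤ 1 := by
    intro i
    rw [hchi]
    simp only
    rw [div_le_one hr0]
    exact_mod_cast tr_N_le L π i0 r i
  have hchiadj : ∀ i j, tr_adj L π i j → (chi i - chi j) ^ 2 ≤ 1 / (r : ℝ) ^ 2 := by
    intro i j hij
    have h1 := tr_N_adj L π i0 r hij
    have h2 := tr_N_adj L π i0 r (tr_adj_symm hS.symm hij)
    have h1' : (tr_N L π i0 r i : ℝ) ≤ tr_N L π i0 r j + 1 := by exact_mod_cast h1
    have h2' : (tr_N L π i0 r j : ℝ) ≤ tr_N L π i0 r i + 1 := by exact_mod_cast h2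
    have h3 : ((tr_N L π i0 r i : ℝ) - tr_N L π i0 r j) ^ 2 ≤ 1 := by
      rw [sq_le_one_iff_abs_le_one, abs_le]
      constructor <;> linarith
    rw [hchi]
    simp only
    rw [← sub_div, div_pow]
    exact div_le_div_of_nonneg_right h3 (by positivity)
  obtain ⟨g, hg⟩ : ∃ g : V → ℝ, g = fun v => chi (π v) * f v := ⟨_, rfl⟩
  have hblk : ∀ i, 0 ≤ nn L π i f := by
    intro i
    unfold nn
    apply tr_q_nonneg hS.lpd (univ.filter (fun v => π v = i))
      (le_trans (hL.card_le i) (by omega))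
    intro v hv
    unfold blk
    rw [if_neg]
    intro h
    exact hv (Finset.mem_filter.2 ⟨Finset.mem_univ _, h⟩)
  have hpair : ∀ i j, -q L (blk π i f) (blk π j f) ≤ (nn L π i f + nn L π j f) / 2 := by
    intro i j
    have h1 : 0 ≤ q L (blk π i f + blk π j f) (blk π i f + blk π j f) := by
      apply tr_q_nonneg hS.lpd (univ.filter (fun v => π v = i) ∪ univ.filter (fun v => π v = j))
      · refine le_trans (Finset.card_union_le _ _) ?_
        have h1 := hL.card_le i
        have h2 := hL.card_le j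
        omega
      · intro v hv
        rw [Finset.mem_union, Finset.mem_filter, Finset.mem_filter] at hv
        rw [Pi.add_apply]
        unfold blk
        rw [if_neg (fun h => hv (Or.inl ⟨Finset.mem_univ _, h⟩)),
          if_neg (fun h => hv (Or.inr ⟨Finset.mem_univ _, h⟩)), add_zero]
    rw [tr_q_add_left, tr_q_add_right, tr_q_add_right,
      tr_q_comm hS.symm (blk π j f) (blk π i f)] at h1
    unfold nn
    linarith
  -- the identity
  have hqg : q L g g = ∑ i, ∑ j, (chi i * chi j) * q L (blk π i f) (blk π j f) := by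
    rw [tr_sum L π f (fun i j => chi i * chi j)]
    unfold q
    rw [hg]
    apply Finset.sum_congr rfl
    intro u _
    apply Finset.sum_congr rfl
    intro v _
    ring
  have hz1 : ∑ i, ∑ j, (chi i ^ 2) * q L (blk π i f) (blk π j f) = 0 := by
    rw [tr_sum L π f (fun i _ => chi i ^ 2)]
    apply Finset.sum_eq_zero
    intro u _
    have : ∑ v, chi (π u) ^ 2 * (f u * L u v * f v) =
        chi (π u) ^ 2 * f u * ∑ v, L u v * f v := by
      rw [Finset.mul_sum]
      apply Finset.sum_congr rfl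
      intro v _
      ring
    rw [this, hf u, mul_zero]
  have hz2 : ∑ i, ∑ j, (chi j ^ 2) * q L (blk π i f) (blk π j f) = 0 := by
    rw [Finset.sum_comm, ← hz1]
    apply Finset.sum_congr rfl
    intro i _
    apply Finset.sum_congr rfl
    intro j _
    rw [tr_q_comm hS.symm]
  have hid : q L g g = ∑ i, ∑ j, (1 / 2 : ℝ) * ((chi i - chi j) ^ 2 *
      (-q L (blk π i f) (blk π j f))) := by
    have h1 : q L g g = q L g g - (1 / 2) * (∑ i, ∑ j, (chi i ^ 2) * q L (blk π i f) (blk π j f))
        - (1 / 2) * (∑ i, ∑ j, (chi j ^ 2) * q L (blk π i f) (blk π j f)) := by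
      rw [hz1, hz2]
      ring
    rw [h1, hqg, Finset.mul_sum, Finset.mul_sum, ← Finset.sum_sub_distrib,
      ← Finset.sum_sub_distrib]
    apply Finset.sum_congr rfl
    intro i _
    rw [Finset.mul_sum, Finset.mul_sum, ← Finset.sum_sub_distrib, ← Finset.sum_sub_distrib]
    apply Finset.sum_congr rfl
    intro j _
    ring
  have hterm : ∀ i j, (chi i - chi j) ^ 2 * (-q L (blk π i f) (blk π j f)) ≤
      (1 / (r : ℝ) ^ 2) * (if j ∈ tr_nbr L π i then (nn L π i f + nn L π j f) / 2 else 0) := by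
    intro i j
    by_cases hij : j ∈ tr_nbr L π i
    · rw [if_pos hij]
      have h1 := hchiadj i j ((tr_mem_nbr L π i j).1 hij)
      have h2 := hpair i j
      have h3 : 0 ≤ (nn L π i f + nn L π j f) / 2 := by
        have := hblk i
        have := hblk j
        linarith
      calc (chi i - chi j) ^ 2 * (-q L (blk π i f) (blk π j f))
          ≤ (chi i - chi j) ^ 2 * ((nn L π i f + nn L π j f) / 2) :=
            mul_le_mul_of_nonneg_left h2 (sq_nonneg _)
        _ ≤ (1 / (r : ℝ) ^ 2) * ((nn L π i f + nn L π j f) / 2) :=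
            mul_le_mul_of_nonneg_right h1 h3
    · rw [if_neg hij, mul_zero]
      by_cases hne : i = j
      · subst hne
        simp
      · have h0 : q L (blk π i f) (blk π j f) = 0 := by
          unfold q
          apply Finset.sum_eq_zero
          intro u _
          apply Finset.sum_eq_zero
          intro v _
          unfold blk
          by_cases hu : π u = i
          · by_cases hv : π v = j
            · have : L u v = 0 := by
                by_contra hL0
                exact hij ((tr_mem_nbr L π i j).2 ⟨hne, u, v, hu, hv, hL0⟩)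
              rw [this]
              ring
            · rw [if_neg hv]
              ring
          · rw [if_neg hu]
            ring
        rw [h0]
        simp
  have hdeg : ∑ i, ∑ j, (if j ∈ tr_nbr L π i then (nn L π i f + nn L π j f) / 2 else 0) ≤
      ((s * Δ : ℕ) : ℝ) * QQ L π f := by
    have h1 : ∑ i, ∑ j, (if j ∈ tr_nbr L π i then nn L π i f else 0) ≤
        ((s * Δ : ℕ) : ℝ) * QQ L π f := by
      unfold QQ
      rw [Finset.mul_sum]
      apply Finset.sum_le_sum
      intro i _
      rw [← Finset.sum_filter, Finset.sum_const, nsmul_eq_mul]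
      apply mul_le_mul_of_nonneg_right _ (hblk i)
      have h2 : (univ.filter (fun j => j ∈ tr_nbr L π i)) = tr_nbr L π i := by
        ext j
        simp
      rw [h2]
      exact_mod_cast tr_deg hS hL i
    have h2 : ∑ i, ∑ j, (if j ∈ tr_nbr L π i then nn L π j f else 0) =
        ∑ i, ∑ j, (if j ∈ tr_nbr L π i then nn L π i f else 0) := by
      rw [Finset.sum_comm]
      apply Finset.sum_congr rfl
      intro i _
      apply Finset.sum_congr rfl
      intro j _
      have : i ∈ tr_nbr L π j ↔ j ∈ tr_nbr L π i := by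
        rw [tr_mem_nbr, tr_mem_nbr]
        exact ⟨tr_adj_symm hS.symm, tr_adj_symm hS.symm⟩
      by_cases hij : j ∈ tr_nbr L π i
      · rw [if_pos hij, if_pos (this.2 hij)]
      · rw [if_neg hij, if_neg (fun h => hij (this.1 h))]
    have h3 : ∑ i, ∑ j, (if j ∈ tr_nbr L π i then (nn L π i f + nn L π j f) / 2 else 0) =
        (1 / 2) * (∑ i, ∑ j, (if j ∈ tr_nbr L π i then nn L π i f else 0)) +
        (1 / 2) * (∑ i, ∑ j, (if j ∈ tr_nbr L π i then nn L π j f else 0)) := by
      rw [Finset.mul_sum, Finset.mul_sum, ← Finset.sum_add_distrib]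
      apply Finset.sum_congr rfl
      intro i _
      rw [Finset.mul_sum, Finset.mul_sum, ← Finset.sum_add_distrib]
      apply Finset.sum_congr rfl
      intro j _
      split_ifs
      · ring
      · ring
    rw [h3, h2]
    linarith
  refine ⟨g, tr_BB L π i0 (r - 1), ?_, ?_, ?_, ?_, ?_⟩
  · refine le_trans (tr_BB_card hS hL i0 (r - 1)) ?_
    exact Nat.pow_le_pow_right (by omega) (by omega)
  · intro v hv
    rw [hg, hchi]
    simp only
    rw [tr_N_zero L π i0 r (π v) hv]
    simp
  · intro v hv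
    rw [hg, hchi]
    simp only
    rw [hv, tr_N_i0, div_self hr0.ne', one_mul]
  · intro i
    have h1 : blk π i g = fun v => chi i * blk π i f v := by
      funext v
      unfold blk
      rw [hg]
      by_cases hv : π v = i
      · simp only
        rw [if_pos hv, if_pos hv, hv]
      · rw [if_neg hv, if_neg hv, mul_zero]
    have h2 : nn L π i g = chi i ^ 2 * nn L π i f := by
      unfold nn
      rw [h1, tr_q_scale]
    rw [h2]
    apply mul_le_of_le_one_left (hblk i)
    exact pow_le_one₀ (hchi0 i) (hchi1 i)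
  · rw [hid]
    calc ∑ i, ∑ j, (1 / 2 : ℝ) * ((chi i - chi j) ^ 2 * (-q L (blk π i f) (blk π j f)))
        ≤ ∑ i, ∑ j, (1 / 2 : ℝ) * ((1 / (r : ℝ) ^ 2) *
          (if j ∈ tr_nbr L π i then (nn L π i f + nn L π j f) / 2 else 0)) := by
          apply Finset.sum_le_sum
          intro i _
          apply Finset.sum_le_sum
          intro j _
          exact mul_le_mul_of_nonneg_left (hterm i j) (by norm_num)
      _ = (1 / (2 * (r : ℝ) ^ 2)) * ∑ i, ∑ j,
          (if j ∈ tr_nbr L π i then (nn L π i f + nn L π j f) / 2 else 0) := by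
          rw [Finset.mul_sum]
          apply Finset.sum_congr rfl
          intro i _
          rw [Finset.mul_sum]
          apply Finset.sum_congr rfl
          intro j _
          field_simp
      _ ≤ (1 / (2 * (r : ℝ) ^ 2)) * (((s * Δ : ℕ) : ℝ) * QQ L π f) :=
          mul_le_mul_of_nonneg_left hdeg (by positivity)
      _ = ((s * Δ : ℕ) : ℝ) / (2 * (r : ℝ) ^ 2) * QQ L π f := by ring

end Sch
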