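import Pool.Agent.Helper78.SchWalk
import Pool.Agent.Helper78.SchTrunc
set_option autoImplicit false
set_option linter.unusedSectionVars false
namespace Sch
open Finset Matrix

section jobs
variable {V ι : Type} [Fintype V] [DecidableEq V] [Fintype ι] [DecidableEq ι] {L : Matrix V V ℝ}
  {Δ R s : ℕ} {θ : ℝ} {π : V → ι} {h : V → ℝ}

/-- a block close (in the heavy graph) to a block where the kernel vector vanishes carries little mass -/
theorem Lvl.big_block (hS : Sys L Δ R) (hL : Lvl L s θ π h) (hR : 2 * s ≤ R) (hθ : 0 ≤ θ) {δ : ℝ}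
    (hδ : 0 < δ) (hδ1 : δ ≤ 1) (k r : ℕ) (hr : 1 ≤ r) (hRr : s * (s * Δ + 1) ^ r + s ≤ R) (c₁ : ℝ)
    (hc₁ : 0 < c₁)
    (hpar : 2 * k * (θ + Real.sqrt ((s * Δ : ℕ) : ℝ) / r) < δ ^ (2 * k) * (Real.sqrt c₁ - 2 * θ))
    {f : V → ℝ} (hf : ∀ u, ∑ v, L u v * f v = 0) {i t : ι} (p : (Hg L π h δ).Walk i t)
    (hp : p.length ≤ 2 * k) (ht : ∀ v, π v = t → f v = 0) :
    (al L π h i f) ^ 2 ≤ c₁ * QQ L π f := by
  have hsR : s ≤ R := by omega
  have hnn : ∀ j, 0 ≤ nn L π j f := fun j => hL.blk_nonneg_q hS hsR j f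
  by_contra hcon
  push Not at hcon
  have hQ0 : 0 ≤ QQ L π f := Finset.sum_nonneg (fun j _ => hnn j)
  have hle : ∀ j, nn L π j f ≤ QQ L π f := fun j =>
    Finset.single_le_sum (f := fun j => nn L π j f) (fun j _ => hnn j) (mem_univ j)
  have hal := hL.al_sq_le hS hsR i f
  have hQpos : 0 < QQ L π f := by
    rcases hQ0.lt_or_eq with h1 | h1
    · exact h1
    · exfalso
      have h2 := hle i
      rw [← h1] at h2 hcon
      rw [mul_zero] at hcon
      linarith
  set N := √(QQ L π f) with hN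
  have hN0 : 0 < N := Real.sqrt_pos.mpr hQpos
  have hNsq : N ^ 2 = QQ L π f := Real.sq_sqrt hQ0
  have hal2 : √c₁ * N < |al L π h i f| := by
    have h1 : √c₁ * N = √(c₁ * QQ L π f) := by rw [Real.sqrt_mul hc₁.le]
    rw [h1, ← Real.sqrt_sq_eq_abs]
    exact Real.sqrt_lt_sqrt (by positivity) hcon
  obtain ⟨g, B, hB, hgB, hgi, hgn, hgq⟩ := trunc hS hL hR hf i r hr
  have hr0 : (0:ℝ) < r := by exact_mod_cast hr
  set D : ℝ := ((s * Δ : ℕ) : ℝ) with hD
  have hD0 : 0 ≤ D := Nat.cast_nonneg _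
  have hgE : √(q L g g) ≤ √D / r * N := by
    apply Real.sqrt_le_iff.mpr ⟨by positivity, ?_⟩
    rw [mul_pow, div_pow, Real.sq_sqrt hD0, hNsq]
    refine hgq.trans (mul_le_mul_of_nonneg_right ?_ hQ0)
    apply div_le_div_of_nonneg_left hD0 (by positivity)
    nlinarith [sq_nonneg (r:ℝ)]
  have hNg : ∀ j, √(nn L π j g) ≤ N := fun j => Real.sqrt_le_sqrt ((hgn j).trans (hle j))
  have hScard : (univ.filter (fun v => π v ∈ B)).card ≤ s * B.card := by
    have hsub : univ.filter (fun v => π v ∈ B) ⊆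
        B.biUnion (fun j => univ.filter (fun v => π v = j)) := by
      intro v hv
      rw [mem_filter] at hv
      rw [mem_biUnion]
      exact ⟨π v, hv.2, by rw [mem_filter]; exact ⟨mem_univ _, rfl⟩⟩
    refine (card_le_card hsub).trans ?_
    rw [mul_comm]
    exact card_biUnion_le_card_mul _ _ s (fun j _ => hL.card_le j)
  have hc : (univ.filter (fun v => π v ∈ B)).card + s ≤ R := by
    have h1 : s * B.card ≤ s * (s * Δ + 1) ^ r := Nat.mul_le_mul_left _ hB
    omega
  have hgS : ∀ v, v ∉ univ.filter (fun v => π v ∈ B) → g v = 0 := by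
    intro v hv
    apply hgB
    intro h1
    exact hv (by rw [mem_filter]; exact ⟨mem_univ _, h1⟩)
  have hali : al L π h i g = al L π h i f := by
    have h1 : blk π i g = blk π i f := by
      funext v
      by_cases hv : π v = i
      · rw [blk_eq hv, blk_eq hv, hgi v hv]
      · rw [blk_ne hv, blk_ne hv]
    unfold al
    rw [h1]
  have hft : blk π t f = 0 := by
    funext v
    by_cases hv : π v = t
    · rw [blk_eq hv, ht v hv]; rfl
    · rw [blk_ne hv]; rfl
  have hgt : blk π t g = 0 := by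
    by_contra hne
    have h1 := hS.lpd _ ((hL.card_le t).trans hsR) (blk π t g) (blk_supp t g) hne
    have h2 := hgn t
    unfold nn at h2
    rw [hft, q_zero_left] at h2
    linarith
  have halt : al L π h t (ab g) = 0 := by
    unfold al
    rw [blk_ab, hgt]
    have h1 : ab (0 : V → ℝ) = 0 := by
      funext v
      simp [ab]
    rw [h1, q_zero_left]
  have hwalk := hL.walk_prop hS hR hθ hδ hδ1 hc hgS N (√D / r * N) hNg hgE p
  rw [halt] at hwalk
  have hab := (hL.al_ab hS hR hθ i g N (hNg i)).1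
  rw [hali] at hab
  have hX : (√c₁ - 2 * θ) * N < al L π h i (ab g) := by linarith
  have hδk : 0 < δ ^ (2 * k) := pow_pos hδ _
  have hpos : 0 < √c₁ - 2 * θ := by
    have h1 : 0 ≤ 2 * k * (θ + √D / r) := by positivity
    have h2 : 0 < δ ^ (2 * k) * (√c₁ - 2 * θ) := lt_of_le_of_lt h1 hpar
    exact pos_of_mul_pos_right h2 hδk.le
  have hXpos : 0 < al L π h i (ab g) := lt_trans (mul_pos hpos hN0) hX
  have hpow : δ ^ (2 * k) ≤ δ ^ p.length := pow_le_pow_of_le_one hδ.le hδ1 hp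
  have hlen : (p.length : ℝ) ≤ 2 * k := by exact_mod_cast hp
  have hE0 : 0 ≤ θ * N + √D / r * N := by positivity
  have h1 : δ ^ (2 * k) * ((√c₁ - 2 * θ) * N) ≤ δ ^ p.length * al L π h i (ab g) :=
    mul_le_mul hpow hX.le (mul_pos hpos hN0).le (pow_pos hδ _).le
  have h2 : (p.length : ℝ) * (θ * N + √D / r * N) ≤ 2 * k * (θ * N + √D / r * N) :=
    mul_le_mul_of_nonneg_right hlen hE0
  have h3 := mul_lt_mul_of_pos_right hpar hN0
  nlinarith

end jobs
end Sch
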