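import Pool.Agent.Helper78.SchHg
set_option autoImplicit false
set_option linter.unusedSectionVars false
namespace Sch
open Finset Matrix

section jobs
variable {V ι : Type} [Fintype V] [DecidableEq V] [Fintype ι] [DecidableEq ι] {L : Matrix V V ℝ}
  {Δ R s : ℕ} {θ : ℝ} {π : V → ι} {h : V → ℝ}

lemma Lvl.epart_one (hS : Sys L Δ R) (hL : Lvl L s θ π h) (hR : 2 * s ≤ R) (hθ : 0 ≤ θ)
    (hθ2 : θ ≤ 1) {f : V → ℝ} (hf : ∀ u, ∑ v, L u v * f v = 0) (i : ι) :
    nn L π i f - (al L π h i f) ^ 2 ≤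
      4 * θ ^ 2 * ((s * Δ : ℕ) : ℝ) * ∑ j ∈ univ.filter (fun j => w L π h i j ≠ 0), nn L π j f := by
  have hsR : s ≤ R := by omega
  have hnn : ∀ j (x : V → ℝ), 0 ≤ nn L π j x := fun j x => hL.blk_nonneg_q hS hsR j x
  set A := al L π h i f with hA
  set e : V → ℝ := blk π i f - A • blk π i h with he
  have hbe : blk π i e = e := by
    rw [he, blk_sub, blk_smul, blk_blk, blk_blk]
  have h1 : q L e (blk π i h) = 0 := by
    rw [he, q_sub_left, q_smul_left, hL.norm i, hA]
    unfold al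
    ring
  have h2 : q L e (blk π i f) = nn L π i f - A ^ 2 := by
    rw [he, q_sub_left, q_smul_left, q_comm hS.symm (blk π i h), hA]
    unfold al nn
    ring
  have h3 : q L e e = nn L π i f - A ^ 2 := by
    conv_lhs => rw [he]
    rw [q_sub_right, q_smul_right, ← he, h1, h2]
    ring
  have hali : al L π h i e = 0 := by
    unfold al; rw [hbe, h1]
  have hnni : nn L π i e = nn L π i f - A ^ 2 := by
    unfold nn; rw [hbe, h3]; rfl
  set E := Real.sqrt (nn L π i e) with hE
  have hE0 : 0 ≤ E := Real.sqrt_nonneg _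
  have hEsq : E ^ 2 = nn L π i f - A ^ 2 := by
    rw [hE, Real.sq_sqrt (hnn i e), hnni]
  -- the bound for the cross terms
  have hcross : ∀ j, j ≠ i → |q L e (blk π j f)| ≤
      if w L π h i j ≠ 0 then 2 * θ * E * Real.sqrt (nn L π j f) else 0 := by
    intro j hj
    split_ifs with hw
    · have hk := Lvl.K2 hS hL hθ hj.symm e f
      rw [hbe, hali, abs_zero, zero_add, ← hE] at hk
      refine hk.trans ?_
      have hw1 := hL.w_le_one hS hR i j
      have hw0 := w_nonneg (π := π) hS.offdiag hL.pos i j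
      have ha := hL.abs_al_le hS hsR j f
      have hn := Real.sqrt_nonneg (nn L π j f)
      have hb : |al L π h j f| + θ * Real.sqrt (nn L π j f) ≤ 2 * Real.sqrt (nn L π j f) := by
        nlinarith
      have hb0 : 0 ≤ |al L π h j f| + θ * Real.sqrt (nn L π j f) := by positivity
      calc θ * E * (|al L π h j f| + θ * Real.sqrt (nn L π j f)) * w L π h i j
          ≤ θ * E * (|al L π h j f| + θ * Real.sqrt (nn L π j f)) * 1 :=
            mul_le_mul_of_nonneg_left hw1 (by positivity)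
        _ ≤ θ * E * (2 * Real.sqrt (nn L π j f)) := by
            rw [mul_one]
            exact mul_le_mul_of_nonneg_left hb (by positivity)
        _ = 2 * θ * E * Real.sqrt (nn L π j f) := by ring
    · push Not at hw
      have := hL.q_zero hS hj.symm hw e f
      rw [hbe] at this
      rw [this, abs_zero]
  set N := univ.filter (fun j => w L π h i j ≠ 0) with hN
  have hsum : E ^ 2 ≤ 2 * θ * E * ∑ j ∈ N, Real.sqrt (nn L π j f) := by
    have hq0 : q L e f = 0 := q_ker hf e
    have hq1 : q L e f = ∑ j, q L e (blk π j f) := by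
      conv_lhs => rw [← sum_blk (π := π) f]
      rw [q_sum_right]
    rw [hq1, ← Finset.add_sum_erase _ _ (mem_univ i), h2, ← hEsq] at hq0
    have hq2 : E ^ 2 = - ∑ j ∈ univ.erase i, q L e (blk π j f) := by linarith
    rw [hq2, ← Finset.sum_neg_distrib, mul_sum, hN, Finset.sum_filter]
    have hle : ∑ j ∈ univ.erase i, - q L e (blk π j f) ≤
        ∑ j ∈ univ.erase i, (if w L π h i j ≠ 0 then 2 * θ * E * Real.sqrt (nn L π j f) else 0) := by
      refine Finset.sum_le_sum fun j hj => ?_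
      exact (neg_le_abs _).trans (hcross j (Finset.ne_of_mem_erase hj))
    refine hle.trans ?_
    refine Finset.sum_le_sum_of_subset_of_nonneg (Finset.erase_subset _ _) fun j _ _ => ?_
    split_ifs <;> positivity
  set S := ∑ j ∈ N, Real.sqrt (nn L π j f) with hSdef
  have hS0 : 0 ≤ S := Finset.sum_nonneg fun j _ => Real.sqrt_nonneg _
  have hES : E ≤ 2 * θ * S := by
    rcases hE0.eq_or_lt with h0 | h0
    · rw [← h0]; exact mul_nonneg (mul_nonneg zero_le_two hθ) hS0
    · have h10 : E * E ≤ E * (2 * θ * S) := by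
        calc E * E = E ^ 2 := (sq E).symm
          _ ≤ 2 * θ * E * S := hsum
          _ = E * (2 * θ * S) := by ring
      exact le_of_mul_le_mul_left h10 h0
  have hcs : S ^ 2 ≤ (N.card : ℝ) * ∑ j ∈ N, nn L π j f := by
    have := sq_sum_le_card_mul_sum_sq (s := N) (f := fun j => Real.sqrt (nn L π j f))
    refine this.trans (le_of_eq ?_)
    congr 1
    exact Finset.sum_congr rfl fun j _ => Real.sq_sqrt (hnn j f)
  have hcard : (N.card : ℝ) ≤ ((s * Δ : ℕ) : ℝ) := by exact_mod_cast hL.bdeg hS i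
  have hsnn : 0 ≤ ∑ j ∈ N, nn L π j f := Finset.sum_nonneg fun j _ => hnn j f
  rw [← hEsq]
  calc E ^ 2 ≤ (2 * θ * S) ^ 2 := by gcongr
    _ = 4 * θ ^ 2 * S ^ 2 := by ring
    _ ≤ 4 * θ ^ 2 * (((s * Δ : ℕ) : ℝ) * ∑ j ∈ N, nn L π j f) := by
        refine mul_le_mul_of_nonneg_left (hcs.trans ?_) (by positivity)
        exact mul_le_mul_of_nonneg_right hcard hsnn
    _ = _ := by ring

/-- for kernel vectors the part orthogonal to the profiles is small -/
theorem Lvl.epart (hS : Sys L Δ R) (hL : Lvl L s θ π h) (hR : 2 * s ≤ R) (hθ : 0 ≤ θ)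
    (hθ2 : θ * (4 * ((s * Δ : ℕ) : ℝ) + 4) ≤ 1) {f : V → ℝ} (hf : ∀ u, ∑ v, L u v * f v = 0) :
    QQ L π f ≤ 2 * ∑ i, (al L π h i f) ^ 2 := by
  have hsR : s ≤ R := by omega
  have hnn : ∀ j (x : V → ℝ), 0 ≤ nn L π j x := fun j x => hL.blk_nonneg_q hS hsR j x
  set D : ℝ := ((s * Δ : ℕ) : ℝ) with hD
  have hD0 : 0 ≤ D := Nat.cast_nonneg _
  have hθ1 : θ ≤ 1 := by nlinarith
  have h4 : 4 * (θ * D) ≤ 1 := by nlinarith
  have hθD : 0 ≤ θ * D := by positivity
  have hone := fun i => Lvl.epart_one hS hL hR hθ hθ1 hf i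
  have hsum : ∑ i, (nn L π i f - (al L π h i f) ^ 2) ≤
      ∑ i, 4 * θ ^ 2 * D * ∑ j ∈ univ.filter (fun j => w L π h i j ≠ 0), nn L π j f :=
    Finset.sum_le_sum fun i _ => hone i
  rw [← Finset.mul_sum] at hsum
  have hswap : ∑ i, ∑ j ∈ univ.filter (fun j => w L π h i j ≠ 0), nn L π j f ≤ D * QQ L π f := by
    simp only [Finset.sum_filter]
    rw [Finset.sum_comm]
    unfold QQ
    rw [Finset.mul_sum]
    refine Finset.sum_le_sum fun j _ => ?_
    have h5 : ∑ i, (if w L π h i j ≠ 0 then nn L π j f else 0) =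
        ((univ.filter (fun i => w L π h j i ≠ 0)).card : ℝ) * nn L π j f := by
      rw [← Finset.sum_filter, Finset.sum_const, nsmul_eq_mul]
      congr 3
      ext i
      simp only [mem_filter, mem_univ, true_and]
      rw [w_symm hS.symm]
    rw [h5]
    exact mul_le_mul_of_nonneg_right (by rw [hD]; exact_mod_cast hL.bdeg hS j) (hnn j f)
  have hQ0 : 0 ≤ QQ L π f := Finset.sum_nonneg fun i _ => hnn i f
  have h6 : ∑ i, (nn L π i f - (al L π h i f) ^ 2) ≤ 4 * θ ^ 2 * D * (D * QQ L π f) :=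
    hsum.trans (mul_le_mul_of_nonneg_left hswap (by positivity))
  have h7 : 4 * θ ^ 2 * D * (D * QQ L π f) ≤ QQ L π f / 2 := by
    have : 4 * θ ^ 2 * D * (D * QQ L π f) = (4 * (θ * D) * (θ * D)) * QQ L π f := by ring
    rw [this]
    have h8 : 4 * (θ * D) * (θ * D) ≤ 1 / 2 := by nlinarith
    nlinarith
  rw [Finset.sum_sub_distrib] at h6
  have h9 : QQ L π f = ∑ i, nn L π i f := rfl
  linarith

end jobs
end Sch
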