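import Pool.Agent.Helper78.SchHg
set_option autoImplicit false
set_option linter.unusedSectionVars false
namespace Sch
open Finset Matrix

section jobs
variable {V ι : Type} [Fintype V] [DecidableEq V] [Fintype ι] [DecidableEq ι] {L : Matrix V V ℝ}
  {Δ R s : ℕ} {θ : ℝ} {π : V → ι} {h : V → ℝ}


/-- auxiliary linear map -/
noncomputable def rA {V : Type} [Fintype V] [DecidableEq V] (L : Matrix V V ℝ) (S : Finset V) :
    (V → ℝ) →ₗ[ℝ] (V → ℝ) where
  toFun x := fun u => if u ∈ S then ∑ v, L u v * (if v ∈ S then x v else 0) else x u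
  map_add' x y := by
    funext u
    by_cases hu : u ∈ S
    · simp only [hu, if_true, Pi.add_apply]
      rw [← sum_add_distrib]
      refine sum_congr rfl fun v _ => ?_
      split_ifs <;> ring
    · simp [hu]
  map_smul' c x := by
    funext u
    by_cases hu : u ∈ S
    · simp only [hu, if_true, Pi.smul_apply, smul_eq_mul, RingHom.id_apply]
      rw [mul_sum]
      refine sum_congr rfl fun v _ => ?_
      split_ifs <;> ring
    · simp [hu]

lemma rA_q {V : Type} [Fintype V] [DecidableEq V] {L : Matrix V V ℝ} {S : Finset V} {x y : V → ℝ}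
    (hx : ∀ v, v ∉ S → x v = 0) (hy : ∀ v, v ∉ S → y v = 0) : q L x y = ∑ u, x u * rA L S y u := by
  unfold q
  refine sum_congr rfl fun u _ => ?_
  by_cases hu : u ∈ S
  · have : rA L S y u = ∑ v, L u v * y v := by
      change (if u ∈ S then ∑ v, L u v * (if v ∈ S then y v else 0) else y u) = _
      rw [if_pos hu]
      refine sum_congr rfl fun v _ => ?_
      by_cases hv : v ∈ S
      · rw [if_pos hv]
      · rw [if_neg hv, hy v hv]
    rw [this, mul_sum]
    exact sum_congr rfl fun v _ => by ring
  · simp [hx u hu]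

/-- Riesz representative of the evaluation at `u0` among functions supported on `S` -/
theorem riesz {V : Type} [Fintype V] [DecidableEq V] {L : Matrix V V ℝ} {Δ R : ℕ} (hS : Sys L Δ R)
    (S : Finset V) (hc : S.card ≤ R) (u0 : V) (hu : u0 ∈ S) :
    ∃ g : V → ℝ, (∀ v, v ∉ S → g v = 0) ∧ (∀ v, 0 ≤ g v) ∧ 0 < g u0 ∧
      ∀ x : V → ℝ, (∀ v, v ∉ S → x v = 0) → q L x g = x u0 := by
  have hinj : Function.Injective (rA L S) := by
    rw [← LinearMap.ker_eq_bot, LinearMap.ker_eq_bot']
    intro x hx
    have hx0 : ∀ v, v ∉ S → x v = 0 := by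
      intro v hv
      have h1 := congrFun hx v
      change (if v ∈ S then ∑ v', L v v' * (if v' ∈ S then x v' else 0) else x v) = 0 at h1
      rwa [if_neg hv] at h1
    have h2 : q L x x = 0 := by
      rw [rA_q hx0 hx0]
      refine sum_eq_zero fun u _ => ?_
      rw [hx]
      simp
    by_contra hne
    have := hS.lpd S hc x hx0 hne
    linarith
  have hsurj : Function.Surjective (rA L S) := LinearMap.injective_iff_surjective.1 hinj
  obtain ⟨g, hg⟩ := hsurj (Pi.single u0 1)
  have hg0 : ∀ v, v ∉ S → g v = 0 := by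
    intro v hv
    have h1 := congrFun hg v
    change (if v ∈ S then ∑ v', L v v' * (if v' ∈ S then g v' else 0) else g v) = _ at h1
    rw [if_neg hv] at h1
    have hvu : v ≠ u0 := fun h => hv (by rw [h]; exact hu)
    rw [h1, Pi.single_eq_of_ne hvu]
  have hrep : ∀ x : V → ℝ, (∀ v, v ∉ S → x v = 0) → q L x g = x u0 := by
    intro x hx
    rw [rA_q hx hg0, hg]
    rw [Finset.sum_eq_single u0]
    · simp
    · intro b _ hb
      simp [Pi.single_eq_of_ne hb]
    · intro h
      exact absurd (mem_univ _) h
  have hgne : g ≠ 0 := by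
    rintro rfl
    have h1 := congrFun hg u0
    rw [map_zero] at h1
    simp at h1
  have hgu : 0 < g u0 := by
    rw [← hrep g hg0]
    exact hS.lpd S hc g hg0 hgne
  set z : V → ℝ := ab g - g with hz
  have hz0 : ∀ v, v ∉ S → z v = 0 := by
    intro v hv
    simp [hz, ab, hg0 v hv]
  have hzu : z u0 = 0 := by
    simp [hz, ab, abs_of_pos hgu]
  have hqz : q L z z ≤ 0 := by
    have h1 := q_ab_le hS.offdiag g
    have h2 : ab g = g + z := by rw [hz]; abel
    rw [h2, q_add_left, q_add_right, q_add_right, q_comm hS.symm g z, hrep z hz0, hzu] at h1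
    linarith
  have hz1 : z = 0 := by
    by_contra hne
    have := hS.lpd S hc z hz0 hne
    linarith
  refine ⟨g, hg0, fun v => ?_, hgu, hrep⟩
  have h1 := congrFun hz1 v
  simp only [hz, Pi.sub_apply, ab, Pi.zero_apply] at h1
  have h2 := abs_nonneg (g v)
  linarith


end jobs
end Sch
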