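import Pool.Agent.Helper78.SchStar
import Pool.Agent.Helper78.SchRiesz
set_option autoImplicit false
set_option linter.unusedSectionVars false
namespace Sch
open Finset Matrix

section jobs
variable {V ι : Type} [Fintype V] [DecidableEq V] [Fintype ι] [DecidableEq ι] {L : Matrix V V ℝ}
  {Δ R s : ℕ} {θ : ℝ} {π : V → ι} {h : V → ℝ}

set_option maxHeartbeats 4000000 in
/-- a critical heavily connected set of tight blocks is a tight block -/
theorem Lvl.merge_tight (hS : Sys L Δ R) (hL : Lvl L s θ π h) (hθ : 0 ≤ θ) {δ : ℝ}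
    (hδ : 0 < δ) (hδ1 : δ ≤ 1) (k : ℕ) (hk : 1 ≤ k) (hR : s * k + 2 * s ≤ R)
    (hθ1 : θ ≤ δ ^ k / (64 * (k : ℝ) ^ 2)) (X : Finset ι) (hX : X.card ≤ k)
    (hconn : ∀ i ∈ X, ∀ j ∈ X, ∃ p : (Hg L π h δ).Walk i j, p.length ≤ k)
    (θ' τ : ℝ) (hθ' : 0 < θ') (hθ'1 : θ' ≤ 1) (hτ : 0 < τ)
    (hpar : τ * k * (32 * (8 * (k : ℝ) ^ 2 / δ ^ k) ^ 2) ^ 2 ≤ θ' ^ 2)
    (a : ι → ℝ) (hcrit : q L (∑ i ∈ X, a i • blk π i h) (∑ i ∈ X, a i • blk π i h) <
      τ * ∑ i ∈ X, (a i) ^ 2) :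
    ∃ h' : V → ℝ, (∀ v, π v ∉ X → h' v = 0) ∧ (∀ v, π v ∈ X → 0 < h' v) ∧ q L h' h' = 1 ∧
      ∀ x : V → ℝ, (∀ v, π v ∉ X → x v = 0) → ∀ u, π u ∈ X →
        |x u - q L x h' * h' u| ≤ θ' * Real.sqrt (q L x x) * h' u := by
  classical
  have hRs : s ≤ R := by omega
  have hRsk : s * k ≤ R := by omega
  have hk0 : (0:ℝ) < k := by exact_mod_cast hk
  have hk1 : (1:ℝ) ≤ k := by exact_mod_cast hk
  have hδk : 0 < δ ^ k := pow_pos hδ k
  have hδk1 : δ ^ k ≤ 1 := pow_le_one₀ hδ.le hδ1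
  set Z : ℝ := 8 * (k : ℝ) ^ 2 / δ ^ k with hZ
  have hZ8 : 8 ≤ Z := by
    rw [hZ, le_div_iff₀ hδk]
    nlinarith
  have hθZ : θ * Z ≤ 1 / 8 := by
    have h1 : θ * Z ≤ δ ^ k / (64 * (k : ℝ) ^ 2) * Z := mul_le_mul_of_nonneg_right hθ1 (by linarith)
    have h2 : δ ^ k / (64 * (k : ℝ) ^ 2) * Z = 1 / 8 := by
      rw [hZ]; field_simp; norm_num
    linarith
  have hθ64 : θ ≤ 1 / 64 := by nlinarith
  set S : Finset V := univ.filter (fun v => π v ∈ X) with hSdef
  have hmemS : ∀ v, v ∈ S ↔ π v ∈ X := fun v => by simp [hSdef]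
  have hScard : S.card ≤ R := by
    refine le_trans ?_ hRsk
    have hsub : S ⊆ X.biUnion (fun i => univ.filter (fun v => π v = i)) := by
      intro v hv
      rw [hmemS] at hv
      simp only [mem_biUnion, mem_filter, mem_univ, true_and]
      exact ⟨π v, hv, rfl⟩
    refine (card_le_card hsub).trans ?_
    refine (card_biUnion_le_card_mul _ _ s (fun i _ => hL.card_le i)).trans ?_
    rw [mul_comm]
    exact Nat.mul_le_mul_left _ hX
  set y : V → ℝ := ∑ i ∈ X, a i • blk π i h with hy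
  have hyv : ∀ v, π v ∈ X → y v = a (π v) * h v := by
    intro v hv
    rw [hy, Finset.sum_apply, Finset.sum_eq_single_of_mem (π v) hv]
    · simp [blk]
    · intro j _ hj
      simp [blk_ne (show π v ≠ j from fun h => hj h.symm)]
  have hyS : ∀ v, v ∉ S → y v = 0 := by
    intro v hv
    rw [hmemS] at hv
    rw [hy, Finset.sum_apply]
    refine Finset.sum_eq_zero fun j hj => ?_
    have : π v ≠ j := fun h => hv (h ▸ hj)
    simp [blk_ne this]
  have hyy : 0 ≤ q L y y := hS.lpd.nonneg hScard hyS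
  have hsum : 0 < ∑ i ∈ X, (a i) ^ 2 := by
    by_contra hcon
    push Not at hcon
    nlinarith
  have hXne : X.Nonempty := by
    by_contra hcon
    rw [Finset.not_nonempty_iff_eq_empty] at hcon
    rw [hcon, Finset.sum_empty] at hsum
    exact lt_irrefl _ hsum
  obtain ⟨i0, hi0, hmax⟩ := Finset.exists_max_image X (fun i => (a i) ^ 2) hXne
  have hsumk : ∑ i ∈ X, (a i) ^ 2 ≤ k * (a i0) ^ 2 := by
    have h1 := Finset.sum_le_card_nsmul X (fun i => (a i) ^ 2) _ hmax
    rw [nsmul_eq_mul] at h1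
    have h2 : (X.card : ℝ) ≤ k := by exact_mod_cast hX
    exact h1.trans (mul_le_mul_of_nonneg_right h2 (sq_nonneg _))
  have ha0 : 0 < (a i0) ^ 2 := by
    by_contra hcon
    push Not at hcon
    nlinarith
  obtain ⟨u0, hu0⟩ := hL.surj i0
  have hu0S : u0 ∈ S := by rw [hmemS, hu0]; exact hi0
  obtain ⟨g, hgS, hg0, hgu, hgq⟩ := riesz hS S hScard u0 hu0S
  set G := g u0 with hG
  have hgg : q L g g = G := hgq g hgS
  have hh0 : 0 < h u0 := hL.pos u0
  have hGh : (h u0) ^ 2 < τ * k * G := by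
    have h1 := hS.lpd.cs hS.symm hScard hyS hgS
    rw [hgq y hyS, hgg, hyv u0 (by rw [hu0]; exact hi0), hu0] at h1
    have h2 : q L y y < τ * (k * (a i0) ^ 2) := lt_of_lt_of_le hcrit (mul_le_mul_of_nonneg_left hsumk hτ.le)
    have h3 : q L y y * G < τ * (k * (a i0) ^ 2) * G := mul_lt_mul_of_pos_right h2 hgu
    have h4 : (a i0) ^ 2 * (h u0) ^ 2 < (a i0) ^ 2 * (τ * k * G) := by nlinarith
    exact lt_of_mul_lt_mul_left h4 ha0.le
  set sG := Real.sqrt G with hsG
  have hsG0 : 0 < sG := Real.sqrt_pos.2 hgu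
  have hsGG : sG * sG = G := Real.mul_self_sqrt hgu.le
  set h' : V → ℝ := (1 / sG) • g with hh'
  have hh'v : ∀ v, h' v = g v / sG := fun v => by simp [hh', div_eq_inv_mul]
  have hh'S : ∀ v, π v ∉ X → h' v = 0 := fun v hv => by
    rw [hh'v, hgS v (by rw [hmemS]; exact hv), zero_div]
  have hh'0 : ∀ v, 0 ≤ h' v := fun v => by rw [hh'v]; exact div_nonneg (hg0 v) hsG0.le
  have hqx : ∀ x : V → ℝ, (∀ v, π v ∉ X → x v = 0) → q L x h' = x u0 / sG := by
    intro x hx
    rw [hh', q_smul_right, hgq x (fun v hv => hx v (by rw [hmemS] at hv; exact hv))]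
    ring
  have hh'u0 : h' u0 = sG := by
    rw [hh'v, ← hG, ← hsGG]; field_simp
  have hh'1 : q L h' h' = 1 := by
    rw [hqx h' hh'S, hh'u0]; field_simp
  set Y := sG / h u0 with hY
  have hY0 : 0 < Y := div_pos hsG0 hh0
  have hYh : Y * h u0 = sG := by rw [hY]; field_simp
  have hY2 : 1 < τ * k * Y ^ 2 := by
    have h1 : (h u0) ^ 2 * 1 < (h u0) ^ 2 * (τ * k * Y ^ 2) := by
      have h2 : (h u0) ^ 2 * (τ * k * Y ^ 2) = τ * k * (Y * h u0) ^ 2 := by ring
      rw [h2, hYh, mul_one]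
      have h3 : sG ^ 2 = G := by rw [sq]; exact hsGG
      rw [h3]; exact hGh
    exact lt_of_mul_lt_mul_left h1 (sq_nonneg _)
  have hYZ : 32 * Z ^ 2 ≤ θ' * Y := by
    have h1 : (32 * Z ^ 2) ^ 2 ≤ (θ' * Y) ^ 2 := by
      have h2 : (32 * Z ^ 2) ^ 2 ≤ (τ * k * (32 * Z ^ 2) ^ 2) * Y ^ 2 := by
        have h3 : 0 ≤ (32 * Z ^ 2) ^ 2 := sq_nonneg _
        nlinarith
      have h4 : (τ * k * (32 * Z ^ 2) ^ 2) * Y ^ 2 ≤ θ' ^ 2 * Y ^ 2 :=
        mul_le_mul_of_nonneg_right hpar (sq_nonneg _)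
      calc (32 * Z ^ 2) ^ 2 ≤ _ := h2
        _ ≤ _ := h4
        _ = (θ' * Y) ^ 2 := by ring
    exact (sq_le_sq₀ (by positivity) (by positivity)).1 h1
  have hYZ' : 32 * Z ^ 2 ≤ Y := hYZ.trans (by nlinarith)
  have hnnle : ∀ (x : V → ℝ) (i : ι), Real.sqrt (nn L π i x) ≤ Real.sqrt (QQ L π x) := by
    intro x i
    apply Real.sqrt_le_sqrt
    unfold QQ
    exact Finset.single_le_sum (f := fun i => nn L π i x) (fun j _ => hL.blk_nonneg_q hS hRs j x) (mem_univ i)
  have hale : ∀ (x : V → ℝ) (i : ι), |al L π h i x| ≤ Real.sqrt (QQ L π x) := fun x i =>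
    (hL.abs_al_le hS hRs i x).trans (hnnle x i)
  have hK1u : ∀ (x : V → ℝ) (u : V), |x u| ≤ (1 + θ) * Real.sqrt (QQ L π x) * h u := by
    intro x u
    refine (hL.K1u x u).trans ?_
    refine mul_le_mul_of_nonneg_right ?_ (hL.pos u).le
    have h1 := hale x (π u)
    have h2 := mul_le_mul_of_nonneg_left (hnnle x (π u)) hθ
    linarith
  set N' := Real.sqrt (QQ L π h') with hN'
  have hN'0 : 0 ≤ N' := Real.sqrt_nonneg _
  have hN'Y : Y ≤ 2 * N' := by
    have h1 := hK1u h' u0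
    rw [hh'u0, abs_of_pos hsG0, ← hYh] at h1
    have h2 : Y ≤ (1 + θ) * N' := le_of_mul_le_mul_right h1 hh0
    nlinarith
  have hlow : ∀ u, π u ∈ X → Y * h u ≤ 8 * Z * h' u := by
    intro u hu
    have h1 := hL.star hS hθ hδ hδ1 k hk hR hθ1 X hX hconn hh'S (π u) hu
    rw [hh'1, Real.sqrt_one] at h1
    have h2 := hL.K1 h' u
    have h3 : |al L π h (π u) h'| * h u ≤ h' u + θ * N' * h u := by
      have h4 : |al L π h (π u) h' * h u| ≤ |h' u| + |h' u - al L π h (π u) h' * h u| := by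
        have := abs_sub_abs_le_abs_sub (al L π h (π u) h' * h u) (h' u)
        rw [abs_sub_comm] at this
        linarith
      rw [abs_mul, abs_of_pos (hL.pos u), abs_of_nonneg (hh'0 u)] at h4
      have h5 : θ * Real.sqrt (nn L π (π u) h') * h u ≤ θ * N' * h u :=
        mul_le_mul_of_nonneg_right (mul_le_mul_of_nonneg_left (hnnle h' (π u)) hθ) (hL.pos u).le
      linarith
    have hhu := hL.pos u
    -- N' ≤ Z (|al| + 1)
    have h6 : N' * h u ≤ Z * (|al L π h (π u) h'| * h u) + Z * h u := by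
      have := mul_le_mul_of_nonneg_right h1 hhu.le
      calc N' * h u ≤ _ := this
        _ = _ := by ring
    have h7 : N' * h u ≤ Z * (h' u + θ * N' * h u) + Z * h u := by
      have := mul_le_mul_of_nonneg_left h3 (by linarith : (0:ℝ) ≤ Z)
      linarith
    have h8 : Z * (θ * N' * h u) ≤ 1 / 8 * (N' * h u) := by
      have : Z * (θ * N' * h u) = (θ * Z) * (N' * h u) := by ring
      rw [this]
      exact mul_le_mul_of_nonneg_right hθZ (by positivity)
    have h9 : Z * h u ≤ Y / 256 * h u := by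
      refine mul_le_mul_of_nonneg_right ?_ hhu.le
      nlinarith
    have h10 : Y * h u ≤ 2 * N' * h u := mul_le_mul_of_nonneg_right hN'Y hhu.le
    nlinarith
  refine ⟨h', hh'S, ?_, hh'1, ?_⟩
  · intro v hv
    have h1 := hlow v hv
    have h2 : 0 < Y * h v := mul_pos hY0 (hL.pos v)
    have h3 : 0 < 8 * Z * h' v := lt_of_lt_of_le h2 h1
    by_contra hcon
    push Not at hcon
    have h4 : 8 * Z * h' v ≤ 0 := mul_nonpos_of_nonneg_of_nonpos (by linarith) hcon
    linarith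
  · intro x hx u hu
    set c := q L x h' with hc
    set z : V → ℝ := x - c • h' with hz
    have hzS : ∀ v, π v ∉ X → z v = 0 := fun v hv => by simp [hz, hx v hv, hh'S v hv]
    have hzu0 : z u0 = 0 := by
      have : z u0 = x u0 - c * h' u0 := by simp [hz]
      rw [this, hc, hqx x hx, hh'u0]
      field_simp
      ring
    have hzz : q L z z = q L x x - c ^ 2 := by
      have e1 : q L x (c • h') = c * q L x h' := q_smul_right c x h'
      have e2 : q L (c • h') x = c * q L h' x := q_smul_left c h' x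
      have e3 : q L (c • h') (c • h') = c * (c * q L h' h') := by
        rw [q_smul_left c h' (c • h'), q_smul_right c h' h']
      rw [hz, q_sub_left, q_sub_right, q_sub_right, e1, e2, e3, hh'1, q_comm hS.symm h' x, ← hc]
      ring
    have hzzle : Real.sqrt (q L z z) ≤ Real.sqrt (q L x x) := by
      apply Real.sqrt_le_sqrt
      rw [hzz]
      nlinarith [sq_nonneg c]
    set Nz := Real.sqrt (QQ L π z) with hNz
    have hNz0 : 0 ≤ Nz := Real.sqrt_nonneg _
    have hal : |al L π h i0 z| ≤ θ * Nz := by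
      have h1 := hL.K1 z u0
      rw [hzu0, zero_sub, abs_neg, abs_mul, abs_of_pos hh0, hu0] at h1
      have h2 := le_of_mul_le_mul_right h1 hh0
      exact h2.trans (mul_le_mul_of_nonneg_left (hnnle z i0) hθ)
    have hstar := hL.star hS hθ hδ hδ1 k hk hR hθ1 X hX hconn hzS i0 hi0
    set sx := Real.sqrt (q L x x) with hsx
    have hsx0 : 0 ≤ sx := Real.sqrt_nonneg _
    have hNzle : Nz ≤ 2 * Z * sx := by
      have h1 : Nz ≤ Z * (θ * Nz + sx) :=
        hstar.trans (mul_le_mul_of_nonneg_left (add_le_add hal hzzle) (by linarith))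
      have h2 : Z * (θ * Nz) ≤ 1 / 8 * Nz := by
        have : Z * (θ * Nz) = (θ * Z) * Nz := by ring
        rw [this]
        exact mul_le_mul_of_nonneg_right hθZ hNz0
      have h3 : 0 ≤ Z * sx := by positivity
      nlinarith
    have hzu : |z u| ≤ 4 * Z * sx * h u := by
      refine (hK1u z u).trans ?_
      refine mul_le_mul_of_nonneg_right ?_ (hL.pos u).le
      nlinarith
    have hxu : x u - c * h' u = z u := by simp [hz]
    rw [hxu]
    have hl := hlow u hu
    -- h u ≤ 8 Z h' u / Y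
    have h1 : Y * |z u| ≤ Y * (θ' * sx * h' u) := by
      calc Y * |z u| ≤ Y * (4 * Z * sx * h u) := mul_le_mul_of_nonneg_left hzu hY0.le
        _ = 4 * Z * sx * (Y * h u) := by ring
        _ ≤ 4 * Z * sx * (8 * Z * h' u) := mul_le_mul_of_nonneg_left hl (by positivity)
        _ = (32 * Z ^ 2) * (sx * h' u) := by ring
        _ ≤ (θ' * Y) * (sx * h' u) := mul_le_mul_of_nonneg_right hYZ (mul_nonneg hsx0 (hh'0 u))
        _ = Y * (θ' * sx * h' u) := by ring
    exact le_of_mul_le_mul_left h1 hY0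

end jobs
end Sch
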