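import Pool.Agent.Helper78.SchDefs
set_option autoImplicit false
set_option linter.unusedSectionVars false
namespace Sch
open Finset Matrix

/-- the criticality threshold -/
noncomputable def tau (k : ℕ) (θ' δ : ℝ) : ℝ :=
  min (1 / 2) (θ' ^ 2 / (k * (32 * (8 * (k : ℝ) ^ 2 / δ ^ k) ^ 2) ^ 2))

lemma tau_pos {k : ℕ} (hk : 1 ≤ k) {θ' δ : ℝ} (hθ : 0 < θ') (hδ : 0 < δ) : 0 < tau k θ' δ := by
  have : (0 : ℝ) < k := by exact_mod_cast hk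
  unfold tau
  refine lt_min (by norm_num) (by positivity)

lemma tau_le {k : ℕ} {θ' δ : ℝ} : tau k θ' δ ≤ 1 / 2 := min_le_left _ _

lemma tau_par {k : ℕ} (hk : 1 ≤ k) {θ' δ : ℝ} (hδ : 0 < δ) :
    tau k θ' δ * k * (32 * (8 * (k : ℝ) ^ 2 / δ ^ k) ^ 2) ^ 2 ≤ θ' ^ 2 := by
  have : (0 : ℝ) < k := by exact_mod_cast hk
  have h1 : tau k θ' δ ≤ θ' ^ 2 / (k * (32 * (8 * (k : ℝ) ^ 2 / δ ^ k) ^ 2) ^ 2) := min_le_right _ _
  have h2 : (0 : ℝ) < k * (32 * (8 * (k : ℝ) ^ 2 / δ ^ k) ^ 2) ^ 2 := by positivity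
  rw [le_div_iff₀ h2] at h1
  linarith

/-- the sequence of scales -/
noncomputable def dseq (k D : ℕ) (θ' c₁ : ℝ) : ℕ → ℝ
  | 0 => 1
  | j + 1 => min (dseq k D θ' c₁ j) (c₁ * tau k θ' (dseq k D θ' c₁ j) / (8 * k * (D + 1)))

lemma dseq_pos {k D : ℕ} (hk : 1 ≤ k) {θ' c₁ : ℝ} (hθ : 0 < θ') (hc : 0 < c₁) (j : ℕ) :
    0 < dseq k D θ' c₁ j := by
  induction j with
  | zero => exact one_pos
  | succ j ih =>
    have : (0 : ℝ) < k := by exact_mod_cast hk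
    have := tau_pos hk hθ ih
    exact lt_min ih (by positivity)

lemma dseq_anti {k D : ℕ} {θ' c₁ : ℝ} (j : ℕ) : dseq k D θ' c₁ (j + 1) ≤ dseq k D θ' c₁ j :=
  min_le_left _ _

lemma dseq_le_one {k D : ℕ} {θ' c₁ : ℝ} (j : ℕ) : dseq k D θ' c₁ j ≤ 1 := by
  induction j with
  | zero => exact le_rfl
  | succ j ih => exact (dseq_anti j).trans ih

lemma dseq_step {k D : ℕ} (hk : 1 ≤ k) {θ' c₁ : ℝ} (hθ : 0 < θ') (hc : 0 < c₁) (j : ℕ) :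
    8 * dseq k D θ' c₁ (j + 1) * k * (D : ℝ) ≤ c₁ * tau k θ' (dseq k D θ' c₁ j) := by
  have hk' : (0 : ℝ) < k := by exact_mod_cast hk
  have h1 : dseq k D θ' c₁ (j + 1) ≤ c₁ * tau k θ' (dseq k D θ' c₁ j) / (8 * k * (D + 1)) :=
    min_le_right _ _
  have h2 : (0 : ℝ) < 8 * k * (D + 1) := by positivity
  rw [le_div_iff₀ h2] at h1
  have := dseq_pos (D := D) hk hθ hc (j + 1)
  have h3 : 0 ≤ dseq k D θ' c₁ (j + 1) * (8 * k) := by positivity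
  nlinarith

lemma exists_uniform (t : ℕ → ℝ) (ht : ∀ j, 0 < t j) (M : ℕ) : ∃ θ : ℝ, 0 < θ ∧ ∀ j < M, θ ≤ t j := by
  induction M with
  | zero => exact ⟨1, one_pos, fun j hj => absurd hj (Nat.not_lt_zero j)⟩
  | succ M ih =>
    obtain ⟨θ, hθ, h⟩ := ih
    refine ⟨min θ (t M), lt_min hθ (ht M), fun j hj => ?_⟩
    rcases Nat.lt_succ_iff_lt_or_eq.1 hj with h1 | h1
    · exact (min_le_left _ _).trans (h j h1)
    · rw [h1]; exact min_le_right _ _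

lemma params (k D : ℕ) (hk : 1 ≤ k) (c₁ θ' : ℝ) (hc : 0 < c₁) (hθ' : 0 < θ') (δ : ℝ) (hδ : 0 < δ)
    (hδ1 : δ ≤ 1) :
    ∃ (t : ℝ) (r : ℕ), 0 < t ∧ 1 ≤ r ∧ ∀ θ : ℝ, 0 < θ → θ ≤ t →
      θ ≤ δ ^ k / (64 * (k : ℝ) ^ 2) ∧ 6 * θ * k ≤ tau k θ' δ ∧
      2 * k * (θ + Real.sqrt (D : ℝ) / r) < δ ^ (2 * k) * (Real.sqrt c₁ - 2 * θ) := by
  have hk' : (0 : ℝ) < k := by exact_mod_cast hk
  have hsc : 0 < Real.sqrt c₁ := Real.sqrt_pos.2 hc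
  have htau := tau_pos hk hθ' hδ
  have hP : 0 < δ ^ (2 * k) := by positivity
  have hP1 : δ ^ (2 * k) ≤ 1 := pow_le_one₀ hδ.le hδ1
  -- choose r
  obtain ⟨r, hr⟩ := exists_nat_gt (8 * k * Real.sqrt (D : ℝ) / (δ ^ (2 * k) * Real.sqrt c₁))
  have hr1 : 8 * k * Real.sqrt (D : ℝ) / (δ ^ (2 * k) * Real.sqrt c₁) < (max r 1 : ℕ) :=
    hr.trans_le (by exact_mod_cast le_max_left _ _)
  have hrpos : (0 : ℝ) < (max r 1 : ℕ) := by
    have : 1 ≤ max r 1 := le_max_right _ _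
    exact_mod_cast this
  rw [div_lt_iff₀ (by positivity)] at hr1
  refine ⟨min (δ ^ k / (64 * (k : ℝ) ^ 2)) (min (tau k θ' δ / (6 * k))
    (δ ^ (2 * k) * Real.sqrt c₁ / (4 * (2 * k + 2)))), max r 1, ?_, le_max_right _ _, ?_⟩
  · refine lt_min (by positivity) (lt_min (by positivity) (by positivity))
  · intro θ hθ hθt
    have h1 := hθt.trans (min_le_left _ _)
    have h2 := (hθt.trans (min_le_right _ _)).trans (min_le_left _ _)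
    have h3 := (hθt.trans (min_le_right _ _)).trans (min_le_right _ _)
    refine ⟨h1, ?_, ?_⟩
    · rw [le_div_iff₀ (by positivity)] at h2
      linarith
    · rw [le_div_iff₀ (by positivity)] at h3
      have h4 : 2 * k * (Real.sqrt (D : ℝ) / (max r 1 : ℕ)) < δ ^ (2 * k) * Real.sqrt c₁ / 4 := by
        rw [← mul_div_assoc, div_lt_iff₀ hrpos]
        nlinarith
      have h5 : θ * δ ^ (2 * k) ≤ θ := by nlinarith
      nlinarith

end Sch
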