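import Pool.Agent.Helper78.SchMlev
import Pool.Agent.Helper78.SchPar
import Pool.Agent.Helper78.SchEpart
import Pool.Agent.Helper78.SchMerge
set_option autoImplicit false
set_option linter.unusedSectionVars false
namespace Sch
open Finset Matrix

open Classical in
/-- the component of `i` in the graph `H` as a finset -/
noncomputable def cmp {ι : Type} [Fintype ι] (H : SimpleGraph ι) (i : ι) : Finset ι :=
  univ.filter (fun j => H.Reachable i j)

lemma mem_cmp {ι : Type} [Fintype ι] {H : SimpleGraph ι} {i j : ι} : j ∈ cmp H i ↔ H.Reachable i j := by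
  simp [cmp]

lemma cmp_eq {ι : Type} [Fintype ι] {H : SimpleGraph ι} {i j : ι} (h : H.Reachable i j) :
    cmp H j = cmp H i := by
  ext l; rw [mem_cmp, mem_cmp]
  exact ⟨fun h' => h.trans h', fun h' => h.symm.trans h'⟩

lemma bad_count {ι : Type} [Fintype ι] [DecidableEq ι] (H : SimpleGraph ι) (k : ℕ) (E : Finset (ι × ι))
    (B : Finset ι) (hB : ∀ i ∈ B, (cmp H i).card ≤ k ∧ ∃ p ∈ E, H.Reachable i p.1) :
    B.card ≤ E.card * k := by
  classical
  have hsub : B ⊆ E.biUnion (fun p => B.filter (fun i => H.Reachable i p.1)) := by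
    intro i hi
    obtain ⟨_, p, hp, hr⟩ := hB i hi
    exact mem_biUnion.2 ⟨p, hp, mem_filter.2 ⟨hi, hr⟩⟩
  refine (card_le_card hsub).trans (card_biUnion_le_card_mul _ _ k fun p _ => ?_)
  rcases (B.filter (fun i => H.Reachable i p.1)).eq_empty_or_nonempty with h0 | ⟨i0, hi0⟩
  · rw [h0]; simp
  · obtain ⟨hi0B, hi0r⟩ := mem_filter.1 hi0
    refine (card_le_card (t := cmp H i0) fun i hi => ?_).trans (hB i0 hi0B).1
    obtain ⟨_, hir⟩ := mem_filter.1 hi
    exact mem_cmp.2 (hi0r.trans hir.symm)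

section main
variable {V : Type} [Fintype V] [DecidableEq V] {m : ℕ} {L : Matrix V V ℝ}
  {Δ R s : ℕ} {θ : ℝ} {π : V → Fin m} {h : V → ℝ}

/-- the block coordinates as a linear map -/
noncomputable def alL (L : Matrix V V ℝ) (π : V → Fin m) (h : V → ℝ) (i : Fin m) : (V → ℝ) →ₗ[ℝ] ℝ where
  toFun x := al L π h i x
  map_add' x y := by simp only [al]; rw [blk_add, q_add_left]
  map_smul' c x := by simp only [al]; rw [blk_smul, q_smul_left]; rfl

/-- critical set of blocks -/
def Crit (L : Matrix V V ℝ) (π : V → Fin m) (h : V → ℝ) (τ : ℝ) (X : Finset (Fin m)) : Prop :=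
  ∃ a : Fin m → ℝ, q L (∑ i ∈ X, a i • blk π i h) (∑ i ∈ X, a i • blk π i h) < τ * ∑ i ∈ X, (a i) ^ 2

lemma nn_zero_imp (hS : Sys L Δ R) (hL : Lvl L s θ π h) (hR : s ≤ R) {x : V → ℝ} {i : Fin m}
    (h0 : nn L π i x ≤ 0) : blk π i x = 0 := by
  by_contra hne
  have := hS.lpd _ ((hL.card_le i).trans hR) _ (blk_supp (π := π) i x) hne
  unfold nn at h0
  linarith

/-- dimension bound at one level -/
theorem level_count (hS : Sys L Δ R) (hL : Lvl L s θ π h) (hR : 2 * s ≤ R) (hθ : 0 ≤ θ)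
    (hθ2 : θ * (4 * ((s * Δ : ℕ) : ℝ) + 4) ≤ 1) (c₁ : ℝ) (hc₁ : 0 < c₁)
    (T B : Finset (Fin m))
    (hgood : ∀ f : V → ℝ, (∀ u, ∑ v, L u v * f v = 0) → (∀ v, π v ∈ T → f v = 0) →
      ∀ i, i ∉ B → (al L π h i f) ^ 2 ≤ c₁ * QQ L π f) :
    (Module.finrank ℝ (LinearMap.ker (Matrix.toLin' L)) : ℝ) ≤
      s * T.card + B.card + 2 * c₁ * m := by
  classical
  have hker : ∀ f : V → ℝ, f ∈ LinearMap.ker (Matrix.toLin' L) → ∀ u, ∑ v, L u v * f v = 0 := by
    intro f hf u
    rw [LinearMap.mem_ker, Matrix.toLin'_apply] at hf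
    exact congrFun hf u
  let J := {v : V // π v ∈ T} ⊕ {i : Fin m // i ∈ B}
  let φ : J → (V → ℝ) →ₗ[ℝ] ℝ := Sum.elim (fun v => LinearMap.proj v.1) (fun i => alL L π h i.1)
  have hal : ∀ f : V → ℝ, ∀ i, (LinearMap.pi (alL L π h)) f i = al L π h i f := fun f i => rfl
  have hepart : ∀ f : V → ℝ, (∀ u, ∑ v, L u v * f v = 0) → QQ L π f ≤ 2 * ∑ i, (al L π h i f) ^ 2 :=
    fun f hf => hL.epart hS hR hθ hθ2 hf
  have hnn0 : ∀ (f : V → ℝ) i, 0 ≤ nn L π i f := fun f i => hL.blk_nonneg_q hS (by omega) i f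
  have hcount := count_dim (LinearMap.ker (Matrix.toLin' L)) (LinearMap.pi (alL L π h)) φ (2 * c₁)
    (by positivity) ?_ ?_
  · refine hcount.trans ?_
    have hcardJ : (Fintype.card J : ℝ) ≤ s * T.card + B.card := by
      have h1 : Fintype.card J = Fintype.card {v : V // π v ∈ T} + Fintype.card {i : Fin m // i ∈ B} :=
        Fintype.card_sum
      have h2 : Fintype.card {i : Fin m // i ∈ B} = B.card := Fintype.card_coe B
      have h3 : Fintype.card {v : V // π v ∈ T} ≤ T.card * s := by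
        rw [Fintype.card_subtype]
        have : univ.filter (fun v => π v ∈ T) ⊆ T.biUnion (fun i => univ.filter (fun v => π v = i)) := by
          intro v hv
          simp only [mem_filter, mem_univ, true_and, mem_biUnion] at hv ⊢
          exact ⟨π v, hv, rfl⟩
        exact (card_le_card this).trans (card_biUnion_le_card_mul _ _ s fun i _ => hL.card_le i)
      rw [h1, h2]
      have h4 : ((Fintype.card {v : V // π v ∈ T} : ℕ) : ℝ) ≤ (T.card * s : ℕ) := by exact_mod_cast h3
      push_cast at h4 ⊢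
      linarith
    have : (Fintype.card (Fin m) : ℝ) = m := by simp
    rw [this]
    linarith
  · intro f hf hφ h0
    have hk := hker f hf
    have h1 := hepart f hk
    have h2 : ∑ i, (al L π h i f) ^ 2 = 0 := by
      refine sum_eq_zero fun i _ => ?_
      have : al L π h i f = 0 := congrFun h0 i
      rw [this]; ring
    rw [h2, mul_zero] at h1
    have h3 : ∀ i, blk π i f = 0 := by
      intro i
      refine nn_zero_imp hS hL (by omega) (le_trans ?_ h1)
      exact single_le_sum (f := fun i => nn L π i f) (fun j _ => hnn0 f j) (mem_univ i)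
    rw [← sum_blk (π := π) f]
    exact sum_eq_zero fun i _ => h3 i
  · intro f hf hφ i
    have hk := hker f hf
    have h1 := hepart f hk
    have hsum : ∑ k, ((LinearMap.pi (alL L π h)) f k) ^ 2 = ∑ k, (al L π h k f) ^ 2 := rfl
    rw [hsum, hal]
    have hnon : 0 ≤ ∑ k, (al L π h k f) ^ 2 := sum_nonneg fun k _ => sq_nonneg _
    by_cases hi : i ∈ B
    · have := hφ (Sum.inr ⟨i, hi⟩)
      have h4 : al L π h i f = 0 := this
      rw [h4]
      have : (0:ℝ) ^ 2 = 0 := by norm_num
      rw [this]; positivity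
    · have := hgood f hk (fun v hv => hφ (Sum.inl ⟨v, hv⟩)) i hi
      nlinarith

end main
end Sch
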