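import Pool.Agent.Helper78.SchLevel
set_option autoImplicit false
set_option linter.unusedSectionVars false
namespace Sch
open Finset Matrix

lemma J4168_mono {V : Type} [Fintype V] [DecidableEq V] {L : Matrix V V ℝ} {Δ R R2 : ℕ} (h : R ≤ R2)
    (hS : Sys L Δ R2) : Sys L Δ R :=
  ⟨hS.symm, hS.offdiag, hS.deg, fun S hSc x hx hx0 => hS.lpd S (hSc.trans h) x hx hx0⟩

lemma J4168_claim (Δ : ℕ) (c : ℝ) (hc : 0 < c) (j : ℕ) : ∀ s : ℕ, ∃ θ : ℝ, 0 < θ ∧ ∃ R : ℕ,
    ∀ (V : Type) [Fintype V] [DecidableEq V] (L : Matrix V V ℝ),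
      Sys L Δ R → c * Fintype.card V ≤ Module.finrank ℝ (LinearMap.ker (Matrix.toLin' L)) →
      ∀ (m : ℕ) (π : V → Fin m) (h : V → ℝ), Lvl L s θ π h →
      (j : ℝ) * (c / 8) * Fintype.card V ≤ m := by
  induction j with
  | zero =>
    intro s
    refine ⟨1, one_pos, 0, ?_⟩
    intro V _ _ L _ _ m π h _
    simp
  | succ j ih =>
    intro s
    obtain ⟨s2, hs2⟩ := level_step Δ s c hc
    obtain ⟨θj, hθj, Rj, hj⟩ := ih s2
    obtain ⟨θ, hθ, R, hR⟩ := hs2 θj hθj
    refine ⟨θ, hθ, max R Rj, ?_⟩
    intro V _ _ L hSys hker m π h hL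
    obtain ⟨m', π', h', hL', hm'⟩ := hR V L (J4168_mono (le_max_left _ _) hSys) hker m π h hL
    have h1 := hj V L (J4168_mono (le_max_right _ _) hSys) hker m' π' h' hL'
    push_cast
    linarith

lemma J4168_single {V : Type} [Fintype V] [DecidableEq V] (L : Matrix V V ℝ) (u : V) (a b : ℝ) :
    q L (Pi.single u a) (Pi.single u b) = a * L u u * b := by
  unfold q
  rw [Finset.sum_eq_single u, Finset.sum_eq_single u]
  · simp
  · intro v _ hv; simp [Pi.single_eq_of_ne hv]
  · intro h; exact absurd (mem_univ u) h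
  · intro v _ hv
    apply Finset.sum_eq_zero
    intro w _
    simp [Pi.single_eq_of_ne hv]
  · intro h; exact absurd (mem_univ u) h

/-- core theorem: locally positive definite systems have small kernel -/
theorem core (Δ : ℕ) (c : ℝ) (hc : 0 < c) : ∃ R : ℕ, ∀ (V : Type) [Fintype V] [DecidableEq V]
    [Nonempty V] (L : Matrix V V ℝ), Sys L Δ R →
    (Module.finrank ℝ (LinearMap.ker (Matrix.toLin' L)) : ℝ) < c * Fintype.card V := by
  obtain ⟨j, hj⟩ := exists_nat_gt (8 / c)
  have hj1 : 1 < (j : ℝ) * (c / 8) := by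
    rw [div_lt_iff₀ hc] at hj
    linarith
  obtain ⟨θ, hθ, R, hR⟩ := J4168_claim Δ c hc j 1
  refine ⟨max R 1, ?_⟩
  intro V _ _ _ L hSys
  by_contra hcon
  push Not at hcon
  have hLpos : ∀ v, 0 < L v v := by
    intro v
    have := hSys.lpd {v} (by simp) (Pi.single v 1)
      (fun w hw => by
        rw [Finset.mem_singleton] at hw
        exact Pi.single_eq_of_ne hw _)
      (by
        intro h0
        have := congrFun h0 v
        simp at this)
    rw [J4168_single] at this
    simpa using this
  set e := Fintype.equivFin V with he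
  set h : V → ℝ := fun v => (Real.sqrt (L v v))⁻¹ with hh
  have hpos : ∀ v, 0 < h v := fun v => inv_pos.mpr (Real.sqrt_pos.mpr (hLpos v))
  have hsq : ∀ v, h v * L v v * h v = 1 := by
    intro v
    have h1 := Real.mul_self_sqrt (hLpos v).le
    have h2 : Real.sqrt (L v v) ≠ 0 := (Real.sqrt_pos.mpr (hLpos v)).ne'
    show (Real.sqrt (L v v))⁻¹ * L v v * (Real.sqrt (L v v))⁻¹ = 1
    field_simp
    rw [sq, h1]
  have hblk : ∀ (i : Fin (Fintype.card V)) (x : V → ℝ), (∀ v, e v ≠ i → x v = 0) →
      x = Pi.single (e.symm i) (x (e.symm i)) := by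
    intro i x hx
    funext v
    by_cases hv : v = e.symm i
    · subst hv; simp
    · rw [Pi.single_eq_of_ne hv]
      apply hx
      intro h2
      apply hv
      rw [← h2, e.symm_apply_apply]
  have hbl2 : ∀ i : Fin (Fintype.card V), blk (fun v => e v) i h =
      Pi.single (e.symm i) (h (e.symm i)) := by
    intro i
    have h1 := hblk i (blk (fun v => e v) i h) (fun v hv => blk_ne hv h)
    rw [h1, blk_eq (e.apply_symm_apply i)]
  have hLvl : Lvl L 1 θ (fun v => e v) h := by
    refine ⟨hpos, ?_, e.surjective, ?_, ?_⟩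
    · intro i
      rw [Finset.card_le_one]
      intro a ha b hb
      simp only [mem_filter, mem_univ, true_and] at ha hb
      exact e.injective (ha.trans hb.symm)
    · intro i
      rw [hbl2, J4168_single]
      exact hsq _
    · intro i x hx u hu
      have hu' : e.symm i = u := by rw [← hu, e.symm_apply_apply]
      have hx' := hblk i x hx
      rw [hu'] at hx'
      have h1 : q L x (blk (fun v => e v) i h) = x u * L u u * h u := by
        rw [hbl2, hu']
        conv_lhs => rw [hx']
        exact J4168_single L u _ _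
      rw [h1]
      have h2 : x u - x u * L u u * h u * h u = x u * (1 - h u * L u u * h u) := by ring
      rw [h2, hsq u, sub_self, mul_zero, abs_zero]
      have := hpos u
      positivity
  have hfin := hR V L (J4168_mono (le_max_left _ _) hSys) hcon _ _ h hLvl
  have hcard : (0 : ℝ) < Fintype.card V := by exact_mod_cast Fintype.card_pos
  nlinarith

end Sch
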