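import Mathlib
set_option autoImplicit false
namespace Sch
open Finset Matrix

/-- the bilinear form of the matrix `L` -/
def q {V : Type} [Fintype V] (L : Matrix V V ℝ) (x y : V → ℝ) : ℝ := ∑ u, ∑ v, x u * L u v * y v

/-- restriction of `x` to the block `i` of the partition given by the fibres of `π` -/
def blk {V ι : Type} [DecidableEq ι] (π : V → ι) (i : ι) (x : V → ℝ) : V → ℝ :=
  fun v => if π v = i then x v else 0

/-- local positive definiteness -/
def LPD {V : Type} [Fintype V] (L : Matrix V V ℝ) (R : ℕ) : Prop :=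
  ∀ S : Finset V, S.card ≤ R → ∀ x : V → ℝ, (∀ v, v ∉ S → x v = 0) → x ≠ 0 → 0 < q L x x

/-- symmetric, nonpositive off the diagonal, at most `Δ` off-diagonal entries per row,
positive definite on every set of at most `R` vertices -/
structure Sys {V : Type} [Fintype V] [DecidableEq V] (L : Matrix V V ℝ) (Δ R : ℕ) : Prop where
  symm : ∀ u v, L u v = L v u
  offdiag : ∀ u v, u ≠ v → L u v ≤ 0
  deg : ∀ u, (univ.filter (fun v => v ≠ u ∧ L u v ≠ 0)).card ≤ Δ
  lpd : LPD L R

/-- a partition into `θ`-tight blocks with profile `h` -/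
structure Lvl {V ι : Type} [Fintype V] [DecidableEq ι] (L : Matrix V V ℝ) (s : ℕ) (θ : ℝ)
    (π : V → ι) (h : V → ℝ) : Prop where
  pos : ∀ v, 0 < h v
  card_le : ∀ i, (univ.filter (fun v => π v = i)).card ≤ s
  surj : Function.Surjective π
  norm : ∀ i, q L (blk π i h) (blk π i h) = 1
  tight : ∀ i (x : V → ℝ), (∀ v, π v ≠ i → x v = 0) → ∀ u, π u = i →
    |x u - q L x (blk π i h) * h u| ≤ θ * Real.sqrt (q L x x) * h u

/-- coordinate of `x` along the profile of block `i` -/
noncomputable def al {V ι : Type} [Fintype V] [DecidableEq ι] (L : Matrix V V ℝ) (π : V → ι) (h : V → ℝ)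
    (i : ι) (x : V → ℝ) : ℝ := q L (blk π i x) (blk π i h)

/-- squared norm of `x` on block `i` -/
noncomputable def nn {V ι : Type} [Fintype V] [DecidableEq ι] (L : Matrix V V ℝ) (π : V → ι)
    (i : ι) (x : V → ℝ) : ℝ := q L (blk π i x) (blk π i x)

/-- block weight -/
noncomputable def w {V ι : Type} [Fintype V] [DecidableEq ι] (L : Matrix V V ℝ) (π : V → ι) (h : V → ℝ)
    (i j : ι) : ℝ := if i = j then 0 else - q L (blk π i h) (blk π j h)

/-- total block norm -/
noncomputable def QQ {V ι : Type} [Fintype V] [Fintype ι] [DecidableEq ι] (L : Matrix V V ℝ) (π : V → ι)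
    (x : V → ℝ) : ℝ := ∑ i, nn L π i x

end Sch
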