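import Pool.Agent.Helper78.SchDefs
set_option autoImplicit false
set_option linter.unusedSectionVars false
namespace Sch
open Finset Matrix

theorem q_abs_le_exc {V : Type} [Fintype V] [DecidableEq V] (L : Matrix V V ℝ)
    (offdiag : ∀ u v, u ≠ v → L u v ≤ 0) (x : V → ℝ) :
    q L (fun v => |x v|) (fun v => |x v|) ≤ q L x x := by
  unfold q
  apply Finset.sum_le_sum
  intro u _
  apply Finset.sum_le_sum
  intro v _
  by_cases h : u = v
  · subst h
    apply le_of_eq
    have := abs_mul_abs_self (x u)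
    calc |x u| * L u u * |x u| = (|x u| * |x u|) * L u u := by ring
      _ = x u * L u u * x u := by rw [this]; ring
  · have h1 := offdiag u v h
    have h2 : x u * x v ≤ |x u| * |x v| := by
      rw [← abs_mul]
      exact le_abs_self _
    have h3 := mul_le_mul_of_nonpos_right h2 h1
    calc |x u| * L u v * |x v| = |x u| * |x v| * L u v := by ring
      _ ≤ x u * x v * L u v := h3
      _ = x u * L u v * x v := by ring

theorem q_add_single {V : Type} [Fintype V] [DecidableEq V] (L : Matrix V V ℝ)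
    (symm : ∀ u v, L u v = L v u) (y : V → ℝ) (u : V) (t : ℝ) :
    q L (y + Pi.single u t) (y + Pi.single u t) =
      q L y y + 2 * t * (∑ w, L u w * y w) + t ^ 2 * L u u := by
  unfold q
  simp only [Pi.add_apply, add_mul, mul_add, Finset.sum_add_distrib]
  have e1 : ∑ a, ∑ b, y a * L a b * (Pi.single u t : V → ℝ) b = t * ∑ w, L u w * y w := by
    simp only [Pi.single_apply, mul_ite, mul_zero, Finset.sum_ite_eq', Finset.mem_univ, if_true]
    rw [Finset.mul_sum]
    apply Finset.sum_congr rfl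
    intro a _
    rw [symm a u]
    ring
  have e2 : ∑ a, ∑ b, (Pi.single u t : V → ℝ) a * L a b * y b = t * ∑ w, L u w * y w := by
    rw [Finset.sum_eq_single u]
    · rw [Finset.mul_sum]
      apply Finset.sum_congr rfl
      intro a _
      simp only [Pi.single_eq_same]
      ring
    · intro a _ ha
      apply Finset.sum_eq_zero
      intro b _
      rw [Pi.single_eq_of_ne ha]
      ring
    · intro h
      exact absurd (Finset.mem_univ u) h
  have e3 : ∑ a, ∑ b, (Pi.single u t : V → ℝ) a * L a b * (Pi.single u t : V → ℝ) b = t ^ 2 * L u u := by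
    rw [Finset.sum_eq_single u]
    · rw [Finset.sum_eq_single u]
      · simp only [Pi.single_eq_same]
        ring
      · intro b _ hb
        rw [Pi.single_eq_of_ne hb]
        ring
      · intro h
        exact absurd (Finset.mem_univ u) h
    · intro a _ ha
      apply Finset.sum_eq_zero
      intro b _
      rw [Pi.single_eq_of_ne ha]
      ring
    · intro h
      exact absurd (Finset.mem_univ u) h
  rw [e1, e2, e3]
  ring

theorem extension {V : Type} [Fintype V] [DecidableEq V] (L : Matrix V V ℝ) (R : ℕ)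
    (symm : ∀ u v, L u v = L v u) (offdiag : ∀ u v, u ≠ v → L u v ≤ 0)
    (conn : ∀ S : Finset V, S.Nonempty → S ≠ univ → ∃ u, u ∉ S ∧ ∃ v ∈ S, L u v ≠ 0)
    (hR : R < Fintype.card V) (B : Finset V) (hB : B.card ≤ R) (x : V → ℝ)
    (hx : ∀ v, v ∉ B → x v = 0) (hx0 : x ≠ 0) (hq : q L x x ≤ 0) :
    ∃ (z : V → ℝ) (u : V), (∀ v, v ∉ B → v ≠ u → z v = 0) ∧ (∃ v ∈ B, L u v ≠ 0) ∧ q L z z < 0 := by
  obtain ⟨y, hy⟩ : ∃ y : V → ℝ, y = fun v => |x v| := ⟨_, rfl⟩
  have hyv : ∀ v, y v = |x v| := by intro v; rw [hy]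
  have hqy : q L y y ≤ 0 := by
    rw [hy]
    exact (q_abs_le_exc L offdiag x).trans hq
  obtain ⟨S, hS⟩ : ∃ S : Finset V, S = univ.filter (fun v => x v ≠ 0) := ⟨_, rfl⟩
  have hmS : ∀ v, v ∈ S ↔ x v ≠ 0 := by
    intro v; rw [hS]; simp
  have hSB : S ⊆ B := by
    intro v hv
    by_contra h
    exact (hmS v).1 hv (hx v h)
  have hSne : S.Nonempty := by
    obtain ⟨v, hv⟩ := Function.ne_iff.1 hx0
    exact ⟨v, (hmS v).2 hv⟩
  have hSu : S ≠ univ := by
    intro h
    have h1 := Finset.card_le_card hSB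
    rw [h, Finset.card_univ] at h1
    omega
  obtain ⟨u, hu, v, hv, huv⟩ := conn S hSne hSu
  have hxu : x u = 0 := by
    by_contra h
    exact hu ((hmS u).2 h)
  have hyu : y u = 0 := by rw [hyv, hxu, abs_zero]
  have hne : u ≠ v := by
    rintro rfl
    exact hu hv
  have hyn : ∀ w, 0 ≤ y w := by intro w; rw [hyv]; exact abs_nonneg _
  obtain ⟨c, hc⟩ : ∃ c : ℝ, c = ∑ w, L u w * y w := ⟨_, rfl⟩
  have hcneg : c < 0 := by
    rw [hc]
    apply Finset.sum_neg'
    · intro w _
      by_cases hw : w = u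
      · rw [hw, hyu, mul_zero]
      · exact mul_nonpos_of_nonpos_of_nonneg (offdiag u w (Ne.symm hw)) (hyn w)
    · refine ⟨v, Finset.mem_univ v, ?_⟩
      apply mul_neg_of_neg_of_pos
      · exact lt_of_le_of_ne (offdiag u v hne) huv
      · rw [hyv]
        exact abs_pos.2 ((hmS v).1 hv)
  obtain ⟨t, ht⟩ : ∃ t : ℝ, t = -c / (|L u u| + 1) := ⟨_, rfl⟩
  have hd : 0 < |L u u| + 1 := by positivity
  have htpos : 0 < t := by
    rw [ht]
    apply div_pos (by linarith) hd
  have h1 : t * L u u ≤ -c := by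
    have h2 : t * L u u ≤ t * |L u u| := mul_le_mul_of_nonneg_left (le_abs_self _) htpos.le
    have h3 : t * (|L u u| + 1) = -c := by
      rw [ht]
      field_simp
    nlinarith
  refine ⟨y + Pi.single u t, u, ?_, ⟨v, hSB hv, huv⟩, ?_⟩
  · intro w hw hwu
    rw [Pi.add_apply, Pi.single_eq_of_ne hwu, hyv, hx w hw]
    simp
  · rw [q_add_single L symm, ← hc]
    have : 2 * t * c + t ^ 2 * L u u = t * (2 * c + t * L u u) := by ring
    have h2 : t * (2 * c + t * L u u) < 0 := mul_neg_of_pos_of_neg htpos (by linarith)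
    linarith

/-- closed neighbourhood -/
noncomputable def nb {V : Type} [Fintype V] [DecidableEq V] (L : Matrix V V ℝ) (X : Finset V) : Finset V :=
  X.biUnion (fun u => insert u (univ.filter (fun v => v ≠ u ∧ L u v ≠ 0)))

theorem card_nb {V : Type} [Fintype V] [DecidableEq V] (L : Matrix V V ℝ) (Δ : ℕ)
    (deg : ∀ u, (univ.filter (fun v => v ≠ u ∧ L u v ≠ 0)).card ≤ Δ) (X : Finset V) :
    (nb L X).card ≤ X.card * (Δ + 1) := by
  unfold nb
  apply Finset.card_biUnion_le_card_mul
  intro u _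
  exact (Finset.card_insert_le _ _).trans (Nat.add_le_add_right (deg u) 1)

theorem sub_nb {V : Type} [Fintype V] [DecidableEq V] (L : Matrix V V ℝ) (X : Finset V) :
    X ⊆ nb L X := by
  intro v hv
  unfold nb
  rw [Finset.mem_biUnion]
  exact ⟨v, hv, Finset.mem_insert_self _ _⟩

theorem adj_nb {V : Type} [Fintype V] [DecidableEq V] (L : Matrix V V ℝ) (X : Finset V) {u v : V}
    (hu : u ∈ X) (h : L u v ≠ 0) : v ∈ nb L X := by
  by_cases huv : v = u
  · rw [huv]
    exact sub_nb L X hu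
  · unfold nb
    rw [Finset.mem_biUnion]
    refine ⟨u, hu, ?_⟩
    apply Finset.mem_insert_of_mem
    simp [huv, h]

theorem exc_set {V : Type} [Fintype V] [DecidableEq V] (L : Matrix V V ℝ) (Δ R : ℕ)
    (symm : ∀ u v, L u v = L v u) (offdiag : ∀ u v, u ≠ v → L u v ≤ 0)
    (deg : ∀ u, (univ.filter (fun v => v ≠ u ∧ L u v ≠ 0)).card ≤ Δ)
    (conn : ∀ S : Finset V, S.Nonempty → S ≠ univ → ∃ u, u ∉ S ∧ ∃ v ∈ S, L u v ≠ 0)
    (neg : ∀ x y : V → ℝ, (∀ u v, x u ≠ 0 → y v ≠ 0 → u ≠ v ∧ L u v = 0) →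
      ¬ (q L x x < 0 ∧ q L y y < 0))
    (hR : R < Fintype.card V) :
    ∃ S0 : Finset V, S0.card ≤ (R + 1) * (Δ + 1) ^ 2 ∧
      ∀ B : Finset V, B.card ≤ R → Disjoint B S0 → ∀ x : V → ℝ, (∀ v, v ∉ B → x v = 0) → x ≠ 0 →
        0 < q L x x := by
  by_cases hbad : ∃ (B : Finset V) (x : V → ℝ), B.card ≤ R ∧ (∀ v, v ∉ B → x v = 0) ∧ x ≠ 0 ∧ q L x x ≤ 0
  · obtain ⟨B0, x0, hB0, hx0, hx0ne, hq0⟩ := hbad
    obtain ⟨z0, u0, hz0, -, hqz0⟩ := extension L R symm offdiag conn hR B0 hB0 x0 hx0 hx0ne hq0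
    refine ⟨nb L (nb L (insert u0 B0)), ?_, ?_⟩
    · calc (nb L (nb L (insert u0 B0))).card ≤ (nb L (insert u0 B0)).card * (Δ + 1) := card_nb L Δ deg _
        _ ≤ ((insert u0 B0).card * (Δ + 1)) * (Δ + 1) := Nat.mul_le_mul_right _ (card_nb L Δ deg _)
        _ ≤ ((R + 1) * (Δ + 1)) * (Δ + 1) := by
            apply Nat.mul_le_mul_right
            apply Nat.mul_le_mul_right
            exact (Finset.card_insert_le _ _).trans (Nat.add_le_add_right hB0 1)
        _ = (R + 1) * (Δ + 1) ^ 2 := by ring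
    · intro B hB hdis x hx hxne
      by_contra hq
      have hq' : q L x x ≤ 0 := not_lt.1 hq
      obtain ⟨z, u, hz, ⟨v, hvB, huv⟩, hqz⟩ := extension L R symm offdiag conn hR B hB x hx hxne hq'
      refine neg z0 z ?_ ⟨hqz0, hqz⟩
      intro a b ha hb
      have haB : a ∈ insert u0 B0 := by
        by_contra h
        rw [Finset.mem_insert, not_or] at h
        exact ha (hz0 a h.2 h.1)
      have hbN : b ∉ nb L (insert u0 B0) := by
        intro hbN
        by_cases hbu : b = u
        · subst hbu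
          exact Finset.disjoint_left.1 hdis hvB (adj_nb L _ hbN huv)
        · have hbB : b ∈ B := by
            by_contra h
            exact hb (hz b h hbu)
          exact Finset.disjoint_left.1 hdis hbB (sub_nb L _ hbN)
      constructor
      · rintro rfl
        exact hbN (sub_nb L _ haB)
      · by_contra h
        exact hbN (adj_nb L _ haB h)
  · refine ⟨∅, by simp, ?_⟩
    intro B hB _ x hx hxne
    by_contra hq
    exact hbad ⟨B, x, hB, hx, hxne, not_lt.1 hq⟩

end Sch
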