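import Mathlib
set_option autoImplicit false
open Finset

theorem Sch.fibre_count {ι : Type} [Fintype ι] [DecidableEq ι] (ρ : ι → ι) (C : Finset ι)
    (hC : ∀ i ∈ C, 2 ≤ (univ.filter (fun j => ρ j = ρ i)).card) :
    ((univ.image ρ).card : ℝ) ≤ Fintype.card ι - (C.card : ℝ) / 2 := by
  have h1 : Fintype.card ι = ∑ b ∈ univ.image ρ, (univ.filter (fun j => ρ j = b)).card := by
    rw [← Finset.card_univ]
    exact Finset.card_eq_sum_card_image ρ univ
  have h2 : C.card = ∑ b ∈ univ.image ρ, (C.filter (fun j => ρ j = b)).card := by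
    refine Finset.card_eq_sum_card_fiberwise ?_
    intro x _
    exact Finset.mem_coe.2 (Finset.mem_image_of_mem ρ (Finset.mem_univ x))
  have h3 : C.card + 2 * (univ.image ρ).card ≤ 2 * Fintype.card ι := by
    rw [h2, h1, Finset.card_eq_sum_ones (univ.image ρ), Finset.mul_sum, Finset.mul_sum,
      ← Finset.sum_add_distrib]
    refine Finset.sum_le_sum ?_
    intro b hb
    have hle : (C.filter (fun j => ρ j = b)).card ≤ (univ.filter (fun j => ρ j = b)).card :=
      Finset.card_le_card (Finset.filter_subset_filter _ (Finset.subset_univ C))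
    obtain ⟨i, _, hi⟩ := Finset.mem_image.1 hb
    have hpos : 1 ≤ (univ.filter (fun j => ρ j = b)).card := by
      refine Finset.card_pos.2 ⟨i, ?_⟩
      simp [hi]
    rcases Nat.eq_zero_or_pos (C.filter (fun j => ρ j = b)).card with h0 | h0
    · omega
    · obtain ⟨k, hk⟩ := Finset.card_pos.1 h0
      rw [Finset.mem_filter] at hk
      have := hC k hk.1
      rw [hk.2] at this
      omega
  have h4 : (C.card : ℝ) + 2 * ((univ.image ρ).card : ℝ) ≤ 2 * (Fintype.card ι : ℝ) := by
    exact_mod_cast h3
  linarith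

/-- window with few entries -/
theorem Sch.window {ι : Type} [Fintype ι] [DecidableEq ι] (w : ι → ι → ℝ) (D M : ℕ) (hM : 0 < M)
    (hdeg : ∀ i, (univ.filter (fun j => w i j ≠ 0)).card ≤ D) (δ : ℕ → ℝ)
    (hpos : ∀ j, 0 < δ j) (hanti : ∀ j, δ (j + 1) ≤ δ j) :
    ∃ j < M, (((univ : Finset (ι × ι)).filter (fun p => δ (j + 1) ≤ w p.1 p.2 ∧ w p.1 p.2 < δ j)).card : ℝ) ≤
      (D : ℝ) * Fintype.card ι / M := by
  classical
  by_contra hcon
  push Not at hcon
  have hA : Antitone δ := antitone_nat_of_succ_le hanti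
  set E : ℕ → Finset (ι × ι) := fun j =>
    (univ : Finset (ι × ι)).filter (fun p => δ (j + 1) ≤ w p.1 p.2 ∧ w p.1 p.2 < δ j) with hE
  have hdisj : ∀ i ∈ Finset.range M, ∀ j ∈ Finset.range M, i ≠ j → Disjoint (E i) (E j) := by
    have key : ∀ i j, i < j → Disjoint (E i) (E j) := by
      intro i j hij
      rw [Finset.disjoint_left]
      intro p hp hq
      simp only [hE, Finset.mem_filter, Finset.mem_univ, true_and] at hp hq
      have := hA (Nat.succ_le_of_lt hij)
      have h2 : δ j ≤ δ (i + 1) := this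
      linarith [hp.1, hq.2]
    intro i _ j _ hne
    rcases lt_or_gt_of_ne hne with h | h
    · exact key i j h
    · exact (key j i h).symm
  have hcard : ∑ j ∈ Finset.range M, (E j).card = ((Finset.range M).biUnion E).card :=
    (Finset.card_biUnion hdisj).symm
  have hsub : (Finset.range M).biUnion E ⊆
      (univ : Finset (ι × ι)).filter (fun p => w p.1 p.2 ≠ 0) := by
    intro p hp
    rw [Finset.mem_biUnion] at hp
    obtain ⟨j, _, hj⟩ := hp
    simp only [hE, Finset.mem_filter, Finset.mem_univ, true_and] at hj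
    simp only [Finset.mem_filter, Finset.mem_univ, true_and]
    have := hpos (j + 1)
    linarith [hj.1]
  have htot : ((univ : Finset (ι × ι)).filter (fun p => w p.1 p.2 ≠ 0)).card ≤
      D * Fintype.card ι := by
    have h5 : ((univ : Finset (ι × ι)).filter (fun p => w p.1 p.2 ≠ 0)).card =
        ∑ i : ι, (univ.filter (fun j => w i j ≠ 0)).card := by
      rw [Finset.card_eq_sum_card_fiberwise (f := Prod.fst) (t := (univ : Finset ι))
        (fun x _ => Finset.mem_coe.2 (Finset.mem_univ _))]
      refine Finset.sum_congr rfl ?_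
      intro i _
      refine Finset.card_bij' (fun p _ => p.2) (fun j _ => (i, j)) ?_ ?_ ?_ ?_
      · rintro ⟨a, b⟩ h
        simp only [Finset.mem_filter, Finset.mem_univ, true_and] at h ⊢
        rw [← h.2]; exact h.1
      · intro j h
        simp only [Finset.mem_filter, Finset.mem_univ, true_and] at h ⊢
        exact ⟨h, trivial⟩
      · rintro ⟨a, b⟩ h
        simp only [Finset.mem_filter, Finset.mem_univ, true_and] at h
        simp [h.2]
      · intro j h
        rfl
    rw [h5]
    calc ∑ i : ι, (univ.filter (fun j => w i j ≠ 0)).card ≤ ∑ _i : ι, D :=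
          Finset.sum_le_sum (fun i _ => hdeg i)
      _ = D * Fintype.card ι := by simp [mul_comm]
  have hle : ∑ j ∈ Finset.range M, (E j).card ≤ D * Fintype.card ι := by
    rw [hcard]; exact (Finset.card_le_card hsub).trans htot
  have hle' : ∑ j ∈ Finset.range M, ((E j).card : ℝ) ≤ (D : ℝ) * Fintype.card ι := by
    exact_mod_cast hle
  have hMpos : (0 : ℝ) < M := by exact_mod_cast hM
  have hlt : ∑ j ∈ Finset.range M, ((D : ℝ) * Fintype.card ι / M) <
      ∑ j ∈ Finset.range M, ((E j).card : ℝ) := by
    refine Finset.sum_lt_sum_of_nonempty (Finset.nonempty_range_iff.2 hM.ne') ?_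
    intro j hj
    exact hcon j (Finset.mem_range.1 hj)
  rw [Finset.sum_const, Finset.card_range, nsmul_eq_mul, mul_div_cancel₀ _ hMpos.ne'] at hlt
  linarith
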