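import Mathlib
set_option autoImplicit false
open Finset

open Classical in
/-- packing lemma: a small set `T` of vertices such that every vertex is either in a small
component, or close to `T` -/
theorem Sch.packing {ι : Type} [Fintype ι] (H : SimpleGraph ι) (k : ℕ) (hk : 0 < k) :
    ∃ T : Finset ι, T.card * k ≤ Fintype.card ι ∧
      ∀ i, (∃ t ∈ T, ∃ p : H.Walk i t, p.length ≤ 2 * k) ∨
        ((univ.filter (fun j => H.Reachable i j)).card ≤ k ∧
          ∀ j l, H.Reachable i j → H.Reachable i l → ∃ p : H.Walk j l, p.length ≤ k) := by
  let C : ι → Finset ι := fun i => univ.filter (fun j => H.Reachable i j)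
  let N : ι → Finset ι := fun i => univ.filter (fun j => ∃ p : H.Walk i j, p.length ≤ k)
  have hbigN : ∀ i, k < (C i).card → k ≤ (N i).card := by
    intro i hi
    by_cases hall : ∀ j, H.Reachable i j → ∃ p : H.Walk i j, p.length ≤ k
    · have hsub : C i ⊆ N i := by
        intro j hj
        rw [Finset.mem_filter] at hj ⊢
        exact ⟨Finset.mem_univ _, hall j hj.2⟩
      exact hi.le.trans (Finset.card_le_card hsub)
    · push Not at hall
      obtain ⟨j, ⟨w⟩, hj⟩ := hall
      let p := w.toPath
      have hplen : k < p.1.length := hj p.1
      have hinj : Set.InjOn p.1.getVert ((Finset.range (k + 1) : Finset ℕ) : Set ℕ) := by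
        apply p.2.getVert_injOn.mono
        intro m hm
        have : m < k + 1 := by simpa using hm
        show m ≤ p.1.length
        omega
      have hsub : (Finset.range (k + 1)).image p.1.getVert ⊆ N i := by
        intro x hx
        obtain ⟨m, hm, rfl⟩ := Finset.mem_image.mp hx
        rw [Finset.mem_filter]
        refine ⟨Finset.mem_univ _, p.1.take m, ?_⟩
        have := Finset.mem_range.mp hm
        have h2 := p.1.take_length m
        rw [h2]
        exact (min_le_left _ _).trans (by omega)
      have h3 := Finset.card_le_card hsub
      rw [Finset.card_image_of_injOn hinj, Finset.card_range] at h3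
      omega
  let F : Finset (Finset ι) := univ.filter (fun T => (∀ t ∈ T, k < (C t).card) ∧
    ∀ s ∈ T, ∀ t ∈ T, s ≠ t → Disjoint (N s) (N t))
  have hF : F.Nonempty := ⟨∅, by simp [F]⟩
  obtain ⟨T, hT, hmax⟩ := F.exists_max_image Finset.card hF
  rw [Finset.mem_filter] at hT
  obtain ⟨-, hTbig, hTdis⟩ := hT
  refine ⟨T, ?_, ?_⟩
  · calc T.card * k = ∑ _t ∈ T, k := by rw [Finset.sum_const, smul_eq_mul]
      _ ≤ ∑ t ∈ T, (N t).card := Finset.sum_le_sum (fun t ht => hbigN t (hTbig t ht))
      _ = (T.biUnion N).card := (Finset.card_biUnion (fun s hs t ht hst => hTdis s hs t ht hst)).symm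
      _ ≤ Fintype.card ι := Finset.card_le_univ _
  · intro i
    by_cases hi : k < (C i).card
    · left
      by_cases hiT : i ∈ T
      · exact ⟨i, hiT, SimpleGraph.Walk.nil, by simp⟩
      · by_contra hno
        push Not at hno
        have hins : insert i T ∈ F := by
          rw [Finset.mem_filter]
          refine ⟨Finset.mem_univ _, ?_, ?_⟩
          · intro t ht
            rcases Finset.mem_insert.mp ht with rfl | ht
            · exact hi
            · exact hTbig t ht
          · have hdis : ∀ t ∈ T, Disjoint (N i) (N t) := by
              intro t ht
              rw [Finset.disjoint_left]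
              intro x hx hx2
              rw [Finset.mem_filter] at hx hx2
              obtain ⟨-, p, hp⟩ := hx
              obtain ⟨-, q, hq⟩ := hx2
              have h1 := hno t ht (p.append q.reverse)
              rw [SimpleGraph.Walk.length_append, SimpleGraph.Walk.length_reverse] at h1
              omega
            intro s hs t ht hst
            rcases Finset.mem_insert.mp hs with rfl | hs'
            · rcases Finset.mem_insert.mp ht with rfl | ht'
              · exact absurd rfl hst
              · exact hdis t ht'
            · rcases Finset.mem_insert.mp ht with rfl | ht'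
              · exact (hdis s hs').symm
              · exact hTdis s hs' t ht' hst
        have h2 := hmax _ hins
        rw [Finset.card_insert_of_notMem hiT] at h2
        omega
    · right
      have hi' : (C i).card ≤ k := not_lt.mp hi
      refine ⟨hi', ?_⟩
      intro j l hj hl
      obtain ⟨w⟩ := hj.symm.trans hl
      let p := w.toPath
      refine ⟨p.1, ?_⟩
      have hsub : p.1.support.toFinset ⊆ C i := by
        intro x hx
        rw [List.mem_toFinset] at hx
        rw [Finset.mem_filter]
        exact ⟨Finset.mem_univ _, hj.trans ⟨p.1.takeUntil x hx⟩⟩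
      have h1 := Finset.card_le_card hsub
      rw [List.toFinset_card_of_nodup p.2.support_nodup, SimpleGraph.Walk.length_support] at h1
      omega
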