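import Pool.Agent.Helper78.SchBasic
set_option autoImplicit false
set_option linter.unusedSectionVars false
namespace Sch
/-- heavy block graph -/
def Hg {V ι : Type} [Fintype V] [DecidableEq ι] (L : Matrix V V ℝ) (π : V → ι) (h : V → ℝ) (δ : ℝ) :
    SimpleGraph ι where
  Adj i j := i ≠ j ∧ δ ≤ w L π h i j ∧ δ ≤ w L π h j i
  symm := ⟨fun _ _ h => ⟨h.1.symm, h.2.2, h.2.1⟩⟩
  loopless := ⟨fun _ h => h.1 rfl⟩
end Sch
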