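import Pool.Agent.Helper78.SchCnt
set_option autoImplicit false
set_option linter.unusedSectionVars false
namespace Sch
open Finset Matrix

section main
variable {V : Type} [Fintype V] [DecidableEq V] {m : ℕ} {L : Matrix V V ℝ}
  {Δ R s : ℕ} {θ : ℝ} {π : V → Fin m} {h : V → ℝ}

theorem level_main (hS : Sys L Δ R) (hL : Lvl L s θ π h) (k M : ℕ) (hk : 1 ≤ k) (hM : 0 < M)
    (c c₁ θ' : ℝ) (hc : 0 < c) (hc1 : c₁ = c / 16) (hθ' : 0 < θ') (hθ'1 : θ' ≤ 1) (hθ0 : 0 < θ)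
    (hθθ' : θ ≤ θ') (hθ2 : θ * (4 * ((s * Δ : ℕ) : ℝ) + 4) ≤ 1) (r : ℕ → ℕ)
    (hpar : ∀ j < M, 1 ≤ r j ∧ s * (s * Δ + 1) ^ (r j) + s ≤ R ∧
      θ ≤ (dseq k (s * Δ) θ' c₁ j) ^ k / (64 * (k : ℝ) ^ 2) ∧
      6 * θ * k ≤ tau k θ' (dseq k (s * Δ) θ' c₁ j) ∧
      2 * k * (θ + Real.sqrt ((s * Δ : ℕ) : ℝ) / (r j)) <
        (dseq k (s * Δ) θ' c₁ j) ^ (2 * k) * (Real.sqrt c₁ - 2 * θ))
    (hRk : s * k + 2 * s ≤ R) (hks : 8 * (s : ℝ) ≤ c * k)
    (hMk : 8 * (k : ℝ) * ((s * Δ : ℕ) : ℝ) ≤ c * M)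
    (hdim : c * Fintype.card V ≤ Module.finrank ℝ (LinearMap.ker (Matrix.toLin' L))) :
    ∃ (m' : ℕ) (π' : V → Fin m') (h' : V → ℝ), Lvl L (s * k) θ' π' h' ∧
      (m' : ℝ) ≤ m - (c / 8) * Fintype.card V := by
  classical
  have hc₁ : 0 < c₁ := by rw [hc1]; positivity
  have hR2 : 2 * s ≤ R := by omega
  have hk' : (0 : ℝ) < k := by exact_mod_cast hk
  have hM' : (0 : ℝ) < M := by exact_mod_cast hM
  have hmV : m ≤ Fintype.card V := by
    have := Fintype.card_le_of_surjective π hL.surj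
    simpa using this
  have hmV' : (m : ℝ) ≤ Fintype.card V := by exact_mod_cast hmV
  -- window
  obtain ⟨j, hjM, hE⟩ := window (fun i l => w L π h i l) (s * Δ) M hM (fun i => hL.bdeg hS i)
    (dseq k (s * Δ) θ' c₁) (fun j => dseq_pos hk hθ' hc₁ j) (fun j => dseq_anti j)
  obtain ⟨hr1, hRr, hθa, hθb, hθc⟩ := hpar j hjM
  set δ := dseq k (s * Δ) θ' c₁ j with hδdef
  set δ' := dseq k (s * Δ) θ' c₁ (j + 1) with hδ'def
  have hδ : 0 < δ := dseq_pos hk hθ' hc₁ j
  have hδ1 : δ ≤ 1 := dseq_le_one j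
  have hδ' : 0 < δ' := dseq_pos hk hθ' hc₁ (j + 1)
  set τ := tau k θ' δ with hτdef
  have hτ : 0 < τ := tau_pos hk hθ' hδ
  have hτ1 : τ ≤ 1 / 2 := tau_le
  have hstep : 8 * δ' * k * ((s * Δ : ℕ) : ℝ) ≤ c₁ * τ := dseq_step hk hθ' hc₁ j
  have hθ1 : θ ≤ 1 := by linarith
  set H := Hg L π h δ with hH
  obtain ⟨T, hT, hTp⟩ := packing H k hk
  set E := (univ : Finset (Fin m × Fin m)).filter
    (fun p => dseq k (s * Δ) θ' c₁ (j + 1) ≤ w L π h p.1 p.2 ∧ w L π h p.1 p.2 < dseq k (s * Δ) θ' c₁ j)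
    with hEdef
  -- small components
  let sm : Fin m → Prop := fun i => (cmp H i).card ≤ k ∧
    ∀ a b, H.Reachable i a → H.Reachable i b → ∃ p : H.Walk a b, p.length ≤ k
  have hTp' : ∀ i, (∃ t ∈ T, ∃ p : H.Walk i t, p.length ≤ 2 * k) ∨ sm i := by
    intro i
    rcases hTp i with h1 | ⟨h1, h2⟩
    · exact Or.inl h1
    · refine Or.inr ⟨?_, h2⟩
      unfold cmp; convert h1
  let cr : Fin m → Prop := fun i => sm i ∧ Crit L π h τ (cmp H i)
  let bad : Fin m → Prop := fun i => (cmp H i).card ≤ k ∧ ∃ p ∈ E, H.Reachable i p.1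
  set Cr := univ.filter cr with hCr
  set Bd := univ.filter bad with hBd
  -- count
  have hcount := level_count hS hL hR2 hθ0.le hθ2 c₁ hc₁ T (Cr ∪ Bd) (by
    intro f hf hfT i hi
    have hi1 : ¬ cr i := fun h => hi (mem_union_left _ (mem_filter.2 ⟨mem_univ i, h⟩))
    have hi2 : ¬ bad i := fun h => hi (mem_union_right _ (mem_filter.2 ⟨mem_univ i, h⟩))
    rcases hTp' i with ⟨t, ht, p, hp⟩ | hsm
    · exact hL.big_block hS hR2 hθ0.le hδ hδ1 k (r j) hr1 hRr c₁ hc₁ hθc hf p hp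
        (fun v hv => hfT v (hv ▸ ht))
    · have hnc : ∀ a : Fin m → ℝ, τ * ∑ i ∈ cmp H i, (a i) ^ 2 ≤
          q L (∑ i ∈ cmp H i, a i • blk π i h) (∑ i ∈ cmp H i, a i • blk π i h) := by
        intro a
        by_contra hcon
        exact hi1 ⟨hsm, a, not_le.1 hcon⟩
      have hlight : ∀ a ∈ cmp H i, ∀ b, b ∉ cmp H i → w L π h a b ≤ δ' := by
        intro a ha b hb
        by_contra hcon
        have hcon := not_le.1 hcon
        have hab : w L π h a b < δ := by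
          by_contra hge
          have hge := not_lt.1 hge
          have hne : a ≠ b := by rintro rfl; exact hb ha
          have hadj : H.Adj a b := ⟨hne, hge, by rw [w_symm hS.symm]; exact hge⟩
          exact hb (mem_cmp.2 ((mem_cmp.1 ha).trans hadj.reachable))
        exact hi2 ⟨hsm.1, (a, b), mem_filter.2 ⟨mem_univ _, hcon.le, hab⟩, mem_cmp.1 ha⟩
      exact hL.small_noncrit hS hR2 hθ0.le hθ1 (cmp H i) k hsm.1 δ' τ c₁ hδ'.le hlight hτ
        (by linarith) hnc hθb hstep hf i (mem_cmp.2 (SimpleGraph.Reachable.refl i)))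
  have hBdcard : (Bd.card : ℝ) ≤ (c / 8) * Fintype.card V := by
    have h1 : Bd.card ≤ E.card * k := bad_count H k E Bd (fun i hi => (mem_filter.1 hi).2)
    have h2 : (Bd.card : ℝ) ≤ E.card * k := by exact_mod_cast h1
    have h3 : (Fintype.card (Fin m) : ℝ) = m := by simp
    rw [h3] at hE
    have h4 : (E.card : ℝ) * k ≤ ((s * Δ : ℕ) : ℝ) * m / M * k := mul_le_mul_of_nonneg_right hE hk'.le
    have h5 : ((s * Δ : ℕ) : ℝ) * m / M * k ≤ (c / 8) * m := by
      rw [div_mul_eq_mul_div, div_le_iff₀ hM']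
      have : (0 : ℝ) ≤ m := Nat.cast_nonneg m
      nlinarith
    have h6 : (c / 8) * (m : ℝ) ≤ (c / 8) * Fintype.card V := mul_le_mul_of_nonneg_left hmV' (by positivity)
    linarith
  have hTcard : (s : ℝ) * T.card ≤ (c / 8) * Fintype.card V := by
    have h1 : (T.card : ℝ) * k ≤ m := by
      have : T.card * k ≤ m := by simpa using hT
      exact_mod_cast this
    have h2 : (s : ℝ) * T.card ≤ (c * k / 8) * T.card := mul_le_mul_of_nonneg_right (by linarith) (Nat.cast_nonneg _)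
    have h3 : (c * k / 8) * (T.card : ℝ) = (c / 8) * (T.card * k) := by ring
    have h4 : (c / 8) * ((T.card : ℝ) * k) ≤ (c / 8) * Fintype.card V :=
      mul_le_mul_of_nonneg_left (h1.trans hmV') (by positivity)
    linarith
  have hCrcard : (5 * c / 8) * Fintype.card V ≤ Cr.card := by
    have h1 : ((Cr ∪ Bd).card : ℝ) ≤ Cr.card + Bd.card := by exact_mod_cast card_union_le _ _
    have h2 : 2 * c₁ * (m : ℝ) ≤ (c / 8) * Fintype.card V := by
      rw [hc1]
      have := mul_le_mul_of_nonneg_left hmV' (show (0:ℝ) ≤ c / 8 by positivity)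
      linarith
    linarith
  -- merging
  have hcrtrans : ∀ i a, H.Reachable i a → cr i → cr a := by
    rintro i a hia ⟨⟨h1, h2⟩, h3⟩
    have hE := cmp_eq hia
    exact ⟨⟨by rw [hE]; exact h1, fun x y hx hy => h2 x y (hia.trans hx) (hia.trans hy)⟩, by rw [hE]; exact h3⟩
  let ρ : Fin m → Fin m := fun i => if cr i then (H.connectedComponentMk i).out else i
  have hout : ∀ i, H.Reachable i (H.connectedComponentMk i).out := by
    intro i
    have : H.connectedComponentMk (H.connectedComponentMk i).out = H.connectedComponentMk i :=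
      Quot.out_eq _
    exact (SimpleGraph.ConnectedComponent.eq.1 this).symm
  have hρ1 : ∀ i, ¬ cr i → ρ i = i := fun i hi => if_neg hi
  have hρcr : ∀ i, cr i → ρ i = (H.connectedComponentMk i).out := fun i hi => if_pos hi
  have hρr : ∀ i, H.Reachable i (ρ i) := by
    intro i
    by_cases hi : cr i
    · rw [hρcr i hi]; exact hout i
    · rw [hρ1 i hi]
  have hρ2 : ∀ i, cr i → cr (ρ i) := fun i hi => hcrtrans i _ (hρr i) hi
  have hρeq : ∀ i a, cr i → H.Reachable i a → ρ a = ρ i := by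
    intro i a hi hia
    rw [hρcr i hi, hρcr a (hcrtrans i a hia hi)]
    have : H.connectedComponentMk a = H.connectedComponentMk i :=
      SimpleGraph.ConnectedComponent.eq.2 hia.symm
    rw [this]
  have hρρ : ∀ i, ρ (ρ i) = ρ i := by
    intro i
    by_cases hi : cr i
    · exact hρeq i (ρ i) hi (hρr i)
    · rw [hρ1 i hi, hρ1 i hi]
  -- fibres over critical blocks
  have hfib : ∀ i, cr i → univ.filter (fun a => ρ a = ρ i) = cmp H i := by
    intro i hi
    ext a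
    simp only [mem_filter, mem_univ, true_and, mem_cmp]
    constructor
    · intro ha
      have h1 := hρr a
      rw [ha] at h1
      exact (hρr i).trans h1.symm
    · intro ha; exact hρeq i a hi ha
  have hcr2 : ∀ i, cr i → 2 ≤ (cmp H i).card := by
    intro i hi
    by_contra hlt
    have hle : (cmp H i).card ≤ 1 := by omega
    have hmem : i ∈ cmp H i := mem_cmp.2 (SimpleGraph.Reachable.refl i)
    have heq : cmp H i = {i} := by
      refine eq_singleton_iff_unique_mem.2 ⟨hmem, fun b hb => ?_⟩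
      exact card_le_one.1 hle b hb i hmem
    obtain ⟨_, a, ha⟩ := hi
    rw [heq, sum_singleton, sum_singleton, q_smul_left, q_smul_right, hL.norm i] at ha
    nlinarith [sq_nonneg (a i)]
  have hfc := fibre_count ρ Cr (fun i hi => by
    have hi' := (mem_filter.1 hi).2
    rw [hfib i hi']; exact hcr2 i hi')
  -- profiles of the merged blocks
  have hex : ∀ i, cr i → ∃ h' : V → ℝ, (∀ v, π v ∉ cmp H i → h' v = 0) ∧
      (∀ v, π v ∈ cmp H i → 0 < h' v) ∧ q L h' h' = 1 ∧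
      ∀ x : V → ℝ, (∀ v, π v ∉ cmp H i → x v = 0) → ∀ u, π u ∈ cmp H i →
        |x u - q L x h' * h' u| ≤ θ' * Real.sqrt (q L x x) * h' u := by
    intro i hi
    obtain ⟨hsm, a, ha⟩ := hi
    exact hL.merge_tight hS hθ0.le hδ hδ1 k hk hRk hθa (cmp H i) hsm.1
      (fun x hx y hy => hsm.2 x y (mem_cmp.1 hx) (mem_cmp.1 hy)) θ' τ hθ' hθ'1 hτ (tau_par hk hδ) a ha
  have hex' : ∀ i, ∃ h' : V → ℝ, cr i → ((∀ v, π v ∉ cmp H i → h' v = 0) ∧
      (∀ v, π v ∈ cmp H i → 0 < h' v) ∧ q L h' h' = 1 ∧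
      ∀ x : V → ℝ, (∀ v, π v ∉ cmp H i → x v = 0) → ∀ u, π u ∈ cmp H i →
        |x u - q L x h' * h' u| ≤ θ' * Real.sqrt (q L x x) * h' u) := by
    intro i
    by_cases hi : cr i
    · obtain ⟨h', hh⟩ := hex i hi
      exact ⟨h', fun _ => hh⟩
    · exact ⟨0, fun hc => absurd hc hi⟩
  choose hm hmall using hex'
  have hm0 := fun i hi => (hmall i hi).1
  have hmp := fun i hi => (hmall i hi).2.1
  have hmn := fun i hi => (hmall i hi).2.2.1
  have hmt := fun i hi => (hmall i hi).2.2.2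
  have hfr : ∀ r, cr r → ρ r = r → ∀ a, ρ a = r ↔ a ∈ cmp H r := by
    intro r hr hrr a
    rw [← hfib r hr, mem_filter]
    simp [hrr]
  obtain ⟨π', h', hL'⟩ := merge_level (θ' := θ') hk hθθ' hL ρ cr hρ1 hρ2 hρρ
    (fun i hi => by rw [hfib i hi]; exact hi.1.1) hm
    (fun r hr hrr v hv => hm0 r hr v (fun h' => hv ((hfr r hr hrr _).2 h')))
    (fun r hr hrr v hv => hmp r hr v ((hfr r hr hrr _).1 hv))
    (fun r hr hrr => hmn r hr)
    (fun r hr hrr x hx u hu => hmt r hr x (fun v hv => hx v (fun h' => hv ((hfr r hr hrr _).1 h'))) u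
      ((hfr r hr hrr _).1 hu))
  refine ⟨_, π', h', hL', ?_⟩
  have h3 : (Fintype.card (Fin m) : ℝ) = m := by simp
  rw [h3] at hfc
  have : (0 : ℝ) ≤ c * Fintype.card V := by positivity
  linarith

end main

/-- one level of the merging procedure -/
theorem level_step (Δ s : ℕ) (c : ℝ) (hc : 0 < c) : ∃ s' : ℕ, ∀ θ' : ℝ, 0 < θ' →
    ∃ θ : ℝ, 0 < θ ∧ ∃ R : ℕ, ∀ (V : Type) [Fintype V] [DecidableEq V] (L : Matrix V V ℝ),
      Sys L Δ R → c * Fintype.card V ≤ Module.finrank ℝ (LinearMap.ker (Matrix.toLin' L)) →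
      ∀ (m : ℕ) (π : V → Fin m) (h : V → ℝ), Lvl L s θ π h →
      ∃ (m' : ℕ) (π' : V → Fin m') (h' : V → ℝ), Lvl L s' θ' π' h' ∧
        (m' : ℝ) ≤ m - (c / 8) * Fintype.card V := by
  obtain ⟨k0, hk0⟩ := exists_nat_gt (8 * (s : ℝ) / c)
  set k := max k0 1 with hkdef
  have hk : 1 ≤ k := le_max_right _ _
  have hks : 8 * (s : ℝ) ≤ c * k := by
    have h1 : 8 * (s : ℝ) / c ≤ k := hk0.le.trans (by exact_mod_cast le_max_left _ _)
    rw [div_le_iff₀ hc] at h1; linarith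
  obtain ⟨M0, hM0⟩ := exists_nat_gt (8 * (k : ℝ) * ((s * Δ : ℕ) : ℝ) / c)
  set M := max M0 1 with hMdef
  have hM : 0 < M := lt_of_lt_of_le Nat.one_pos (le_max_right _ _)
  have hMk : 8 * (k : ℝ) * ((s * Δ : ℕ) : ℝ) ≤ c * M := by
    have h1 : 8 * (k : ℝ) * ((s * Δ : ℕ) : ℝ) / c ≤ M := hM0.le.trans (by exact_mod_cast le_max_left _ _)
    rw [div_le_iff₀ hc] at h1; linarith
  refine ⟨s * k, fun θ1 hθ1 => ?_⟩
  set θ' := min θ1 1 with hθ'def
  have hθ' : 0 < θ' := lt_min hθ1 one_pos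
  have hθ'1 : θ' ≤ 1 := min_le_right _ _
  set c₁ := c / 16 with hc1
  have hc₁ : 0 < c₁ := by positivity
  have hp := fun j => params k (s * Δ) hk c₁ θ' hc₁ hθ' (dseq k (s * Δ) θ' c₁ j)
    (dseq_pos hk hθ' hc₁ j) (dseq_le_one j)
  choose t r ht hr1 hpp using hp
  obtain ⟨θ2, hθ2, hθ2t⟩ := exists_uniform t ht M
  set θ := min θ2 (min θ' (1 / (4 * ((s * Δ : ℕ) : ℝ) + 4))) with hθdef
  have hθ : 0 < θ := lt_min hθ2 (lt_min hθ' (by positivity))
  refine ⟨θ, hθ, s * k + 2 * s + ∑ j ∈ range M, (s * (s * Δ + 1) ^ (r j) + s), ?_⟩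
  intro V _ _ L hS hdim m π h hL
  have hθd : θ * (4 * ((s * Δ : ℕ) : ℝ) + 4) ≤ 1 := by
    have h1 : θ ≤ 1 / (4 * ((s * Δ : ℕ) : ℝ) + 4) := (min_le_right _ _).trans (min_le_right _ _)
    rwa [le_div_iff₀ (by positivity)] at h1
  obtain ⟨m', π', h', hL', hm'⟩ := level_main hS hL k M hk hM c c₁ θ' hc hc1 hθ' hθ'1 hθ
    ((min_le_right _ _).trans (min_le_left _ _)) hθd r
    (fun j hj => by
      obtain ⟨h1, h2, h3⟩ := hpp j θ hθ ((min_le_left _ _).trans (hθ2t j hj))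
      refine ⟨hr1 j, ?_, h1, h2, h3⟩
      have := single_le_sum (f := fun j => s * (s * Δ + 1) ^ (r j) + s) (s := range M)
        (fun _ _ => Nat.zero_le _) (mem_range.2 hj)
      omega)
    (by omega) hks hMk hdim
  refine ⟨m', π', h', ⟨hL'.pos, hL'.card_le, hL'.surj, hL'.norm, fun i x hx u hu => ?_⟩, hm'⟩
  refine (hL'.tight i x hx u hu).trans ?_
  have h1 := hL'.pos u
  have h2 := Real.sqrt_nonneg (q L x x)
  have h3 : θ' ≤ θ1 := min_le_left _ _
  gcongr

end Sch
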