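import Pool.Agent.Helper78.SchHg
set_option autoImplicit false
set_option linter.unusedSectionVars false
namespace Sch
open Finset Matrix

section jobs
variable {V ι : Type} [Fintype V] [DecidableEq V] [Fintype ι] [DecidableEq ι] {L : Matrix V V ℝ}
  {Δ R s : ℕ} {θ : ℝ} {π : V → ι} {h : V → ℝ}

/-- lower bound of the form on functions supported on a set `X` of blocks -/
theorem Lvl.lower (hS : Sys L Δ R) (hL : Lvl L s θ π h) (hR : 2 * s ≤ R) (hθ : 0 ≤ θ) (hθ1 : θ ≤ 1)
    (X : Finset ι) {x : V → ℝ} (hx : ∀ v, π v ∉ X → x v = 0) :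
    ∑ i ∈ X, (nn L π i x - (al L π h i x) ^ 2)
      + q L (∑ i ∈ X, |al L π h i x| • blk π i h) (∑ i ∈ X, |al L π h i x| • blk π i h)
      - 3 * θ * X.card * ∑ i ∈ X, nn L π i x ≤ q L x x := by
  have hR' : s ≤ R := by omega
  have hxs : ∑ i ∈ X, blk π i x = x := by
    funext v
    rw [Finset.sum_apply]
    by_cases hv : π v ∈ X
    · rw [Finset.sum_eq_single_of_mem (π v) hv (fun j _ hj => blk_ne (fun h' => hj h'.symm) x)]
      exact blk_eq rfl x
    · rw [hx v hv]
      refine Finset.sum_eq_zero fun j hj => blk_ne (fun h' => hv ?_) x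
      rw [h']; exact hj
  have e1 : q L x x = ∑ i ∈ X, ∑ j ∈ X, q L (blk π i x) (blk π j x) := by
    conv_lhs => rw [← hxs]
    rw [q_sum_left]
    exact sum_congr rfl fun i _ => q_sum_right _ _ _
  have e2 : q L (∑ i ∈ X, |al L π h i x| • blk π i h) (∑ i ∈ X, |al L π h i x| • blk π i h)
      = ∑ i ∈ X, ∑ j ∈ X, |al L π h i x| * |al L π h j x| * q L (blk π i h) (blk π j h) := by
    rw [q_sum_left]
    refine sum_congr rfl fun i _ => ?_
    rw [q_sum_right]
    refine sum_congr rfl fun j _ => ?_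
    rw [q_smul_left, q_smul_right]; ring
  have e3 : ∑ i ∈ X, (nn L π i x - (al L π h i x) ^ 2)
      = ∑ i ∈ X, ∑ j ∈ X, (if i = j then nn L π i x - (al L π h i x) ^ 2 else 0) := by
    refine sum_congr rfl fun i hi => ?_
    rw [Finset.sum_ite_eq, if_pos hi]
  have e4 : (∑ i ∈ X, Real.sqrt (nn L π i x)) ^ 2
      = ∑ i ∈ X, ∑ j ∈ X, Real.sqrt (nn L π i x) * Real.sqrt (nn L π j x) := by
    rw [sq, Finset.sum_mul_sum]
  have e5 : (∑ i ∈ X, Real.sqrt (nn L π i x)) ^ 2 ≤ X.card * ∑ i ∈ X, nn L π i x := by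
    have := sq_sum_le_card_mul_sum_sq (s := X) (f := fun i => Real.sqrt (nn L π i x))
    refine this.trans (le_of_eq ?_)
    congr 1
    exact sum_congr rfl fun i _ => Real.sq_sqrt (hL.blk_nonneg_q hS hR' i x)
  have key : ∀ i ∈ X, ∀ j ∈ X,
      (if i = j then nn L π i x - (al L π h i x) ^ 2 else 0)
        + |al L π h i x| * |al L π h j x| * q L (blk π i h) (blk π j h)
        - 3 * θ * (Real.sqrt (nn L π i x) * Real.sqrt (nn L π j x))
        ≤ q L (blk π i x) (blk π j x) := by
    intro i _ j _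
    by_cases hij : i = j
    · subst hij
      rw [if_pos rfl, hL.norm i]
      have h1 : |al L π h i x| * |al L π h i x| = (al L π h i x) ^ 2 := by
        rw [abs_mul_abs_self]; ring
      have h2 : Real.sqrt (nn L π i x) * Real.sqrt (nn L π i x) = nn L π i x :=
        Real.mul_self_sqrt (hL.blk_nonneg_q hS hR' i x)
      have h3 : q L (blk π i x) (blk π i x) = nn L π i x := rfl
      have h4 := mul_nonneg hθ (hL.blk_nonneg_q hS hR' i x)
      rw [h1, h2, h3]
      linarith
    · rw [if_neg hij]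
      have hw : q L (blk π i h) (blk π j h) = - w L π h i j := by
        unfold w; rw [if_neg hij]; ring
      have h1 := (abs_le.1 (hL.K2 hS hθ hij x x)).1
      have hw0 := w_nonneg (π := π) hS.offdiag hL.pos i j
      have hw1 := hL.w_le_one hS hR i j
      have ha := hL.abs_al_le hS hR' i x
      have hb := hL.abs_al_le hS hR' j x
      have ha0 := abs_nonneg (al L π h i x)
      have hb0 := abs_nonneg (al L π h j x)
      rw [hw]
      set A := |al L π h i x|
      set B := |al L π h j x|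
      set n := Real.sqrt (nn L π i x)
      set m := Real.sqrt (nn L π j x)
      set W := w L π h i j
      have hn0 : 0 ≤ n := ha0.trans ha
      have hm0 : 0 ≤ m := hb0.trans hb
      have k1 : θ * (A * m) ≤ θ * (n * m) :=
        mul_le_mul_of_nonneg_left (mul_le_mul_of_nonneg_right ha hm0) hθ
      have k2 : θ * (n * B) ≤ θ * (n * m) :=
        mul_le_mul_of_nonneg_left (mul_le_mul_of_nonneg_left hb hn0) hθ
      have k3 : θ * θ * (n * m) ≤ θ * (n * m) :=
        mul_le_mul_of_nonneg_right (by nlinarith) (mul_nonneg hn0 hm0)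
      have k4 : 0 ≤ θ * (A * m) + θ * (n * B) + θ * θ * (n * m) := by positivity
      have k5 : (θ * (A * m) + θ * (n * B) + θ * θ * (n * m)) * W
          ≤ θ * (A * m) + θ * (n * B) + θ * θ * (n * m) :=
        mul_le_of_le_one_right k4 hw1
      nlinarith [k1, k2, k3, k5, h1]
  have tot : ∑ i ∈ X, ∑ j ∈ X, ((if i = j then nn L π i x - (al L π h i x) ^ 2 else 0)
        + |al L π h i x| * |al L π h j x| * q L (blk π i h) (blk π j h)
        - 3 * θ * (Real.sqrt (nn L π i x) * Real.sqrt (nn L π j x)))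
        ≤ ∑ i ∈ X, ∑ j ∈ X, q L (blk π i x) (blk π j x) :=
    sum_le_sum fun i hi => sum_le_sum fun j hj => key i hi j hj
  simp only [sum_sub_distrib, sum_add_distrib] at tot
  have k6 : 3 * θ * (∑ i ∈ X, Real.sqrt (nn L π i x)) ^ 2 ≤ 3 * θ * (X.card * ∑ i ∈ X, nn L π i x) :=
    mul_le_mul_of_nonneg_left e5 (by positivity)
  have e6 : ∑ i ∈ X, ∑ j ∈ X, 3 * θ * (Real.sqrt (nn L π i x) * Real.sqrt (nn L π j x))
      = 3 * θ * (∑ i ∈ X, Real.sqrt (nn L π i x)) ^ 2 := by
    rw [e4, mul_sum]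
    exact sum_congr rfl fun i _ => by rw [mul_sum]
  rw [← e1, ← e2, ← e3, e6] at tot
  nlinarith [tot, k6]

end jobs
end Sch
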