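import Pool.Agent.Helper78.SchDefs
set_option autoImplicit false
set_option linter.unusedSectionVars false
namespace Sch
open Finset Matrix

theorem expand_aux {V : Type} [Fintype V] [DecidableEq V] (M : Matrix V V ℝ) (hM : M.IsHermitian)
    (z : V → ℝ) (u : V) :
    z u = ∑ i, (∑ w, hM.eigenvectorBasis i w * z w) * hM.eigenvectorBasis i u := by
  have h1 := hM.eigenvectorBasis.sum_repr (WithLp.toLp 2 z)
  have h2 := congrArg (fun f : EuclideanSpace ℝ V => f u) h1
  have h3 : ∀ i, hM.eigenvectorBasis.repr (WithLp.toLp 2 z) i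
      = ∑ w, hM.eigenvectorBasis i w * z w := by
    intro i
    rw [OrthonormalBasis.repr_apply_apply, PiLp.inner_apply]
    refine Finset.sum_congr rfl fun w _ => ?_
    simp [mul_comm]
  simp only [h3] at h2
  simp at h2
  exact h2.symm

theorem norm_aux {V : Type} [Fintype V] [DecidableEq V] (M : Matrix V V ℝ) (hM : M.IsHermitian)
    (z : V → ℝ) :
    ∑ u, (z u) ^ 2 = ∑ i, (∑ w, hM.eigenvectorBasis i w * z w) ^ 2 := by
  have h1 : ∀ u, (z u) ^ 2
      = ∑ i, (∑ w, hM.eigenvectorBasis i w * z w) * (hM.eigenvectorBasis i u * z u) := by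
    intro u
    rw [sq]
    nth_rewrite 1 [expand_aux M hM z u]
    rw [Finset.sum_mul]
    refine Finset.sum_congr rfl fun i _ => ?_
    ring
  rw [Finset.sum_congr rfl (fun u _ => h1 u), Finset.sum_comm]
  refine Finset.sum_congr rfl fun i _ => ?_
  rw [← Finset.mul_sum, sq]

theorem q_aux {V : Type} [Fintype V] [DecidableEq V] (M : Matrix V V ℝ) (hM : M.IsHermitian)
    (z : V → ℝ) :
    q M z z = ∑ i, hM.eigenvalues i * (∑ w, hM.eigenvectorBasis i w * z w) ^ 2 := by
  have h0 : ∀ i u, ∑ v, M u v * hM.eigenvectorBasis i v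
      = hM.eigenvalues i * hM.eigenvectorBasis i u := by
    intro i u
    have := congrFun (hM.mulVec_eigenvectorBasis i) u
    simpa [Matrix.mulVec, dotProduct] using this
  have h1 : ∀ u, ∑ v, z u * M u v * z v
      = ∑ i, hM.eigenvalues i * (∑ w, hM.eigenvectorBasis i w * z w) *
        (hM.eigenvectorBasis i u * z u) := by
    intro u
    have h2 : ∀ v, z u * M u v * z v
        = ∑ i, z u * (∑ w, hM.eigenvectorBasis i w * z w) * (M u v * hM.eigenvectorBasis i v) := by
      intro v
      calc z u * M u v * z v = z u * M u v *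
            ∑ i, (∑ w, hM.eigenvectorBasis i w * z w) * hM.eigenvectorBasis i v := by
            rw [← expand_aux M hM z v]
        _ = _ := by
            rw [Finset.mul_sum]
            refine Finset.sum_congr rfl fun i _ => ?_
            ring
    rw [Finset.sum_congr rfl (fun v _ => h2 v), Finset.sum_comm]
    refine Finset.sum_congr rfl fun i _ => ?_
    rw [← Finset.mul_sum, h0]
    ring
  unfold q
  rw [Finset.sum_congr rfl (fun u _ => h1 u), Finset.sum_comm]
  refine Finset.sum_congr rfl fun i _ => ?_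
  rw [← Finset.mul_sum, sq]
  ring

theorem no_two_neg {V : Type} [Fintype V] [DecidableEq V] (M : Matrix V V ℝ) (hM : M.IsHermitian)
    (h1 : 1 < Fintype.card V) (x y : V → ℝ)
    (hxy : ∀ u v, x u ≠ 0 → y v ≠ 0 → u ≠ v ∧ M u v = 0)
    (hx : hM.eigenvalues₀ ⟨1, h1⟩ * ∑ u, (x u) ^ 2 < q M x x)
    (hy : hM.eigenvalues₀ ⟨1, h1⟩ * ∑ u, (y u) ^ 2 < q M y y) : False := by
  set i0 : V := (Fintype.equivOfCardEq (Fintype.card_fin _) : Fin (Fintype.card V) ≃ V)
    ⟨0, by omega⟩ with hi0
  have hev : ∀ i, i ≠ i0 → hM.eigenvalues i ≤ hM.eigenvalues₀ ⟨1, h1⟩ := by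
    intro i hi
    unfold Matrix.IsHermitian.eigenvalues
    apply hM.eigenvalues₀_antitone
    rw [Fin.le_def]
    show 1 ≤ _
    by_contra hcon
    apply hi
    rw [hi0]
    have h2 : (Fintype.equivOfCardEq (Fintype.card_fin _)).symm i
        = (⟨0, by omega⟩ : Fin (Fintype.card V)) := by
      apply Fin.ext
      show _ = 0
      omega
    rw [← h2, Equiv.apply_symm_apply]
  have key : ∀ z : V → ℝ, (∑ w, hM.eigenvectorBasis i0 w * z w) = 0 →
      q M z z ≤ hM.eigenvalues₀ ⟨1, h1⟩ * ∑ u, (z u) ^ 2 := by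
    intro z hz
    rw [q_aux M hM z, norm_aux M hM z, Finset.mul_sum]
    refine Finset.sum_le_sum fun i _ => ?_
    by_cases hi : i = i0
    · rw [hi, hz]; simp
    · exact mul_le_mul_of_nonneg_right (hev i hi) (sq_nonneg _)
  have hxy0 : ∀ u, x u * y u = 0 := by
    intro u
    by_contra h
    exact (hxy u u (left_ne_zero_of_mul h) (right_ne_zero_of_mul h)).1 rfl
  have hc1 : ∀ u v, x u * M u v * y v = 0 := by
    intro u v
    by_contra h
    have h2 := left_ne_zero_of_mul h
    have h3 := right_ne_zero_of_mul h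
    have h4 := hxy u v (left_ne_zero_of_mul h2) h3
    exact h2 (by rw [h4.2, mul_zero])
  have hc2 : ∀ u v, y u * M u v * x v = 0 := by
    intro u v
    have h2 : M u v = M v u := by
      have := hM.apply u v
      simpa using this.symm
    rw [h2]
    have := hc1 v u
    linarith
  have expq : ∀ a c : ℝ, q M (fun u => a * x u + c * y u) (fun u => a * x u + c * y u)
      = a ^ 2 * q M x x + c ^ 2 * q M y y := by
    intro a c
    unfold q
    rw [Finset.mul_sum, Finset.mul_sum, ← Finset.sum_add_distrib]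
    refine Finset.sum_congr rfl fun u _ => ?_
    rw [Finset.mul_sum, Finset.mul_sum, ← Finset.sum_add_distrib]
    refine Finset.sum_congr rfl fun v _ => ?_
    have e1 := hc1 u v
    have e2 := hc2 u v
    linear_combination a * c * e1 + a * c * e2
  have exps : ∀ a c : ℝ, ∑ u, (a * x u + c * y u) ^ 2
      = a ^ 2 * ∑ u, (x u) ^ 2 + c ^ 2 * ∑ u, (y u) ^ 2 := by
    intro a c
    rw [Finset.mul_sum, Finset.mul_sum, ← Finset.sum_add_distrib]
    refine Finset.sum_congr rfl fun u _ => ?_
    linear_combination 2 * a * c * hxy0 u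
  set cx := ∑ w, hM.eigenvectorBasis i0 w * x w with hcx
  set cy := ∑ w, hM.eigenvectorBasis i0 w * y w with hcy
  by_cases hcx0 : cx = 0
  · have := key x hcx0
    linarith
  · have h3 : (∑ w, hM.eigenvectorBasis i0 w * (cy * x w + (-cx) * y w)) = 0 := by
      have : ∀ w, hM.eigenvectorBasis i0 w * (cy * x w + (-cx) * y w)
          = cy * (hM.eigenvectorBasis i0 w * x w) + (-cx) * (hM.eigenvectorBasis i0 w * y w) := by
        intro w; ring
      rw [Finset.sum_congr rfl (fun w _ => this w), Finset.sum_add_distrib, ← Finset.mul_sum,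
        ← Finset.mul_sum, ← hcx, ← hcy]
      ring
    have h4 := key _ h3
    rw [expq, exps] at h4
    have h5 : 0 < (-cx) ^ 2 := by
      have : -cx ≠ 0 := neg_ne_zero.2 hcx0
      positivity
    have h6 : 0 ≤ cy ^ 2 := sq_nonneg _
    have h7 := mul_lt_mul_of_pos_left hy h5
    have h8 := mul_le_mul_of_nonneg_left hx.le h6
    nlinarith

end Sch
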