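import Pool.Agent.Helper78.SchCore
import Pool.Agent.Helper78.SchExc
import Pool.Agent.Helper78.SchNeg
set_option autoImplicit false
set_option linter.unusedSectionVars false
namespace Sch
open Finset Matrix

open Classical in
/-- The Schrödinger operator `D + A_G` on the graph `G`. -/
noncomputable def schrodinger {n : ℕ} (G : SimpleGraph (Fin n)) (D : Fin n → ℝ) :
    Matrix (Fin n) (Fin n) ℝ := Matrix.diagonal D + G.adjMatrix ℝ

theorem schrodinger_isHermitian {n : ℕ} (G : SimpleGraph (Fin n)) (D : Fin n → ℝ) :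
    (schrodinger G D).IsHermitian := by
  classical
  unfold schrodinger
  apply Matrix.IsHermitian.add
  · exact Matrix.isHermitian_diagonal _
  · ext i j
    simp [Matrix.conjTranspose_apply, SimpleGraph.adjMatrix_apply, G.adj_comm]

/-- The second largest eigenvalue `λ₂(D + A_G)` (eigenvalues counted with multiplicity, in
decreasing order `λ₁ ≥ λ₂ ≥ …`; Mathlib's `eigenvalues₀` is indexed from `0`). -/
noncomputable def lam2 {n : ℕ} (hn : 2 ≤ n) (G : SimpleGraph (Fin n)) (D : Fin n → ℝ) : ℝ :=
  (schrodinger_isHermitian G D).eigenvalues₀ ⟨1, by rw [Fintype.card_fin]; exact hn⟩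

/-- The multiplicity of the number `λ₂(D + A_G)` as an eigenvalue of `D + A_G`. -/
noncomputable def multLam2 {n : ℕ} (hn : 2 ≤ n) (G : SimpleGraph (Fin n)) (D : Fin n → ℝ) : ℕ :=
  Module.finrank ℝ (Module.End.eigenspace (Matrix.toLin' (schrodinger G D)) (lam2 hn G D))

theorem sum_compl {V : Type} [Fintype V] [DecidableEq V] (S0 : Finset V) (g : V → ℝ)
    (h : ∀ v ∈ S0, g v = 0) : ∑ v, g v = ∑ v : {v : V // v ∉ S0}, g v.1 := by
  rw [← Finset.sum_subtype (univ.filter (fun v => v ∉ S0)) (by simp) g]
  symm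
  apply Finset.sum_subset (Finset.subset_univ _)
  intro v _ hv
  apply h
  by_contra hv'
  exact hv (by simp [hv'])

theorem finrank_ker_le {V : Type} [Fintype V] [DecidableEq V] (L : Matrix V V ℝ) (S0 : Finset V) :
    Module.finrank ℝ (LinearMap.ker (Matrix.toLin' L)) ≤
      Module.finrank ℝ (LinearMap.ker (Matrix.toLin'
        (L.submatrix (Subtype.val : {v : V // v ∉ S0} → V)
          (Subtype.val : {v : V // v ∉ S0} → V)))) + S0.card := by
  classical
  set K := LinearMap.ker (Matrix.toLin' L) with hK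
  let φ : K →ₗ[ℝ] ({v : V // v ∈ S0} → ℝ) :=
    (LinearMap.funLeft ℝ ℝ (Subtype.val : {v : V // v ∈ S0} → V)).comp K.subtype
  have h1 := LinearMap.finrank_range_add_finrank_ker φ
  have h2 : Module.finrank ℝ (LinearMap.range φ) ≤ S0.card := by
    have := Submodule.finrank_le (LinearMap.range φ)
    rw [Module.finrank_fintype_fun_eq_card] at this
    simpa using this
  let ψ0 : LinearMap.ker φ →ₗ[ℝ] ({v : V // v ∉ S0} → ℝ) :=
    ((LinearMap.funLeft ℝ ℝ (Subtype.val : {v : V // v ∉ S0} → V)).comp K.subtype).comp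
      (LinearMap.ker φ).subtype
  have hzero : ∀ f : LinearMap.ker φ, ∀ v ∈ S0, (f.1.1 : V → ℝ) v = 0 := by
    intro f v hv
    have := congrFun (LinearMap.mem_ker.mp f.2) ⟨v, hv⟩
    exact this
  have hmem : ∀ f : LinearMap.ker φ, ψ0 f ∈ LinearMap.ker (Matrix.toLin'
        (L.submatrix (Subtype.val : {v : V // v ∉ S0} → V)
          (Subtype.val : {v : V // v ∉ S0} → V))) := by
    intro f
    rw [LinearMap.mem_ker]
    funext u
    rw [Matrix.toLin'_apply]
    have h3 : (Matrix.toLin' L) f.1.1 = 0 := LinearMap.mem_ker.mp f.1.2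
    have h4 := congrFun h3 u.1
    rw [Matrix.toLin'_apply] at h4
    simp only [Matrix.mulVec, dotProduct, Pi.zero_apply] at h4 ⊢
    rw [sum_compl S0 _ (fun v hv => by rw [hzero f v hv, mul_zero])] at h4
    exact h4
  let ψ := ψ0.codRestrict _ hmem
  have hinj : Function.Injective ψ := by
    intro f g hf
    have h5 : ψ0 f = ψ0 g := congrArg Subtype.val hf
    apply Subtype.ext
    apply Subtype.ext
    funext v
    by_cases hv : v ∈ S0
    · rw [hzero f v hv, hzero g v hv]
    · exact congrFun h5 ⟨v, hv⟩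
  have h3 := LinearMap.finrank_le_finrank_of_injective hinj
  omega

theorem main (Δ : ℕ) (ε : ℝ) (hε : 0 < ε) : ∃ N : ℕ, ∀ n ≥ N, ∀ (hn : 2 ≤ n)
    (G : SimpleGraph (Fin n)) (D : Fin n → ℝ), G.Connected → (∀ v, (G.neighborSet v).ncard ≤ Δ) →
    (multLam2 hn G D : ℝ) ≤ ε * n := by
  classical
  obtain ⟨R, hR⟩ := core Δ (ε / 2) (by positivity)
  refine ⟨R + 2 + (R + 1) * (Δ + 1) ^ 2 + ⌈(((R + 1) * (Δ + 1) ^ 2 : ℕ) : ℝ) / (ε / 2)⌉₊ + 1, ?_⟩
  intro n hnN hn G D hconn hdeg
  set A : ℕ := (R + 1) * (Δ + 1) ^ 2 with hA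
  have hAn : (A : ℝ) ≤ ε / 2 * n := by
    have h1 : (A : ℝ) / (ε / 2) ≤ n := by
      refine (Nat.le_ceil _).trans ?_
      exact_mod_cast (by omega : ⌈(A : ℝ) / (ε / 2)⌉₊ ≤ n)
    rw [div_le_iff₀ (by positivity)] at h1
    linarith
  set M := schrodinger G D with hM
  set l := lam2 hn G D with hl
  set L : Matrix (Fin n) (Fin n) ℝ := l • (1 : Matrix (Fin n) (Fin n) ℝ) - M with hL
  have hLoff : ∀ u v, u ≠ v → L u v = if G.Adj u v then -1 else 0 := by
    intro u v huv
    rw [hL, hM]
    unfold schrodinger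
    simp only [Matrix.sub_apply, Matrix.smul_apply, Matrix.add_apply, Matrix.one_apply_ne huv,
      Matrix.diagonal_apply_ne _ huv, SimpleGraph.adjMatrix_apply]
    split_ifs <;> simp
  have hMoff : ∀ u v, u ≠ v → M u v = - L u v := by
    intro u v huv
    rw [hL]
    simp only [Matrix.sub_apply, Matrix.smul_apply, Matrix.one_apply_ne huv]
    simp
  have symm : ∀ u v, L u v = L v u := by
    intro u v
    by_cases h : u = v
    · rw [h]
    · rw [hLoff u v h, hLoff v u (Ne.symm h)]
      simp only [G.adj_comm]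
  have offdiag : ∀ u v, u ≠ v → L u v ≤ 0 := by
    intro u v h
    rw [hLoff u v h]
    split_ifs <;> norm_num
  have hadj : ∀ u v, (v ≠ u ∧ L u v ≠ 0) ↔ G.Adj u v := by
    intro u v
    constructor
    · rintro ⟨h1, h2⟩
      rw [hLoff u v (Ne.symm h1)] at h2
      by_contra h
      rw [if_neg h] at h2
      exact h2 rfl
    · intro h
      refine ⟨h.ne', ?_⟩
      rw [hLoff u v h.ne, if_pos h]
      norm_num
  have deg : ∀ u, (univ.filter (fun v => v ≠ u ∧ L u v ≠ 0)).card ≤ Δ := by
    intro u
    refine le_trans (le_of_eq ?_) (hdeg u)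
    rw [← Set.ncard_coe_finset]
    congr 1
    ext v
    simp only [Finset.coe_filter, Finset.mem_univ, true_and, Set.mem_setOf_eq,
      SimpleGraph.mem_neighborSet]
    exact hadj u v
  have conn : ∀ S : Finset (Fin n), S.Nonempty → S ≠ univ → ∃ u, u ∉ S ∧ ∃ v ∈ S, L u v ≠ 0 := by
    intro S hS hS'
    obtain ⟨x, hx⟩ := hS
    obtain ⟨y, hy⟩ : ∃ y, y ∉ S := by
      by_contra h
      push Not at h
      exact hS' (Finset.eq_univ_iff_forall.mpr h)
    obtain ⟨p⟩ := hconn.preconnected x y
    obtain ⟨d, _, hd1, hd2⟩ := p.exists_boundary_dart (S : Set (Fin n)) (by simpa using hx)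
      (by simpa using hy)
    refine ⟨d.snd, by simpa using hd2, d.fst, by simpa using hd1, ?_⟩
    exact ((hadj d.snd d.fst).mpr d.adj.symm).2
  have hq : ∀ x : Fin n → ℝ, q L x x = l * ∑ u, (x u) ^ 2 - q M x x := by
    intro x
    unfold q
    rw [Finset.mul_sum, ← Finset.sum_sub_distrib]
    apply Finset.sum_congr rfl
    intro u _
    rw [hL]
    have h1 : ∀ v, x u * (l • (1 : Matrix (Fin n) (Fin n) ℝ) - M) u v * x v
        = (if u = v then l * x u * x v else 0) - x u * M u v * x v := by
      intro v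
      simp only [Matrix.sub_apply, Matrix.smul_apply, Matrix.one_apply, smul_eq_mul]
      split_ifs <;> ring
    rw [Finset.sum_congr rfl (fun v _ => h1 v), Finset.sum_sub_distrib, Finset.sum_ite_eq]
    simp only [Finset.mem_univ, if_true]
    ring
  have hcard1 : 1 < Fintype.card (Fin n) := by rw [Fintype.card_fin]; exact hn
  have neg : ∀ x y : Fin n → ℝ, (∀ u v, x u ≠ 0 → y v ≠ 0 → u ≠ v ∧ L u v = 0) →
      ¬ (q L x x < 0 ∧ q L y y < 0) := by
    rintro x y hxy ⟨h1, h2⟩
    rw [hq] at h1 h2
    refine no_two_neg M (schrodinger_isHermitian G D) hcard1 x y ?_ ?_ ?_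
    · intro u v hu hv
      obtain ⟨h3, h4⟩ := hxy u v hu hv
      exact ⟨h3, by rw [hMoff u v h3, h4, neg_zero]⟩
    · have : (schrodinger_isHermitian G D).eigenvalues₀ ⟨1, hcard1⟩ = l := rfl
      rw [this]
      linarith
    · have : (schrodinger_isHermitian G D).eigenvalues₀ ⟨1, hcard1⟩ = l := rfl
      rw [this]
      linarith
  obtain ⟨S0, hS0, hB⟩ := exc_set L Δ R symm offdiag deg conn neg
    (by rw [Fintype.card_fin]; omega)
  rw [← hA] at hS0
  have hne : Nonempty {v : Fin n // v ∉ S0} := by
    by_contra h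
    rw [not_nonempty_iff, isEmpty_subtype] at h
    push Not at h
    have h2 : S0 = univ := Finset.eq_univ_iff_forall.mpr h
    rw [h2, Finset.card_univ, Fintype.card_fin] at hS0
    omega
  set L2 : Matrix {v : Fin n // v ∉ S0} {v : Fin n // v ∉ S0} ℝ :=
    L.submatrix (Subtype.val : {v : Fin n // v ∉ S0} → Fin n) Subtype.val with hL2
  have hsys : Sys L2 Δ R := by
    refine ⟨fun u v => symm _ _, fun u v huv => offdiag _ _ (fun h => huv (Subtype.ext h)), ?_, ?_⟩
    · intro u
      refine le_trans ?_ (deg u.1)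
      apply Finset.card_le_card_of_injOn Subtype.val
      · intro v hv
        simp only [Finset.coe_filter, Finset.mem_univ, true_and, Set.mem_setOf_eq] at hv ⊢
        exact ⟨fun h => hv.1 (Subtype.ext h), hv.2⟩
      · intro v _ v' _ h
        exact Subtype.ext h
    · intro S hS x hx hx0
      set x' : Fin n → ℝ := fun v => if h : v ∉ S0 then x ⟨v, h⟩ else 0 with hx'
      have hxa : ∀ u : {v : Fin n // v ∉ S0}, x' u.1 = x u := by
        intro u
        show (if h : u.1 ∉ S0 then x ⟨u.1, h⟩ else 0) = x u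
        rw [dif_pos u.2]
      have hxb : ∀ u ∈ S0, x' u = 0 := by
        intro u hu
        show (if h : u ∉ S0 then x ⟨u, h⟩ else 0) = 0
        rw [dif_neg (not_not.mpr hu)]
      have h1 := hB (S.map (Function.Embedding.subtype _)) (by rw [Finset.card_map]; exact hS)
        (by
          rw [Finset.disjoint_left]
          intro v hv
          rw [Finset.mem_map] at hv
          obtain ⟨w, _, rfl⟩ := hv
          exact w.2)
        x'
        (by
          intro v hv
          by_cases h : v ∉ S0
          · have h3 := hxa ⟨v, h⟩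
            rw [h3]
            apply hx
            intro h2
            apply hv
            rw [Finset.mem_map]
            exact ⟨⟨v, h⟩, h2, rfl⟩
          · exact hxb v (not_not.mp h))
        (by
          intro h
          apply hx0
          funext v
          have := congrFun h v.1
          rw [hxa] at this
          exact this)
      have h2 : q L x' x' = q L2 x x := by
        unfold q
        rw [sum_compl S0]
        · apply Finset.sum_congr rfl
          intro u _
          rw [sum_compl S0]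
          · apply Finset.sum_congr rfl
            intro v _
            rw [hxa, hxa]
            rfl
          · intro v hv
            rw [hxb v hv, mul_zero]
        · intro u hu
          apply Finset.sum_eq_zero
          intro v _
          rw [hxb u hu, zero_mul, zero_mul]
      rw [h2] at h1
      exact h1
  have hcore := hR {v : Fin n // v ∉ S0} L2 hsys
  have hcardV2 : (Fintype.card {v : Fin n // v ∉ S0} : ℝ) ≤ n := by
    have := Fintype.card_subtype_le (fun v : Fin n => v ∉ S0)
    rw [Fintype.card_fin] at this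
    exact_mod_cast this
  have heig : Module.End.eigenspace (Matrix.toLin' M) l = LinearMap.ker (Matrix.toLin' L) := by
    ext f
    rw [Module.End.mem_eigenspace_iff, LinearMap.mem_ker, hL, map_sub, LinearMap.sub_apply,
      map_smul, LinearMap.smul_apply, Matrix.toLin'_one, LinearMap.id_apply, sub_eq_zero]
    exact eq_comm
  have hrank := finrank_ker_le L S0
  have hmult : multLam2 hn G D = Module.finrank ℝ (LinearMap.ker (Matrix.toLin' L)) := by
    unfold multLam2
    rw [← heig]
  rw [hmult]
  have h1 : (Module.finrank ℝ (LinearMap.ker (Matrix.toLin' L)) : ℝ) ≤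
      Module.finrank ℝ (LinearMap.ker (Matrix.toLin' L2)) + S0.card := by exact_mod_cast hrank
  have h2 : (S0.card : ℝ) ≤ A := by exact_mod_cast hS0
  have h3 : ε / 2 * (Fintype.card {v : Fin n // v ∉ S0} : ℝ) ≤ ε / 2 * n :=
    mul_le_mul_of_nonneg_left hcardV2 (by positivity)
  linarith

end Sch
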