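import Pool.Agent.Helper78.SchLow
set_option autoImplicit false
set_option linter.unusedSectionVars false
namespace Sch
open Finset Matrix

section jobs
variable {V ι : Type} [Fintype V] [DecidableEq V] [Fintype ι] [DecidableEq ι] {L : Matrix V V ℝ}
  {Δ R s : ℕ} {θ : ℝ} {π : V → ι} {h : V → ℝ}

/-- noncritical small components with light boundary carry little mass of kernel vectors -/
theorem Lvl.small_noncrit (hS : Sys L Δ R) (hL : Lvl L s θ π h) (hR : 2 * s ≤ R) (hθ : 0 ≤ θ)
    (hθ1 : θ ≤ 1) (X : Finset ι) (k : ℕ) (hX : X.card ≤ k) (δ' τ c₁ : ℝ) (hδ' : 0 ≤ δ')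
    (hlight : ∀ i ∈ X, ∀ j, j ∉ X → w L π h i j ≤ δ') (hτ : 0 < τ) (hτ1 : τ ≤ 1)
    (hnc : ∀ a : ι → ℝ, τ * ∑ i ∈ X, (a i) ^ 2 ≤
      q L (∑ i ∈ X, a i • blk π i h) (∑ i ∈ X, a i • blk π i h))
    (h1 : 6 * θ * k ≤ τ) (h2 : 8 * δ' * k * ((s * Δ : ℕ) : ℝ) ≤ c₁ * τ)
    {f : V → ℝ} (hf : ∀ u, ∑ v, L u v * f v = 0) (i : ι) (hi : i ∈ X) :
    (al L π h i f) ^ 2 ≤ c₁ * QQ L π f := by
  classical
  have hsR : s ≤ R := by omega
  have hk : (0 : ℝ) ≤ k := Nat.cast_nonneg _
  have hXk : (X.card : ℝ) ≤ k := by exact_mod_cast hX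
  set x : V → ℝ := fun v => if π v ∈ X then f v else 0 with hxdef
  set y : V → ℝ := fun v => if π v ∈ X then 0 else f v with hydef
  have hxy : x = f - y := by
    funext v
    simp only [hxdef, hydef, Pi.sub_apply]
    split_ifs <;> simp
  have hbx : ∀ i ∈ X, blk π i x = blk π i f := by
    intro i hi
    funext v
    by_cases hv : π v = i
    · rw [blk_eq hv, blk_eq hv, hxdef]
      simp [hv, hi]
    · rw [blk_ne hv, blk_ne hv]
  have hbx' : ∀ i ∉ X, blk π i x = 0 := by
    intro i hi
    funext v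
    by_cases hv : π v = i
    · rw [blk_eq hv, hxdef]
      simp [hv, hi]
    · rw [blk_ne hv]; rfl
  have hby : ∀ i ∉ X, blk π i y = blk π i f := by
    intro i hi
    funext v
    by_cases hv : π v = i
    · rw [blk_eq hv, blk_eq hv, hydef]
      simp [hv, hi]
    · rw [blk_ne hv, blk_ne hv]
  have hby' : ∀ i ∈ X, blk π i y = 0 := by
    intro i hi
    funext v
    by_cases hv : π v = i
    · rw [blk_eq hv, hydef]
      simp [hv, hi]
    · rw [blk_ne hv]; rfl
  have hnn : ∀ i ∈ X, nn L π i x = nn L π i f := by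
    intro i hi; unfold nn; rw [hbx i hi]
  have hal : ∀ i ∈ X, al L π h i x = al L π h i f := by
    intro i hi; unfold al; rw [hbx i hi]
  have hn0 : ∀ i, 0 ≤ nn L π i f := fun i => hL.blk_nonneg_q hS hsR i f
  have hQ : ∀ i, nn L π i f ≤ QQ L π f := fun i =>
    Finset.single_le_sum (f := fun i => nn L π i f) (fun j _ => hn0 j) (mem_univ i)
  have hQ0 : 0 ≤ QQ L π f := (hn0 i).trans (hQ i)
  -- each cross term
  have hcross : ∀ i ∈ X, ∀ j, j ∉ X → -(q L (blk π i f) (blk π j f)) ≤
      if w L π h i j ≠ 0 then 4 * δ' * QQ L π f else 0 := by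
    intro i hi j hj
    have hij : i ≠ j := by rintro rfl; exact hj hi
    split_ifs with hw
    · have h3 := hL.K2 hS hθ hij f f
      have ha := hL.abs_al_le hS hsR i f
      have hb := hL.abs_al_le hS hsR j f
      have hwl := hlight i hi j hj
      have hw0 := w_nonneg (π := π) hS.offdiag hL.pos i j
      set a := Real.sqrt (nn L π i f) with had
      set b := Real.sqrt (nn L π j f) with hbd
      have ha0 : 0 ≤ a := Real.sqrt_nonneg _
      have hb0 : 0 ≤ b := Real.sqrt_nonneg _
      have hsa : a ≤ Real.sqrt (QQ L π f) := Real.sqrt_le_sqrt (hQ i)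
      have hsb : b ≤ Real.sqrt (QQ L π f) := Real.sqrt_le_sqrt (hQ j)
      have hab : a * b ≤ QQ L π f := by
        calc a * b ≤ Real.sqrt (QQ L π f) * Real.sqrt (QQ L π f) :=
              mul_le_mul hsa hsb hb0 (Real.sqrt_nonneg _)
          _ = QQ L π f := Real.mul_self_sqrt hQ0
      have hA : |al L π h i f| + θ * a ≤ 2 * a := by nlinarith
      have hB : |al L π h j f| + θ * b ≤ 2 * b := by nlinarith
      have hA0 : 0 ≤ |al L π h i f| + θ * a := by positivity
      have hB0 : 0 ≤ |al L π h j f| + θ * b := by positivity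
      calc -(q L (blk π i f) (blk π j f)) ≤ |q L (blk π i f) (blk π j f)| := neg_le_abs _
        _ ≤ (|al L π h i f| + θ * a) * (|al L π h j f| + θ * b) * w L π h i j := h3
        _ ≤ (2 * a) * (2 * b) * δ' := by
            apply mul_le_mul _ hwl hw0 (by positivity)
            exact mul_le_mul hA hB hB0 (by positivity)
        _ = 4 * δ' * (a * b) := by ring
        _ ≤ 4 * δ' * QQ L π f := by
            apply mul_le_mul_of_nonneg_left hab (by positivity)
    · push Not at hw
      rw [hL.q_zero hS hij hw f f, neg_zero]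
  have hup : q L x x ≤ 4 * δ' * k * ((s * Δ : ℕ) : ℝ) * QQ L π f := by
    have e1 : q L x x = - q L x y := by
      have : q L x x = q L x (f - y) := by rw [← hxy]
      rw [this, q_sub_right, q_ker hf]; ring
    have e2 : - q L x y = ∑ i ∈ X, ∑ j ∈ univ.filter (fun j => j ∉ X),
        -(q L (blk π i f) (blk π j f)) := by
      rw [q_expand (π := π) x y]
      rw [← Finset.sum_subset (Finset.subset_univ X)]
      · rw [← Finset.sum_neg_distrib]
        refine Finset.sum_congr rfl fun i hi => ?_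
        rw [← Finset.sum_neg_distrib]
        symm
        refine Finset.sum_subset_zero_on_sdiff (Finset.filter_subset _ _) ?_ ?_
        · intro j hj
          simp only [mem_sdiff, mem_univ, mem_filter, true_and, not_not] at hj
          rw [hby' j hj, q_zero_right, neg_zero]
        · intro j hj
          simp only [mem_filter, mem_univ, true_and] at hj
          rw [hbx i hi, hby j hj]
      · intro i _ hi
        refine Finset.sum_eq_zero fun j _ => ?_
        rw [hbx' i hi, q_zero_left]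
    rw [e1, e2]
    have h5 : ∀ i ∈ X, (∑ j ∈ univ.filter (fun j => j ∉ X), -(q L (blk π i f) (blk π j f))) ≤
        ((s * Δ : ℕ) : ℝ) * (4 * δ' * QQ L π f) := by
      intro i hi
      calc (∑ j ∈ univ.filter (fun j => j ∉ X), -(q L (blk π i f) (blk π j f)))
          ≤ ∑ j ∈ univ.filter (fun j => j ∉ X), (if w L π h i j ≠ 0 then 4 * δ' * QQ L π f else 0) := by
            refine Finset.sum_le_sum fun j hj => ?_
            simp only [mem_filter, mem_univ, true_and] at hj
            exact hcross i hi j hj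
        _ ≤ ∑ j, (if w L π h i j ≠ 0 then 4 * δ' * QQ L π f else 0) := by
            refine Finset.sum_le_sum_of_subset_of_nonneg (Finset.filter_subset _ _) ?_
            intro j _ _
            split_ifs <;> positivity
        _ = ((univ.filter (fun j => w L π h i j ≠ 0)).card : ℝ) * (4 * δ' * QQ L π f) := by
            rw [← Finset.sum_filter, Finset.sum_const, nsmul_eq_mul]
        _ ≤ ((s * Δ : ℕ) : ℝ) * (4 * δ' * QQ L π f) := by
            apply mul_le_mul_of_nonneg_right _ (by positivity)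
            exact_mod_cast hL.bdeg hS i
    refine (Finset.sum_le_sum h5).trans ?_
    rw [Finset.sum_const, nsmul_eq_mul]
    have h6 : (0 : ℝ) ≤ ((s * Δ : ℕ) : ℝ) * (4 * δ' * QQ L π f) := by positivity
    calc (X.card : ℝ) * (((s * Δ : ℕ) : ℝ) * (4 * δ' * QQ L π f))
        ≤ k * (((s * Δ : ℕ) : ℝ) * (4 * δ' * QQ L π f)) := mul_le_mul_of_nonneg_right hXk h6
      _ = _ := by ring
  have hlow := hL.lower hS hR hθ hθ1 X (x := x) (fun v hv => by simp [hxdef, hv])
  have hnc' := hnc (fun i => |al L π h i x|)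
  have hs1 : ∑ i ∈ X, nn L π i x = ∑ i ∈ X, nn L π i f := Finset.sum_congr rfl hnn
  have hs2 : ∑ i ∈ X, (al L π h i x) ^ 2 = ∑ i ∈ X, (al L π h i f) ^ 2 :=
    Finset.sum_congr rfl fun i hi => by rw [hal i hi]
  have hs3 : ∑ i ∈ X, (|al L π h i x|) ^ 2 = ∑ i ∈ X, (al L π h i f) ^ 2 :=
    Finset.sum_congr rfl fun i hi => by rw [sq_abs, hal i hi]
  rw [hs3] at hnc'
  rw [Finset.sum_sub_distrib, hs1, hs2] at hlow
  set N : ℝ := ∑ i ∈ X, nn L π i f with hN
  set A : ℝ := ∑ i ∈ X, (al L π h i f) ^ 2 with hA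
  have hN0 : 0 ≤ N := Finset.sum_nonneg fun i _ => hn0 i
  have hAN : A ≤ N := Finset.sum_le_sum fun i _ => hL.al_sq_le hS hsR i f
  have h7 : 3 * θ * X.card * N ≤ τ / 2 * N := by
    apply mul_le_mul_of_nonneg_right _ hN0
    nlinarith
  have h8 : τ / 2 * N ≤ q L x x := by nlinarith
  have h9 : (al L π h i f) ^ 2 ≤ N :=
    (hL.al_sq_le hS hsR i f).trans
      (Finset.single_le_sum (f := fun i => nn L π i f) (fun j _ => hn0 j) hi)
  have h10 : 8 * δ' * k * ((s * Δ : ℕ) : ℝ) * QQ L π f ≤ c₁ * τ * QQ L π f :=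
    mul_le_mul_of_nonneg_right h2 hQ0
  have h11 : τ * (al L π h i f) ^ 2 ≤ τ * (c₁ * QQ L π f) := by nlinarith
  exact le_of_mul_le_mul_left h11 hτ


end jobs
end Sch
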