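import Pool.Agent.Helper78.SchA
import Pool.Agent.Helper78.SchH1
import Pool.Agent.Helper78.SchH2
import Pool.Agent.Helper78.SchSmall
import Pool.Agent.Helper78.SchBig
set_option autoImplicit false
set_option linter.unusedSectionVars false
namespace Sch
open Finset Matrix

/-- transport of merged blocks to a level structure -/
theorem merge_level {V : Type} [Fintype V] [DecidableEq V] {L : Matrix V V ℝ} {s k m : ℕ} {θ θ' : ℝ}
    {π : V → Fin m} {h : V → ℝ} (hk : 1 ≤ k) (hθ : θ ≤ θ')
    (hL : Lvl L s θ π h) (ρ : Fin m → Fin m) (cr : Fin m → Prop)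
    (hρ1 : ∀ i, ¬ cr i → ρ i = i) (hρ2 : ∀ i, cr i → cr (ρ i)) (hρρ : ∀ i, ρ (ρ i) = ρ i)
    (hcard : ∀ i, cr i → (univ.filter (fun j => ρ j = ρ i)).card ≤ k)
    (hm : Fin m → V → ℝ)
    (hm0 : ∀ r, cr r → ρ r = r → ∀ v, ρ (π v) ≠ r → hm r v = 0)
    (hmp : ∀ r, cr r → ρ r = r → ∀ v, ρ (π v) = r → 0 < hm r v)
    (hmn : ∀ r, cr r → ρ r = r → q L (hm r) (hm r) = 1)
    (hmt : ∀ r, cr r → ρ r = r → ∀ x : V → ℝ, (∀ v, ρ (π v) ≠ r → x v = 0) → ∀ u, ρ (π u) = r →
      |x u - q L x (hm r) * hm r u| ≤ θ' * Real.sqrt (q L x x) * hm r u) :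
    ∃ (π' : V → Fin (univ.image ρ).card) (h' : V → ℝ), Lvl L (s * k) θ' π' h' := by
  classical
  set e := (univ.image ρ).equivFin with he
  have hmem : ∀ i, ρ i ∈ univ.image ρ := fun i => mem_image_of_mem _ (mem_univ i)
  let π' : V → Fin (univ.image ρ).card := fun v => e ⟨ρ (π v), hmem _⟩
  let h' : V → ℝ := fun v => if cr (π v) then hm (ρ (π v)) v else h v
  -- basic facts about ρ
  have hcr : ∀ i j, ρ i = j → cr j → cr i := by
    intro i j hij hj
    by_contra hi
    rw [hρ1 i hi] at hij; exact hi (hij ▸ hj)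
  have key : ∀ i' : Fin (univ.image ρ).card, ∃ r, ρ r = r ∧ ∀ v, π' v = i' ↔ ρ (π v) = r := by
    intro i'
    obtain ⟨⟨r, hr⟩, hri⟩ : ∃ y, e y = i' := ⟨e.symm i', e.apply_symm_apply i'⟩
    obtain ⟨i0, _, hi0⟩ := mem_image.1 hr
    refine ⟨r, by rw [← hi0, hρρ], fun v => ?_⟩
    simp only [π']
    rw [← hri, e.apply_eq_iff_eq, Subtype.mk.injEq]
  refine ⟨π', h', ?_, ?_, ?_, ?_, ?_⟩
  · intro v
    simp only [h']
    split_ifs with hc
    · exact hmp _ (hρ2 _ hc) (hρρ _) v rfl
    · exact hL.pos v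
  · intro i'
    obtain ⟨r, hrr, hr⟩ := key i'
    have e1 : univ.filter (fun v => π' v = i') = univ.filter (fun v => ρ (π v) = r) := by
      ext v; simp [hr v]
    rw [e1]
    by_cases hc : cr r
    · have hsub : univ.filter (fun v => ρ (π v) = r) ⊆
          (univ.filter (fun j => ρ j = ρ r)).biUnion (fun j => univ.filter (fun v => π v = j)) := by
        intro v hv
        simp only [mem_filter, mem_univ, true_and, mem_biUnion] at hv ⊢
        exact ⟨π v, by rw [hv, hrr], rfl⟩
      refine (card_le_card hsub).trans ?_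
      refine (card_biUnion_le_card_mul _ _ s (fun j _ => hL.card_le j)).trans ?_
      rw [mul_comm]; exact Nat.mul_le_mul_left _ (hcard r hc)
    · have hsub : univ.filter (fun v => ρ (π v) = r) ⊆ univ.filter (fun v => π v = r) := by
        intro v hv
        simp only [mem_filter, mem_univ, true_and] at hv ⊢
        by_cases hcv : cr (π v)
        · exact absurd (hv ▸ hρ2 _ hcv) hc
        · rw [hρ1 _ hcv] at hv; exact hv
      refine (card_le_card hsub).trans ((hL.card_le r).trans ?_)
      exact Nat.le_mul_of_pos_right _ hk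
  · intro i'
    obtain ⟨r, hrr, hr⟩ := key i'
    obtain ⟨v, hv⟩ := hL.surj r
    exact ⟨v, (hr v).2 (by rw [hv, hrr])⟩
  · intro i'
    obtain ⟨r, hrr, hr⟩ := key i'
    by_cases hc : cr r
    · have : blk π' i' h' = hm r := by
        funext v
        by_cases hv : ρ (π v) = r
        · rw [blk_eq ((hr v).2 hv)]
          simp only [h']
          rw [if_pos (hcr _ _ hv hc), hv]
        · rw [blk_ne (fun h => hv ((hr v).1 h)), hm0 r hc hrr v hv]
      rw [this]; exact hmn r hc hrr
    · have : blk π' i' h' = blk π r h := by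
        funext v
        by_cases hv : ρ (π v) = r
        · have hcv : ¬ cr (π v) := fun hcv => hc (hv ▸ hρ2 _ hcv)
          have hv2 : π v = r := by rw [hρ1 _ hcv] at hv; exact hv
          rw [blk_eq ((hr v).2 hv), blk_eq hv2]
          simp only [h']
          rw [if_neg hcv]
        · rw [blk_ne (fun h => hv ((hr v).1 h)), blk_ne (fun h => hv (by rw [h, hrr]))]
      rw [this]; exact hL.norm r
  · intro i' x hx u hu
    obtain ⟨r, hrr, hr⟩ := key i'
    have hx' : ∀ v, ρ (π v) ≠ r → x v = 0 := fun v hv => hx v (fun h => hv ((hr v).1 h))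
    have hu' := (hr u).1 hu
    by_cases hc : cr r
    · have e1 : blk π' i' h' = hm r := by
        funext v
        by_cases hv : ρ (π v) = r
        · rw [blk_eq ((hr v).2 hv)]
          simp only [h']
          rw [if_pos (hcr _ _ hv hc), hv]
        · rw [blk_ne (fun h => hv ((hr v).1 h)), hm0 r hc hrr v hv]
      have e2 : h' u = hm r u := by
        simp only [h']
        rw [if_pos (hcr _ _ hu' hc), hu']
      rw [e1, e2]
      exact hmt r hc hrr x hx' u hu'
    · have hcv : ∀ v, ρ (π v) = r → ¬ cr (π v) := fun v hv hcv => hc (hv ▸ hρ2 _ hcv)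
      have hv2 : ∀ v, ρ (π v) = r → π v = r := fun v hv => by
        have := hcv v hv
        rw [hρ1 _ this] at hv; exact hv
      have e1 : blk π' i' h' = blk π r h := by
        funext v
        by_cases hv : ρ (π v) = r
        · rw [blk_eq ((hr v).2 hv), blk_eq (hv2 v hv)]
          simp only [h']
          rw [if_neg (hcv v hv)]
        · rw [blk_ne (fun h => hv ((hr v).1 h)), blk_ne (fun h => hv (by rw [h, hrr]))]
      have e2 : h' u = h u := by
        simp only [h']
        rw [if_neg (hcv u hu')]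
      rw [e1, e2]
      refine (hL.tight r x (fun v hv => hx' v (fun h => hv (hv2 v h))) u (hv2 u hu')).trans ?_
      have := hL.pos u
      have := Real.sqrt_nonneg (q L x x)
      gcongr

end Sch
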