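import Pool.Agent.Helper78.SchWalk
set_option autoImplicit false
set_option linter.unusedSectionVars false
namespace Sch
open Finset Matrix

section jobs
variable {V ι : Type} [Fintype V] [DecidableEq V] [Fintype ι] [DecidableEq ι] {L : Matrix V V ℝ}
  {Δ R s : ℕ} {θ : ℝ} {π : V → ι} {h : V → ℝ}

/-- Poincare type inequality on a heavily connected set of blocks -/
theorem Lvl.star (hS : Sys L Δ R) (hL : Lvl L s θ π h) (hθ : 0 ≤ θ) {δ : ℝ}
    (hδ : 0 < δ) (hδ1 : δ ≤ 1) (k : ℕ) (hk : 1 ≤ k) (hR : s * k + 2 * s ≤ R)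
    (hθ1 : θ ≤ δ ^ k / (64 * (k : ℝ) ^ 2)) (X : Finset ι) (hX : X.card ≤ k)
    (hconn : ∀ i ∈ X, ∀ j ∈ X, ∃ p : (Hg L π h δ).Walk i j, p.length ≤ k)
    {x : V → ℝ} (hx : ∀ v, π v ∉ X → x v = 0) (i : ι) (hi : i ∈ X) :
    Real.sqrt (QQ L π x) ≤ (8 * (k : ℝ) ^ 2 / δ ^ k) * (|al L π h i x| + Real.sqrt (q L x x)) := by
  have h2s : 2 * s ≤ R := by
    have := Nat.zero_le (s * k)
    omega
  have hsR : s ≤ R := by omega
  let S : Finset V := univ.filter (fun v => π v ∈ X)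
  have hScard : S.card ≤ s * k := by
    have hsub : S ⊆ X.biUnion (fun i => univ.filter (fun v => π v = i)) := by
      intro v hv
      simp only [S, mem_filter, mem_univ, true_and] at hv
      simp only [mem_biUnion, mem_filter, mem_univ, true_and]
      exact ⟨π v, hv, rfl⟩
    calc S.card ≤ _ := card_le_card hsub
      _ ≤ X.card * s := card_biUnion_le_card_mul _ _ s (fun i _ => hL.card_le i)
      _ ≤ k * s := Nat.mul_le_mul_right s hX
      _ = s * k := Nat.mul_comm _ _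
  have hxS : ∀ v, v ∉ S → x v = 0 := fun v hv => hx v (by simpa [S] using hv)
  have hnn0 : ∀ j, 0 ≤ nn L π j x := fun j => hL.blk_nonneg_q hS hsR j x
  have hQ0 : 0 ≤ QQ L π x := sum_nonneg fun j _ => hnn0 j
  have hNj : ∀ j, Real.sqrt (nn L π j x) ≤ Real.sqrt (QQ L π x) := fun j =>
    Real.sqrt_le_sqrt (single_le_sum (f := fun j => nn L π j x) (fun j _ => hnn0 j) (mem_univ j))
  have hSR : S.card ≤ R := by omega
  have hSR2 : S.card + s ≤ R := by omega
  have hq0 : 0 ≤ q L x x := hS.lpd.nonneg hSR hxS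
  have hEsq : (Real.sqrt (q L x x)) ^ 2 = q L x x := Real.sq_sqrt hq0
  have hNsq : (Real.sqrt (QQ L π x)) ^ 2 = QQ L π x := Real.sq_sqrt hQ0
  have hN0 : 0 ≤ Real.sqrt (QQ L π x) := Real.sqrt_nonneg _
  have hE0 : 0 ≤ Real.sqrt (q L x x) := Real.sqrt_nonneg _
  set N := Real.sqrt (QQ L π x) with hN
  set E := Real.sqrt (q L x x) with hE
  have hkδ : 0 < δ ^ k := by positivity
  have hkδ1 : δ ^ k ≤ 1 := pow_le_one₀ hδ.le hδ1
  have hk1 : (1 : ℝ) ≤ k := by exact_mod_cast hk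
  have ha0 : 0 ≤ |al L π h i x| := abs_nonneg _
  set a := |al L π h i x| with ha
  obtain ⟨-, hi2, -⟩ := hL.al_ab hS h2s hθ i x N (hNj i)
  have hM : ∀ j ∈ X, |al L π h j x| ≤ (a + k * E + (k + 4) * (θ * N)) / δ ^ k := by
    intro j hj
    obtain ⟨p, hp⟩ := hconn j hj i hi
    have h1 := hL.walk_prop hS h2s hθ hδ hδ1 hSR2 hxS N E hNj le_rfl p
    obtain ⟨hj1, -, -⟩ := hL.al_ab hS h2s hθ j x N (hNj j)
    have hpk : (p.length : ℝ) ≤ k := by exact_mod_cast hp
    have hTN : 0 ≤ θ * N := by positivity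
    have h2 : δ ^ p.length * al L π h j (ab x) ≤ a + 2 * (θ * N) + k * (θ * N + E) := by
      have : (p.length : ℝ) * (θ * N + E) ≤ k * (θ * N + E) := by gcongr
      linarith
    have h3 : δ ^ k * al L π h j (ab x) ≤ a + 2 * (θ * N) + k * (θ * N + E) := by
      rcases le_total 0 (al L π h j (ab x)) with h4 | h4
      · have h5 : δ ^ k ≤ δ ^ p.length := pow_le_pow_of_le_one hδ.le hδ1 hp
        calc δ ^ k * al L π h j (ab x) ≤ δ ^ p.length * al L π h j (ab x) := by gcongr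
          _ ≤ _ := h2
      · have h5 : δ ^ k * al L π h j (ab x) ≤ 0 := mul_nonpos_of_nonneg_of_nonpos hkδ.le h4
        have h6 : 0 ≤ a + 2 * (θ * N) + k * (θ * N + E) := by positivity
        linarith
    rw [le_div_iff₀ hkδ]
    have h7 : |al L π h j x| * δ ^ k ≤ (al L π h j (ab x) + 2 * (θ * N)) * δ ^ k := by
      gcongr
      linarith
    have h8 : 2 * (θ * N) * δ ^ k ≤ 2 * (θ * N) * 1 := by gcongr
    linarith
  set M := (a + k * E + (k + 4) * (θ * N)) / δ ^ k with hMdef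
  have hM0 : 0 ≤ M := by positivity
  have hTN : 0 ≤ θ * N := by positivity
  have hblk0 : ∀ j, j ∉ X → blk π j x = 0 := by
    intro j hj
    funext v
    by_cases hv : π v = j
    · rw [blk_eq hv]
      exact hx v (by rw [hv]; exact hj)
    · rw [blk_ne hv]; rfl
  have hcross : ∀ j ∈ X, ∀ l ∈ X, j ≠ l → |q L (blk π j x) (blk π l x)| ≤ (M + θ * N) ^ 2 := by
    intro j hj l hl hjl
    have h1 := hL.K2 hS hθ hjl x x
    have h2 := hL.w_le_one hS h2s j l
    have h3 := w_nonneg (π := π) hS.offdiag hL.pos j l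
    have h4 : |al L π h j x| + θ * Real.sqrt (nn L π j x) ≤ M + θ * N := by
      have := hM j hj
      have := hNj j
      gcongr
    have h5 : |al L π h l x| + θ * Real.sqrt (nn L π l x) ≤ M + θ * N := by
      have := hM l hl
      have := hNj l
      gcongr
    refine h1.trans ?_
    calc (|al L π h j x| + θ * Real.sqrt (nn L π j x)) * (|al L π h l x| + θ * Real.sqrt (nn L π l x))
          * w L π h j l ≤ (M + θ * N) * (M + θ * N) * 1 := by gcongr
      _ = _ := by ring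
  have hexp : q L x x = ∑ j ∈ X, ∑ l ∈ X, q L (blk π j x) (blk π l x) := by
    rw [q_expand (π := π) x x]
    symm
    rw [← sum_subset (subset_univ X)]
    · refine sum_congr rfl fun j _ => ?_
      rw [← sum_subset (subset_univ X)]
      intro l _ hl
      rw [hblk0 l hl, q_zero_right]
    · intro j _ hj
      refine sum_eq_zero fun l _ => ?_
      rw [hblk0 j hj, q_zero_left]
  have hQX : QQ L π x = ∑ j ∈ X, nn L π j x := by
    unfold QQ
    symm
    apply sum_subset (subset_univ X)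
    intro j _ hj
    unfold nn
    rw [hblk0 j hj, q_zero_left]
  have hmain : QQ L π x ≤ q L x x + (k : ℝ) ^ 2 * (M + θ * N) ^ 2 := by
    have h1 : ∀ j ∈ X, nn L π j x - (k : ℝ) * (M + θ * N) ^ 2 ≤ ∑ l ∈ X, q L (blk π j x) (blk π l x) := by
      intro j hj
      rw [← Finset.add_sum_erase _ _ hj]
      have h2 : - ((k : ℝ) * (M + θ * N) ^ 2) ≤ ∑ l ∈ X.erase j, q L (blk π j x) (blk π l x) := by
        have h3 : ∑ l ∈ X.erase j, (- (M + θ * N) ^ 2) ≤
            ∑ l ∈ X.erase j, q L (blk π j x) (blk π l x) := by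
          apply sum_le_sum
          intro l hl
          rw [mem_erase] at hl
          exact (abs_le.1 (hcross j hj l hl.2 (Ne.symm hl.1))).1
        rw [sum_const, nsmul_eq_mul] at h3
        have h4 : ((X.erase j).card : ℝ) ≤ k := by
          have : (X.erase j).card ≤ k := (card_le_card (erase_subset _ _)).trans hX
          exact_mod_cast this
        have h5 : ((X.erase j).card : ℝ) * (M + θ * N) ^ 2 ≤ k * (M + θ * N) ^ 2 := by gcongr
        linarith
      unfold nn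
      linarith
    have h2 := sum_le_sum h1
    rw [← hexp, sum_sub_distrib, ← hQX, sum_const, nsmul_eq_mul] at h2
    have h3 : (X.card : ℝ) ≤ k := by exact_mod_cast hX
    have h4 : (X.card : ℝ) * ((k : ℝ) * (M + θ * N) ^ 2) ≤ k * ((k : ℝ) * (M + θ * N) ^ 2) := by
      gcongr
    nlinarith
  have hN1 : N ≤ E + k * (M + θ * N) := by
    have h1 : N ^ 2 ≤ (E + k * (M + θ * N)) ^ 2 := by
      rw [hNsq]
      refine hmain.trans ?_
      rw [← hEsq]
      have h2 : 0 ≤ E * (k * (M + θ * N)) := by positivity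
      nlinarith
    exact (sq_le_sq₀ hN0 (by positivity)).1 h1
  -- bounds on theta
  have hk0 : (0 : ℝ) < k := by linarith
  have hθ2 : θ * (64 * (k : ℝ) ^ 2) ≤ δ ^ k := by
    rwa [le_div_iff₀ (by positivity)] at hθ1
  have hb1 : (k : ℝ) * (θ * N) ≤ N / 64 := by
    have h1 : (k : ℝ) * θ * 64 ≤ 1 := by
      have h2 : (k : ℝ) * θ * 64 ≤ θ * (64 * (k : ℝ) ^ 2) := by
        have : (k : ℝ) * 1 ≤ k * k := by gcongr
        have h3 : θ * 64 * ((k : ℝ) * 1) ≤ θ * 64 * (k * k) := by gcongr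
        nlinarith
      linarith
    have h4 : ((k : ℝ) * θ * 64) * N ≤ 1 * N := by gcongr
    linarith
  have hb2 : (k : ℝ) * ((k + 4) * (θ * N) / δ ^ k) ≤ 5 * N / 64 := by
    rw [← mul_div_assoc, div_le_iff₀ hkδ]
    have h1 : (k : ℝ) * (k + 4) ≤ 5 * k ^ 2 := by nlinarith
    have h2 : (k : ℝ) * ((k + 4) * (θ * N)) ≤ 5 * k ^ 2 * (θ * N) := by
      calc (k : ℝ) * ((k + 4) * (θ * N)) = (k * (k + 4)) * (θ * N) := by ring
        _ ≤ _ := by gcongr
    have h3 : θ * (64 * (k : ℝ) ^ 2) * N ≤ δ ^ k * N := by gcongr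
    linarith
  have hMe : (k : ℝ) * M = k * (a / δ ^ k) + k * (k * E / δ ^ k) + k * ((k + 4) * (θ * N) / δ ^ k) := by
    rw [hMdef, add_div, add_div]; ring
  have hc1 : (k : ℝ) * (a / δ ^ k) ≤ (k : ℝ) ^ 2 / δ ^ k * a := by
    have : (k : ℝ) * (a / δ ^ k) = (k * 1) * (a / δ ^ k) := by ring
    rw [this]
    have h2 : (k : ℝ) ^ 2 / δ ^ k * a = (k * k) * (a / δ ^ k) := by ring
    rw [h2]
    gcongr
  have hc2 : (k : ℝ) * (k * E / δ ^ k) = (k : ℝ) ^ 2 / δ ^ k * E := by ring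
  have hc3 : E ≤ (k : ℝ) ^ 2 / δ ^ k * E := by
    have h2 : 1 ≤ (k : ℝ) ^ 2 / δ ^ k := by
      rw [le_div_iff₀ hkδ]
      nlinarith
    calc E = 1 * E := by ring
      _ ≤ _ := by gcongr
  have hfin : N ≤ 4 * ((k : ℝ) ^ 2 / δ ^ k * a + (k : ℝ) ^ 2 / δ ^ k * E) := by
    have h0 : 0 ≤ (k : ℝ) ^ 2 / δ ^ k * a := by positivity
    have h1 : 0 ≤ (k : ℝ) ^ 2 / δ ^ k * E := by positivity
    linarith
  have h0 : 0 ≤ (k : ℝ) ^ 2 / δ ^ k * a := by positivity
  have h1 : 0 ≤ (k : ℝ) ^ 2 / δ ^ k * E := by positivity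
  calc N ≤ 4 * ((k : ℝ) ^ 2 / δ ^ k * a + (k : ℝ) ^ 2 / δ ^ k * E) := hfin
    _ ≤ 8 * ((k : ℝ) ^ 2 / δ ^ k * a + (k : ℝ) ^ 2 / δ ^ k * E) := by linarith
    _ = _ := by ring

end jobs
end Sch
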