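import Pool.Agent.Helper78.SchAlab
set_option autoImplicit false
set_option linter.unusedSectionVars false
namespace Sch
open Finset Matrix

section jobs
variable {V ι : Type} [Fintype V] [DecidableEq V] [Fintype ι] [DecidableEq ι] {L : Matrix V V ℝ}
  {Δ R s : ℕ} {θ : ℝ} {π : V → ι} {h : V → ℝ}

/-- the coordinate of `|x|` propagates along heavy walks -/
theorem Lvl.walk_prop (hS : Sys L Δ R) (hL : Lvl L s θ π h) (hR : 2 * s ≤ R) (hθ : 0 ≤ θ) {δ : ℝ}
    (hδ : 0 < δ) (hδ1 : δ ≤ 1) {S : Finset V} (hc : S.card + s ≤ R) {x : V → ℝ}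
    (hx : ∀ v, v ∉ S → x v = 0) (N E : ℝ) (hN : ∀ i, Real.sqrt (nn L π i x) ≤ N)
    (hE : Real.sqrt (q L x x) ≤ E) {i j : ι} (p : (Hg L π h δ).Walk i j) :
    δ ^ p.length * al L π h i (ab x) - p.length * (θ * N + E) ≤ al L π h j (ab x) := by
  have hN0 : 0 ≤ N := (Real.sqrt_nonneg _).trans (hN i)
  have hE0 : 0 ≤ E := (Real.sqrt_nonneg _).trans hE
  have hNE : 0 ≤ θ * N + E := add_nonneg (mul_nonneg hθ hN0) hE0
  induction p with
  | nil => simp
  | @cons a b c hab p ih =>
    obtain ⟨hne, hw, -⟩ := hab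
    have hprop := hL.prop hS hθ hc hx hne
    have hw1 := hL.w_le_one hS hR a b
    have hw0 : 0 ≤ w L π h a b := hδ.le.trans hw
    have hn0 : 0 ≤ Real.sqrt (nn L π a x) := Real.sqrt_nonneg _
    have hstep : δ * al L π h a (ab x) - (θ * N + E) ≤ al L π h b (ab x) := by
      by_cases ha : 0 ≤ al L π h a (ab x)
      · have h1 : δ * al L π h a (ab x) ≤ w L π h a b * al L π h a (ab x) :=
          mul_le_mul_of_nonneg_right hw ha
        have h2 : θ * Real.sqrt (nn L π a x) ≤ θ * N := mul_le_mul_of_nonneg_left (hN a) hθ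
        have h3 : 0 ≤ θ * Real.sqrt (nn L π a x) := mul_nonneg hθ hn0
        have h4 : w L π h a b * (θ * Real.sqrt (nn L π a x)) ≤ θ * N :=
          (mul_le_of_le_one_left h3 hw1).trans h2
        have h5 : w L π h a b * (al L π h a (ab x) - θ * Real.sqrt (nn L π a x)) =
          w L π h a b * al L π h a (ab x) - w L π h a b * (θ * Real.sqrt (nn L π a x)) := by ring
        rw [h5] at hprop
        linarith
      · push Not at ha
        have h1 := (hL.al_ab hS hR hθ b x N (hN b)).2.2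
        have h2 : δ * al L π h a (ab x) ≤ 0 := mul_nonpos_of_nonneg_of_nonpos hδ.le ha.le
        linarith
    have hp0 : 0 ≤ δ ^ p.length := pow_nonneg hδ.le _
    have hp1 : δ ^ p.length ≤ 1 := pow_le_one₀ hδ.le hδ1
    have h6 : δ ^ p.length * (δ * al L π h a (ab x) - (θ * N + E)) ≤
        δ ^ p.length * al L π h b (ab x) := mul_le_mul_of_nonneg_left hstep hp0
    have h7 : δ ^ p.length * (θ * N + E) ≤ θ * N + E := mul_le_of_le_one_left hNE hp1
    have ih' := ih
    change δ ^ (p.length + 1) * al L π h a (ab x) - ((p.length + 1 : ℕ) : ℝ) * (θ * N + E) ≤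
      al L π h c (ab x)
    rw [pow_succ]
    push_cast
    have h8 : δ ^ p.length * δ * al L π h a (ab x) =
      δ ^ p.length * (δ * al L π h a (ab x) - (θ * N + E)) + δ ^ p.length * (θ * N + E) := by ring
    rw [h8]
    linarith


end jobs
end Sch
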